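import Pool.Agent.Lib.helper77.ZFCDefs

/-! The notions of the final statement, read in a structure `(M, E)`. -/

namespace Pool.Agent.MP_a45f51_lc.A62

open Pool.Agent.ZFC77

variable {M : Type 1} (E : M → M → Prop)

/-- `k` is an ordinal: transitive and linearly ordered by membership -/
def IOrd (k : M) : Prop :=
  (∀ a, E a k → ISub E a k) ∧ ∀ a, E a k → ∀ b, E b k → E a b ∨ a = b ∨ E b a

/-- some one-to-one function sends every element of `A` to a set with property `B` -/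
def ILeq (A : M) (B : M → Prop) : Prop :=
  ∃ f, (∀ x, E x A → ∃ y, B y ∧ IApp E f x y) ∧
    ∀ x x' y y', IApp E f x y → IApp E f x' y' → (x = x' ↔ y = y')

/-- `a` is nonempty and has no largest element -/
def ILim (a : M) : Prop := (∃ b, E b a) ∧ ∀ b, E b a → ∃ c, E c a ∧ E b c

/-- for an ordinal `k`: `k` is an uncountable limit cardinal -/
def ILimc (k : M) : Prop :=
  (∃ a, E a k ∧ ILim E a) ∧ ∀ a, E a k → ∃ b, E b k ∧ ¬ ILeq E b fun y => E y a

/-- `k` is the least uncountable limit cardinal -/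
def IAlephW (k : M) : Prop := IOrd E k ∧ ILimc E k ∧ ∀ b, E b k → ¬ ILimc E b

/-- `L` is the set of bounded subsets of `k` -/
def IBdd (k L : M) : Prop := ∀ x, E x L ↔ ∃ a, E a k ∧ ISub E x a

/-- `{x, y, z} ∈ c` -/
def ITri (c x y z : M) : Prop := ∃ t, E t c ∧ ∀ u, E u t ↔ u = x ∨ u = y ∨ u = z

/-- the partition relation `|L| → (|k|, 4)^3`; `c` is the class of triples of colour 1 -/
def IArrow (L k : M) : Prop :=
  ∀ c, (∃ X, ISub E X L ∧ ILeq E k (fun y => E y X) ∧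
      ∀ x y z, E x X → E y X → E z X → x ≠ y → x ≠ z → y ≠ z → ¬ ITri E c x y z) ∨
    ∃ x y z w, E x L ∧ E y L ∧ E z L ∧ E w L ∧ x ≠ y ∧ x ≠ z ∧ x ≠ w ∧ y ≠ z ∧ y ≠ w ∧ z ≠ w ∧
      ITri E c x y z ∧ ITri E c x y w ∧ ITri E c x z w ∧ ITri E c y z w

/-- `k = ℵ_ω`, `L` is the set of bounded subsets of `k`, `k < |L|` and `2 ^ |a| < |L|` for all
`a < k` -/
def IHyp (k L : M) : Prop :=
  IAlephW E k ∧ IBdd E k L ∧ ¬ ILeq E L (fun y => E y k) ∧
    ∀ a, E a k → ¬ ILeq E L fun y => ISub E y a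

end Pool.Agent.MP_a45f51_lc.A62
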