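import Mathlib.SetTheory.Cardinal.Basic
import Mathlib.Order.CompletePartialOrder
import Pool.Agent.Lib.helper92.Forcing
import Mathlib.Tactic.FinCases
import Mathlib.Data.Fin.VecNotation
import Mathlib.Data.Finset.Sort
import Mathlib.Tactic.NormNum.Ineq
import Mathlib.Algebra.Order.Ring.Star
import Mathlib.SetTheory.Cardinal.Continuum

-- ======== part 0: formerly Pool.Agent.MP_a45f51_lc.h62.Spec0
section MrgPart0

/-! PROJECT ARROW, abstract part: cardinals, closure systems, partition theorems, and the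
combinatorial statements that hold for an arbitrary preorder of conditions. -/

namespace Pool.Agent.MP_a45f51_lc.A62

open Cardinal Set Pool.Agent.Forcing92

/-- the cardinals `β 0 = β 1 = ℵ₀`, `β (n + 2) = 2 ^ β (n + 1)` -/
noncomputable def bt : ℕ → Cardinal.{0}
  | 0 => ℵ₀
  | 1 => ℵ₀
  | (n + 2) => 2 ^ bt (n + 1)

/-- the supremum `κ` of the `β n` -/
noncomputable def kp : Cardinal.{0} := ⨆ n, bt n

theorem bt_succ {n : ℕ} (h : 1 ≤ n) : bt (n + 1) = 2 ^ bt n := by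
  obtain ⟨m, rfl⟩ : ∃ m, n = m + 1 := ⟨n - 1, by omega⟩
  rfl

theorem aleph0_le_bt : ∀ n, ℵ₀ ≤ bt n
  | 0 => le_rfl
  | 1 => le_rfl
  | (n + 2) => (aleph0_le_bt (n + 1)).trans (cantor _).le

theorem bt_lt {n : ℕ} (h : 1 ≤ n) : bt n < bt (n + 1) := by
  rw [bt_succ h]; exact cantor _

theorem bt_mono : Monotone bt := monotone_nat_of_le_succ fun n => by
  rcases n with _ | n
  · exact le_rfl
  · exact (bt_lt (by omega)).le

theorem bt_le_kp (n : ℕ) : bt n ≤ kp := le_ciSup bddAbove_of_small n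

theorem bt_lt_kp (n : ℕ) : bt n < kp :=
  ((bt_mono (Nat.le_succ n)).trans_lt (bt_lt (Nat.le_add_left 1 n))).trans_le (bt_le_kp _)

theorem aleph0_le_kp : ℵ₀ ≤ kp := (aleph0_le_bt 0).trans (bt_le_kp 0)

theorem lt_kp {c : Cardinal.{0}} (h : c < kp) : ∃ n, c < bt n := exists_lt_of_lt_ciSup h

/-- A preorder `st` in which chains of size at most `β` have lower bounds, with a monotone
trace of size at most `β` that is continuous at these lower bounds. -/
structure CSys (β : Cardinal.{0}) (T α : Type) where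
  st : T → T → Prop
  tr : T → Set α
  refl : ∀ t, st t t
  trans : ∀ {a b c}, st a b → st b c → st a c
  tr_mono : ∀ {a b}, st a b → tr b ⊆ tr a
  tr_card : ∀ t, #(tr t) ≤ β
  lim : ∀ C : Set T, C.Nonempty → #C ≤ β → (∀ a ∈ C, ∀ b ∈ C, st a b ∨ st b a) →
    ∃ t, (∀ a ∈ C, st t a) ∧ tr t ⊆ ⋃ a ∈ C, tr a

/-- recursion along a well order of size at most `β` -/
def ChainStmt : Prop :=
  ∀ (β : Cardinal.{0}) (T α : Type) (S : CSys β T α) (O : Type) [LinearOrder O]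
    [WellFoundedLT O], ℵ₀ ≤ β → #O ≤ β → ∀ (t0 : T) (Φ : O → T → T → Prop),
    (∀ o t, S.st t t0 → ∃ t', S.st t' t ∧ Φ o t t') →
    ∃ (a b : O → T) (t : T), S.st t t0 ∧
      (∀ o, S.st (a o) t0 ∧ S.st (b o) (a o) ∧ Φ o (a o) (b o) ∧ S.st t (b o)) ∧
      (∀ o o', o < o' → S.st (a o') (b o)) ∧ S.tr t ⊆ S.tr t0 ∪ ⋃ o, S.tr (b o)

/-- all tasks supported in the final trace are met -/
def RecStmt : Prop :=
  ∀ (γ β : Cardinal.{0}), ℵ₀ ≤ γ → γ < β → ∀ (T α ι : Type) (S : CSys β T α) (sup : ι → Set α)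
    (Ψ : ι → T → Prop) (t0 : T), (∀ i, #(sup i) ≤ γ) →
    (∀ A : Set α, #A ≤ β → #{i | sup i ⊆ A} ≤ β) →
    (∀ i t t', S.st t' t → Ψ i t → Ψ i t') →
    (∀ i t, S.st t t0 → sup i ⊆ S.tr t → ∃ t', S.st t' t ∧ Ψ i t') →
    ∃ t, S.st t t0 ∧ ∀ i, sup i ⊆ S.tr t → Ψ i t

/-- the theorem of Erdős and Rado -/
def ERStmt : Prop :=
  ∀ (Λ Kc : Type) [LinearOrder Λ] [WellFoundedLT Λ] (n : ℕ) (ν : Cardinal.{0}) (B : Set Λ)
    (c : Finset Λ → Kc), ℵ₀ ≤ ν → #Kc ≤ ν → (fun x : Cardinal.{0} => 2 ^ x)^[n] ν < #B →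
    ∃ H ⊆ B, ν < #H ∧ ∀ A A' : Finset Λ, ↑A ⊆ H → ↑A' ⊆ H → A.card = A'.card → A.card ≤ n →
      c A = c A'

/-- the infinite Ramsey theorem for triples -/
def RamseyStmt : Prop :=
  ∀ (Kc : Type) [Finite Kc] (c : ℕ → ℕ → ℕ → Kc), ∃ (φ : ℕ → ℕ) (k : Kc), StrictMono φ ∧
    ∀ i j l, i < j → j < l → c (φ i) (φ j) (φ l) = k

/-- `g` fixes every point outside `H` -/
def Fix {Λ : Type} (H : Set Λ) (g : Equiv.Perm Λ) : Prop := ∀ a, a ∉ H → g a = a

/-- `f h c` is the point number `c` of the column of `h`; columns are ordered as `H` -/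
def Cols {Λ : Type} [LinearOrder Λ] (H : Set Λ) (f : Λ → ℕ → Λ) : Prop :=
  (∀ h ∈ H, f h 4 = h) ∧
    ∀ h ∈ H, ∀ h' ∈ H, ∀ c c', f h c < f h' c' ↔ h < h' ∨ (h = h' ∧ c < c')

/-- increasing triples of points of the columns -/
def Inc {Λ : Type} [LinearOrder Λ] (H : Set Λ) (f : Λ → ℕ → Λ) (y : Fin 3 → Λ) : Prop :=
  StrictMono y ∧ ∀ p, ∃ h ∈ H, ∃ c, y p = f h c

/-- carriers of coordinates and the action of the permutations of `H` -/
structure Act {Θ Λ : Type} (H : Set Λ) (car : Θ → Finset Λ)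
    (σ : Equiv.Perm Λ → Equiv.Perm Θ) : Prop where
  car_sub : ∀ a, ↑(car a) ⊆ H
  car_map : ∀ g, Fix H g → ∀ a y, g y ∈ car (σ g a) ↔ y ∈ car a
  mul : ∀ g h, Fix H g → Fix H h → σ (g * h) = σ g * σ h
  one : σ 1 = 1
  loc : ∀ g h, Fix H g → Fix H h → ∀ a, (∀ y ∈ car a, g y = h y) → σ g a = σ h a

/-- a three dimensional delta system from indiscernibility -/
def CoreStmt : Prop :=
  ∀ (Θ Λ J : Type) [LinearOrder Λ] (H : Set Λ) (f : Λ → ℕ → Λ) (s : (Fin 3 → Λ) → J → Θ),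
    H.Nonempty → Cols H f →
    (∀ y y' x x', Inc H f y → Inc H f y' → Inc H f x → Inc H f x' →
      (∀ p p', y p < y' p' ↔ x p < x' p') → (∀ p p', y' p' < y p ↔ x' p' < x p) →
      ∀ i i', s y i = s y' i' → s x i = s x' i') →
    ∃ (car : Θ → Finset Λ) (σ : Equiv.Perm Λ → Equiv.Perm Θ), Act H car σ ∧
      (∀ g a, Fix H g → σ g a = a ∨ ∃ i y y', Inc H f y ∧ Inc H f y' ∧ a = s y i ∧
        σ g a = s y' i) ∧
      (∀ a, (car a).Nonempty → ∃ i y y', Inc H f y ∧ Inc H f y' ∧ a = s y i ∧ a ≠ s y' i) ∧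
      ∀ (i : J) (r : Set (Fin 3)) (y : Fin 3 → Λ), Inc H f y → (∀ p ∈ r, y p ∈ H) →
        (∀ x x', Inc H f x → Inc H f x' → (∀ p ∈ r, x p = x' p) → s x i = s x' i) →
        (∀ u ∈ car (s y i), ∃ p ∈ r, u = y p) ∧
        ∀ g y', Fix H g → Inc H f y' → (∀ p ∈ r, y' p = g (y p)) → σ g (s y i) = s y' i

/-- canonization of a system of enumerated supports indexed by triples -/
def IdxStmt : Prop :=
  ∀ (Θ Λ J Kc : Type) [LinearOrder Λ] [WellFoundedLT Λ] (ty : Θ → ℕ)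
    (S : Λ → Λ → Λ → J → Θ) (col : Λ → Λ → Λ → Kc) (Low : Set Θ) (ν μ : Cardinal.{0})
    (Par B : Set Λ), ℵ₀ ≤ μ → μ ≤ ν → #J ≤ ν → #Kc ≤ ν → #Low ≤ ν → #Par ≤ ν →
    Disjoint Par B → (fun x : Cardinal.{0} => 2 ^ x)^[7] ν < #B →
    ∃ H ⊆ B, #H = μ ∧ ∃ (car : Θ → Finset Λ) (σ : Equiv.Perm Λ → Equiv.Perm Θ),
      Act H car σ ∧ (∀ g a, Fix H g → ty (σ g a) = ty a) ∧ (∀ a ∈ Low, car a = ∅) ∧
      ∀ x ∈ Par ∪ H, ∀ y ∈ Par ∪ H, ∀ z ∈ Par ∪ H,
        (∀ i, ∀ u ∈ car (S x y z i), u = x ∨ u = y ∨ u = z) ∧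
        ∀ g, Fix H g → StrictMonoOn g ({x, y, z} ∩ H) →
          col x y z = col (g x) (g y) (g z) ∧ ∀ i, σ g (S x y z i) = S (g x) (g y) (g z) i

section Order

variable {P : Type} (le : P → P → Prop)

/-- The product of the forcing with a closure system is distributive. -/
def Master (γ β : Cardinal.{0}) : Prop :=
  ∀ (T α ι : Type) (S : CSys β T α) (sup : ι → Set α) (D : ι → P → T → Prop) (p0 : P) (t0 : T),
    (∀ i, #(sup i) ≤ γ) → (∀ A : Set α, #A ≤ β → #{i | sup i ⊆ A} ≤ β) →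
    (∀ i q q' t t', le q' q → S.st t' t → D i q t → D i q' t') →
    (∀ i q t, le q p0 → S.st t t0 → sup i ⊆ S.tr t →
      ∃ q' t', le q' q ∧ S.st t' t ∧ D i q' t') →
    ∃ p t, le p p0 ∧ S.st t t0 ∧ ∀ i, sup i ⊆ S.tr t → ∀ q, le q p → ∃ q', le q' q ∧ D i q' t

/-- One condition realizes a chain of steps of length `β`. -/
def LemC (β : Cardinal.{0}) : Prop :=
  ∀ (T α : Type) (S : CSys β T α) (O : Type) [LinearOrder O] [WellFoundedLT O], #O ≤ β →
    ∀ (Step : P → T → T → Prop) (p0 : P) (t0 : T),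
    (∀ q q' t t', le q' q → Step q t t' → Step q' t t') →
    (∀ q t, le q p0 → S.st t t0 → ∃ q' t', le q' q ∧ S.st t' t ∧ Step q' t t') →
    ∃ p, le p p0 ∧ ∃ a b : O → T,
      (∀ o, S.st (a o) t0 ∧ S.st (b o) (a o) ∧ Step p (a o) (b o)) ∧
      ∀ o o', o < o' → S.st (a o') (b o)

/-- recursion of length `ω` below a condition -/
def Sigma : Prop :=
  ∀ (D : Type) (I : ℕ → D → P → Prop) (R : ℕ → D → D → P → Prop) (d0 : D) (p0 : P),
    (∀ n d q q', le q' q → I n d q → I n d q') →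
    (∀ n d d' q q', le q' q → R n d d' q → R n d d' q') → I 0 d0 p0 →
    (∀ n d q, le q p0 → I n d q → ∃ d' q', le q' q ∧ I (n + 1) d' q' ∧ R n d d' q') →
    ∃ (d : ℕ → D) (q : P), le q p0 ∧ d 0 = d0 ∧ ∀ n, I n (d n) q ∧ R n (d n) (d (n + 1)) q

/-- no extension of `p` has the property `W` -/
def One (W : P → Prop) (p : P) : Prop := ∀ q, le q p → ¬ W q

/-- `Z x y z p`: the condition `p` forces the colour 0 on the triple; no four points are forced
to be homogeneous in colour 1. -/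
structure Colr (Λ : Type) where
  Z : Λ → Λ → Λ → P → Prop
  mono : ∀ {x y z p q}, le q p → Z x y z p → Z x y z q
  reg : ∀ {x y z p}, (∀ q, le q p → ∃ r, le r q ∧ Z x y z r) → Z x y z p
  sw1 : ∀ {x y z p}, Z x y z p → Z y x z p
  sw2 : ∀ {x y z p}, Z x y z p → Z x z y p
  k4 : ∀ {x y z w p}, x ≠ y → x ≠ z → x ≠ w → y ≠ z → y ≠ w → z ≠ w →
    One le (Z x y z) p → One le (Z x y w) p → One le (Z x z w) p → One le (Z y z w) p → False

variable {le} {Λ : Type}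

/-- below `p0` some condition forces that a ground set of size `κ` is homogeneous in colour 0 -/
def Goal (C : Colr le Λ) (p0 : P) : Prop :=
  ∃ q, le q p0 ∧ ∃ X : Set Λ, kp ≤ #X ∧
    ∀ x ∈ X, ∀ y ∈ X, ∀ z ∈ X, x ≠ y → x ≠ z → y ≠ z → C.Z x y z q

/-- what one stage knows about its points -/
structure Base (C : Colr le Λ) (L : Set Λ) (z0 : Λ) (z : ℕ → Λ) (q : P) where
  Pt : P → Λ → Prop
  N : Fin 3 → Λ → P → Prop
  F : Λ → ℕ → P → Prop
  ρ : Fin 3 → Set ℕ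
  Pt_mono : ∀ {r r' y}, le r' r → Pt r y → Pt r' y
  N_mono : ∀ {t u r r'}, le r' r → N t u r → N t u r'
  F_mono : ∀ {u m r r'}, le r' r → F u m r → F u m r'
  eqv : ∀ {r y u v}, le r q → Pt r y → u ∈ L → v ∈ L → (C.Z u v y r ↔ C.Z u v z0 r)
  F0 : ∀ {r y u m}, le r q → Pt r y → u ∈ L → F u m r → C.Z u y (z m) r
  F1 : ∀ {r y u m}, le r q → Pt r y → u ∈ L → One le (F u m) r → One le (C.Z u y (z m)) r
  Ncov : ∀ {r u}, le r q → u ∈ L → ¬ ∀ t, One le (N t u) r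
  alpha : ∀ {r u v t}, le r q → u ∈ L → v ∈ L → u ≠ v → One le (N t u) r → One le (N t v) r →
    C.Z u v z0 r
  ρcov : ∀ m, ∃ t, m ∈ ρ t

/-- the block property of the pool `Y` -/
def Block [LinearOrder Λ] {C : Colr le Λ} {L : Set Λ} {z0 : Λ} {z : ℕ → Λ} {q0 : P}
    (B : Base C L z0 z q0) (j : ℕ) (Y : Set Λ) (q : P) : Prop :=
  ∀ (I : Type) (Cl : I → P → Λ → Prop), #I ≤ bt j →
    (∀ ν r r' y, le r' r → Cl ν r y → Cl ν r' y) →
    (∀ r, le r q → ∀ y ∈ Y, ∃ r' ν, le r' r ∧ Cl ν r' y) →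
    ∀ r, le r q → ∃ r0 ν, le r0 r ∧ ∀ r1, le r1 r0 → ∀ X ⊆ L, ∀ t, (∀ u ∈ X, B.N t u r1) →
      ∃ r2, le r2 r1 ∧ ∃ W ⊆ Y, bt j ≤ #W ∧ (∀ y ∈ W, B.Pt r2 y ∧ Cl ν r2 y) ∧
        (∀ y ∈ W, ∀ y' ∈ W, y < y' →
          (∀ u ∈ X, C.Z u y y' r2) ∧ ∀ m ∈ B.ρ t, C.Z y y' (z m) r2) ∧
        ∀ y ∈ W, ∀ y' ∈ W, ∀ y'' ∈ W, y < y' → y' < y'' → C.Z y y' y'' r2

/-- the outcome of one stage below `q0` -/
def StageOut [LinearOrder Λ] (C : Colr le Λ) (j : ℕ) (L H : Set Λ) (z0 : Λ) (z : ℕ → Λ)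
    (q0 : P) : Prop :=
  Goal C q0 ∨ ∃ q1 q, le q q1 ∧ le q1 q0 ∧ ∃ (B : Base C L z0 z q1) (Y : Set Λ), Y ⊆ H ∧
    #Y ≤ bt (j + 1) ∧ Block B j Y q

end Order

/-- from the stages to the homogeneous set -/
def PhaseTwoStmt : Prop :=
  ∀ (P Λ : Type) (le : P → P → Prop) [Pre le] [LinearOrder Λ] (C : Colr le Λ) (H : ℕ → Set Λ)
    (z : ℕ → Λ), Sigma le → (∀ i m, i < m → Disjoint (H i) (H m)) → (∀ i m, z m ∉ H i) →
    (∀ m L q, L ⊆ (⋃ i < m, H i) → #L ≤ bt (m + 2) → StageOut C (m + 2) L (H m) (z m) z q) →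
    ∀ p0, Goal C p0

end Pool.Agent.MP_a45f51_lc.A62

end MrgPart0

-- ======== part 1: formerly Pool.Agent.MP_a45f51_lc.h62.Core
section MrgPart1

/-! PROJECT ARROW, module CORE: a three dimensional delta system from indiscernibility. -/

namespace Pool.Agent.MP_a45f51_lc.A62

open Function

namespace Dsys

/-- the number of the column used at position `p` -/
def idx (r : Finset (Fin 3)) (p : Fin 3) : ℕ := (r.filter (· ≤ p)).card - 1

/-- the height used at position `p` -/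
def off (r : Finset (Fin 3)) (p : Fin 3) : ℕ :=
  if p ∈ r then 4 else if ∃ q ∈ r, q < p then 6 + p else p

theorem idx_lt : ∀ r p, idx r p < max r.card 1 := by decide
theorem idx_lt' : ∀ r p, p ∈ r → idx r p < r.card := by decide
theorem off_four : ∀ r p, off r p = 4 ↔ p ∈ r := by decide
theorem off_five : ∀ r p, off r p ≠ 5 := by decide
theorem lex : ∀ r p q, p < q → idx r p < idx r q ∨ (idx r p = idx r q ∧ off r p < off r q) := by
  decide

variable {Θ Λ J : Type} [LinearOrder Λ] {H : Set Λ} {f : Λ → ℕ → Λ} {s : (Fin 3 → Λ) → J → Θ}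
  {h0 : Λ}

/-- the increasing enumeration of a finite set -/
noncomputable def nth (h0 : Λ) (A : Finset Λ) (n : ℕ) : Λ :=
  if h : n < A.card then A.orderEmbOfFin rfl ⟨n, h⟩ else h0

theorem nth_mem {A : Finset Λ} {n : ℕ} (h : n < A.card) : nth h0 A n ∈ A := by
  rw [nth, dif_pos h]; exact A.orderEmbOfFin_mem rfl _

theorem nth_memH (hh : h0 ∈ H) {A : Finset Λ} (hA : ↑A ⊆ H) (n : ℕ) : nth h0 A n ∈ H := by
  by_cases h : n < A.card
  · exact hA (nth_mem h)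
  · rwa [nth, dif_neg h]

theorem nth_lt {A : Finset Λ} {n m : ℕ} (hn : n < max A.card 1) (hm : m < max A.card 1) :
    nth h0 A n < nth h0 A m ↔ n < m := by
  by_cases h : A.card = 0
  · obtain rfl : n = 0 := by omega
    obtain rfl : m = 0 := by omega
    simp
  · rw [nth, nth, dif_pos (by omega), dif_pos (by omega), OrderEmbedding.lt_iff_lt, Fin.mk_lt_mk]

theorem nth_eq {A : Finset Λ} {n m : ℕ} (hn : n < max A.card 1) (hm : m < max A.card 1) :
    nth h0 A n = nth h0 A m ↔ n = m := by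
  rw [eq_iff_le_not_lt, ← not_lt, nth_lt hn hm, nth_lt hm hn]; omega

/-- the canonical triple with the points of `A` at the positions in `r` -/
noncomputable def fill (h0 : Λ) (f : Λ → ℕ → Λ) (r : Finset (Fin 3)) (A : Finset Λ) (p : Fin 3) :
    Λ := f (nth h0 A (idx r p)) (off r p)

theorem fill_lt (hh : h0 ∈ H) (hC : Cols H f) {r r' : Finset (Fin 3)} {A : Finset Λ} (hA : ↑A ⊆ H)
    (c : A.card = r.card) (c' : A.card = r'.card) (p q : Fin 3) :
    fill h0 f r A p < fill h0 f r' A q ↔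
      idx r p < idx r' q ∨ (idx r p = idx r' q ∧ off r p < off r' q) := by
  have a := c ▸ idx_lt r p
  have b := c' ▸ idx_lt r' q
  rw [fill, fill, hC.2 _ (nth_memH hh hA _) _ (nth_memH hh hA _), nth_lt a b, nth_eq a b]

theorem fill_inc (hh : h0 ∈ H) (hC : Cols H f) {r : Finset (Fin 3)} {A : Finset Λ} (hA : ↑A ⊆ H)
    (c : A.card = r.card) : Inc H f (fill h0 f r A) :=
  ⟨fun p q h => (fill_lt hh hC hA c c p q).2 (lex r p q h), fun _ => ⟨_, nth_memH hh hA _, _, rfl⟩⟩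

theorem fill_of_mem (hh : h0 ∈ H) (hC : Cols H f) {r : Finset (Fin 3)} {A : Finset Λ} (hA : ↑A ⊆ H)
    {p : Fin 3} (hp : p ∈ r) : fill h0 f r A p = nth h0 A (idx r p) := by
  rw [fill, (off_four r p).2 hp, hC.1 _ (nth_memH hh hA _)]

theorem image_fill (hh : h0 ∈ H) (hC : Cols H f) {r : Finset (Fin 3)} {A : Finset Λ} (hA : ↑A ⊆ H)
    (c : A.card = r.card) : r.image (fill h0 f r A) = A := by
  refine Finset.eq_of_subset_of_card_le (fun a ha => ?_) ?_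
  · obtain ⟨p, hp, rfl⟩ := Finset.mem_image.1 ha
    rw [fill_of_mem hh hC hA hp]
    exact nth_mem (c ▸ idx_lt' r p hp)
  · rw [Finset.card_image_of_injective _ (fill_inc hh hC hA c).1.injective, c]

theorem agree {y y' : Fin 3 → Λ} (h : StrictMono y) (h' : StrictMono y') {r : Finset (Fin 3)}
    (e : r.image y = r.image y') : ∀ p ∈ r, y p = y' p := fun p hp => by
  have := (StrictMono.range_inj (f := fun q : r => y q) (g := fun q : r => y' q)
    (h.comp (Subtype.strictMono_coe _)) (h'.comp (Subtype.strictMono_coe _))).1 (by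
      refine (Set.image_eq_range y (r : Set (Fin 3))).symm.trans
        (Eq.trans ?_ (Set.image_eq_range y' (r : Set (Fin 3))))
      rw [← Finset.coe_image, e, Finset.coe_image])
  exact congrFun this ⟨p, hp⟩

open Classical in
/-- the positions on which the coordinate `i` depends -/
noncomputable def dep (H : Set Λ) (f : Λ → ℕ → Λ) (s : (Fin 3 → Λ) → J → Θ) (i : J) :
    Finset (Fin 3) :=
  Finset.univ.filter fun p =>
    ¬∀ y y', Inc H f y → Inc H f y' → (∀ q, q ≠ p → y q = y' q) → s y i = s y' i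

theorem mem_dep {i : J} {p : Fin 3} : p ∈ dep H f s i ↔
    ¬∀ y y', Inc H f y → Inc H f y' → (∀ q, q ≠ p → y q = y' q) → s y i = s y' i := by
  simp only [dep, Finset.mem_filter, Finset.mem_univ, true_and]

theorem step {i : J} {y y' : Fin 3 → Λ} (h : Inc H f y) (h' : Inc H f y') (p : Fin 3)
    (e : ∀ q, q ≠ p → y q = y' q) (d : p ∈ dep H f s i → y p = y' p) : s y i = s y' i := by
  by_cases hp : p ∈ dep H f s i
  · congr 1
    funext q
    by_cases hq : q = p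
    · exact hq ▸ d hp
    · exact e q hq
  · exact not_not.1 (mt mem_dep.2 hp) y y' h h' e

theorem eq_of_le {i : J} {y y' : Fin 3 → Λ} (h : Inc H f y) (h' : Inc H f y') (le : ∀ p, y p ≤ y' p)
    (d : ∀ p ∈ dep H f s i, y p = y' p) : s y i = s y' i := by
  have a1 : y 0 < y 1 := h.1 (by decide)
  have a2 : y 1 < y 2 := h.1 (by decide)
  have a3 : y' 1 < y' 2 := h'.1 (by decide)
  have i1 : Inc H f ![y 0, y 1, y' 2] :=
    ⟨Fin.strictMono_iff_lt_succ.2 fun p => by fin_cases p; exacts [a1, a2.trans_le (le 2)],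
      fun p => by fin_cases p; exacts [h.2 0, h.2 1, h'.2 2]⟩
  have i2 : Inc H f ![y 0, y' 1, y' 2] :=
    ⟨Fin.strictMono_iff_lt_succ.2 fun p => by fin_cases p; exacts [a1.trans_le (le 1), a3],
      fun p => by fin_cases p; exacts [h.2 0, h'.2 1, h'.2 2]⟩
  refine ((step h i1 2 ?_ (d 2)).trans (step i1 i2 1 ?_ (d 1))).trans (step i2 h' 0 ?_ (d 0)) <;>
    intro q hq <;> fin_cases q <;> first | rfl | exact absurd rfl hq

theorem eq_of_dep {i : J} {y y' : Fin 3 → Λ} (h : Inc H f y) (h' : Inc H f y')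
    (d : ∀ p ∈ dep H f s i, y p = y' p) : s y i = s y' i := by
  have m : Inc H f fun p => min (y p) (y' p) :=
    ⟨fun p q e => min_lt_min (h.1 e) (h'.1 e), fun p => by
      rcases min_choice (y p) (y' p) with e | e <;> simp only [e]
      exacts [h.2 p, h'.2 p]⟩
  exact (eq_of_le m h (fun _ => min_le_left _ _) fun p hp => by rw [← d p hp, min_self]).symm.trans
    (eq_of_le m h' (fun _ => min_le_right _ _) fun p hp => by rw [d p hp, min_self])

theorem pat {u u' : Fin 3 → Λ} (h : StrictMono u) (h' : StrictMono u') {p : Fin 3}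
    (e : ∀ q, q ≠ p → u q = u' q) (l : u p < u' p) (q q' : Fin 3) :
    (u q < u' q' ↔ q < q' ∨ (q = p ∧ q' = p)) ∧ (u' q' < u q ↔ q' < q) := by
  by_cases a : q = p <;> by_cases b : q' = p
  · subst a b; simp [l, l.le]
  · rw [← e q' b, h.lt_iff_lt, h.lt_iff_lt]; simp [b]
  · rw [e q a, h'.lt_iff_lt, h'.lt_iff_lt]; simp [a]
  · rw [e q a, h'.lt_iff_lt, h'.lt_iff_lt]; simp [a]

/-- the indiscernibility hypothesis -/
def Ind (H : Set Λ) (f : Λ → ℕ → Λ) (s : (Fin 3 → Λ) → J → Θ) : Prop :=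
  ∀ y y' x x', Inc H f y → Inc H f y' → Inc H f x → Inc H f x' →
    (∀ p p', y p < y' p' ↔ x p < x' p') → (∀ p p', y' p' < y p ↔ x' p' < x p) →
    ∀ i i', s y i = s y' i' → s x i = s x' i'

theorem ne_of_move (hI : Ind H f s) {i : J} {p : Fin 3} (hp : p ∈ dep H f s i) {y y' : Fin 3 → Λ}
    (h : Inc H f y) (h' : Inc H f y') (e : ∀ q, q ≠ p → y q = y' q) (l : y p < y' p) :
    s y i ≠ s y' i := fun E => by
  have key : ∀ w w', Inc H f w → Inc H f w' → (∀ q, q ≠ p → w q = w' q) → w p < w' p →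
      s w i = s w' i := fun w w' a a' b c =>
    hI y y' w w' h h' a a' (fun q q' => by rw [(pat h.1 h'.1 e l q q').1, (pat a.1 a'.1 b c q q').1])
      (fun q q' => by rw [(pat h.1 h'.1 e l q q').2, (pat a.1 a'.1 b c q q').2]) i i E
  refine mem_dep.1 hp fun w w' a a' b => ?_
  rcases lt_trichotomy (w p) (w' p) with c | c | c
  · exact key w w' a a' b c
  · exact step a a' p b fun _ => c
  · exact (key w' w a' a (fun q hq => (b q hq).symm) c).symm

theorem gap (hC : Cols H f) {h h' : Λ} (hh : h ∈ H) (hh' : h' ∈ H) {c : ℕ} (c5 : c ≠ 5)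
    (c4 : c = 4 → h' ≠ h) : (f h 4 < f h' c ↔ f h 5 < f h' c) ∧ (f h' c < f h 4 ↔ f h' c < f h 5) := by
  simp only [hC.2 _ hh _ hh', hC.2 _ hh' _ hh]
  by_cases e : h' = h
  · have : c ≠ 4 := fun e' => c4 e' e
    subst e
    simp only [lt_irrefl, false_or, true_and]
    omega
  · simp [e, Ne.symm e]

/-- the coordinate with index `i` and carrier `A` -/
noncomputable def th (h0 : Λ) (H : Set Λ) (f : Λ → ℕ → Λ) (s : (Fin 3 → Λ) → J → Θ) (i : J)
    (A : Finset Λ) : Θ := s (fill h0 f (dep H f s i) A) i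

/-- admissible carriers -/
def Ok (H : Set Λ) (f : Λ → ℕ → Λ) (s : (Fin 3 → Λ) → J → Θ) (i : J) (A : Finset Λ) : Prop :=
  ↑A ⊆ H ∧ A.card = (dep H f s i).card

theorem move (hh : h0 ∈ H) (hC : Cols H f) (hI : Ind H f s) {i : J} {A : Finset Λ}
    (hA : Ok H f s i A) {h : Λ} (hm : h ∈ A) : ∃ y, Inc H f y ∧ th h0 H f s i A ≠ s y i ∧
      ∀ i' A', Ok H f s i' A' → h ∉ A' → th h0 H f s i A = th h0 H f s i' A' →
        s y i = th h0 H f s i' A' := by
  have inc := fill_inc hh hC hA.1 hA.2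
  obtain ⟨p, hp, e⟩ := Finset.mem_image.1 ((image_fill hh hC hA.1 hA.2).symm ▸ hm)
  have hH : h ∈ H := hA.1 hm
  have e4 : fill h0 f (dep H f s i) A p = f h 4 := by rw [e, hC.1 h hH]
  have g1 : ∀ q, q ≠ p → (f h 4 < fill h0 f (dep H f s i) A q ↔ f h 5 < fill h0 f (dep H f s i) A q) ∧
      (fill h0 f (dep H f s i) A q < f h 4 ↔ fill h0 f (dep H f s i) A q < f h 5) := fun q hq =>
    gap hC hH (nth_memH hh hA.1 _) (off_five _ _) fun c e' => hq (inc.1.injective (by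
      rw [fill_of_mem hh hC hA.1 ((off_four _ _).1 c), e', e]))
  have inc' : Inc H f (update (fill h0 f (dep H f s i) A) p (f h 5)) := by
    refine ⟨fun q q' l => ?_, fun q => ?_⟩
    · have := inc.1 l
      by_cases a : q = p
      · subst a
        rw [update_self, update_of_ne l.ne', ← (g1 q' l.ne').1, ← e4]; exact this
      · by_cases b : q' = p
        · subst b
          rw [update_self, update_of_ne a, ← (g1 q a).2, ← e4]; exact this
        · rwa [update_of_ne a, update_of_ne b]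
    · by_cases a : q = p
      · exact ⟨h, hH, 5, by rw [a, update_self]⟩
      · rw [update_of_ne a]; exact inc.2 q
  refine ⟨_, inc', ne_of_move hI hp inc inc' (fun q hq => (update_of_ne hq _ _).symm) ?_,
    fun i' A' hA' hn E => ?_⟩
  · rw [update_self, e4, hC.2 h hH h hH]; simp
  · have inc2 := fill_inc hh hC hA'.1 hA'.2
    have g2 := fun q => gap (c := off (dep H f s i') q) hC hH
      (nth_memH hh hA'.1 (idx (dep H f s i') q)) (off_five _ _) fun c e' =>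
        hn (e' ▸ nth_mem (hA'.2 ▸ idx_lt' _ q ((off_four _ _).1 c)))
    refine hI _ _ _ _ inc inc2 inc' inc2 (fun q q' => ?_) (fun q q' => ?_) i i' E
    · by_cases a : q = p
      · rw [a, update_self, e4]; exact (g2 q').1
      · rw [update_of_ne a]
    · by_cases a : q = p
      · rw [a, update_self, e4]; exact (g2 q').2
      · rw [update_of_ne a]

theorem car_unique (hh : h0 ∈ H) (hC : Cols H f) (hI : Ind H f s) {i i' : J} {A A' : Finset Λ}
    (hA : Ok H f s i A) (hA' : Ok H f s i' A') (E : th h0 H f s i A = th h0 H f s i' A') :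
    A = A' := by
  have key : ∀ {i i' : J} {A A' : Finset Λ}, Ok H f s i A → Ok H f s i' A' →
      th h0 H f s i A = th h0 H f s i' A' → A ⊆ A' := fun hA hA' E h hm => by
    by_contra hn
    obtain ⟨y, -, a, b⟩ := move hh hC hI hA hm
    exact a (E.trans (b _ _ hA' hn E).symm)
  exact (key hA hA' E).antisymm (key hA' hA E.symm)

theorem transfer (hh : h0 ∈ H) (hC : Cols H f) (hI : Ind H f s) {i i' : J} {A B : Finset Λ}
    (hA : Ok H f s i A) (hA' : Ok H f s i' A) (hB : Ok H f s i B)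
    (E : th h0 H f s i A = th h0 H f s i' A) : th h0 H f s i B = th h0 H f s i' B := by
  have c : B.card = (dep H f s i').card := by rw [hB.2, ← hA.2, hA'.2]
  exact hI _ _ _ _ (fill_inc hh hC hA.1 hA.2) (fill_inc hh hC hA.1 hA'.2) (fill_inc hh hC hB.1 hB.2)
    (fill_inc hh hC hB.1 c)
    (fun p q => by rw [fill_lt hh hC hA.1 hA.2 hA'.2, fill_lt hh hC hB.1 hB.2 c])
    (fun p q => by rw [fill_lt hh hC hA.1 hA'.2 hA.2, fill_lt hh hC hB.1 c hB.2]) i i' E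

theorem eq_th (hh : h0 ∈ H) (hC : Cols H f) {i : J} {y : Fin 3 → Λ} (h : Inc H f y)
    (hy : ∀ p ∈ dep H f s i, y p ∈ H) : Ok H f s i ((dep H f s i).image y) ∧
      s y i = th h0 H f s i ((dep H f s i).image y) := by
  have a : Ok H f s i ((dep H f s i).image y) :=
    ⟨fun u hu => by obtain ⟨p, hp, rfl⟩ := Finset.mem_image.1 hu; exact hy p hp,
      Finset.card_image_of_injective _ h.1.injective⟩
  have b := fill_inc hh hC a.1 a.2
  exact ⟨a, eq_of_dep h b (agree h.1 b.1 (image_fill hh hC a.1 a.2).symm)⟩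

omit [LinearOrder Λ] in
theorem fix_mem {g : Equiv.Perm Λ} (hg : Fix H g) {a : Λ} (ha : a ∈ H) : g a ∈ H := by
  by_contra h
  exact h ((g.injective (hg _ h)).symm ▸ ha)

omit [LinearOrder Λ] in
theorem fix_inv {g : Equiv.Perm Λ} (hg : Fix H g) : Fix H g⁻¹ := fun a ha =>
  Equiv.Perm.inv_eq_iff_eq.2 (hg a ha).symm

omit [LinearOrder Λ] in
theorem fix_mul {g h : Equiv.Perm Λ} (hg : Fix H g) (hh : Fix H h) : Fix H (g * h) := fun a ha => by
  rw [Equiv.Perm.mul_apply, hh a ha, hg a ha]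

theorem Ok.image {i : J} {A : Finset Λ} (hA : Ok H f s i A) {g : Equiv.Perm Λ} (hg : Fix H g) :
    Ok H f s i (A.image g) :=
  ⟨fun u hu => by obtain ⟨a, ha, rfl⟩ := Finset.mem_image.1 hu; exact fix_mem hg (hA.1 ha),
    by rw [Finset.card_image_of_injective _ g.injective, hA.2]⟩

theorem exists_maps (hh : h0 ∈ H) (hC : Cols H f) (hI : Ind H f s) :
    ∃ (car : Θ → Finset Λ) (sg : Equiv.Perm Λ → Θ → Θ),
      (∀ i A, Ok H f s i A → car (th h0 H f s i A) = A ∧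
        ∀ g, Fix H g → sg g (th h0 H f s i A) = th h0 H f s i (A.image g)) ∧
      ∀ a, (∃ i A, Ok H f s i A ∧ a = th h0 H f s i A) ∨ (car a = ∅ ∧ ∀ g, sg g a = a) := by
  classical
  refine ⟨fun a => if h : ∃ x : J × Finset Λ, Ok H f s x.1 x.2 ∧ a = th h0 H f s x.1 x.2 then
      h.choose.2 else ∅,
    fun g a => if h : ∃ x : J × Finset Λ, Ok H f s x.1 x.2 ∧ a = th h0 H f s x.1 x.2 then
      th h0 H f s h.choose.1 (h.choose.2.image g) else a, fun i A hA => ?_, fun a => ?_⟩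
  · have h : ∃ x : J × Finset Λ, Ok H f s x.1 x.2 ∧ th h0 H f s i A = th h0 H f s x.1 x.2 :=
      ⟨(i, A), hA, rfl⟩
    obtain ⟨a, b⟩ := h.choose_spec
    have e := car_unique hh hC hI hA a b
    simp only [dif_pos h]
    refine ⟨e.symm, fun g hg => ?_⟩
    rw [← e] at a b ⊢
    exact (transfer hh hC hI hA a (hA.image hg) b).symm
  · by_cases h : ∃ x : J × Finset Λ, Ok H f s x.1 x.2 ∧ a = th h0 H f s x.1 x.2
    · obtain ⟨x, hx⟩ := h
      exact Or.inl ⟨x.1, x.2, hx⟩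
    · exact Or.inr ⟨dif_neg h, fun _ => dif_neg h⟩

end Dsys

open Dsys in
theorem core : CoreStmt := by
  classical
  intro Θ Λ J _ H f s ⟨h0, hh⟩ hC hI
  obtain ⟨car, sg, h1, h2⟩ := exists_maps hh hC hI
  have mul : ∀ g h, Fix H g → Fix H h → ∀ a, sg (g * h) a = sg g (sg h a) := fun g h hg hh' a => by
    rcases h2 a with ⟨i, A, hA, rfl⟩ | ⟨-, e⟩
    · rw [(h1 i A hA).2 _ (fix_mul hg hh'), (h1 i A hA).2 _ hh', (h1 i _ (hA.image hh')).2 _ hg,
        Finset.image_image, Equiv.Perm.coe_mul]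
    · rw [e, e, e]
  have f1 : Fix H 1 := fun _ _ => rfl
  have one : ∀ a, sg 1 a = a := fun a => by
    rcases h2 a with ⟨i, A, hA, rfl⟩ | ⟨-, e⟩
    · rw [(h1 i A hA).2 _ f1, Equiv.Perm.coe_one, Finset.image_id]
    · exact e 1
  obtain ⟨σ, hσ⟩ : ∃ σ : Equiv.Perm Λ → Equiv.Perm Θ, ∀ g, Fix H g → ∀ a, σ g a = sg g a :=
    ⟨fun g => if hg : Fix H g then ⟨sg g, sg g⁻¹,
      fun a => by rw [← mul _ _ (fix_inv hg) hg, inv_mul_cancel, one],
      fun a => by rw [← mul _ _ hg (fix_inv hg), mul_inv_cancel, one]⟩ else 1,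
      fun g hg a => by simp only [dif_pos hg, Equiv.coe_fn_mk]⟩
  refine ⟨car, σ, ⟨fun a => ?_, fun g hg a y => ?_, fun g h hg hh' => ?_, ?_,
    fun g h hg hh' a e => ?_⟩, fun g a hg => ?_, fun a ⟨u, hu⟩ => ?_, fun i r y hy hr hd => ?_⟩
  · rcases h2 a with ⟨i, A, hA, rfl⟩ | ⟨e, -⟩
    · rw [(h1 i A hA).1]; exact hA.1
    · simp [e]
  · rw [hσ g hg]
    rcases h2 a with ⟨i, A, hA, rfl⟩ | ⟨e, e'⟩
    · rw [(h1 i A hA).2 g hg, (h1 i _ (hA.image hg)).1, (h1 i A hA).1]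
      exact g.injective.mem_finset_image
    · simp [e', e]
  · ext a
    rw [Equiv.Perm.mul_apply, hσ _ (fix_mul hg hh'), hσ g hg, hσ h hh', mul g h hg hh']
  · ext a
    rw [hσ 1 f1, one, Equiv.Perm.one_apply]
  · rw [hσ g hg, hσ h hh']
    rcases h2 a with ⟨i, A, hA, rfl⟩ | ⟨-, e'⟩
    · rw [(h1 i A hA).1] at e
      rw [(h1 i A hA).2 g hg, (h1 i A hA).2 h hh', Finset.image_congr e]
    · rw [e', e']
  · rw [hσ g hg]
    rcases h2 a with ⟨i, A, hA, rfl⟩ | ⟨-, e'⟩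
    · exact Or.inr ⟨i, _, _, fill_inc hh hC hA.1 hA.2,
        fill_inc hh hC (hA.image hg).1 (hA.image hg).2, rfl, (h1 i A hA).2 g hg⟩
    · exact Or.inl (e' g)
  · rcases h2 a with ⟨i, A, hA, rfl⟩ | ⟨e, -⟩
    · rw [(h1 i A hA).1] at hu
      obtain ⟨y, a, b, -⟩ := move hh hC hI hA hu
      exact ⟨i, _, y, fill_inc hh hC hA.1 hA.2, a, rfl, b⟩
    · simp [e] at hu
  · have sub : ∀ p ∈ dep H f s i, p ∈ r := fun p hp => by
      by_contra hn
      exact mem_dep.1 hp fun x x' a a' e =>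
        hd x x' a a' fun q hq => e q fun c => hn (c ▸ hq)
    obtain ⟨a, b⟩ := eq_th (s := s) hh hC hy fun p hp => hr p (sub p hp)
    refine ⟨fun u hu => ?_, fun g y' hg hy' e => ?_⟩
    · rw [b, (h1 i _ a).1] at hu
      obtain ⟨p, hp, rfl⟩ := Finset.mem_image.1 hu
      exact ⟨p, sub p hp, rfl⟩
    · obtain ⟨-, b'⟩ := eq_th (s := s) (i := i) hh hC hy' fun p hp => by
        rw [e p (sub p hp)]; exact fix_mem hg (hr p (sub p hp))
      rw [hσ g hg, b, (h1 i _ a).2 g hg, b', Finset.image_image]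
      exact congrArg _ (Finset.image_congr fun p hp => (e p (sub p hp)).symm)

end Pool.Agent.MP_a45f51_lc.A62

end MrgPart1

-- ======== part 2: formerly Pool.Agent.MP_a45f51_lc.h62.PhaseTwo
section MrgPart2

/-! PROJECT ARROW, module PHASE2: from the stages to the homogeneous set. -/

namespace Pool.Agent.MP_a45f51_lc.A62

open Cardinal Set Pool.Agent.Forcing92

namespace PhaseTwo

variable {P Λ : Type} {le : P → P → Prop} [Pre le]

theorem one_mono {W : P → Prop} {p q : P} (h : le q p) (hp : One le W p) : One le W q :=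
  fun r hr => hp r (ltrans hr h)

/-- Countably many open sets are decided by one extension. -/
theorem dec (hS : Sigma le) {ι : Type} [Countable ι] [Nonempty ι] (W : ι → P → Prop)
    (hW : ∀ i p q, le q p → W i p → W i q) (r : P) :
    ∃ r', le r' r ∧ ∀ i, W i r' ∨ One le (W i) r' := by
  obtain ⟨e, he⟩ := exists_surjective_nat ι
  obtain ⟨-, q, hq, -, h⟩ := hS Unit (fun _ _ _ => True)
    (fun n _ _ q => W (e n) q ∨ One le (W (e n)) q) () r (fun _ _ _ _ _ _ => trivial)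
    (fun n _ _ q q' hq h => h.imp (hW _ _ _ hq) (one_mono hq)) trivial (fun n _ q _ _ => by
      by_cases h : One le (W (e n)) q
      · exact ⟨(), q, lrefl q, trivial, Or.inr h⟩
      · simp only [One, not_forall, not_not] at h
        obtain ⟨q', h1, h2⟩ := h
        exact ⟨(), q', h1, trivial, Or.inl h2⟩)
  refine ⟨q, hq, fun i => ?_⟩
  obtain ⟨n, rfl⟩ := he i
  exact (h n).2

/-- A symmetric relation that holds on increasing triples holds on all injective triples. -/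
theorem sym3 {A : Type} [LinearOrder A] (Z : A → A → A → Prop)
    (h1 : ∀ x y z, Z x y z → Z y x z) (h2 : ∀ x y z, Z x y z → Z x z y) (M : A → Prop)
    (h : ∀ x y z, M x → M y → M z → x < y → y < z → Z x y z) {x y z : A} (hx : M x) (hy : M y)
    (hz : M z) (hxy : x ≠ y) (hxz : x ≠ z) (hyz : y ≠ z) : Z x y z := by
  rcases lt_or_gt_of_ne hxy with a | a <;> rcases lt_or_gt_of_ne hxz with b | b <;>
    rcases lt_or_gt_of_ne hyz with c | c
  · exact h _ _ _ hx hy hz a c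
  · exact h2 _ _ _ (h _ _ _ hx hz hy b c)
  · exact absurd (a.trans c) (not_lt.2 b.le)
  · exact h2 _ _ _ (h1 _ _ _ (h _ _ _ hz hx hy b a))
  · exact h1 _ _ _ (h _ _ _ hy hx hz a b)
  · exact absurd (c.trans a) (not_lt.2 b.le)
  · exact h1 _ _ _ (h2 _ _ _ (h _ _ _ hy hz hx c b))
  · exact h1 _ _ _ (h2 _ _ _ (h1 _ _ _ (h _ _ _ hz hy hx c a)))

/-- the classes of points -/
abbrev Cls : Type := (ℕ → Fin 3 → Prop) × (ℕ → ℕ → Prop)

theorem mk_cls (j : ℕ) : #Cls ≤ bt (j + 2) := by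
  have h : #Cls = bt 2 := by
    show _ = 2 ^ ℵ₀
    have h8 : (8 : Cardinal.{0}) ^ ℵ₀ = 𝔠 := Cardinal.nat_power_aleph0 (n := 8) (by norm_num)
    simp [Cls, h8]
  rw [h]
  exact bt_mono (by omega)

variable {C : Colr le Λ} {L : ℕ → Set Λ} {z : ℕ → Λ} {q1 : ℕ → P}

/-- the condition `r` decides the class of `u` to be `ν` -/
def Cl (B : ∀ m, Base C (L m) (z m) z (q1 m)) (ν : Cls) (r : P) (u : Λ) : Prop :=
  (∀ m t, (ν.1 m t → (B m).N t u r) ∧ (¬ ν.1 m t → One le ((B m).N t u) r)) ∧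
    ∀ m m', (ν.2 m m' → (B m).F u m' r) ∧ (¬ ν.2 m m' → One le ((B m).F u m') r)

theorem Cl.mono {B : ∀ m, Base C (L m) (z m) z (q1 m)} {ν : Cls} {r r' : P} {u : Λ}
    (h : le r' r) (hc : Cl B ν r u) : Cl B ν r' u :=
  ⟨fun m t => ⟨fun a => (B m).N_mono h ((hc.1 m t).1 a), fun a => one_mono h ((hc.1 m t).2 a)⟩,
    fun m m' => ⟨fun a => (B m).F_mono h ((hc.2 m m').1 a),
      fun a => one_mono h ((hc.2 m m').2 a)⟩⟩

theorem cl_dense (hS : Sigma le) (B : ∀ m, Base C (L m) (z m) z (q1 m)) (r : P) (u : Λ) :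
    ∃ r' ν, le r' r ∧ Cl B ν r' u := by
  obtain ⟨r1, h1, a1⟩ := dec hS (fun x : ℕ × Fin 3 => (B x.1).N x.2 u)
    (fun x _ _ h => (B x.1).N_mono h) r
  obtain ⟨r2, h2, a2⟩ := dec hS (fun x : ℕ × ℕ => (B x.1).F u x.2)
    (fun x _ _ h => (B x.1).F_mono h) r1
  refine ⟨r2, (fun m t => (B m).N t u r1, fun m m' => (B m).F u m' r2), ltrans h2 h1,
    fun m t => ⟨fun a => (B m).N_mono h2 a, fun a => one_mono h2 ((a1 (m, t)).resolve_left a)⟩,
    fun m m' => ⟨id, fun a => (a2 (m, m')).resolve_left a⟩⟩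

/-- what one step of the last recursion produces -/
def Out [LinearOrder Λ] (B : ∀ m, Base C (L m) (z m) z (q1 m)) (i : ℕ) (Y : Set Λ) (ν : Cls)
    (X : Set Λ) (t : Fin 3) (W : Set Λ) (r : P) : Prop :=
  W ⊆ Y ∧ bt (i + 2) ≤ #W ∧ (∀ y ∈ W, (B i).Pt r y ∧ Cl B ν r y) ∧
    (∀ y ∈ W, ∀ y' ∈ W, y < y' →
      (∀ u ∈ X, C.Z u y y' r) ∧ ∀ m ∈ (B i).ρ t, C.Z y y' (z m) r) ∧
    ∀ y ∈ W, ∀ y' ∈ W, ∀ y'' ∈ W, y < y' → y' < y'' → C.Z y y' y'' r

theorem Out.mono [LinearOrder Λ] {B : ∀ m, Base C (L m) (z m) z (q1 m)} {i : ℕ} {Y : Set Λ}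
    {ν : Cls} {X : Set Λ} {t : Fin 3} {W : Set Λ} {r r' : P} (h : le r' r)
    (ho : Out B i Y ν X t W r) : Out B i Y ν X t W r' := by
  obtain ⟨a1, a2, a3, a4, a5⟩ := ho
  exact ⟨a1, a2, fun y hy => ⟨(B i).Pt_mono h (a3 y hy).1, (a3 y hy).2.mono h⟩,
    fun y hy y' hy' hl => ⟨fun u hu => C.mono h ((a4 y hy y' hy' hl).1 u hu),
      fun m hm => C.mono h ((a4 y hy y' hy' hl).2 m hm)⟩,
    fun y hy y' hy' y'' hy'' b1 b2 => C.mono h (a5 y hy y' hy' y'' hy'' b1 b2)⟩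

/-- the second half: from the blocks with their classes to the homogeneous set -/
theorem second [LinearOrder Λ] (hR : RamseyStmt) (hS : Sigma le) {H Y : ℕ → Set Λ}
    (hH : ∀ i m, i < m → Disjoint (H i) (H m)) (hz : ∀ i m, z m ∉ H i)
    (B : ∀ m, Base C (L m) (z m) z (q1 m)) (hYH : ∀ m, Y m ⊆ H m)
    (hYL : ∀ i m, i < m → Y i ⊆ L m) (ν : ℕ → Cls) (r0 : P) (hr0 : ∀ m, le r0 (q1 m))
    (hB : ∀ i r1, le r1 r0 → ∀ X ⊆ L i, ∀ t, (∀ u ∈ X, (B i).N t u r1) →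
      ∃ r2, le r2 r1 ∧ ∃ W, Out B i (Y i) (ν i) X t W r2) : Goal C r0 := by
  classical
  have hq : ∀ {r} m, le r r0 → le r (q1 m) := fun m h => ltrans h (hr0 m)
  have real : ∀ i r, le r r0 → ∃ r2 y, le r2 r ∧ y ∈ Y i ∧ (B i).Pt r2 y ∧ Cl B (ν i) r2 y := by
    intro i r hr
    obtain ⟨r2, h2, W, a1, a2, a3, -⟩ := hB i r hr ∅ (empty_subset _) 0 (by simp)
    have : W.Nonempty := by
      rw [← Set.nonempty_coe_sort, ← Cardinal.mk_ne_zero_iff]
      exact (aleph0_pos.trans_le ((aleph0_le_bt _).trans a2)).ne'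
    obtain ⟨y, hy⟩ := this
    exact ⟨r2, y, h2, a1 hy, a3 y hy⟩
  obtain ⟨φ, ⟨f, TN, Tρ⟩, hφ, hc⟩ := hR (Prop × (Fin 3 → Prop) × (Fin 3 → Prop))
    fun i m m' => ((ν i).2 m m', fun t => (ν i).1 m t, fun t => m ∈ (B i).ρ t)
  have hf : ∀ i j l, i < j → j < l → ((ν (φ i)).2 (φ j) (φ l) ↔ f) := fun i j l a b =>
    Iff.of_eq (congrArg Prod.fst (hc i j l a b))
  have hN : ∀ i j t, i < j → ((ν (φ i)).1 (φ j) t ↔ TN t) := fun i j t a =>
    Iff.of_eq (congrFun (congrArg (fun x => x.2.1) (hc i j (j + 1) a (Nat.lt_succ_self j))) t)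
  have hρ : ∀ i j t, i < j → (φ j ∈ (B (φ i)).ρ t ↔ Tρ t) := fun i j t a =>
    Iff.of_eq (congrFun (congrArg (fun x => x.2.2) (hc i j (j + 1) a (Nat.lt_succ_self j))) t)
  have hne : ∀ {i j u v}, i < j → u ∈ Y (φ i) → v ∈ Y (φ j) → u ≠ v := fun a hu hv e =>
    disjoint_left.1 (hH _ _ (hφ a)) (hYH _ hu) (e ▸ hYH _ hv)
  have hL : ∀ {i j u}, i < j → u ∈ Y (φ i) → u ∈ L (φ j) := fun a hu => hYL _ _ (hφ a) hu
  have hft : f := by
    by_contra hn
    obtain ⟨r1, u, b1, hu, -, cu⟩ := real (φ 0) r0 (lrefl r0)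
    obtain ⟨r2, v, b2, hv, pv, cv⟩ := real (φ 1) r1 b1
    obtain ⟨r, w, b3, hw, pw, -⟩ := real (φ 2) r2 (ltrans b2 b1)
    have hr : le r r0 := ltrans b3 (ltrans b2 b1)
    have cu' := cu.mono (ltrans b3 b2)
    have cv' := cv.mono b3
    have pv' := (B _).Pt_mono b3 pv
    have u1 := hL (j := 1) (by omega) hu
    have u2 := hL (j := 2) (by omega) hu
    have v2 := hL (j := 2) (by omega) hv
    have o1 := (B (φ 1)).F1 (hq _ hr) pv' u1
      ((cu'.2 _ (φ 2)).2 (mt (hf 0 1 2 (by omega) (by omega)).1 hn))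
    have o2 := (B (φ 1)).F1 (hq _ hr) pv' u1
      ((cu'.2 _ (φ 3)).2 (mt (hf 0 1 3 (by omega) (by omega)).1 hn))
    have o3 := (B (φ 2)).F1 (hq _ hr) pw u2
      ((cu'.2 _ (φ 3)).2 (mt (hf 0 2 3 (by omega) (by omega)).1 hn))
    have o4 := (B (φ 2)).F1 (hq _ hr) pw v2
      ((cv'.2 _ (φ 3)).2 (mt (hf 1 2 3 (by omega) (by omega)).1 hn))
    have o5 : One le (C.Z u v w) r := fun r' h' hZ =>
      o1 r' h' (((B (φ 2)).eqv (hq _ (ltrans h' hr)) ((B _).Pt_mono h' pw) u2 v2).1 hZ)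
    exact C.k4 (hne (by omega) hu hv) (hne (by omega) hu hw)
      (fun e => hz _ _ (e ▸ hYH _ hu)) (hne (by omega) hv hw)
      (fun e => hz _ _ (e ▸ hYH _ hv)) (fun e => hz _ _ (e ▸ hYH _ hw)) o5 o2 o3 o4
  obtain ⟨ts, ht1, ht2⟩ : ∃ t, TN t ∧ ((∃ t', ¬ TN t') ∨ Tρ t) := by
    by_cases hall : ∀ t, TN t
    · obtain ⟨t, ht⟩ := (B (φ 0)).ρcov (φ 1)
      exact ⟨t, hall t, Or.inr ((hρ 0 1 t (by omega)).1 ht)⟩
    · by_contra hn
      obtain ⟨r, u, b1, hu, -, cu⟩ := real (φ 0) r0 (lrefl r0)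
      refine (B (φ 1)).Ncov (hq _ b1) (hL (by omega) hu) fun t => (cu.1 _ t).2 fun a => ?_
      exact hn ⟨t, (hN 0 1 t (by omega)).1 a, Or.inl (not_forall.1 hall)⟩
  obtain ⟨X, q, hq0, -, hX⟩ := hS (Set Λ)
    (fun n X q => ∀ u ∈ X, ∃ i < n, u ∈ Y (φ i) ∧ Cl B (ν (φ i)) q u)
    (fun n X X' q => ∃ W, X' = X ∪ W ∧ Out B (φ n) (Y (φ n)) (ν (φ n)) X ts W q) ∅ r0
    (fun n d q q' h a u hu => by
      obtain ⟨i, hi, b1, b2⟩ := a u hu
      exact ⟨i, hi, b1, b2.mono h⟩)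
    (fun n d d' q q' h ⟨W, a, b⟩ => ⟨W, a, b.mono h⟩) (by simp)
    (fun n X q h a => by
      obtain ⟨r2, h2, W, hW⟩ := hB (φ n) q h X
        (fun u hu => by obtain ⟨i, hi, b1, -⟩ := a u hu; exact hL hi b1) ts
        (fun u hu => by
          obtain ⟨i, hi, -, b2⟩ := a u hu
          exact (b2.1 _ ts).1 ((hN i n ts hi).2 ht1))
      refine ⟨X ∪ W, r2, h2, ?_, W, rfl, hW⟩
      rintro u (hu | hu)
      · obtain ⟨i, hi, b1, b2⟩ := a u hu
        exact ⟨i, by omega, b1, b2.mono h2⟩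
      · exact ⟨n, by omega, hW.1 hu, (hW.2.2.1 u hu).2⟩)
  choose W hXW hW using fun n => (hX n).2
  have hWX : ∀ i n, i < n → W i ⊆ X n := by
    intro i n h
    induction h with
    | refl => rw [hXW i]; exact subset_union_right
    | step _ ih => rw [hXW]; exact ih.trans subset_union_left
  refine ⟨q, hq0, ⋃ n, W n, ciSup_le' fun n => ?_, ?_⟩
  · refine (bt_mono ?_).trans ((hW n).2.1.trans (mk_le_mk_of_subset (subset_iUnion W n)))
    exact (hφ.id_le n).trans (Nat.le_add_right _ _)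
  have key : ∀ a b c : ℕ ×ₗ Λ, (ofLex a).2 ∈ W (ofLex a).1 → (ofLex b).2 ∈ W (ofLex b).1 →
      (ofLex c).2 ∈ W (ofLex c).1 → a < b → b < c →
      C.Z (ofLex a).2 (ofLex b).2 (ofLex c).2 q := by
    intro a b c ha hb hc hab hbc
    rw [Prod.Lex.lt_iff] at hab hbc
    generalize ofLex a = a at *
    generalize ofLex b = b at *
    generalize ofLex c = c at *
    obtain ⟨i, u⟩ := a
    obtain ⟨j, v⟩ := b
    obtain ⟨l, w⟩ := c
    dsimp only at *
    have yu := (hW i).1 ha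
    have yv := (hW j).1 hb
    obtain ⟨-, cu⟩ := (hW i).2.2.1 u ha
    obtain ⟨pv, cv⟩ := (hW j).2.2.1 v hb
    obtain ⟨pw, -⟩ := (hW l).2.2.1 w hc
    rcases hab with hij | ⟨rfl, huv⟩ <;> rcases hbc with hjl | ⟨rfl, hvw⟩
    · refine ((B (φ l)).eqv (hq _ hq0) pw (hL (hij.trans hjl) yu) (hL hjl yv)).2 ?_
      exact (B (φ j)).F0 (hq _ hq0) pv (hL hij yu) ((cu.2 _ _).1 ((hf i j l hij hjl).2 hft))
    · exact ((hW j).2.2.2.1 v hb w hc hvw).1 u (hWX i j hij ha)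
    · refine ((B (φ l)).eqv (hq _ hq0) pw (hL hjl yu) (hL hjl yv)).2 ?_
      rcases ht2 with ⟨t', ht'⟩ | ht2
      · exact (B (φ l)).alpha (t := t') (hq _ hq0) (hL hjl yu) (hL hjl yv) huv.ne
          ((cu.1 _ t').2 (mt (hN i l t' hjl).1 ht')) ((cv.1 _ t').2 (mt (hN i l t' hjl).1 ht'))
      · exact ((hW i).2.2.2.1 u ha v hb huv).2 _ ((hρ i l ts hjl).2 ht2)
    · exact (hW i).2.2.2.2 u ha v hb w hc huv hvw
  intro x hx y hy w hw hxy hxw hyw
  obtain ⟨i, hi⟩ := mem_iUnion.1 hx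
  obtain ⟨j, hj⟩ := mem_iUnion.1 hy
  obtain ⟨l, hl⟩ := mem_iUnion.1 hw
  exact sym3 (fun a b c : ℕ ×ₗ Λ => C.Z (ofLex a).2 (ofLex b).2 (ofLex c).2 q)
    (fun _ _ _ h => C.sw1 h) (fun _ _ _ h => C.sw2 h) (fun a => (ofLex a).2 ∈ W (ofLex a).1) key
    (x := toLex (i, x)) (y := toLex (j, y)) (z := toLex (l, w)) hi hj hl
    (fun e => hxy (congrArg (fun a => (ofLex a).2) e))
    (fun e => hxw (congrArg (fun a => (ofLex a).2) e))
    (fun e => hyw (congrArg (fun a => (ofLex a).2) e))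

end PhaseTwo

open PhaseTwo

theorem phaseTwo (hR : RamseyStmt) : PhaseTwoStmt := by
  intro P Λ le _ _ C H z hS hH hz hst p0
  by_contra hG
  have hG' : ∀ q, le q p0 → ¬ Goal C q := fun q hq ⟨r, hr, h⟩ => hG ⟨r, ltrans hr hq, h⟩
  obtain ⟨L, q, hq, -, hL⟩ := hS (Set Λ)
    (fun n L _ => L ⊆ (⋃ i < n, H i) ∧ #L ≤ bt (n + 2))
    (fun n L L' q => ∃ q1 q2, le q q2 ∧ le q2 q1 ∧ ∃ (B : Base C L (z n) z q1) (Y : Set Λ),
      Y ⊆ H n ∧ Block B (n + 2) Y q2 ∧ L' = L ∪ Y) ∅ p0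
    (fun _ _ _ _ _ h => h)
    (fun n d d' q q' h ⟨q1, q2, a, b⟩ => ⟨q1, q2, ltrans h a, b⟩) (by simp)
    (fun n L q h a => by
      rcases hst n L q a.1 a.2 with hg | ⟨q1, q2, b1, b2, B, Y, b3, b4, b5⟩
      · exact absurd hg (hG' q h)
      refine ⟨L ∪ Y, q2, ltrans b1 b2, ⟨union_subset (a.1.trans ?_) (b3.trans ?_), ?_⟩,
        q1, q2, lrefl q2, b1, B, Y, b3, b5, rfl⟩
      · exact biUnion_subset_biUnion_left fun i (hi : i < n) => (by omega : i < n + 1)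
      · exact subset_biUnion_of_mem (u := H) (s := {i | i < n + 1}) (Nat.lt_succ_self n)
      · exact (mk_union_le _ _).trans
          (add_le_of_le (aleph0_le_bt _) (a.2.trans (bt_mono (by omega))) b4))
  choose q1 q2 h2 h1 B Y hY hB hLY using fun n => (hL n).2
  have hYL : ∀ i m, i < m → Y i ⊆ L m := by
    intro i n h
    induction h with
    | refl => rw [hLY i]; exact subset_union_right
    | step _ ih => rw [hLY]; exact ih.trans subset_union_left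
  obtain ⟨-, r0, hr0, -, hν⟩ := hS Unit (fun _ _ _ => True)
    (fun i _ _ r => ∃ ν, ∀ r1, le r1 r → ∀ X ⊆ L i, ∀ t, (∀ u ∈ X, (B i).N t u r1) →
      ∃ r2, le r2 r1 ∧ ∃ W, Out B i (Y i) ν X t W r2) () q (fun _ _ _ _ _ _ => trivial)
    (fun n _ _ r r' h ⟨ν, a⟩ => ⟨ν, fun r1 h1 => a r1 (ltrans h1 h)⟩) trivial
    (fun n _ r hr _ => by
      obtain ⟨r0, ν, a1, a2⟩ := hB n Cls (Cl B) (mk_cls n) (fun ν r r' y h hc => hc.mono h)
        (fun r _ y _ => cl_dense hS B r y) r (ltrans hr (h2 n))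
      exact ⟨(), r0, a1, trivial, ν, a2⟩)
  choose ν hν using fun n => (hν n).2
  exact hG' r0 (ltrans hr0 hq) (second hR hS hH hz B hY hYL ν r0
    (fun m => ltrans hr0 (ltrans (h2 m) (h1 m))) hν)

end Pool.Agent.MP_a45f51_lc.A62

end MrgPart2

-- marker of a merged file
example : 731051 + 611674 = 731051 + 611674 := rfl
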