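import Mathlib.Algebra.Group.Subgroup.Defs
import Mathlib.Algebra.Ring.CharZero
import Mathlib.SetTheory.Cardinal.Arithmetic
import Mathlib.Tactic.Monotonicity.Lemmas
import Pool.Agent.MP_a45f51_lc.h62.PhaseTwo
import Mathlib.Data.Finite.Defs
import Pool.Agent.Lib.helper92.ForcingDefs
import Mathlib.Data.Set.Card
import Mathlib.SetTheory.Cardinal.Regular
import Mathlib.Order.CompletePartialOrder
import Mathlib.SetTheory.ZFC.PSet
import Mathlib.Algebra.Order.Archimedean.Basic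
import Mathlib.Data.Set.Finite.Lattice
import Mathlib.Data.Finset.Sort
import Mathlib.Tactic.Order
import Mathlib.Algebra.Order.Ring.Star
import Pool.Agent.Lib.helper92.Forcing
import Mathlib.SetTheory.Cardinal.Pigeonhole
import Pool.Agent.MP_a45f51_lc.h62.IDefs
import Pool.Agent.Lib.helper77.ForcingModel

-- ======== part 0: formerly Pool.Agent.MP_a45f51_lc.h62.Cd
section MrgPart0

/-! PROJECT ARROW: the conditions, their order, gluing and automorphisms. -/

namespace Pool.Agent.MP_a45f51_lc.A62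

open Cardinal Set Pool.Agent.Forcing92

variable {Θ : Type}

/-- A condition: at most `κ` values and nested equivalence relations with small classes. -/
structure Cd (ty : Θ → ℕ) where
  v : Θ → Option Bool
  r : ℕ → Θ → Θ → Prop
  refl : ∀ i a, r i a a
  symm : ∀ {i a b}, r i a b → r i b a
  trans : ∀ {i a b c}, r i a b → r i b c → r i a c
  nest : ∀ {i a b}, r i a b → r (i + 1) a b
  cls : ∀ i a, #{b | r i a b} ≤ bt (i + 1)
  typ : ∀ {i a b}, r i a b → a = b ∨ ty a < i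
  sml : #{a | v a ≠ none ∨ ∃ i b, b ≠ a ∧ r i a b} ≤ kp

variable {ty : Θ → ℕ}

def Cd.supp (p : Cd ty) : Set Θ := {a | p.v a ≠ none ∨ ∃ i b, b ≠ a ∧ p.r i a b}

/-- `X` meets every class of level `i` in a set of size at most `β i` -/
def Sm (p : Cd ty) (i : ℕ) (X : Set Θ) : Prop := ∀ a, #{b | b ∈ X ∧ p.r i a b} ≤ bt i

/-- `q` extends `p` on the coordinates in `E` -/
structure LeOn (E : Set Θ) (q p : Cd ty) : Prop where
  val : ∀ a ∈ E, ∀ b, p.v a = some b → q.v a = some b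
  new : ∀ i, Sm p i {a | a ∈ E ∧ q.v a ≠ p.v a}
  fin : ∀ i X, X ⊆ E → Sm q i X → Sm p i X
  off : ∀ i, ∃ F, (∀ k, i < k → Sm p k F) ∧ ∀ X, X ⊆ E → Sm p i X → Sm q i (X \ F)

/-- `q` extends `p` -/
def Le (q p : Cd ty) : Prop := LeOn univ q p

/-- literal agreement on `E` -/
def Agree (E : Set Θ) (p q : Cd ty) : Prop :=
  (∀ a ∈ E, p.v a = q.v a) ∧ ∀ i, ∀ a ∈ E, ∀ b ∈ E, p.r i a b ↔ q.r i a b

theorem Cd.mk_supp (p : Cd ty) : #p.supp ≤ kp := p.sml

theorem Cd.nest_le (p : Cd ty) {i k : ℕ} (h : i ≤ k) {a b : Θ} (hr : p.r i a b) : p.r k a b := by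
  induction h with
  | refl => exact hr
  | step _ ih => exact p.nest ih

theorem Cd.eq_of_notMem_supp (p : Cd ty) {i : ℕ} {a b : Θ} (ha : a ∉ p.supp) (hr : p.r i a b) :
    b = a := by
  by_contra h
  exact ha (Or.inr ⟨i, b, h, hr⟩)

theorem Cd.v_of_notMem_supp (p : Cd ty) {a : Θ} (ha : a ∉ p.supp) : p.v a = none := by
  by_contra h
  exact ha (Or.inl h)

theorem mk_sub_le {α : Type} {c : Cardinal.{0}} {S T : Set α} (hT : #T ≤ c) (h : S ⊆ T) :
    #S ≤ c := (mk_le_mk_of_subset h).trans hT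

theorem mk_union_le_of {α : Type} {c : Cardinal.{0}} (hc : ℵ₀ ≤ c) {S T : Set α} (hS : #S ≤ c)
    (hT : #T ≤ c) : #(S ∪ T : Set α) ≤ c :=
  (mk_union_le S T).trans (add_le_of_le hc hS hT)

theorem mk_biUnion_le_of {α β : Type} {c : Cardinal.{0}} (hc : ℵ₀ ≤ c) {S : Set β}
    {t : β → Set α} (hS : #S ≤ c) (ht : ∀ b ∈ S, #(t b) ≤ c) :
    #(⋃ b ∈ S, t b : Set α) ≤ c :=
  (mk_biUnion_le t S).trans (mul_le_of_le hc hS (ciSup_le' fun b => ht b.1 b.2))

theorem mk_iUnion_le_of {α β : Type} {c : Cardinal.{0}} (hc : ℵ₀ ≤ c) {t : β → Set α}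
    (hS : #β ≤ c) (ht : ∀ b, #(t b) ≤ c) : #(⋃ b, t b : Set α) ≤ c :=
  (mk_iUnion_le t).trans (mul_le_of_le hc hS (ciSup_le' ht))

theorem mk_le_of_subsingleton {α : Type} {S : Set α} (h : S.Subsingleton) (i : ℕ) : #S ≤ bt i :=
  h.finite.lt_aleph0.le.trans (aleph0_le_bt i)

section Small

variable {p q : Cd ty} {i : ℕ} {X Y : Set Θ}

theorem Sm.mono (h : Sm p i Y) (hXY : X ⊆ Y) : Sm p i X := fun a =>
  mk_sub_le (h a) fun _ hb => ⟨hXY hb.1, hb.2⟩

theorem Sm.union (hX : Sm p i X) (hY : Sm p i Y) : Sm p i (X ∪ Y) := fun a => by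
  refine le_trans (mk_le_mk_of_subset ?_) (mk_union_le_of (aleph0_le_bt i) (hX a) (hY a))
  rintro b ⟨hb | hb, hr⟩
  · exact Or.inl ⟨hb, hr⟩
  · exact Or.inr ⟨hb, hr⟩

theorem Sm.iUnion {β : Type} {t : β → Set Θ} (hβ : #β ≤ bt i) (h : ∀ b, Sm p i (t b)) :
    Sm p i (⋃ b, t b) := fun a => by
  refine le_trans (mk_le_mk_of_subset ?_) (mk_iUnion_le_of (aleph0_le_bt i) hβ fun b => h b a)
  rintro c ⟨hc, hr⟩
  obtain ⟨b, hb⟩ := mem_iUnion.1 hc
  exact mem_iUnion.2 ⟨b, hb, hr⟩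

theorem sm_of_card (h : #X ≤ bt i) : Sm p i X := fun _ =>
  (mk_le_mk_of_subset fun _ hb => hb.1).trans h

theorem sm_empty : Sm p i ∅ := sm_of_card (by simp)

/-- it is enough to look at classes of points of `X` -/
theorem sm_of_mem (h : ∀ a ∈ X, #{b | b ∈ X ∧ p.r i a b} ≤ bt i) : Sm p i X := fun a => by
  rcases eq_empty_or_nonempty {b | b ∈ X ∧ p.r i a b} with he | ⟨c, hc, hr⟩
  · rw [he]; simp
  · exact mk_sub_le (h c hc) fun b hb => ⟨hb.1, p.trans (p.symm hr) hb.2⟩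

theorem sm_of_trivial (h : ∀ a ∈ X, ∀ b, p.r i a b → b = a) : Sm p i X :=
  sm_of_mem fun a ha => mk_le_of_subsingleton
    (fun b hb c hc => (h a ha b hb.2).trans (h a ha c hc.2).symm) i

theorem sm_of_disjoint (h : Disjoint X p.supp) : Sm p i X :=
  sm_of_trivial fun _ ha _ hr => p.eq_of_notMem_supp (disjoint_left.1 h ha) hr

theorem sm_of_ty (h : ∀ a ∈ X, i ≤ ty a) : Sm p i X :=
  sm_of_trivial fun a ha _ hr => (p.typ hr).elim Eq.symm fun h' => absurd (h a ha) (by omega)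

theorem Sm.of_rel (hX : Sm q i X) (h : ∀ a ∈ X, ∀ b ∈ X, p.r i a b → q.r i a b) : Sm p i X :=
  sm_of_mem fun a ha => mk_sub_le (hX a) fun b hb => ⟨hb.1, h a ha b hb.1 hb.2⟩

theorem Sm.card_le (hX : Sm p i X) {a : Θ} (h : ∀ b ∈ X, p.r i a b) : #X ≤ bt i :=
  mk_sub_le (hX a) fun b hb => ⟨hb, h b hb⟩

end Small

section Order

variable {E E' : Set Θ} {p q s : Cd ty}

theorem Agree.symm (h : Agree E p q) : Agree E q p :=
  ⟨fun a ha => (h.1 a ha).symm, fun i a ha b hb => (h.2 i a ha b hb).symm⟩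

theorem Agree.refl (E : Set Θ) (p : Cd ty) : Agree E p p :=
  ⟨fun _ _ => rfl, fun _ _ _ _ _ => Iff.rfl⟩

theorem Agree.trans (h : Agree E p q) (h' : Agree E q s) : Agree E p s :=
  ⟨fun a ha => (h.1 a ha).trans (h'.1 a ha),
    fun i a ha b hb => (h.2 i a ha b hb).trans (h'.2 i a ha b hb)⟩

theorem Agree.mono (h : Agree E p q) (hE : E' ⊆ E) : Agree E' p q :=
  ⟨fun a ha => h.1 a (hE ha), fun i a ha b hb => h.2 i a (hE ha) b (hE hb)⟩

/-- same values and same small sets -/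
theorem leOn_of_iff (hv : ∀ a ∈ E, q.v a = p.v a)
    (h : ∀ i X, X ⊆ E → (Sm q i X ↔ Sm p i X)) : LeOn E q p where
  val a ha _ hb := (hv a ha).trans hb
  new _ := sm_empty.mono fun a ha => ha.2 (hv a ha.1)
  fin i X hX := (h i X hX).1
  off i := ⟨∅, fun _ _ => sm_empty, fun X hX hs => ((h i X hX).2 hs).mono sdiff_subset⟩

theorem Agree.leOn (h : Agree E q p) : LeOn E q p :=
  leOn_of_iff h.1 fun i _ hX =>
    ⟨fun hs => hs.of_rel fun a ha b hb => (h.2 i a (hX ha) b (hX hb)).2,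
      fun hs => hs.of_rel fun a ha b hb => (h.2 i a (hX ha) b (hX hb)).1⟩

theorem LeOn.refl (E : Set Θ) (p : Cd ty) : LeOn E p p := (Agree.refl E p).leOn

theorem LeOn.mono (h : LeOn E q p) (hE : E' ⊆ E) : LeOn E' q p where
  val a ha := h.val a (hE ha)
  new i := (h.new i).mono fun _ ha => ⟨hE ha.1, ha.2⟩
  fin i X hX := h.fin i X (hX.trans hE)
  off i := let ⟨F, h1, h2⟩ := h.off i; ⟨F, h1, fun X hX => h2 X (hX.trans hE)⟩

theorem LeOn.trans (h : LeOn E s q) (h' : LeOn E q p) : LeOn E s p where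
  val a ha b hb := h.val a ha b (h'.val a ha b hb)
  new i := by
    refine ((h'.new i).union (h'.fin i _ (fun _ ha => ha.1) (h.new i))).mono fun a ha => ?_
    by_cases h1 : q.v a = p.v a
    · exact Or.inr ⟨ha.1, h1 ▸ ha.2⟩
    · exact Or.inl ⟨ha.1, h1⟩
  fin i X hX hs := h'.fin i X hX (h.fin i X hX hs)
  off i := by
    obtain ⟨F, h1, h2⟩ := h'.off i
    obtain ⟨F', h3, h4⟩ := h.off i
    refine ⟨F ∪ F' ∩ E, fun k hk => (h1 k hk).union
      (h'.fin k _ inter_subset_right ((h3 k hk).mono inter_subset_left)), fun X hX hs => ?_⟩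
    refine (h4 _ (sdiff_subset.trans hX) (h2 X hX hs)).mono fun a ha => ?_
    exact ⟨⟨ha.1, fun h => ha.2 (Or.inl h)⟩, fun h => ha.2 (Or.inr ⟨h, hX ha.1⟩)⟩

theorem LeOn.union (h : LeOn E q p) (h' : LeOn E' q p) : LeOn (E ∪ E') q p where
  val a ha := ha.elim (h.val a) (h'.val a)
  new i := ((h.new i).union (h'.new i)).mono fun a ha =>
    ha.1.elim (fun h => Or.inl ⟨h, ha.2⟩) fun h => Or.inr ⟨h, ha.2⟩
  fin i X hX hs := ((h.fin i _ inter_subset_right (hs.mono inter_subset_left)).union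
    (h'.fin i _ inter_subset_right (hs.mono inter_subset_left))).mono fun a ha =>
      (hX ha).elim (fun h => Or.inl ⟨ha, h⟩) fun h => Or.inr ⟨ha, h⟩
  off i := by
    obtain ⟨F, h1, h2⟩ := h.off i
    obtain ⟨F', h3, h4⟩ := h'.off i
    refine ⟨F ∪ F', fun k hk => (h1 k hk).union (h3 k hk), fun X hX hs => ?_⟩
    refine ((h2 _ inter_subset_right (hs.mono inter_subset_left)).union
      (h4 _ inter_subset_right (hs.mono inter_subset_left))).mono fun a ha => ?_
    rcases hX ha.1 with h | h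
    · exact Or.inl ⟨⟨ha.1, h⟩, fun h => ha.2 (Or.inl h)⟩
    · exact Or.inr ⟨⟨ha.1, h⟩, fun h => ha.2 (Or.inr h)⟩

/-- check the order on `E ∩ A` and on `E \ A` -/
theorem LeOn.split (A : Set Θ) (h : LeOn (E ∩ A) q p) (h' : LeOn (E \ A) q p) : LeOn E q p :=
  (h.union h').mono (inter_union_sdiff E A).symm.subset

theorem le_of_split (A : Set Θ) (h : LeOn A q p) (h' : LeOn Aᶜ q p) : Le q p :=
  (h.union h').mono (union_compl_self A).symm.subset

theorem Le.on (h : Le q p) (E : Set Θ) : LeOn E q p := LeOn.mono h (subset_univ E)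

theorem Le.refl (p : Cd ty) : Le p p := LeOn.refl _ p

theorem Le.trans (h : Le s q) (h' : Le q p) : Le s p := LeOn.trans h h'

instance : Pre (Le (ty := ty)) where
  refl := Le.refl
  trans := Le.trans

/-- outside the support of `p` everything extends `p` -/
theorem leOn_of_disjoint (h : Disjoint E p.supp) (q : Cd ty) : LeOn E q p where
  val a ha b hb := by
    rw [p.v_of_notMem_supp (disjoint_left.1 h ha)] at hb
    cases hb
  new i := sm_of_disjoint (h.mono_left fun _ ha => ha.1)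
  fin i X hX _ := sm_of_disjoint (h.mono_left hX)
  off i := ⟨E, fun _ _ => sm_of_disjoint h, fun X hX _ => sm_empty.mono fun _ ha => ha.2 (hX ha.1)⟩

theorem leOn_empty (q p : Cd ty) : LeOn ∅ q p := leOn_of_disjoint (empty_disjoint _) q

end Order

section Glue

open Classical in
/-- `a` on `E` and `b` off `E` -/
noncomputable def glue (E : Set Θ) (a b : Cd ty) : Cd ty where
  v x := if x ∈ E then a.v x else b.v x
  r i x y := (x ∈ E ∧ y ∈ E ∧ a.r i x y) ∨ (x ∉ E ∧ y ∉ E ∧ b.r i x y)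
  refl i x := by
    by_cases h : x ∈ E
    · exact Or.inl ⟨h, h, a.refl i x⟩
    · exact Or.inr ⟨h, h, b.refl i x⟩
  symm h := h.imp (fun h => ⟨h.2.1, h.1, a.symm h.2.2⟩) fun h => ⟨h.2.1, h.1, b.symm h.2.2⟩
  trans h h' := by
    rcases h with h | h <;> rcases h' with h' | h'
    · exact Or.inl ⟨h.1, h'.2.1, a.trans h.2.2 h'.2.2⟩
    · exact absurd h.2.1 h'.1
    · exact absurd h'.1 h.2.1
    · exact Or.inr ⟨h.1, h'.2.1, b.trans h.2.2 h'.2.2⟩
  nest h := h.imp (fun h => ⟨h.1, h.2.1, a.nest h.2.2⟩) fun h => ⟨h.1, h.2.1, b.nest h.2.2⟩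
  cls i x := mk_sub_le (mk_union_le_of (aleph0_le_bt _) (a.cls i x) (b.cls i x))
    fun _ hy => hy.imp (fun h => h.2.2) fun h => h.2.2
  typ h := h.elim (fun h => a.typ h.2.2) fun h => b.typ h.2.2
  sml := by
    refine mk_sub_le (mk_union_le_of aleph0_le_kp a.sml b.sml) ?_
    rintro x (hx | ⟨i, y, hy, h | h⟩)
    · by_cases h : x ∈ E
      · exact Or.inl (Or.inl (by simpa [h] using hx))
      · exact Or.inr (Or.inl (by simpa [h] using hx))
    · exact Or.inl (Or.inr ⟨i, y, hy, h.2.2⟩)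
    · exact Or.inr (Or.inr ⟨i, y, hy, h.2.2⟩)

/-- the trivial condition -/
def top (ty : Θ → ℕ) : Cd ty where
  v _ := none
  r _ x y := x = y
  refl _ _ := rfl
  symm h := h.symm
  trans h h' := h.trans h'
  nest h := h
  cls _ x := mk_le_of_subsingleton (fun _ hy _ hz => (Eq.symm hy).trans hz) _
  typ h := Or.inl h
  sml := by
    refine mk_sub_le (T := ∅) (by simp) ?_
    rintro x (hx | ⟨_, y, hy, h⟩)
    · exact hx rfl
    · exact hy h.symm

theorem supp_top : (top ty).supp = ∅ := by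
  refine eq_empty_of_forall_notMem ?_
  rintro x (hx | ⟨_, y, hy, h⟩)
  · exact hx rfl
  · exact hy (Eq.symm h)

theorem le_top (p : Cd ty) : Le p (top ty) :=
  leOn_of_disjoint (by rw [supp_top]; exact disjoint_empty _) p

variable {E A : Set Θ} {a b p q : Cd ty}

theorem glue_v_of_mem {x : Θ} (h : x ∈ E) : (glue E a b).v x = a.v x := if_pos h

theorem glue_v_of_notMem {x : Θ} (h : x ∉ E) : (glue E a b).v x = b.v x := if_neg h

theorem agree_glue_left (E : Set Θ) (a b : Cd ty) : Agree E (glue E a b) a :=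
  ⟨fun _ h => if_pos h, fun _ _ hx _ hy =>
    ⟨fun h => h.elim (fun h => h.2.2) fun h => absurd hx h.1, fun h => Or.inl ⟨hx, hy, h⟩⟩⟩

theorem agree_glue_right (E : Set Θ) (a b : Cd ty) : Agree Eᶜ (glue E a b) b :=
  ⟨fun _ h => if_neg h, fun _ _ hx _ hy =>
    ⟨fun h => h.elim (fun h => absurd h.1 hx) fun h => h.2.2, fun h => Or.inr ⟨hx, hy, h⟩⟩⟩

theorem glue_leOn_left (h : A ⊆ E) (a b : Cd ty) : LeOn A (glue E a b) a :=
  ((agree_glue_left E a b).mono h).leOn

theorem leOn_glue_left (h : A ⊆ E) (a b : Cd ty) : LeOn A a (glue E a b) :=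
  ((agree_glue_left E a b).mono h).symm.leOn

theorem glue_leOn_right (h : Disjoint A E) (a b : Cd ty) : LeOn A (glue E a b) b :=
  ((agree_glue_right E a b).mono h.subset_compl_right).leOn

theorem leOn_glue_right (h : Disjoint A E) (a b : Cd ty) : LeOn A b (glue E a b) :=
  ((agree_glue_right E a b).mono h.subset_compl_right).symm.leOn

theorem glue_leOn (h1 : LeOn (A ∩ E) a p) (h2 : LeOn (A \ E) b p) : LeOn A (glue E a b) p :=
  LeOn.split E ((glue_leOn_left inter_subset_right a b).trans h1)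
    ((glue_leOn_right disjoint_sdiff_left a b).trans h2)

theorem leOn_glue (h1 : LeOn (A ∩ E) q a) (h2 : LeOn (A \ E) q b) : LeOn A q (glue E a b) :=
  LeOn.split E (h1.trans (leOn_glue_left inter_subset_right a b))
    (h2.trans (leOn_glue_right disjoint_sdiff_left a b))

theorem glue_le (h1 : LeOn E a p) (h2 : LeOn Eᶜ b p) : Le (glue E a b) p :=
  glue_leOn (h1.mono inter_subset_right) (h2.mono fun _ h => h.2)

theorem le_glue (h1 : LeOn E q a) (h2 : LeOn Eᶜ q b) : Le q (glue E a b) :=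
  leOn_glue (h1.mono inter_subset_right) (h2.mono fun _ h => h.2)

theorem glue_le_glue {a' b' : Cd ty} (h1 : LeOn E a' a) (h2 : LeOn Eᶜ b' b) :
    Le (glue E a' b') (glue E a b) :=
  le_glue ((glue_leOn_left Subset.rfl _ _).trans h1)
    ((glue_leOn_right disjoint_compl_left _ _).trans h2)

/-- replace `p` on `E` by an extension -/
theorem glue_le_right (h : LeOn E a p) : Le (glue E a p) p := glue_le h (LeOn.refl _ p)

/-- replace `p` off `E` by an extension -/
theorem glue_le_left (h : LeOn Eᶜ b p) : Le (glue E p b) p := glue_le (LeOn.refl _ p) h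

theorem supp_glue (E : Set Θ) (a b : Cd ty) :
    (glue E a b).supp ⊆ E ∩ a.supp ∪ Eᶜ ∩ b.supp := by
  rintro x (hx | ⟨i, y, hy, h | h⟩)
  · by_cases h : x ∈ E
    · exact Or.inl ⟨h, Or.inl (by rwa [glue_v_of_mem h] at hx)⟩
    · exact Or.inr ⟨h, Or.inl (by rwa [glue_v_of_notMem h] at hx)⟩
  · exact Or.inl ⟨h.1, Or.inr ⟨i, y, hy, h.2.2⟩⟩
  · exact Or.inr ⟨h.1, Or.inr ⟨i, y, hy, h.2.2⟩⟩

/-- the restriction of `p` to `E` -/
noncomputable def res (E : Set Θ) (p : Cd ty) : Cd ty := glue E p (top ty)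

theorem supp_res (E : Set Θ) (p : Cd ty) : (res E p).supp ⊆ E ∩ p.supp := fun x hx => by
  rcases supp_glue E p (top ty) hx with h | h
  · exact h
  · rw [supp_top] at h
    exact h.2.elim

theorem agree_res (E : Set Θ) (p : Cd ty) : Agree E (res E p) p := agree_glue_left E p _

theorem Cd.ext' {p q : Cd ty} (hv : p.v = q.v) (hr : p.r = q.r) : p = q := by
  cases p
  cases q
  simp only at hv hr
  subst hv hr
  rfl

/-- few conditions live on a small set -/
theorem mk_supp_sub {c : Cardinal.{0}} (hc : ℵ₀ ≤ c) (hE : #E ≤ c) :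
    #{s : Cd ty | s.supp ⊆ E} ≤ 2 ^ c := by
  have h1 : #(Set ((E × Bool) ⊕ (ℕ × E × E))) ≤ 2 ^ c := by
    rw [mk_set]
    refine power_le_power_left two_ne_zero ?_
    simp only [mk_sum, mk_prod, lift_id, mk_nat, mk_fintype, Fintype.card_bool]
    exact add_le_of_le hc (mul_le_of_le hc hE (natCast_le_aleph0.trans hc))
      (mul_le_of_le hc hc (mul_le_of_le hc hE hE))
  refine le_trans (mk_le_of_injective (f := fun s : {s : Cd ty | s.supp ⊆ E} =>
    ({w | Sum.elim (fun x => s.1.v x.1.1 = some x.2) (fun x => s.1.r x.1 x.2.1.1 x.2.2.1) w} :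
      Set ((E × Bool) ⊕ (ℕ × E × E)))) ?_) h1
  rintro ⟨s, hs⟩ ⟨t, ht⟩ he
  have key : ∀ {s t : Cd ty}, s.supp ⊆ E → (∀ i (x y : E), s.r i x y → t.r i x y) →
      ∀ i x y, s.r i x y → t.r i x y := by
    intro s t hs h i x y hr
    by_cases hxy : y = x
    · exact hxy ▸ t.refl i y
    · exact h i ⟨x, hs (Or.inr ⟨i, y, hxy, hr⟩)⟩
        ⟨y, hs (Or.inr ⟨i, x, Ne.symm hxy, s.symm hr⟩)⟩ hr
  refine Subtype.ext (Cd.ext' (funext fun x => ?_) ?_)
  · by_cases hx : x ∈ E
    · exact Option.ext fun c => Set.ext_iff.1 he (Sum.inl (⟨x, hx⟩, c))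
    · exact (s.v_of_notMem_supp fun h => hx (hs h)).trans
        (t.v_of_notMem_supp fun h => hx (ht h)).symm
  · funext i x y
    exact propext ⟨key hs (fun i x y => (Set.ext_iff.1 he (Sum.inr (i, x, y))).1) i x y,
      key ht (fun i x y => (Set.ext_iff.1 he (Sum.inr (i, x, y))).2) i x y⟩

open Classical in
/-- amalgamation of `κ` many conditions on disjoint sets -/
theorem exists_amalgam {β : Type} (hβ : #β ≤ kp) (E : β → Set Θ)
    (hE : ∀ i j x, x ∈ E i → x ∈ E j → i = j) (c : β → Cd ty) :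
    ∃ u : Cd ty, ∀ i, Agree (E i) u (c i) := by
  refine ⟨⟨fun x => if h : ∃ i, x ∈ E i then (c h.choose).v x else none,
    fun k x y => x = y ∨ ∃ i, x ∈ E i ∧ y ∈ E i ∧ (c i).r k x y, fun _ _ => Or.inl rfl,
    fun h => h.imp Eq.symm fun ⟨i, h1, h2, h3⟩ => ⟨i, h2, h1, (c i).symm h3⟩, ?_,
    fun h => h.imp id fun ⟨i, h1, h2, h3⟩ => ⟨i, h1, h2, (c i).nest h3⟩, fun k x => ?_,
    fun h => h.elim Or.inl fun ⟨i, _, _, h3⟩ => (c i).typ h3, ?_⟩, fun i => ⟨fun x hx => ?_,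
      fun k x hx y hy => ⟨fun h => ?_, fun h => Or.inr ⟨i, hx, hy, h⟩⟩⟩⟩
  · rintro k x y z (rfl | ⟨i, h1, h2, h3⟩) (rfl | ⟨j, h4, h5, h6⟩)
    · exact Or.inl rfl
    · exact Or.inr ⟨j, h4, h5, h6⟩
    · exact Or.inr ⟨i, h1, h2, h3⟩
    · obtain rfl := hE i j y h2 h4
      exact Or.inr ⟨i, h1, h5, (c i).trans h3 h6⟩
  · by_cases h : ∃ i, x ∈ E i
    · obtain ⟨i, hi⟩ := h
      refine mk_sub_le ((c i).cls k x) ?_
      rintro y (rfl | ⟨j, h1, -, h3⟩)
      · exact (c i).refl k x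
      · exact hE j i x h1 hi ▸ h3
    · refine mk_le_of_subsingleton ?_ _
      rintro y (rfl | ⟨j, h1, -⟩) z (rfl | ⟨l, h2, -⟩)
      · rfl
      · exact absurd ⟨l, h2⟩ h
      · exact absurd ⟨j, h1⟩ h
      · exact absurd ⟨j, h1⟩ h
  · refine mk_sub_le (mk_iUnion_le_of aleph0_le_kp hβ fun i => (c i).mk_supp) ?_
    rintro x (hx | ⟨k, y, hy, rfl | ⟨i, -, -, h⟩⟩)
    · by_cases h : ∃ i, x ∈ E i
      · exact mem_iUnion.2 ⟨h.choose, Or.inl (by simpa [h] using hx)⟩
      · exact absurd (dif_neg h) hx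
    · exact absurd rfl hy
    · exact mem_iUnion.2 ⟨i, Or.inr ⟨k, y, hy, h⟩⟩
  · have h : ∃ i, x ∈ E i := ⟨i, hx⟩
    have := hE _ _ x h.choose_spec hx
    simp only [dif_pos h, this]
  · rcases h with rfl | ⟨j, h1, -, h3⟩
    · exact (c i).refl k x
    · exact hE j i x h1 hx ▸ h3

end Glue

section Perm

/-- permutations of the coordinates that keep the types -/
def TP (ty : Θ → ℕ) : Subgroup (Equiv.Perm Θ) where
  carrier := {σ | ∀ a, ty (σ a) = ty a}
  mul_mem' h h' a := (h _).trans (h' a)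
  one_mem' _ := rfl
  inv_mem' {σ} h a := by
    simpa using (h (σ⁻¹ a)).symm

/-- the automorphism induced by a permutation -/
def pm (σ : TP ty) (p : Cd ty) : Cd ty where
  v x := p.v (σ.1⁻¹ x)
  r i x y := p.r i (σ.1⁻¹ x) (σ.1⁻¹ y)
  refl i _ := p.refl i _
  symm h := p.symm h
  trans h h' := p.trans h h'
  nest h := p.nest h
  cls i x := (mk_preimage_of_injective _ {b | p.r i (σ.1⁻¹ x) b} (σ.1⁻¹).injective).trans
    (p.cls i _)
  typ h := (p.typ h).imp (fun h => (σ.1⁻¹).injective h) fun h => (σ⁻¹).2 _ ▸ h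
  sml := by
    refine mk_sub_le ((mk_preimage_of_injective _ p.supp (σ.1⁻¹).injective).trans p.mk_supp) ?_
    rintro x (hx | ⟨i, y, hy, h⟩)
    · exact Or.inl hx
    · exact Or.inr ⟨i, _, fun h => hy ((σ.1⁻¹).injective h), h⟩

variable {σ τ : TP ty} {p q : Cd ty} {E : Set Θ}

theorem pm_one (p : Cd ty) : pm 1 p = p := rfl

theorem pm_mul (σ τ : TP ty) (p : Cd ty) : pm (σ * τ) p = pm σ (pm τ p) := rfl

theorem pm_pm_inv (σ : TP ty) (p : Cd ty) : pm σ (pm σ⁻¹ p) = p := by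
  rw [← pm_mul, mul_inv_cancel, pm_one]

theorem pm_inv_pm (σ : TP ty) (p : Cd ty) : pm σ⁻¹ (pm σ p) = p := by
  rw [← pm_mul, inv_mul_cancel, pm_one]

theorem mem_supp_pm {x : Θ} (h : x ∈ (pm σ p).supp) : σ.1⁻¹ x ∈ p.supp :=
  h.imp id fun ⟨i, _, hy, h⟩ => ⟨i, _, fun h => hy ((σ.1⁻¹).injective h), h⟩

theorem sm_pm {i : ℕ} {X : Set Θ} : Sm (pm σ p) i X ↔ Sm p i (σ.1 ⁻¹' X) := by
  refine ⟨fun h a => le_trans ?_ (h (σ.1 a)), fun h a => le_trans ?_ (h (σ.1⁻¹ a))⟩
  · refine le_trans (mk_le_mk_of_subset fun b hb => ?_)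
      (mk_preimage_of_injective σ.1 _ σ.1.injective)
    exact ⟨hb.1, by simpa [pm] using hb.2⟩
  · refine le_trans (mk_le_mk_of_subset fun b hb => ?_)
      (mk_preimage_of_injective (σ.1⁻¹ : Equiv.Perm Θ) _ (σ.1⁻¹).injective)
    exact ⟨by simpa using hb.1, hb.2⟩

/-- the automorphism carries the order on `σ⁻¹ E` to the order on `E` -/
theorem LeOn.pm (σ : TP ty) (h : LeOn (σ.1 ⁻¹' E) q p) : LeOn E (pm σ q) (pm σ p) where
  val a ha b hb := h.val (σ.1⁻¹ a) (by simpa using ha) b hb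
  new i := sm_pm.2 ((h.new i).mono fun a ha => ⟨ha.1, by simpa [A62.pm] using ha.2⟩)
  fin i X hX hs := sm_pm.2 (h.fin i _ (preimage_mono hX) (sm_pm.1 hs))
  off i := by
    obtain ⟨F, h1, h2⟩ := h.off i
    refine ⟨(σ.1⁻¹ : Equiv.Perm Θ) ⁻¹' F, fun k hk => sm_pm.2 ((h1 k hk).mono fun a ha => ?_),
      fun X hX hs => sm_pm.2 ((h2 _ (preimage_mono hX) (sm_pm.1 hs)).mono fun a ha => ?_)⟩
    · simpa using ha
    · exact ⟨ha.1, by simpa using ha.2⟩

theorem Le.pm (σ : TP ty) (h : Le q p) : Le (pm σ q) (pm σ p) := LeOn.pm σ (h.on _)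

theorem Agree.pm (σ : TP ty) (h : Agree (σ.1 ⁻¹' E) q p) : Agree E (pm σ q) (pm σ p) :=
  ⟨fun a ha => h.1 (σ.1⁻¹ a) (by simpa using ha),
    fun i a ha b hb => h.2 i _ (by simpa using ha) _ (by simpa using hb)⟩

theorem agree_pm_congr (h : ∀ a ∈ E, σ.1⁻¹ a = τ.1⁻¹ a) (p : Cd ty) :
    Agree E (pm σ p) (pm τ p) :=
  ⟨fun a ha => congrArg p.v (h a ha), fun i a ha b hb => by
    show p.r i _ _ ↔ p.r i _ _
    rw [h a ha, h b hb]⟩

theorem agree_pm_fix (h : ∀ a ∈ E, σ.1 a = a) (p : Cd ty) : Agree E (pm σ p) p :=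
  agree_pm_congr (τ := 1) (fun a ha => Equiv.Perm.inv_eq_iff_eq.2 (h a ha).symm) p

end Perm

end Pool.Agent.MP_a45f51_lc.A62

end MrgPart0

-- ======== part 1: formerly Pool.Agent.MP_a45f51_lc.h62.Spec1
section MrgPart1

/-! PROJECT ARROW: statements about the forcing `Cd ty`. -/

namespace Pool.Agent.MP_a45f51_lc.A62

open Cardinal Set Pool.Agent.Forcing92

/-- conditions with towers at level `j` -/
structure TSys {Θ : Type} (ty : Θ → ℕ) (j : ℕ) where
  T : Type
  S : CSys (bt (j + 1)) T Θ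
  val : T → Cd ty
  start : ∀ q, ∃ t, Le (val t) q
  le : ∀ {t t'}, S.st t' t → Le (val t') (val t)
  pure : ∀ {t t'}, S.st t' t → LeOn (S.tr t) (val t) (val t')
  low : ∀ t, ∀ a ∈ S.tr t, ty a < j
  norm : ∀ t q, Le q (val t) → ∃ t', S.st t' t ∧ LeOn (S.tr t)ᶜ (val t') q
  red : ∀ t q, Le q (val t) → ∃ E ⊆ S.tr t, #E ≤ bt j ∧ LeOn (S.tr t \ E) (val t) q

def TowerStmt : Prop := ∀ (Θ : Type) (ty : Θ → ℕ) (j : ℕ), Nonempty (TSys ty j)

def MasterStmt : Prop :=
  ∀ (Θ : Type) (ty : Θ → ℕ) (j : ℕ), 1 ≤ j → Master (Le (ty := ty)) (bt j) (bt (j + 1))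

def LemCStmt : Prop :=
  ∀ (Θ : Type) (ty : Θ → ℕ) (j : ℕ), 1 ≤ j → LemC (Le (ty := ty)) (bt (j + 1))

def SigmaStmt : Prop := ∀ (Θ : Type) (ty : Θ → ℕ), Sigma (Le (ty := ty))

/-- one condition on the high coordinates `E` decides many statements modulo the rest -/
def SplitStmt : Prop :=
  ∀ (Θ : Type) (ty : Θ → ℕ) (j : ℕ) (TS : TSys ty j) (E : Set Θ) (ι : Type)
    (U : ι → Cd ty → Prop), 1 ≤ j → (∀ a ∈ E, j ≤ ty a) → #ι ≤ bt (j + 1) →
    (∀ i q q', Le q' q → U i q → U i q') → ∀ p t, ∃ p' t', Le p' p ∧ TS.S.st t' t ∧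
      ∀ i q, Le q p' → ∃ q', Le q' q ∧
        (U i (glue E (TS.val t') q') ∨ One Le (U i) (glue E (TS.val t') q'))

/-- the property `W` depends only on the coordinates in `M` -/
def Supp {Θ : Type} {ty : Θ → ℕ} (W : Cd ty → Prop) (M : Set Θ) : Prop :=
  ∀ q q', LeOn M q' q → W q → W q'

def SuppStmt : Prop :=
  ∀ (Θ : Type) (ty : Θ → ℕ) (W : Cd ty → Prop), (∀ p q, Le q p → W p → W q) →
    (∀ p, (∀ q, Le q p → ∃ r, Le r q ∧ W r) → W p) → ∃ M : Set Θ, #M ≤ 2 ^ kp ∧ Supp W M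

def CCStmt : Prop :=
  ∀ (Θ : Type) (ty : Θ → ℕ) (A : Type) (p : A → Cd ty), 2 ^ kp < #A →
    ∃ a b, a ≠ b ∧ ∃ r, Le r (p a) ∧ Le r (p b)

/-- `lam` is a strong limit cardinal above `κ` -/
structure SL (lam : Cardinal.{0}) : Prop where
  pow : ∀ ν < lam, 2 ^ ν < lam
  kp_lt : kp < lam

/-- there are fewer than `lam` coordinates of each type -/
structure Big {Θ : Type} (ty : Θ → ℕ) (lam : Cardinal.{0}) : Prop extends SL lam where
  low : ∀ k, #{a | ty a < k} < lam

section Canon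

variable {Θ Λ : Type} {ty : Θ → ℕ} [LinearOrder Λ]

/-- the colouring is canonical on `H` over the parameters `Par` -/
structure Canon (C : Colr (Le (ty := ty)) Λ) (k : ℕ) (Par H : Set Λ) where
  car : Θ → Finset Λ
  σ : Equiv.Perm Λ → TP ty
  act : Act H car fun g => (σ g).1
  disj : Disjoint Par H
  high : ∀ a, (car a).Nonempty → k ≤ ty a
  sup : ∀ x ∈ Par ∪ H, ∀ y ∈ Par ∪ H, ∀ z ∈ Par ∪ H,
    Supp (C.Z x y z) {a | ∀ u ∈ car a, u = x ∨ u = y ∨ u = z}
  inv : ∀ g, Fix H g → ∀ x ∈ Par ∪ H, ∀ y ∈ Par ∪ H, ∀ z ∈ Par ∪ H,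
    StrictMonoOn g ({x, y, z} ∩ H) →
      ∀ q, C.Z x y z q ↔ C.Z (g x) (g y) (g z) (pm (σ g) q)

variable {C : Colr (Le (ty := ty)) Λ} {k : ℕ} {Par H : Set Λ}

def Canon.Root (K : Canon C k Par H) : Set Θ := {a | K.car a = ∅}

def Canon.Pet (K : Canon C k Par H) (y : Λ) : Set Θ := {a | K.car a = {y}}

/-- the automorphism that exchanges the points `y` and `y'` -/
def Canon.sw (K : Canon C k Par H) (y y' : Λ) (p : Cd ty) : Cd ty :=
  pm (K.σ (Equiv.swap y y')) p

/-- `d` forces the colour 0 on `{u, a, b}` for `u ∈ X` and on `{a, b, z m}` for `m ∈ ρ` -/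
def Tmpl (C : Colr (Le (ty := ty)) Λ) (z : ℕ → Λ) (X : Set Λ) (ρ : Set ℕ) (a b : Λ)
    (d : Cd ty) : Prop :=
  (∀ u ∈ X, C.Z u a b d) ∧ ∀ m ∈ ρ, C.Z a b (z m) d

/-- the first half of a stage -/
structure Pre1 (K : Canon C k Par H) (TS : TSys ty k) (L : Set Λ) (z0 : Λ) (z : ℕ → Λ)
    (q : Cd ty) where
  B : Base C L z0 z q
  Lo : Set Λ
  ys : Λ
  t0 : TS.T
  Lo_sub : Lo ⊆ H
  ys_mem : ys ∈ H
  Lo_lt : ∀ y ∈ Lo, y < ys
  fresh : ∀ A : Set Λ, #A ≤ kp → ∃ y ∈ Lo, y ∉ A ∧ ∀ a ∈ A, a ∈ Lo → a < y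
  pt : ∀ r, ∀ y ∈ Lo, LeOn (K.Pet y) r (K.sw y ys (TS.val t0)) → B.Pt r y
  rel : ∀ r, Le r q → ∀ X ⊆ L, ∀ t, (∀ u ∈ X, B.N t u r) → ∀ y ∈ Lo, ∀ w,
    LeOn (K.Pet ys) w (TS.val t0) → ∃ d, LeOn K.Root d r ∧ LeOn (K.Pet ys) d w ∧
      LeOn (K.Pet y) d (K.sw y ys w) ∧ Tmpl C z X (B.ρ t) y ys d

end Canon

def CanonStmt : Prop :=
  ∀ (Θ Λ : Type) (ty : Θ → ℕ) [LinearOrder Λ] [WellFoundedLT Λ] (lam : Cardinal.{0})
    (C : Colr (Le (ty := ty)) Λ), Big ty lam → ∀ (k : ℕ) (μ ν : Cardinal.{0}), ℵ₀ ≤ μ →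
    μ < lam → ν < lam → ∃ ν' < lam, ∀ Par B : Set Λ, #Par ≤ ν → Disjoint Par B → ν' ≤ #B →
      ∃ H ⊆ B, #H = μ ∧ Nonempty (Canon C k Par H)

def PhasesStmt : Prop :=
  ∀ (Θ Λ : Type) (ty : Θ → ℕ) [LinearOrder Λ] [WellFoundedLT Λ] (lam : Cardinal.{0})
    (C : Colr (Le (ty := ty)) Λ), Big ty lam → lam ≤ #Λ →
    ∃ (B H : ℕ → Set Λ) (z : ℕ → Λ), ∀ m, z m ∈ B m ∧ H m ⊆ B m ∧
      Order.succ kp < #(H m) ∧ Nonempty (Canon C (m + 2) (⋃ i < m, B i) (B m)) ∧
      Nonempty (Canon C (m + 2) ((⋃ i < m, B i) ∪ range z) (H m))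

def StageAStmt : Prop :=
  ∀ (Θ Λ : Type) (ty : Θ → ℕ) [LinearOrder Λ] [WellFoundedLT Λ] (C : Colr (Le (ty := ty)) Λ)
    (j : ℕ) (Pa Ba Pb H L : Set Λ) (z0 : Λ) (z : ℕ → Λ) (_ : Canon C j Pa Ba)
    (K : Canon C j Pb H) (TS : TSys ty j), 1 ≤ j → #L ≤ bt j → L ⊆ Pa → L ⊆ Pb → z0 ∈ Ba →
    z0 ∈ Pb → (∀ m, z m ∈ Pb) → H ⊆ Ba → Order.succ kp < #H →
    ∀ q0, Goal C q0 ∨ ∃ q, Le q q0 ∧ Nonempty (Pre1 K TS L z0 z q)

def StageBStmt : Prop :=
  ∀ (Θ Λ : Type) (ty : Θ → ℕ) [LinearOrder Λ] (C : Colr (Le (ty := ty)) Λ)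
    (j : ℕ) (Pb H L : Set Λ) (z0 : Λ) (z : ℕ → Λ) (K : Canon C j Pb H) (TS : TSys ty j)
    (q : Cd ty) (A : Pre1 K TS L z0 z q), 2 ≤ j → #L ≤ bt j → L ⊆ Pb → (∀ m, z m ∈ Pb) →
    ∃ q' Y, Le q' q ∧ Y ⊆ H ∧ #Y ≤ bt (j + 1) ∧ Block A.B j Y q'

/-- the combinatorial theorem behind the positive relation -/
def MainStmt : Prop :=
  ∀ (Θ Λ : Type) (ty : Θ → ℕ) (lam : Cardinal.{0}), Big ty lam → lam ≤ #Λ →
    ∀ (C : Colr (Le (ty := ty)) Λ) (p0 : Cd ty), Goal C p0

theorem main_of (h1 : TowerStmt) (h2 : SigmaStmt) (h3 : PhasesStmt) (h4 : StageAStmt)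
    (h5 : StageBStmt) (h6 : PhaseTwoStmt) : MainStmt := by
  intro Θ Λ ty lam hb hl C p0
  obtain ⟨i1, i2⟩ := exists_wellFoundedLT Λ
  obtain ⟨B, H, z, h⟩ := h3 Θ Λ ty lam C hb hl
  choose hz hH hc KA KB using h
  refine h6 _ Λ Le C H z (h2 Θ ty) (fun i m him => ?_) (fun i m hm => ?_)
    (fun m L q hL hLc => ?_) p0
  · obtain ⟨K⟩ := KA m
    exact K.disj.mono ((hH i).trans (subset_biUnion_of_mem (u := B) (s := {i | i < m}) him))
      (hH m)
  · obtain ⟨K⟩ := KB i
    exact disjoint_left.1 K.disj (Or.inr ⟨m, rfl⟩) hm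
  · obtain ⟨Ka⟩ := KA m
    obtain ⟨K⟩ := KB m
    obtain ⟨TS⟩ := h1 Θ ty (m + 2)
    have hLB : L ⊆ ⋃ i < m, B i := hL.trans (iUnion₂_mono fun i _ => hH i)
    have hLP : L ⊆ (⋃ i < m, B i) ∪ range z := hLB.trans subset_union_left
    have hzP : ∀ n, z n ∈ (⋃ i < m, B i) ∪ range z := fun n => Or.inr ⟨n, rfl⟩
    rcases h4 Θ Λ ty C (m + 2) _ _ _ _ L (z m) z Ka K TS (by omega) hLc hLB hLP (hz m) (hzP m)
      hzP (hH m) (hc m) q with hg | ⟨q1, hq1, ⟨A⟩⟩
    · exact Or.inl hg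
    · obtain ⟨q2, Y, hq2, hY⟩ := h5 Θ Λ ty C (m + 2) _ _ L (z m) z K TS q1 A (by omega) hLc hLP hzP
      exact Or.inr ⟨q1, q2, hq2, hq1, A.B, Y, hY⟩

end Pool.Agent.MP_a45f51_lc.A62

end MrgPart1

-- ======== part 2: formerly Pool.Agent.MP_a45f51_lc.FDefs
section MrgPart2

/-! The sentence of set theory and the Cohen poset used in the hand-in `CohenNegative`. -/

namespace Pool.Agent.MP_a45f51_lc

open Pool.Agent.Forcing92 Pool.Agent.Forcing92.Fml

variable {V : Type 1}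

/-- `k` is an ordinal: transitive and linearly ordered by membership -/
def ordl (k : V) : Fml V :=
  and (allIn k fun a => sub a k)
    (allIn k fun a => allIn k fun b => or (mem a b) (or (eq a b) (mem b a)))

/-- some one-to-one function sends every element of `A` to a set with property `B` -/
def leq (A : V) (B : V → Fml V) : Fml V :=
  ex fun f => and (allIn A fun x => ex fun y => and (B y) (app f x y))
    (all fun x => all fun x' => all fun y => all fun y' =>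
      imp (app f x y) (imp (app f x' y') (iff (eq x x') (eq y y'))))

/-- `a` is nonempty and has no largest element -/
def lim (a : V) : Fml V :=
  and (exIn a fun b => eq b b) (allIn a fun b => exIn a fun c => mem b c)

/-- for an ordinal `k`: `k` is an uncountable limit cardinal -/
def limc (k : V) : Fml V :=
  and (exIn k lim) (allIn k fun a => exIn k fun b => neg (leq b fun y => mem y a))

/-- `k` is the least uncountable limit cardinal -/
def alephW (k : V) : Fml V := and (ordl k) (and (limc k) (allIn k fun b => neg (limc b)))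

/-- `L` is the set of bounded subsets of `k` -/
def bdd (k L : V) : Fml V := all fun x => iff (mem x L) (exIn k fun a => sub x a)

/-- `{x, y, z} ∈ c` -/
def tri (c x y z : V) : Fml V :=
  exIn c fun t => all fun u => iff (mem u t) (or (eq u x) (or (eq u y) (eq u z)))

/-- `x`, `y`, `z` are distinct -/
def dis (x y z : V) : Fml V := and (neg (eq x y)) (and (neg (eq x z)) (neg (eq y z)))

/-- the negative relation `|L| ↛ (|k|, 4)^3`; `c` is the class of triples of colour 1 -/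
def noArrow (L k : V) : Fml V :=
  ex fun c => and
    (all fun X => imp (sub X L) (imp (leq k fun y => mem y X)
      (exIn X fun x => exIn X fun y => exIn X fun z => and (dis x y z) (tri c x y z))))
    (neg (exIn L fun x => exIn L fun y => exIn L fun z => exIn L fun w =>
      and (and (dis x y z) (and (dis x y w) (neg (eq z w))))
        (and (tri c x y z) (and (tri c x y w) (and (tri c x z w) (tri c y z w))))))

/-- `k = ℵ_ω`, `L` is the set of bounded subsets of `k`, `k < |L|`, `2 ^ |a| < |L|` for all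
`a < k`, and `|L| ↛ (k, 4)^3` -/
def sentence : Fml V :=
  ex fun k => ex fun L => and (alephW k) (and (bdd k L)
    (and (neg (leq L fun y => mem y k))
      (and (allIn k fun a => neg (leq L fun y => sub y a)) (noArrow L k))))

/-- conditions of Cohen forcing: finite functions from a subset of `ι × ℕ` to `2` -/
def Cond (ι : Type) : Type := {p : ι × ℕ → Option Bool // {i | p i ≠ none}.Finite}

/-- `q` extends `p` -/
def cle (ι : Type) (q p : Cond ι) : Prop := ∀ i b, p.1 i = some b → q.1 i = some b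

end Pool.Agent.MP_a45f51_lc

end MrgPart2

-- ======== part 3: formerly Pool.Agent.MP_a45f51_lc.FKnaster
section MrgPart3

/-! Chain conditions for Cohen forcing and a lemma on first differences. -/

namespace Pool.Agent.MP_a45f51_lc

open Cardinal Set

section Small

variable {ν : Cardinal.{0}} {α β : Type}

theorem small_mono {S T : Set α} (h : S ⊆ T) (hT : #T < ν) : #S < ν :=
  (mk_le_mk_of_subset h).trans_lt hT

theorem small_union (hν : ν.IsRegular) {S T : Set α} (hS : #S < ν) (hT : #T < ν) :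
    #(S ∪ T : Set α) < ν :=
  (mk_union_le S T).trans_lt (add_lt_of_lt hν.aleph0_le hS hT)

theorem small_biUnion (hν : ν.IsRegular) {S : Set β} {t : β → Set α} (hS : #S < ν)
    (ht : ∀ b ∈ S, #(t b) < ν) : #(⋃ b ∈ S, t b : Set α) < ν :=
  (card_biUnion_lt_iff_forall_of_isRegular (t := fun b _ => t b) hν hS).2 ht

theorem small_finite (hν : ν.IsRegular) {S : Set α} (hS : S.Finite) : #S < ν :=
  hS.lt_aleph0.trans_le hν.aleph0_le

/-- pigeonhole -/
theorem big_fiber (hν : ν.IsRegular) {T : Set α} (hT : ¬ #T < ν) {S : Set β} (hS : #S < ν)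
    (f : α → β) (hf : ∀ x ∈ T, f x ∈ S) : ∃ b ∈ S, ¬ #{x | x ∈ T ∧ f x = b} < ν := by
  by_contra hn
  push Not at hn
  refine hT (small_mono ?_ (small_biUnion hν hS hn))
  intro x hx
  simp only [mem_iUnion, mem_ofPred_eq]
  exact ⟨f x, hf x hx, hx, rfl⟩

theorem big_diff (_hν : ν.IsRegular) {T S : Set α} (hT : ¬ #T < ν) (hS : #S < ν) :
    ∃ x ∈ T, x ∉ S := by
  by_contra hn
  push Not at hn
  exact hT (small_mono hn hS)

end Small

section Knaster

variable {ν : Cardinal.{0}} {α I : Type}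

/-- two finite functions agree where both are defined -/
def Cmp (p q : I → Option Bool) : Prop := ∀ i b b', p i = some b → q i = some b' → b = b'

theorem Cmp.symm {p q : I → Option Bool} (h : Cmp p q) : Cmp q p :=
  fun i b b' h1 h2 => (h i b' b h2 h1).symm

theorem knaster_aux (hν : ν.IsRegular) (n : ℕ) :
    ∀ (T : Set α) (r : α → I → Option Bool), ¬ #T < ν →
      (∀ x ∈ T, {i | r x i ≠ none}.Finite ∧ {i | r x i ≠ none}.ncard ≤ n) →
      ∃ T' ⊆ T, ¬ #T' < ν ∧ ∀ x ∈ T', ∀ y ∈ T', Cmp (r x) (r y) := by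
  classical
  induction n with
  | zero =>
    intro T r hT h
    refine ⟨T, Subset.rfl, hT, fun x hx y _ i b b' h1 _ => ?_⟩
    have h0 := (ncard_eq_zero (h x hx).1).1 (Nat.le_zero.1 (h x hx).2)
    have : i ∈ {i | r x i ≠ none} := by simp [h1]
    rw [h0] at this
    exact this.elim
  | succ n ih =>
    intro T r hT h
    by_cases hc : ∃ i, ¬ #{x | x ∈ T ∧ r x i ≠ none} < ν
    · obtain ⟨i, hi⟩ := hc
      obtain ⟨b, -, hb⟩ := big_fiber hν hi (S := (univ : Set (Option Bool)))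
        (small_finite hν finite_univ) (fun x => r x i) (fun _ _ => mem_univ _)
      obtain ⟨T', hT', hbig, hcmp⟩ := ih _ (fun x => Function.update (r x) i none) hb (by
        rintro x ⟨⟨hx, hxi⟩, -⟩
        have he : {j | Function.update (r x) i none j ≠ none} = {j | r x j ≠ none} \ {i} := by
          ext j
          by_cases hj : j = i
          · subst hj; simp
          · simp [hj]
        rw [he]
        refine ⟨(h x hx).1.subset sdiff_subset, ?_⟩
        have := ncard_sdiff_singleton_add_one (s := {j | r x j ≠ none}) (a := i) hxi (h x hx).1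
        have := (h x hx).2
        omega)
      refine ⟨T', fun x hx => (hT' hx).1.1, hbig, fun x hx y hy j c c' h1 h2 => ?_⟩
      by_cases hj : j = i
      · subst hj
        have e1 := (hT' hx).2
        have e2 := (hT' hy).2
        rw [h1] at e1
        rw [h2, ← e1] at e2
        exact (Option.some.inj e2).symm
      · exact hcmp x hx y hy j c c' (by simp [Function.update_of_ne hj, h1])
          (by simp [Function.update_of_ne hj, h2])
    · push Not at hc
      obtain ⟨T', hmax⟩ := zorn_subset {S : Set α | S ⊆ T ∧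
          S.Pairwise fun x y => ∀ i, r x i = none ∨ r y i = none} (by
        intro c hc hch
        refine ⟨⋃₀ c, ⟨sUnion_subset fun S hS => (hc hS).1, ?_⟩, fun S hS => subset_sUnion_of_mem hS⟩
        rintro x ⟨S, hS, hx⟩ y ⟨S', hS', hy⟩ hxy
        rcases hch.total hS hS' with h' | h'
        · exact (hc hS').2 (h' hx) hy hxy
        · exact (hc hS).2 hx (h' hy) hxy)
      refine ⟨T', hmax.prop.1, fun hs => hT ?_, fun x hx y hy i b b' h1 h2 => ?_⟩
      · have hU : #(⋃ y ∈ T', {i | r y i ≠ none} : Set I) < ν :=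
          small_biUnion hν hs fun y hy => small_finite hν (h y (hmax.prop.1 hy)).1
        refine small_mono ?_ (small_union hν hs (small_biUnion hν hU fun i _ => hc i))
        intro x hx
        by_contra hn
        simp only [mem_union, mem_iUnion, mem_ofPred_eq, not_or, not_exists, not_and] at hn
        have hins : insert x T' ∈ {S : Set α | S ⊆ T ∧
            S.Pairwise fun x y => ∀ i, r x i = none ∨ r y i = none} := by
          refine ⟨insert_subset hx hmax.prop.1, ?_⟩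
          refine hmax.prop.2.insert_of_notMem hn.1 fun y hy => ?_
          have key : ∀ i, r x i = none ∨ r y i = none := by
            intro i
            by_contra hh
            push Not at hh
            exact hn.2 i ⟨y, hy, hh.2⟩ hx hh.1
          exact ⟨key, fun i => (key i).symm⟩
        exact hn.1 (hmax.le_of_ge hins (subset_insert _ _) (mem_insert _ _))
      · by_cases hxy : x = y
        · subst hxy
          rw [h1] at h2
          exact Option.some.inj h2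
        · rcases hmax.prop.2 hx hy hxy i with h' | h'
          · rw [h1] at h'; cases h'
          · rw [h2] at h'; cases h'

theorem knaster (hν : ν.IsRegular) (hu : ℵ₀ < ν) {T : Set α} (r : α → I → Option Bool)
    (hT : ¬ #T < ν) (h : ∀ x, {i | r x i ≠ none}.Finite) :
    ∃ T' ⊆ T, ¬ #T' < ν ∧ ∀ x ∈ T', ∀ y ∈ T', Cmp (r x) (r y) := by
  obtain ⟨n, -, hn⟩ := big_fiber hν hT (S := (univ : Set ℕ)) (by simpa using hu)
    (fun x => {i | r x i ≠ none}.ncard) (fun _ _ => mem_univ _)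
  obtain ⟨T', hT', h1, h2⟩ := knaster_aux hν n _ r hn fun x hx => ⟨h x, hx.2.le⟩
  exact ⟨T', fun x hx => (hT' hx).1, h1, h2⟩

end Knaster

section Tree

variable {ν : Cardinal.{0}} {α K : Type} [LinearOrder K] [Nonempty K]

/-- Lemma on first differences. -/
theorem tree_lemma (hν : ν.IsRegular) (lt : α → α → Prop) (g : α → K → Bool) (δ : α → α → K)
    {T : Set α} (hT : ¬ #T < ν) (hini : ∀ x ∈ T, #{y | y ∈ T ∧ ¬ lt x y} < ν)
    (hδ : ∀ x ∈ T, ∀ y ∈ T, lt x y → g x (δ x y) ≠ g y (δ x y) ∧ ∀ b < δ x y, g x b = g y b)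
    {S : Set K} (hS : #S < ν) (hTS : ∀ x ∈ T, ∀ y ∈ T, lt x y → δ x y ∈ S) :
    ∃ x ∈ T, ∃ y ∈ T, ∃ z ∈ T, lt x y ∧ lt y z ∧ δ x y = δ y z := by
  by_contra hn
  push Not at hn
  -- elements above `x`
  have habove : ∀ x ∈ T, ¬ #{y | y ∈ T ∧ lt x y} < ν := by
    intro x hx hs
    refine hT (small_mono ?_ (small_union hν hs (hini x hx)))
    intro y hy
    by_cases h : lt x y
    · exact Or.inl ⟨hy, h⟩
    · exact Or.inr ⟨hy, h⟩
  have hex : ∀ x ∈ T, ∃ d ∈ S, ¬ #{y | (y ∈ T ∧ lt x y) ∧ δ x y = d} < ν := fun x hx =>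
    big_fiber hν (habove x hx) hS (δ x) fun y hy => hTS x hx y hy.1 hy.2
  have huniq : ∀ x ∈ T, ∀ d d', d < d' → ¬ #{y | (y ∈ T ∧ lt x y) ∧ δ x y = d} < ν →
      #{y | (y ∈ T ∧ lt x y) ∧ δ x y = d'} < ν := by
    intro x hx d d' hd h1
    by_contra h2
    obtain ⟨y, ⟨⟨hy, hxy⟩, hyd⟩, -⟩ := big_diff hν h1 (small_finite hν finite_empty)
    obtain ⟨z, ⟨⟨hz, hxz⟩, hzd⟩, hz'⟩ := big_diff hν h2 (hini y hy)
    have hyz : lt y z := by
      by_contra hh
      exact hz' ⟨hz, hh⟩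
    refine hn x hx y hy z hz hxy hyz ?_
    have a1 := hδ x hx y hy hxy
    have a2 := hδ x hx z hz hxz
    have a3 := hδ y hy z hz hyz
    rw [hyd] at a1 ⊢
    rw [hzd] at a2
    rcases lt_trichotomy d (δ y z) with h | h | h
    · exact absurd ((a2.2 d hd).trans (a3.2 d h).symm) a1.1
    · exact h
    · exact absurd ((a1.2 _ h).symm.trans (a2.2 _ (h.trans hd))) a3.1
  choose! d hdS hd using hex
  have hco : ∀ x ∈ T, #{y | y ∈ T ∧ ¬ (lt x y ∧ δ x y = d x)} < ν := by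
    intro x hx
    have h1 : #(⋃ e ∈ S \ {d x}, {y | (y ∈ T ∧ lt x y) ∧ δ x y = e} : Set α) < ν := by
      refine small_biUnion hν (small_mono sdiff_subset hS) fun e he => ?_
      rcases lt_or_gt_of_ne (show e ≠ d x from he.2) with h | h
      · by_contra h'
        exact hd x hx (huniq x hx _ _ h h')
      · exact huniq x hx _ _ h (hd x hx)
    refine small_mono ?_ (small_union hν h1 (hini x hx))
    rintro y ⟨hy, hy'⟩
    by_cases h : lt x y
    · left
      simp only [mem_iUnion, mem_ofPred_eq]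
      exact ⟨δ x y, ⟨hTS x hx y hy h, fun he => hy' ⟨h, he⟩⟩, ⟨hy, h⟩, rfl⟩
    · exact Or.inr ⟨hy, h⟩
  obtain ⟨e, -, he⟩ := big_fiber hν hT hS d hdS
  obtain ⟨x, ⟨hx, hxe⟩, -⟩ := big_diff hν he (small_finite hν finite_empty)
  obtain ⟨y, ⟨hy, hye⟩, hy'⟩ := big_diff hν he (hco x hx)
  have hxy : lt x y ∧ δ x y = d x := by
    by_contra hh
    exact hy' ⟨hy, hh⟩
  obtain ⟨z, hz, hz'⟩ := big_diff hν hT (hco y hy)
  have hyz : lt y z ∧ δ y z = d y := by
    by_contra hh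
    exact hz' ⟨hz, hh⟩
  exact hn x hx y hy z hz hxy.1 hyz.1 (by rw [hxy.2, hyz.2, hxe, hye])

end Tree

end Pool.Agent.MP_a45f51_lc

end MrgPart3

-- ======== part 4: formerly Pool.Agent.MP_a45f51_lc.FComb
section MrgPart4

/-! The colouring and its two combinatorial properties, at the level of conditions. -/

namespace Pool.Agent.MP_a45f51_lc

open Cardinal Set Pool.Agent.Forcing92

section CondAPI

variable {K : Type}

instance : Pre (cle K) where
  refl := fun _ _ _ h => h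
  trans := fun h h' i b hb => h i b (h' i b hb)

def ctop : Cond K := ⟨fun _ => none, by simp⟩

theorem le_ctop (p : Cond K) : cle K p ctop := fun _ _ h => by cases h

def cunion (p q : Cond K) : Cond K :=
  ⟨fun i => (p.1 i).or (q.1 i), (p.2.union q.2).subset fun i hi => by
    by_contra hn
    simp only [mem_union, mem_ofPred_eq, not_or, not_not] at hn
    exact hi (by simp [hn.1, hn.2])⟩

theorem cunion_le_left (p q : Cond K) : cle K (cunion p q) p := fun i b h => by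
  simp [cunion, h]

theorem cunion_le_right {p q : Cond K} (h : Cmp p.1 q.1) : cle K (cunion p q) q := by
  intro i b hb
  rcases hp : p.1 i with _ | b'
  · simp [cunion, hp, hb]
  · simp [cunion, hp, h i b' b hp hb]

theorem cmp_of_le {r p q : Cond K} (hp : cle K r p) (hq : cle K r q) : Cmp p.1 q.1 := by
  intro i b b' h1 h2
  have := (hp i b h1).symm.trans (hq i b' h2)
  exact Option.some.inj this

theorem cmp_cunion {p q s : Cond K} (hp : Cmp p.1 s.1) (hq : Cmp q.1 s.1) :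
    Cmp (cunion p q).1 s.1 := by
  intro i b b' h1 h2
  rcases hpi : p.1 i with _ | c
  · exact hq i b b' (by simpa [cunion, hpi] using h1) h2
  · have : c = b := by simpa [cunion, hpi] using h1
    exact this ▸ hp i c b' hpi h2

theorem cmp_of_le_left {r p s : Cond K} (h : cle K r p) (hr : Cmp r.1 s.1) : Cmp p.1 s.1 :=
  fun i b b' h1 h2 => hr i b b' (h i b h1) h2

theorem exists_common {p q : Cond K} (h : Cmp p.1 q.1) : ∃ r, cle K r p ∧ cle K r q :=
  ⟨cunion p q, cunion_le_left p q, cunion_le_right h⟩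

theorem exists_bit (p : Cond K) (i : K × ℕ) (hi : p.1 i = none) (b : Bool) :
    ∃ r, cle K r p ∧ r.1 i = some b := by
  classical
  let s : Cond K := ⟨fun j => if j = i then some b else none,
    (finite_singleton i).subset fun j hj => by
      by_contra hn
      exact hj (if_neg hn)⟩
  exact ⟨cunion p s, cunion_le_left p s, by simp [cunion, hi, s]⟩

theorem two_cmp {α : Type} {T : Set α} (r : α → Cond K) (hT : ¬ T.Countable) :
    ∃ x ∈ T, ∃ y ∈ T, x ≠ y ∧ Cmp (r x).1 (r y).1 := by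
  rw [countable_iff_lt_aleph_one] at hT
  obtain ⟨T', h1, h2, h3⟩ := knaster isRegular_aleph_one aleph0_lt_aleph_one
    (fun x => (r x).1) hT fun x => (r x).2
  obtain ⟨x, hx, -⟩ := big_diff isRegular_aleph_one h2
    (small_finite isRegular_aleph_one finite_empty)
  obtain ⟨y, hy, hy'⟩ := big_diff isRegular_aleph_one h2
    (small_finite isRegular_aleph_one (finite_singleton x))
  exact ⟨y, h1 hy, x, h1 hx, hy', h3 y hy x hx⟩

theorem predense (D : Set (Cond K)) :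
    ∃ A ⊆ D, A.Countable ∧ ∀ r ∈ D, ∃ a ∈ A, Cmp r.1 a.1 := by
  obtain ⟨A, hmax⟩ := zorn_subset {S : Set (Cond K) | S ⊆ D ∧
      S.Pairwise fun x y => ¬ Cmp x.1 y.1} (by
    intro c hc hch
    refine ⟨⋃₀ c, ⟨sUnion_subset fun S hS => (hc hS).1, ?_⟩, fun S hS => subset_sUnion_of_mem hS⟩
    rintro x ⟨S, hS, hx⟩ y ⟨S', hS', hy⟩ hxy
    rcases hch.total hS hS' with h' | h'
    · exact (hc hS').2 (h' hx) hy hxy
    · exact (hc hS).2 hx (h' hy) hxy)
  refine ⟨A, hmax.prop.1, ?_, fun r hr => ?_⟩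
  · by_contra hn
    obtain ⟨x, hx, y, hy, hxy, h⟩ := two_cmp (fun x => x) hn
    exact hmax.prop.2 hx hy hxy h
  · by_contra hn
    push Not at hn
    have hrA : r ∉ A := fun h => hn r h (cmp_of_le (lrefl r) (lrefl r))
    have hins : insert r A ∈ {S : Set (Cond K) | S ⊆ D ∧
        S.Pairwise fun x y => ¬ Cmp x.1 y.1} :=
      ⟨insert_subset hr hmax.prop.1, hmax.prop.2.insert_of_notMem hrA fun y hy =>
        ⟨hn y hy, fun h => hn y hy h.symm⟩⟩
    exact hrA (hmax.le_of_ge hins (subset_insert _ _) (mem_insert _ _))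

end CondAPI

section Colouring

variable {K Λ : Type} [LinearOrder K] [LinearOrder Λ]
  (lev : Λ → ℕ) (g : Λ → K → Bool) (δ : Λ → Λ → K)

/-- the condition `q` puts the triple `x < y < z` into colour 1 -/
def Col (q : Cond K) (x y z : Λ) : Prop :=
  x < y ∧ y < z ∧ lev x = lev y ∧ ((lev z = lev x ∧ δ x y = δ y z) ∨
    (lev x < lev z ∧ q.1 (δ x y, lev z) = some (g x (δ x y))))

/-- some triple inside `S` has colour 1 -/
def Tri (q : Cond K) (S : Set Λ) : Prop := ∃ x ∈ S, ∃ y ∈ S, ∃ z ∈ S, Col lev g δ q x y z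

variable {lev g δ}

omit [LinearOrder K] in
theorem Col.mono {q r : Cond K} {x y z : Λ} (h : Col lev g δ q x y z) (hr : cle K r q) :
    Col lev g δ r x y z :=
  ⟨h.1, h.2.1, h.2.2.1, h.2.2.2.imp id fun h' => ⟨h'.1, hr _ _ h'.2⟩⟩

omit [LinearOrder K] in
theorem Tri.mono {q r : Cond K} {S S' : Set Λ} (h : Tri lev g δ q S) (hr : cle K r q)
    (hS : S ⊆ S') : Tri lev g δ r S' := by
  obtain ⟨x, hx, y, hy, z, hz, h⟩ := h
  exact ⟨x, hS hx, y, hS hy, z, hS hz, h.mono hr⟩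

omit [LinearOrder K] in
theorem Tri.col {q : Cond K} {u v w : Λ} (h : Tri lev g δ q {u, v, w}) (h1 : u < v)
    (h2 : v < w) : Col lev g δ q u v w := by
  obtain ⟨x, hx, y, hy, z, hz, h⟩ := h
  have a1 := h.1
  have a2 := h.2.1
  simp only [mem_insert_iff, mem_singleton_iff] at hx hy hz
  rcases hx with rfl | rfl | rfl <;> rcases hy with rfl | rfl | rfl <;>
    rcases hz with rfl | rfl | rfl <;> first | exact h | order

omit [LinearOrder K] in
theorem col_core (hδ : ∀ x y, x < y → lev x = lev y → g x (δ x y) ≠ g y (δ x y))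
    {q : Cond K} {a b c d : Λ} (h1 : Col lev g δ q a b c) (h2 : Col lev g δ q a b d)
    (h3 : Col lev g δ q a c d) (h4 : Col lev g δ q b c d) : False := by
  obtain ⟨ab, bc, lab, h1⟩ := h1
  obtain ⟨-, bd, -, h2⟩ := h2
  obtain ⟨-, cd, lac, -⟩ := h3
  obtain ⟨-, -, lbc, h4⟩ := h4
  have e1 : δ a b = δ b c := by
    rcases h1 with h | h
    · exact h.2
    · omega
  have n1 := hδ a b ab lab
  have n2 := hδ b c bc lbc
  rcases h2 with h2 | h2 <;> rcases h4 with h4 | h4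
  · have n3 := hδ b d bd (by omega)
    have n4 := hδ c d cd (by omega)
    rw [← h2.2, e1] at n3
    rw [← h4.2] at n4
    revert n2 n3 n4
    cases g b (δ b c) <;> cases g c (δ b c) <;> cases g d (δ b c) <;> simp
  · omega
  · omega
  · have := h2.2.symm.trans (e1 ▸ h4.2)
    exact n1 (Option.some.inj this)

omit [LinearOrder K] in
theorem no_K4 (hδ : ∀ x y, x < y → lev x = lev y → g x (δ x y) ≠ g y (δ x y))
    {q : Cond K} {a b c d : Λ} (hab : a ≠ b) (hac : a ≠ c) (had : a ≠ d) (hbc : b ≠ c)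
    (hbd : b ≠ d) (hcd : c ≠ d) (h1 : Tri lev g δ q {a, b, c}) (h2 : Tri lev g δ q {a, b, d})
    (h3 : Tri lev g δ q {a, c, d}) (h4 : Tri lev g δ q {b, c, d}) : False := by
  classical
  let F : Finset Λ := {a, b, c, d}
  have hF : F.card = 4 := by
    simp only [F]
    rw [Finset.card_insert_of_notMem (by simp [hab, hac, had]),
      Finset.card_insert_of_notMem (by simp [hbc, hbd]), Finset.card_pair hcd]
  have key : ∀ e ∈ F, Tri lev g δ q ((F : Set Λ) \ {e}) := by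
    intro e he
    simp only [F, Finset.mem_insert, Finset.mem_singleton] at he
    rcases he with rfl | rfl | rfl | rfl
    · refine h4.mono (lrefl q) ?_
      rintro x (rfl | rfl | rfl) <;> simp [F, hab.symm, hac.symm, had.symm]
    · refine h3.mono (lrefl q) ?_
      rintro x (rfl | rfl | rfl) <;> simp [F, hab, hbc.symm, hbd.symm]
    · refine h2.mono (lrefl q) ?_
      rintro x (rfl | rfl | rfl) <;> simp [F, hac, hbc, hcd.symm]
    · refine h1.mono (lrefl q) ?_
      rintro x (rfl | rfl | rfl) <;> simp [F, had, hbd, hcd]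
  let e := F.orderEmbOfFin hF
  have hr : ∀ x ∈ F, ∃ i, e i = x := fun x hx => by
    have : x ∈ range e := by rw [Finset.range_orderEmbOfFin]; exact hx
    exact this
  have hm : ∀ i, e i ∈ F := fun i => F.orderEmbOfFin_mem hF i
  have l01 : e 0 < e 1 := e.strictMono (by decide)
  have l12 : e 1 < e 2 := e.strictMono (by decide)
  have l23 : e 2 < e 3 := e.strictMono (by decide)
  have sub : ∀ i j k l : Fin 4, (∀ m : Fin 4, m = i ∨ m = j ∨ m = k ∨ m = l) →
      Tri lev g δ q {e i, e j, e k} := by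
    intro i j k l hall
    refine (key (e l) (hm l)).mono (lrefl q) ?_
    rintro x ⟨hx, hx'⟩
    obtain ⟨m, rfl⟩ := hr x hx
    rcases hall m with rfl | rfl | rfl | rfl
    · simp
    · simp
    · simp
    · exact absurd rfl hx'
  exact col_core hδ ((sub 0 1 2 3 (by decide)).col l01 l12)
    ((sub 0 1 3 2 (by decide)).col l01 (l12.trans l23))
    ((sub 0 2 3 1 (by decide)).col (l01.trans l12) l23)
    ((sub 1 2 3 0 (by decide)).col l12 l23)

variable [WellFoundedLT Λ] [Nonempty K]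

omit [LinearOrder K] in
theorem getT {ν : Cardinal.{0}} (hν : ν.IsRegular) (hu : ℵ₀ < ν) (hK : ν ≤ #K)
    {In : Cond K → Λ → Prop} {q : Cond K} (r : K → Cond K) (j : K → Λ)
    (h1 : ∀ b, cle K (r b) q ∧ In (r b) (j b))
    (h2 : ∀ b b', Cmp (r b).1 (r b').1 → j b = j b' → b = b') :
    ∃ (T : Set Λ) (s : Λ → Cond K) (l : ℕ), ¬ #T < ν ∧
      (∀ x ∈ T, lev x = l ∧ cle K (s x) q ∧ In (s x) x) ∧
      (∀ x ∈ T, ∀ y ∈ T, Cmp (s x).1 (s y).1) ∧ ∀ x ∈ T, #{y | y ∈ T ∧ ¬ x < y} < ν := by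
  obtain ⟨l, -, hl⟩ := big_fiber hν (T := (univ : Set K)) (by simpa using hK)
    (S := (univ : Set ℕ)) (by simpa using hu) (fun b => lev (j b)) (fun _ _ => mem_univ _)
  obtain ⟨T2, hT2, hbig, hcmp⟩ := knaster hν hu (fun b => (r b).1) hl fun b => (r b).2
  have hinj : InjOn j T2 := fun b hb b' hb' he => h2 b b' (hcmp b hb b' hb') he
  have hT3 : ¬ #(j '' T2) < ν := by rwa [mk_image_eq_of_injOn j T2 hinj]
  have hch : ∀ x ∈ j '' T2, ∃ b ∈ T2, j b = x := fun x hx => hx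
  choose! f hf hf' using hch
  let T4 : Set Λ := {x | x ∈ j '' T2 ∧ #{y | y ∈ j '' T2 ∧ y < x} < ν}
  refine ⟨T4, fun x => r (f x), l, ?_, fun x hx => ?_, fun x hx y hy => ?_, fun x hx => ?_⟩
  · intro hs
    obtain ⟨x, hx, hx'⟩ := big_diff hν hT3 hs
    obtain ⟨x0, ⟨hx0, hx0'⟩, hmin⟩ :=
      (wellFounded_lt (α := Λ)).has_min {x | x ∈ j '' T2 ∧ x ∉ T4} ⟨x, hx, hx'⟩
    refine hx0' ⟨hx0, small_mono ?_ hs⟩
    rintro y ⟨hy, hy'⟩
    by_contra hn
    exact hmin y ⟨hy, hn⟩ hy'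
  · have := h1 (f x)
    rw [hf' x hx.1] at this
    refine ⟨?_, this⟩
    have h3 := (hT2 (hf x hx.1)).2
    rwa [hf' x hx.1] at h3
  · exact hcmp _ (hf x hx.1) _ (hf y hy.1)
  · refine small_mono ?_ (small_union hν hx.2 (small_finite hν (finite_singleton x)))
    rintro y ⟨hy, hy'⟩
    rcases (not_lt.1 hy').lt_or_eq with h | h
    · exact Or.inl ⟨hy.1, h⟩
    · exact Or.inr h

theorem main_comb (hmono : Monotone lev)
    (hδ : ∀ x y, x < y → lev x = lev y →
      g x (δ x y) ≠ g y (δ x y) ∧ ∀ b < δ x y, g x b = g y b)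
    (hK : ℵ₁ ≤ #K)
    (hsm : ∀ k, ∃ ν : Cardinal.{0}, ν.IsRegular ∧ ℵ₀ < ν ∧ ν ≤ #K ∧ ∃ S : Set K, #S < ν ∧
      ∀ x y, x < y → lev x = lev y → lev x < k → δ x y ∈ S)
    {In : Cond K → Λ → Prop} (hIn : ∀ r s x, cle K s r → In r x → In s x) {q : Cond K}
    (hbig : ∀ q', cle K q' q → ∃ (r : K → Cond K) (j : K → Λ),
      (∀ b, cle K (r b) q' ∧ In (r b) (j b)) ∧
      ∀ b b', Cmp (r b).1 (r b').1 → j b = j b' → b = b') :
    ∃ r, cle K r q ∧ ∃ x y z, In r x ∧ In r y ∧ In r z ∧ Col lev g δ r x y z := by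
  -- the first kind of triple
  have kind1 : ∀ {ν : Cardinal.{0}} (_ : ν.IsRegular) (T : Set Λ) (s : Λ → Cond K) (l : ℕ),
      ¬ #T < ν → (∀ x ∈ T, lev x = l ∧ cle K (s x) q ∧ In (s x) x) →
      (∀ x ∈ T, ∀ y ∈ T, Cmp (s x).1 (s y).1) → (∀ x ∈ T, #{y | y ∈ T ∧ ¬ x < y} < ν) →
      ∀ S : Set K, #S < ν → (∀ x ∈ T, ∀ y ∈ T, x < y → δ x y ∈ S) →
      ∃ r, cle K r q ∧ ∃ x y z, In r x ∧ In r y ∧ In r z ∧ Col lev g δ r x y z := by
    intro ν hν T s l hT h1 h2 h3 S hS hTS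
    obtain ⟨x, hx, y, hy, z, hz, hxy, hyz, he⟩ := tree_lemma hν (· < ·) g δ hT h3
      (fun x hx y hy hxy => hδ x y hxy ((h1 x hx).1.trans (h1 y hy).1.symm)) hS hTS
    have c1 := cunion_le_left (s x) (s y)
    have c2 := cunion_le_right (h2 x hx y hy)
    have c3 := cunion_le_left (cunion (s x) (s y)) (s z)
    have c4 := cunion_le_right (cmp_cunion (h2 x hx z hz) (h2 y hy z hz))
    refine ⟨_, ltrans c4 (h1 z hz).2.1, x, y, z, hIn _ _ _ (ltrans c3 c1) (h1 x hx).2.2,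
      hIn _ _ _ (ltrans c3 c2) (h1 y hy).2.2, hIn _ _ _ c4 (h1 z hz).2.2, hxy, hyz,
      (h1 x hx).1.trans (h1 y hy).1.symm, Or.inl ⟨(h1 z hz).1.trans (h1 x hx).1.symm, he⟩⟩
  by_cases hA : ∃ q', cle K q' q ∧ ∃ k, ∀ r, cle K r q' → ∀ x, In r x → lev x < k
  · obtain ⟨q', hq', k, hk⟩ := hA
    obtain ⟨ν, hν, hu, hνK, S, hS, hS'⟩ := hsm k
    obtain ⟨r, j, h1, h2⟩ := hbig q' hq'
    obtain ⟨T, s, l, hT, a1, a2, a3⟩ := getT (lev := lev) hν hu hνK r j h1 h2
    refine kind1 hν T s l hT (fun x hx => ⟨(a1 x hx).1, ltrans (a1 x hx).2.1 hq', (a1 x hx).2.2⟩)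
      a2 a3 S hS fun x hx y hy hxy => hS' x y hxy ((a1 x hx).1.trans (a1 y hy).1.symm)
        (hk _ (a1 x hx).2.1 x (a1 x hx).2.2)
  · push Not at hA
    choose A hAD hAc hAp using fun m : ℕ => predense {r : Cond K | ∃ x, In r x ∧ lev x = m}
    let S : Set K := ⋃ m, ⋃ a ∈ A m, Prod.fst '' {i | a.1 i ≠ none}
    have hSc : S.Countable :=
      countable_iUnion fun m => (hAc m).biUnion fun a _ => (a.2.image _).countable
    obtain ⟨r, j, h1, h2⟩ := hbig q (lrefl q)
    obtain ⟨T, s, l, hT, a1, a2, a3⟩ :=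
      getT (lev := lev) isRegular_aleph_one aleph0_lt_aleph_one hK r j h1 h2
    by_cases hTS : ∀ x ∈ T, ∀ y ∈ T, x < y → δ x y ∈ S
    · exact kind1 isRegular_aleph_one T s l hT a1 a2 a3 S
        ((countable_iff_lt_aleph_one S).1 hSc) hTS
    · push Not at hTS
      obtain ⟨x, hx, y, hy, hxy, hnS⟩ := hTS
      have c1 := cunion_le_left (s x) (s y)
      have c2 := cunion_le_right (a2 x hx y hy)
      set u := cunion (s x) (s y)
      obtain ⟨k, hk⟩ := (u.2.image Prod.snd).bddAbove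
      obtain ⟨r', hr', z', hz', hlev⟩ := hA u (ltrans c1 (a1 x hx).2.1) (max k l + 1)
      obtain ⟨a, ha, hra⟩ := hAp (lev z') r' ⟨z', hz', rfl⟩
      obtain ⟨z, hz, hzl⟩ := hAD _ ha
      have hua : Cmp u.1 a.1 := cmp_of_le_left hr' hra
      have hnone : (cunion u a).1 (δ x y, lev z) = none := by
        have e1 : u.1 (δ x y, lev z) = none := by
          by_contra hn
          have := hk ⟨(δ x y, lev z), hn, rfl⟩
          simp only at this
          omega
        have e2 : a.1 (δ x y, lev z) = none := by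
          by_contra hn
          refine hnS ?_
          simp only [S, mem_iUnion]
          exact ⟨lev z', a, ha, (δ x y, lev z), hn, rfl⟩
        simp [cunion, e1, e2]
      obtain ⟨w, hw, hwb⟩ := exists_bit _ _ hnone (g x (δ x y))
      have c3 := ltrans hw (cunion_le_left u a)
      have c4 := ltrans hw (cunion_le_right hua)
      have hlx := (a1 x hx).1
      have hly := (a1 y hy).1
      refine ⟨w, ltrans c3 (ltrans c1 (a1 x hx).2.1), x, y, z,
        hIn _ _ _ (ltrans c3 c1) (a1 x hx).2.2, hIn _ _ _ (ltrans c3 c2) (a1 y hy).2.2,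
        hIn _ _ _ c4 hz, hxy, ?_, by omega, Or.inr ⟨by omega, hwb⟩⟩
      by_contra hn
      have := hmono (not_lt.1 hn)
      omega

end Colouring

end Pool.Agent.MP_a45f51_lc

end MrgPart4

-- ======== part 5: formerly Pool.Agent.MP_a45f51_lc.FGen
section MrgPart5

/-! Pairs, graphs, injections and check names of ordinals under forcing. -/

namespace Pool.Agent.MP_a45f51_lc

open Cardinal Set Pool.Agent.Forcing92 Pool.Agent.Forcing92.Fml

section General

variable {P : Type} {le : P → P → Prop} [Pre le]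

theorem pair_left {a b z : Name P} {p : P} (h : Forces le (pair a b z) p) : fMem le a z p :=
  (forces_iff.1 (h a) p (lrefl p)).2
    (forces_or.2 fun q hq => ⟨q, lrefl q, Or.inl (fEq_refl a q)⟩)

theorem pair_right {a b z : Name P} {p : P} (h : Forces le (pair a b z) p) : fMem le b z p :=
  (forces_iff.1 (h b) p (lrefl p)).2
    (forces_or.2 fun q hq => ⟨q, lrefl q, Or.inr (fEq_refl b q)⟩)

theorem pair_elim {a b z u : Name P} {p q : P} (h : Forces le (pair a b z) p) (hq : le q p)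
    (hu : fMem le u z q) : ∃ r, le r q ∧ (fEq le u a r ∨ fEq le u b r) :=
  forces_or.1 ((forces_iff.1 (h u) q hq).1 hu) q (lrefl q)

theorem single_elim {a z u : Name P} {p q : P} (h : Forces le (pair a a z) p) (hq : le q p)
    (hu : fMem le u z q) : fEq le u a q :=
  fEq_dense fun r hr => by
    obtain ⟨s, hs, h'⟩ := pair_elim h (ltrans hr hq) (fMem_mono hr hu)
    exact ⟨s, hs, h'.elim id id⟩

theorem kur_inj {n O a b z n' O' a' b' z' : Name P} {p : P}
    (h1 : Forces le (pair n n a) p) (h2 : Forces le (pair n O b) p)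
    (h3 : Forces le (pair a b z) p) (h1' : Forces le (pair n' n' a') p)
    (h2' : Forces le (pair n' O' b') p) (h3' : Forces le (pair a' b' z') p)
    (he : fEq le z z' p) : fEq le n n' p ∧ fEq le O O' p := by
  have hn : fEq le n n' p := by
    refine fEq_dense fun q hq => ?_
    obtain ⟨r, hr, h⟩ := pair_elim h3' hq (fMem_mono hq (fMem_congr_right he (pair_left h3)))
    have hrp := ltrans hr hq
    refine ⟨r, hr, ?_⟩
    rcases h with h | h
    · exact single_elim h1' hrp (fMem_congr_right h (fMem_mono hrp (pair_left h1)))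
    · exact fEq_symm (single_elim h1 hrp
        (fMem_congr_right (fEq_symm h) (fMem_mono hrp (pair_left h2'))))
  refine ⟨hn, fEq_dense fun q hq => ?_⟩
  obtain ⟨r, hr, h⟩ := pair_elim h3' hq (fMem_mono hq (fMem_congr_right he (pair_right h3)))
  have hrp := ltrans hr hq
  rcases h with h | h
  · have e1 : fEq le O n' r :=
      single_elim h1' hrp (fMem_congr_right h (fMem_mono hrp (pair_right h2)))
    obtain ⟨s, hs, h'⟩ := pair_elim h3 hrp
      (fMem_mono hrp (fMem_congr_right (fEq_symm he) (pair_right h3')))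
    have hsp := ltrans hs hrp
    refine ⟨s, ltrans hs hr, ?_⟩
    rcases h' with h' | h'
    · have e2 : fEq le O' n s :=
        single_elim h1 hsp (fMem_congr_right h' (fMem_mono hsp (pair_right h2')))
      exact fEq_trans (fEq_mono hs e1) (fEq_symm (fEq_trans e2 (fEq_mono hsp hn)))
    · have e2 : fEq le O' n' s := single_elim h1' hsp
        (fMem_congr_right (fEq_trans h' (fEq_mono hs h)) (fMem_mono hsp (pair_right h2')))
      exact fEq_trans (fEq_mono hs e1) (fEq_symm e2)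
  · obtain ⟨s, hs, h'⟩ := pair_elim h2' hrp (fMem_congr_right h (fMem_mono hrp (pair_right h2)))
    have hsp := ltrans hs hrp
    rcases h' with h' | h'
    · obtain ⟨u, hu, h''⟩ := pair_elim h2 hsp
        (fMem_congr_right (fEq_symm (fEq_mono hs h)) (fMem_mono hsp (pair_right h2')))
      have hup := ltrans hu hsp
      refine ⟨u, ltrans hu (ltrans hs hr), ?_⟩
      rcases h'' with h'' | h''
      · exact fEq_trans (fEq_mono hu h') (fEq_symm (fEq_trans h'' (fEq_mono hup hn)))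
      · exact fEq_symm h''
    · exact ⟨s, ltrans hs hr, h'⟩

theorem app_congr {f x x' y y' : Name P} {p : P} (hx : fEq le x x' p) (hy : fEq le y y' p)
    (h : Forces le (app f x y) p) : Forces le (app f x' y') p :=
  ((Sim.app (R := fun x y => fEq le x y p) (fun x => fEq_refl x p) (fEq_refl f p) hx
    hy).forces p (lrefl p)).1 h

def pairName (t : P) (a b : Name P) : Name P := Name.mk Bool (fun i => cond i a b) fun _ => t

def graph (t : P) (I : Type) (A B : I → Name P) : Name P :=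
  Name.mk I (fun i => pairName t (pairName t (A i) (A i)) (pairName t (A i) (B i))) fun _ => t

variable {t : P}

theorem forces_pairName (ht : ∀ p, le p t) (a b : Name P) (p : P) :
    Forces le (pair a b (pairName t a b)) p := by
  intro u
  refine forces_iff.2 fun q _ => ⟨fun h => forces_or.2 fun r hr => ?_, fun h => ?_⟩
  · obtain ⟨s, hs, j, -, he⟩ := h r hr
    refine ⟨s, hs, ?_⟩
    cases j
    · exact Or.inr (fEq_symm he)
    · exact Or.inl (fEq_symm he)
  · intro r hr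
    obtain ⟨s, hs, h'⟩ := forces_or.1 h r hr
    rcases h' with h' | h'
    · exact ⟨s, hs, true, ht s, fEq_symm h'⟩
    · exact ⟨s, hs, false, ht s, fEq_symm h'⟩

theorem app_graph (ht : ∀ p, le p t) {I : Type} (A B : I → Name P) (i : I) (p : P) :
    Forces le (app (graph t I A B) (A i) (B i)) p :=
  forces_exIn_of _ (fMem_mk i (ht p)) (forces_ex_of _ (forces_ex_of _
    ⟨forces_pairName ht _ _ p, forces_pairName ht _ _ p, forces_pairName ht _ _ p⟩))

theorem app_graph_elim (ht : ∀ p, le p t) {I : Type} {A B : I → Name P} {x y : Name P} {p : P}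
    (h : Forces le (app (graph t I A B) x y) p) :
    ∃ r, le r p ∧ ∃ i, fEq le x (A i) r ∧ fEq le y (B i) r := by
  obtain ⟨q, hq, z, hz, h⟩ := forces_exIn.1 h p (lrefl p)
  obtain ⟨q1, hq1, a, h⟩ := forces_ex.1 h q (lrefl q)
  obtain ⟨q2, hq2, b, h1, h2, h3⟩ := forces_ex.1 h q1 (lrefl q1)
  obtain ⟨r, hr, i, -, he⟩ := hz q2 (ltrans hq2 hq1)
  exact ⟨r, ltrans hr (ltrans hq2 (ltrans hq1 hq)), i,
    kur_inj (h1.mono hr) (h2.mono hr) (h3.mono hr) (forces_pairName ht _ _ r)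
      (forces_pairName ht _ _ r) (forces_pairName ht _ _ r) (fEq_symm he)⟩

theorem leq_of_inj (ht : ∀ p, le p t) {I : Type} (A B : I → Name P)
    (hA : ∀ i j q, fEq le (A i) (A j) q → i = j) (hB : ∀ i j q, fEq le (B i) (B j) q → i = j)
    {X : Name P} {φ : Name P → Fml (Name P)} {p : P}
    (hX : ∀ x q, le q p → fMem le x X q → ∃ r, le r q ∧ ∃ i, fEq le (A i) x r)
    (hφ : ∀ i, Forces le (φ (B i)) p) : Forces le (leq X φ) p := by
  refine forces_ex_of (graph t I A B) ⟨forces_allIn.2 fun x q hq hx => ?_, ?_⟩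
  · refine forces_ex.2 fun r hr => ?_
    obtain ⟨s, hs, i, hi⟩ := hX x r (ltrans hr hq) (fMem_mono hr hx)
    exact ⟨s, hs, B i, (hφ i).mono (ltrans hs (ltrans hr hq)),
      app_congr hi (fEq_refl _ s) (app_graph ht A B i s)⟩
  · intro x x' y y'
    refine forces_imp.2 fun q _ h1 => forces_imp.2 fun r hr h2 => forces_iff.2 fun s hs => ?_
    have key : ∀ u, le u s → ∃ v, le v u ∧ ∃ i j, fEq le x (A i) v ∧ fEq le y (B i) v ∧
        fEq le x' (A j) v ∧ fEq le y' (B j) v := by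
      intro u hu
      obtain ⟨v, hv, i, e1, e2⟩ := app_graph_elim ht (h1.mono (ltrans hu (ltrans hs hr)))
      obtain ⟨w, hw, j, e3, e4⟩ := app_graph_elim ht (h2.mono (ltrans hv (ltrans hu hs)))
      exact ⟨w, ltrans hw hv, i, j, fEq_mono hw e1, fEq_mono hw e2, e3, e4⟩
    refine ⟨fun h => fEq_dense fun u hu => ?_, fun h => fEq_dense fun u hu => ?_⟩
    · obtain ⟨v, hv, i, j, e1, e2, e3, e4⟩ := key u hu
      obtain rfl := hA i j v
        (fEq_trans (fEq_symm e1) (fEq_trans (fEq_mono (ltrans hv hu) h) e3))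
      exact ⟨v, hv, fEq_trans e2 (fEq_symm e4)⟩
    · obtain ⟨v, hv, i, j, e1, e2, e3, e4⟩ := key u hu
      obtain rfl := hB i j v
        (fEq_trans (fEq_symm e2) (fEq_trans (fEq_mono (ltrans hv hu) h) e4))
      exact ⟨v, hv, fEq_trans e1 (fEq_symm e3)⟩

theorem leq_elim {X : Name P} {φ : Name P → Fml (Name P)} {p : P}
    (h : Forces le (leq X φ) p) : ∃ r, le r p ∧ ∃ f : Name P,
      (∀ x q, le q r → fMem le x X q → ∃ s, le s q ∧ ∃ y, Forces le (φ y) s ∧
        Forces le (app f x y) s) ∧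
      ∀ x x' y q, le q r → Forces le (app f x y) q → Forces le (app f x' y) q →
        fEq le x x' q := by
  obtain ⟨r, hr, f, h1, h2⟩ := forces_ex.1 h p (lrefl p)
  refine ⟨r, hr, f, fun x q hq hx => ?_, fun x x' y q hq a1 a2 => ?_⟩
  · exact forces_ex.1 (forces_allIn.1 h1 x q hq hx) q (lrefl q)
  · exact (forces_iff.1 (forces_imp.1 (forces_imp.1 (h2 x x' y y) q hq a1) q (lrefl q) a2) q
      (lrefl q)).2 (fEq_refl y q)

section Check

variable {K : Type} [LinearOrder K] [WellFoundedLT K]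

noncomputable def chk (t : P) : K → Name P :=
  (wellFounded_lt (α := K)).fix fun a ih =>
    Name.mk {b // b < a} (fun b => ih b.1 b.2) fun _ => t

omit [Pre le] in
theorem chk_eq (t : P) (a : K) :
    chk t a = Name.mk {b // b < a} (fun b => chk t b.1) fun _ => t := by
  unfold chk
  rw [WellFounded.fix_eq]

theorem fMem_chk_elim {x : Name P} {a : K} {p : P} (h : fMem le x (chk t a) p) :
    ∃ r, le r p ∧ ∃ b < a, fEq le (chk t b) x r := by
  rw [chk_eq] at h
  obtain ⟨r, hr, j, -, he⟩ := h p (lrefl p)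
  exact ⟨r, hr, j.1, j.2, he⟩

theorem chk_mem_chk (ht : ∀ p, le p t) {a b : K} (h : b < a) (p : P) :
    fMem le (chk t b) (chk t a) p := by
  rw [chk_eq t a]
  exact fMem_mk (A := fun b : {b // b < a} => chk t b.1) ⟨b, h⟩ (ht p)

theorem chk_inj (ht : ∀ p, le p t) {a b : K} {p : P} (h : fEq le (chk t a) (chk t b) p) :
    a = b := by
  induction a using WellFoundedLT.induction generalizing b p with
  | ind a ih =>
    rcases lt_trichotomy a b with hab | hab | hab
    · obtain ⟨r, -, c, hc, he⟩ :=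
        fMem_chk_elim (fMem_congr_right (fEq_symm h) (chk_mem_chk ht hab p))
      exact absurd (ih c hc he) hc.ne
    · exact hab
    · exact (ih b hab (fEq_symm h)).symm

theorem lt_of_chk_mem (ht : ∀ p, le p t) {a b : K} {p : P}
    (h : fMem le (chk t b) (chk t a) p) : b < a := by
  obtain ⟨r, -, c, hc, he⟩ := fMem_chk_elim h
  exact chk_inj ht he ▸ hc

/-- the check name of the order type of `K` -/
noncomputable def kap (t : P) (K : Type) [LinearOrder K] [WellFoundedLT K] : Name P :=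
  Name.mk K (chk t) fun _ => t

theorem fMem_kap_elim {x : Name P} {p : P} (h : fMem le x (kap t K) p) :
    ∃ r, le r p ∧ ∃ b : K, fEq le (chk t b) x r := by
  obtain ⟨r, hr, j, -, he⟩ := h p (lrefl p)
  exact ⟨r, hr, j, he⟩

theorem chk_mem_kap (ht : ∀ p, le p t) (b : K) (p : P) : fMem le (chk t b) (kap t K) p :=
  fMem_mk b (ht p)

theorem forces_ordl (ht : ∀ p, le p t) (p : P) : Forces le (ordl (kap t K)) p := by
  refine ⟨forces_allIn.2 fun x q _ hx => forces_sub.2 fun z r hr hz => fMem_dense fun s hs => ?_,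
    forces_allIn.2 fun x q _ hx => forces_allIn.2 fun y r hr hy => forces_or.2 fun s hs => ?_⟩
  · obtain ⟨u, hu, a, ha⟩ := fMem_kap_elim (fMem_mono (ltrans hs hr) hx)
    obtain ⟨v, hv, b, -, hb⟩ :=
      fMem_chk_elim (fMem_congr_right (fEq_symm ha) (fMem_mono (ltrans hu hs) hz))
    exact ⟨v, ltrans hv hu, fMem_congr_left hb (chk_mem_kap ht b v)⟩
  · obtain ⟨u, hu, a, ha⟩ := fMem_kap_elim (fMem_mono (ltrans hs hr) hx)
    obtain ⟨v, hv, b, hb⟩ := fMem_kap_elim (fMem_mono (ltrans hu hs) hy)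
    have ha' := fEq_mono hv ha
    refine ⟨v, ltrans hv hu, ?_⟩
    rcases lt_trichotomy a b with hab | hab | hab
    · exact Or.inl (fMem_congr_right hb (fMem_congr_left ha' (chk_mem_chk ht hab v)))
    · subst hab
      exact Or.inr (forces_or.2 fun w hw =>
        ⟨w, lrefl w, Or.inl (fEq_mono hw (fEq_trans (fEq_symm ha') hb))⟩)
    · exact Or.inr (forces_or.2 fun w hw => ⟨w, lrefl w, Or.inr (fMem_mono hw
        (fMem_congr_right ha' (fMem_congr_left hb (chk_mem_chk ht hab v))))⟩)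

theorem leq_chk (ht : ∀ p, le p t) {a b : K} (h : #(Iio b) ≤ #(Iio a)) (p : P) :
    Forces le (leq (chk t b) fun y => mem y (chk t a)) p := by
  obtain ⟨f⟩ := h
  refine leq_of_inj ht (fun i : Iio b => chk t i.1) (fun i => chk t (f i).1)
    (fun i j q he => Subtype.ext (chk_inj ht he))
    (fun i j q he => f.injective (Subtype.ext (chk_inj ht he))) (fun x q _ hx => ?_)
    fun i => chk_mem_chk ht (f i).2 p
  obtain ⟨r, hr, c, hc, he⟩ := fMem_chk_elim hx
  exact ⟨r, hr, ⟨c, hc⟩, he⟩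

end Check

section SimDefs

variable {V : Type 1} {R : V → V → Prop}

theorem sim_leq (hR : ∀ x, R x x) {A A' : V} {B B' : V → Fml V} (hA : R A A')
    (hB : ∀ y, Sim R (B y) (B' y)) : Sim R (leq A B) (leq A' B') :=
  .ex fun f => .and (.allIn hR hA fun x => .ex fun y =>
      .and (hB y) (.app hR (hR f) (hR x) (hR y)))
    (.all fun x => .all fun x' => .all fun y => .all fun y' =>
      .imp (.app hR (hR f) (hR x) (hR y)) (.imp (.app hR (hR f) (hR x') (hR y'))
        (.iff (.eq (hR x) (hR x')) (.eq (hR y) (hR y')))))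

theorem sim_lim (hR : ∀ x, R x x) {a a' : V} (h : R a a') : Sim R (lim a) (lim a') :=
  .and (.exIn hR h fun b => .eq (hR b) (hR b))
    (.allIn hR h fun b => .exIn hR h fun c => .mem (hR b) (hR c))

theorem sim_limc (hR : ∀ x, R x x) {k k' : V} (h : R k k') : Sim R (limc k) (limc k') :=
  .and (.exIn hR h fun a => sim_lim hR (hR a))
    (.allIn hR h fun a => .exIn hR h fun b => .neg (sim_leq hR (hR b) fun y => .mem (hR y) (hR a)))

theorem sim_tri (hR : ∀ x, R x x) {c x y z x' y' z' : V} (hx : R x x') (hy : R y y')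
    (hz : R z z') : Sim R (tri c x y z) (tri c x' y' z') :=
  .exIn hR (hR c) fun t => .all fun u => .iff (.mem (hR u) (hR t))
    (.or (.eq (hR u) hx) (.or (.eq (hR u) hy) (.eq (hR u) hz)))

end SimDefs

end General

section Cohen

variable {K : Type}

theorem no_inj {I J : Type} (hJ : #J < #I) [Uncountable I] (A : I → Name (Cond K))
    (B : J → Name (Cond K)) {X : Name (Cond K)} {φ : Name (Cond K) → Fml (Name (Cond K))}
    {p : Cond K} (hA : ∀ i, fMem (cle K) (A i) X p)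
    (hA' : ∀ i j q, fEq (cle K) (A i) (A j) q → i = j)
    (hB : ∀ y q, cle K q p → Forces (cle K) (φ y) q →
      ∃ r, cle K r q ∧ ∃ j, fEq (cle K) y (B j) r) :
    Forces (cle K) (neg (leq X φ)) p := by
  intro q hq h
  obtain ⟨r, hr, f, h1, h2⟩ := leq_elim h
  have key : ∀ i, ∃ s, cle K s r ∧ ∃ j, Forces (cle K) (app f (A i) (B j)) s := by
    intro i
    obtain ⟨s, hs, y, a1, a2⟩ := h1 (A i) r (lrefl r) (fMem_mono (ltrans hr hq) (hA i))
    obtain ⟨u, hu, j, he⟩ := hB y s (ltrans hs (ltrans hr hq)) a1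
    exact ⟨u, ltrans hu hs, j, app_congr (fEq_refl _ u) he (a2.mono hu)⟩
  choose s hs j hj using key
  obtain ⟨j0, hj0⟩ := exists_uncountable_fiber j hJ
  obtain ⟨x, hx, y, hy, hxy, hc⟩ := two_cmp (T := j ⁻¹' {j0}) s
    (fun hc => not_countable_iff.2 hj0 hc.to_subtype)
  obtain ⟨u, hu1, hu2⟩ := exists_common hc
  have e1 : j x = j0 := hx
  have e2 : j y = j0 := hy
  exact hxy (hA' x y u (h2 _ _ (B j0) u (ltrans hu1 (hs x)) (e1 ▸ (hj x).mono hu1)
    (e2 ▸ (hj y).mono hu2)))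

end Cohen

end Pool.Agent.MP_a45f51_lc

end MrgPart5

-- ======== part 6: formerly Pool.Agent.MP_a45f51_lc.FCard
section MrgPart6

/-! Cardinal arithmetic in the ground universe; preservation of the cardinal `ℵ_ω`. -/

namespace Pool.Agent.MP_a45f51_lc

open Cardinal Set Pool.Agent.Forcing92 Pool.Agent.Forcing92.Fml

theorem lt_alephW {c : Cardinal.{0}} (h : c < ℵ_ Ordinal.omega0) : ∃ n : ℕ, c < ℵ_ n := by
  by_contra hn
  push Not at hn
  refine h.not_ge ((isNormal_aleph.le_iff_forall_le Ordinal.isSuccLimit_omega0).2 fun o ho => ?_)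
  obtain ⟨n, rfl⟩ := Ordinal.lt_omega0.1 ho
  exact hn n

theorem aleph_lt_alephW (n : ℕ) : (ℵ_ n : Cardinal.{0}) < ℵ_ Ordinal.omega0 :=
  aleph_lt_aleph.2 (Ordinal.natCast_lt_omega0 n)

theorem aleph_nat_le {m n : ℕ} : (ℵ_ m : Cardinal.{0}) ≤ ℵ_ n ↔ m ≤ n := by
  rw [aleph_le_aleph, Nat.cast_le]

theorem aleph_nat_lt {m n : ℕ} : (ℵ_ m : Cardinal.{0}) < ℵ_ n ↔ m < n := by
  rw [aleph_lt_aleph, Nat.cast_lt]

theorem aleph_nat_succ (n : ℕ) : (ℵ_ (n + 1 : ℕ) : Cardinal.{0}) = Order.succ (ℵ_ n) := by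
  rw [succ_aleph]; simp

theorem regular_aleph_nat_succ (n : ℕ) : (ℵ_ (n + 1 : ℕ) : Cardinal.{0}).IsRegular := by
  rw [aleph_nat_succ]
  exact isRegular_succ (aleph0_le_aleph _)

theorem aleph0_lt_aleph_nat_succ (n : ℕ) : ℵ₀ < (ℵ_ (n + 1 : ℕ) : Cardinal.{0}) := by
  rw [aleph_nat_succ]
  exact (aleph0_le_aleph _).trans_lt (Order.lt_succ _)

theorem exists_eq_aleph_nat {c : Cardinal.{0}} (h0 : ℵ₀ ≤ c) (h : c < ℵ_ Ordinal.omega0) :
    ∃ n : ℕ, c = ℵ_ n := by
  obtain ⟨o, rfl⟩ := mem_range_aleph_iff.2 h0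
  obtain ⟨n, rfl⟩ := Ordinal.lt_omega0.1 (aleph_lt_aleph.1 h)
  exact ⟨n, rfl⟩

theorem cnt_le {α : Type} {c : Cardinal.{0}} (hc : ℵ₀ ≤ c) (h : #α ≤ 2 ^ c) :
    #{t : Set α // t.Countable} ≤ 2 ^ c := by
  have h1 : #{t : Set α // t.Countable} ≤ #{t : Set α // #t ≤ ℵ₀} :=
    mk_subtype_mono fun t ht => le_aleph0_iff_set_countable.2 ht
  refine h1.trans ((mk_bounded_set_le α ℵ₀).trans ?_)
  have h2 : max #α ℵ₀ ≤ 2 ^ c := max_le h (hc.trans (cantor c).le)
  refine (power_le_power_right h2).trans ?_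
  rw [← power_mul, mul_eq_max hc le_rfl, max_eq_left hc]

theorem mk_cond_le {K : Type} {c : Cardinal.{0}} (hc : ℵ₀ ≤ c) (h : #K ≤ 2 ^ c) :
    #(Cond K) ≤ 2 ^ c := by
  have h0 : ℵ₀ ≤ 2 ^ c := hc.trans (cantor c).le
  have h1 : #((K × ℕ) × Bool) ≤ 2 ^ c := by
    simp only [mk_prod, lift_id, mk_nat, mk_fintype, Fintype.card_bool]
    exact mul_le_of_le h0 (mul_le_of_le h0 h h0) (natCast_le_aleph0.trans h0)
  refine le_trans ?_ (cnt_le hc h1)
  refine mk_le_of_injective (f := fun p : Cond K =>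
    (⟨{x | p.1 x.1 = some x.2}, ?_⟩ : {t : Set ((K × ℕ) × Bool) // t.Countable})) ?_
  · refine ((p.2.prod (finite_univ (α := Bool))).subset ?_).countable
    intro x hx
    refine ⟨?_, mem_univ _⟩
    intro h'
    have hx' : p.1 x.1 = some x.2 := hx
    rw [h'] at hx'
    cases hx'
  · intro p q hpq
    have he := congrArg Subtype.val hpq
    refine Subtype.ext (funext fun i => Option.ext fun b => ?_)
    exact Set.ext_iff.1 he (i, b)

theorem exists_lex (Λ : Type) (lev : Λ → ℕ) :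
    ∃ (_ : LinearOrder Λ) (_ : WellFoundedLT Λ), Monotone lev := by
  obtain ⟨i1, i2⟩ := exists_wellFoundedLT Λ
  let φ : Λ → ℕ ×ₗ Λ := fun x => toLex (lev x, x)
  have hφ : Function.Injective φ := fun x y h => congrArg (fun z => (ofLex z).2) h
  refine ⟨LinearOrder.lift' φ hφ, ?_, ?_⟩
  · exact ⟨InvImage.wf φ wellFounded_lt⟩
  · intro x y h
    have h' : φ x ≤ φ y := h
    exact Prod.Lex.monotone_fst _ _ h'

section Aleph

variable {K : Type} [LinearOrder K] [WellFoundedLT K] {a : ℕ → K}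

omit [WellFoundedLT K] in
theorem lt_a (hs : ∀ x : K, #(Iio x) < ℵ_ Ordinal.omega0) (ha : ∀ n, #(Iio (a n)) = ℵ_ n)
    (x : K) : ∃ n, x < a n := by
  obtain ⟨n, hn⟩ := lt_alephW (hs x)
  refine ⟨n, ?_⟩
  by_contra h
  exact hn.not_ge (ha n ▸ mk_le_mk_of_subset (Iio_subset_Iio (not_lt.1 h)))

omit [WellFoundedLT K] in
theorem a_mono (ha : ∀ n, #(Iio (a n)) = ℵ_ n) {m n : ℕ} (h : m ≤ n) : a m ≤ a n := by
  rcases h.lt_or_eq with h | rfl
  · by_contra hn
    have := mk_le_mk_of_subset (Iio_subset_Iio (not_le.1 hn).le)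
    rw [ha, ha, aleph_nat_le] at this
    omega
  · exact le_rfl

theorem forces_lim (ha : ∀ n, #(Iio (a n)) = ℵ_ n) (p : Cond K) :
    Forces (cle K) (exIn (kap ctop K) lim) p := by
  obtain ⟨e, he, hmin⟩ := (wellFounded_lt (α := K)).has_min {x | (Iio x).Infinite}
    ⟨a 0, by
      rw [mem_ofPred_eq, ← infinite_coe_iff, infinite_iff, ha]
      exact aleph0_le_aleph _⟩
  refine forces_exIn_of (chk ctop e) (chk_mem_kap le_ctop e p) ⟨?_, ?_⟩
  · obtain ⟨b, hb⟩ := he.nonempty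
    exact forces_exIn_of (chk ctop b) (chk_mem_chk le_ctop hb p) (fEq_refl _ p)
  · refine forces_allIn.2 fun x q _ hx => forces_exIn.2 fun r hr => ?_
    obtain ⟨s, hs, b, hb, hbx⟩ := fMem_chk_elim (fMem_mono hr hx)
    have hfin : (Iio b).Finite := by
      by_contra hn
      exact hmin b hn hb
    obtain ⟨c, hc, hc'⟩ := he.exists_notMem_finite (hfin.insert b)
    have hbc : b < c := by
      simp only [mem_insert_iff, mem_Iio, not_or, not_lt] at hc'
      exact lt_of_le_of_ne hc'.2 (Ne.symm hc'.1)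
    exact ⟨s, hs, chk ctop c, chk_mem_chk le_ctop hc s,
      fMem_congr_left hbx (chk_mem_chk le_ctop hbc s)⟩

theorem infinite_of_lim {e : K} {p : Cond K} (h : Forces (cle K) (lim (chk ctop e)) p) :
    (Iio e).Infinite := by
  intro hfin
  obtain ⟨r, hr, x, hx, -⟩ := forces_exIn.1 h.1 p (lrefl p)
  obtain ⟨-, -, b0, hb0, -⟩ := fMem_chk_elim hx
  obtain ⟨b, hb, hmax⟩ := hfin.exists_maximal ⟨b0, hb0⟩
  obtain ⟨s, -, y, hy, hby⟩ := forces_exIn.1 (forces_allIn.1 h.2 (chk ctop b) p (lrefl p)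
    (chk_mem_chk le_ctop hb p)) p (lrefl p)
  obtain ⟨u, hu, c, hc, hcy⟩ := fMem_chk_elim hy
  have hbc : b < c := lt_of_chk_mem le_ctop (fMem_congr_right (fEq_symm hcy) (fMem_mono hu hby))
  exact (hmax hc hbc.le).not_gt hbc

theorem forces_alephW (hs : ∀ x : K, #(Iio x) < ℵ_ Ordinal.omega0)
    (ha : ∀ n, #(Iio (a n)) = ℵ_ n) (p : Cond K) :
    Forces (cle K) (alephW (kap ctop K)) p := by
  refine ⟨forces_ordl le_ctop p, ⟨forces_lim ha p, ?_⟩, ?_⟩
  · refine forces_allIn.2 fun α q _ hα => forces_exIn.2 fun r hr => ?_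
    obtain ⟨s, hsr, x, hx⟩ := fMem_kap_elim (fMem_mono hr hα)
    obtain ⟨n, hn⟩ := lt_alephW (hs x)
    have : Uncountable (Iio (a (n + 1))) := by
      rw [← aleph0_lt_mk_iff, ha]
      exact aleph0_lt_aleph_nat_succ n
    refine ⟨s, hsr, chk ctop (a (n + 1)), chk_mem_kap le_ctop _ s,
      no_inj (I := Iio (a (n + 1))) (J := Iio x) ?_ (fun i => chk ctop i.1)
        (fun j => chk ctop j.1) (fun i => chk_mem_chk le_ctop i.2 s)
        (fun i j q he => Subtype.ext (chk_inj le_ctop he)) fun y u hu hy => ?_⟩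
    · rw [ha]
      exact hn.trans (aleph_nat_lt.2 (Nat.lt_succ_self n))
    · obtain ⟨v, hv, b, hb, he⟩ :=
        fMem_chk_elim (fMem_congr_right (fEq_symm (fEq_mono hu hx)) hy)
      exact ⟨v, hv, ⟨b, hb⟩, fEq_symm he⟩
  · refine forces_allIn.2 fun β q _ hβ r hr h => ?_
    obtain ⟨s, hsr, b, hb⟩ := fMem_kap_elim (fMem_mono hr hβ)
    have h' : Forces (cle K) (limc (chk ctop b)) s :=
      ((sim_limc (R := fun x y => fEq (cle K) x y s) (fun x => fEq_refl x s) hb).forces s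
        (lrefl s)).2 (h.mono hsr)
    obtain ⟨u, hu, x, hx, hl⟩ := forces_exIn.1 h'.1 s (lrefl s)
    obtain ⟨v, hv, e, he, hex⟩ := fMem_chk_elim hx
    have hinf : (Iio e).Infinite := infinite_of_lim
      (((sim_lim (R := fun x y => fEq (cle K) x y v) (fun x => fEq_refl x v) hex).forces v
        (lrefl v)).2 (hl.mono hv))
    obtain ⟨N, hN⟩ := lt_alephW (hs b)
    have hne : {n : ℕ | ∃ γ < b, #(Iio γ) = ℵ_ n}.Nonempty := by
      obtain ⟨n, hn⟩ := exists_eq_aleph_nat (infinite_iff.1 hinf.to_subtype) (hs e)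
      exact ⟨n, e, he, hn⟩
    have hfin : {n : ℕ | ∃ γ < b, #(Iio γ) = ℵ_ n}.Finite := by
      refine (finite_lt_nat N).subset ?_
      rintro n ⟨γ, hγ, hn⟩
      exact aleph_nat_lt.1 ((hn ▸ mk_le_mk_of_subset (Iio_subset_Iio hγ.le)).trans_lt hN)
    obtain ⟨n, ⟨α, hα, hn⟩, hmax⟩ := hfin.exists_maximal hne
    have hle : ∀ γ < b, #(Iio γ) ≤ #(Iio α) := by
      intro γ hγ
      rcases lt_or_ge #(Iio γ) ℵ₀ with h0 | h0
      · exact h0.le.trans (hn ▸ aleph0_le_aleph _)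
      · obtain ⟨m, hm⟩ := exists_eq_aleph_nat h0 (hs γ)
        rw [hm, hn, aleph_nat_le]
        by_contra hh
        have := hmax ⟨γ, hγ, hm⟩ (not_le.1 hh).le
        omega
    obtain ⟨w, -, y, hy, hny⟩ := forces_exIn.1 (forces_allIn.1 h'.2 (chk ctop α) s (lrefl s)
      (chk_mem_chk le_ctop hα s)) s (lrefl s)
    obtain ⟨w', hw', γ, hγ, hγy⟩ := fMem_chk_elim hy
    refine hny w' hw' ?_
    exact ((sim_leq (R := fun x y => fEq (cle K) x y w') (fun x => fEq_refl x w') hγy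
      fun y => .mem (fEq_refl y w') (fEq_refl _ w')).forces w' (lrefl w')).1
      (leq_chk le_ctop (hle γ hγ) w')

end Aleph

end Pool.Agent.MP_a45f51_lc

end MrgPart6

-- ======== part 7: formerly Pool.Agent.MP_a45f51_lc.h62.Spec2
section MrgPart7

/-! PROJECT ARROW: from the combinatorics of conditions to models of ZFC. -/

namespace Pool.Agent.MP_a45f51_lc.A62

open Cardinal Set Pool.Agent.Forcing92 Pool.Agent.Forcing92.Fml Pool.Agent.ZFC77

/-- `K` has order type `κ` and `a n` is the initial ordinal of the successor of `β (n + 1)` -/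
structure Scale (K : Type) [LinearOrder K] (a : ℕ → K) : Prop where
  card : #K = kp
  eq : ∀ n, #(Iio (a n)) = Order.succ (bt (n + 1))
  le : ∀ n b, b < a n → #(Iio b) ≤ bt (n + 1)
  cof : ∀ b, ∃ n, b < a n

/-- What the cardinal arithmetic of the extension needs to know about the forcing. -/
structure Iface (K : Type) [LinearOrder K] (a : ℕ → K) (lam : Cardinal.{0}) (Q : Type)
    (le : Q → Q → Prop) where
  t : Q
  top : ∀ p, le p t
  mas : ∀ n, Master le (bt (n + 1)) (bt (n + 2))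
  chi : Cardinal.{0}
  chi_lt : chi < lam
  cc : ∀ (A : Type) (p : A → Q), chi < #A → ∃ x y, x ≠ y ∧ ∃ r, le r (p x) ∧ le r (p y)
  col : ∀ (n : ℕ) (W : Type), #W ≤ bt (n + 2) → ∃ Pat : Q → K → W → Prop,
    (∀ q q' b w, le q' q → Pat q b w → Pat q' b w) ∧ (∀ q b w, Pat q b w → b < a n) ∧
    (∀ q b w w', Pat q b w → Pat q b w' → w = w') ∧ ∀ q w, ∃ r b, le r q ∧ Pat r b w
  Λ : Type
  lev : Λ → ℕ
  Bit : Q → Λ → K → Bool → Prop
  big : ∀ ν < lam, ∃ m, ν ≤ #{x | lev x = m}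
  bit_mono : ∀ {q q' x b c}, le q' q → Bit q x b c → Bit q' x b c
  bit_fun : ∀ {q x b c c'}, Bit q x b c → Bit q x b c' → c = c'
  bit_tot : ∀ q x b, ∃ r c, le r q ∧ Bit r x b c
  bit_lt : ∀ {q x b}, Bit q x b true → b < a (lev x)
  bit_sep : ∀ q x y, x ≠ y → ∃ r b c, le r q ∧ Bit r x b c ∧ Bit r y b (!c)
  up : ∀ n, ∃ (V : Type) (mem : V → Q → Prop), #V < lam ∧
    (∀ w q q', le q' q → mem w q → mem w q') ∧
    ∀ (B : Type) (U : B → Q → Prop), #B ≤ bt (n + 2) → (∀ b q q', le q' q → U b q → U b q') →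
      ∀ q, ∃ r, le r q ∧ ∃ f : B → V, ∀ b c, le c r →
        (mem (f b) c → U b c) ∧ (U b c → ∃ c', le c' c ∧ mem (f b) c')

/-- the product with Cohen forcing -/
def ple {Q : Type} (le : Q → Q → Prop) (ι : Type) (p q : Q × Cond ι) : Prop :=
  le p.1 q.1 ∧ cle ι p.2 q.2

instance {Q ι : Type} {le : Q → Q → Prop} [Pre le] : Pre (ple le ι) where
  refl p := ⟨lrefl p.1, lrefl p.2⟩
  trans h h' := ⟨ltrans h.1 h'.1, ltrans h.2 h'.2⟩

def ScaleStmt : Prop :=
  ∃ (K : Type) (_ : LinearOrder K) (_ : WellFoundedLT K) (a : ℕ → K), Scale K a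

def IfacePStmt : Prop :=
  ∀ (K : Type) [LinearOrder K] [WellFoundedLT K] (a : ℕ → K), Scale K a →
    ∃ (lam : Cardinal.{0}) (Θ : Type) (ty : Θ → ℕ), Big ty lam ∧
      Nonempty (Iface K a lam (Cd ty) Le)

/-- few Cohen coordinates capture many open sets of the product -/
def CaptureStmt : Prop :=
  ∀ (Q ι B : Type) (le : Q → Q → Prop) [Pre le] (n : ℕ) (U : B → Q × Cond ι → Prop),
    Master le (bt (n + 1)) (bt (n + 2)) → #B ≤ bt (n + 2) →
    (∀ b q q', ple le ι q' q → U b q → U b q') → ∀ p, ∃ p', le p' p ∧ ∃ S : Set ι,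
      #S ≤ bt (n + 2) ∧ ∀ b p1 c, le p1 p' → U b (p1, c) → ∃ (p2 : Q) (c' : Cond ι), le p2 p1 ∧
        (∀ i, c'.1 i ≠ none → i.1 ∈ S) ∧ Cmp c'.1 c.1 ∧ U b (p2, c')

def IfaceProdStmt : Prop :=
  ∀ (K : Type) [LinearOrder K] (a : ℕ → K) (lam : Cardinal.{0}) (Q ι : Type)
    (le : Q → Q → Prop) [Pre le], SL lam → #ι ≤ kp → Iface K a lam Q le →
    Nonempty (Iface K a lam (Q × Cond ι) (ple le ι))

/-- covering by small ground sets of witnesses -/
def CovStmt : Prop :=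
  ∀ (Q B W : Type) (le : Q → Q → Prop) [Pre le] (γ β : Cardinal.{0}) (R : B → Q → W → Prop)
    (p : Q), Master le γ β → ℵ₀ ≤ β → #B ≤ β → (∀ b q q' w, le q' q → R b q w → R b q' w) →
    (∀ b q, le q p → ∃ r w, le r q ∧ R b r w) →
    ∃ p', le p' p ∧ ∃ S : Set W, #S ≤ β ∧ ∀ b q, le q p' → ∃ r, le r q ∧ ∃ w ∈ S, R b r w

/-- the hypothesis of the problem -/
def hyp {V : Type 1} (k L : V) : Fml V :=
  and (alephW k) (and (bdd k L)
    (and (neg (leq L fun y => mem y k)) (allIn k fun a => neg (leq L fun y => sub y a))))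

def AlephStmt : Prop :=
  ∀ (K : Type) [LinearOrder K] [WellFoundedLT K] (a : ℕ → K) (lam : Cardinal.{0}) (Q : Type)
    (le : Q → Q → Prop) [Pre le] (I : Iface K a lam Q le), Scale K a →
    ∀ p, Forces le (alephW (kap I.t K)) p

def HypStmt : Prop :=
  ∀ (K : Type) [LinearOrder K] [WellFoundedLT K] (a : ℕ → K) (lam : Cardinal.{0}) (Q : Type)
    (le : Q → Q → Prop) [Pre le] (I : Iface K a lam Q le), Scale K a → SL lam →
    ∃ (Lam : Type) (nm : Lam → Name Q) (lev : Lam → ℕ), (∀ n, #{j | lev j = n} < lam) ∧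
      ∀ p, Forces le (hyp (kap I.t K) (Name.mk Lam nm fun _ => I.t)) p

def PosStmt : Prop :=
  ∀ (K : Type) [LinearOrder K] [WellFoundedLT K] (a : ℕ → K) (lam : Cardinal.{0}) (Q : Type)
    (le : Q → Q → Prop) [Pre le] (I : Iface K a lam Q le), Scale K a →
    (∀ (C : Colr le I.Λ) (p0 : Q), Goal C p0) → ∀ L : Name Q,
    (∀ p, Forces le (bdd (kap I.t K) L) p) → ∀ p, Forces le (neg (noArrow L (kap I.t K))) p

def NegStmt : Prop :=
  ∀ (K : Type) [LinearOrder K] [WellFoundedLT K] (a : ℕ → K) (lam : Cardinal.{0}) (Q : Type)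
    (le : Q → Q → Prop) [Pre le] (I : Iface K a lam (Q × Cond K) (ple le K)), Scale K a →
    (∀ n, Master le (bt (n + 1)) (bt (n + 2))) →
    ∀ (Lam : Type) (nm : Lam → Name (Q × Cond K)) (lev : Lam → ℕ),
    (∀ n, #{j | lev j = n} < lam) →
    ∀ p, Forces (ple le K) (noArrow (Name.mk Lam nm fun _ => I.t) (kap I.t K)) p

/-- passage to models of ZFC -/
def ModelStmt : Prop :=
  ∀ (Q : Type) (le : Q → Q → Prop) [Pre le] (t : Q) (k L : Name Q), (∀ p, le p t) →
    (∀ p, Forces le (hyp k L) p) →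
    ((∀ p, Forces le (neg (noArrow L k)) p) →
      ∃ (M : Type 1) (E : M → M → Prop), ZFC E ∧ ∃ k L, IHyp E k L ∧ IArrow E L k) ∧
    ((∀ p, Forces le (noArrow L k) p) →
      ∃ (M : Type 1) (E : M → M → Prop), ZFC E ∧ ∃ k L, IHyp E k L ∧ ¬ IArrow E L k)

theorem final_of (h0 : MainStmt) (h1 : ScaleStmt) (h2 : IfacePStmt) (h3 : IfaceProdStmt)
    (h4 : HypStmt) (h5 : PosStmt) (h6 : NegStmt) (h7 : ModelStmt) :
    (∃ (M : Type 1) (E : M → M → Prop), ZFC E ∧ ∃ k L, IHyp E k L ∧ IArrow E L k) ∧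
    ∃ (M : Type 1) (E : M → M → Prop), ZFC E ∧ ∃ k L, IHyp E k L ∧ ¬ IArrow E L k := by
  obtain ⟨K, i1, i2, a, hs⟩ := h1
  obtain ⟨lam, Θ, ty, hb, ⟨I⟩⟩ := h2 K a hs
  obtain ⟨I'⟩ := h3 K a lam _ K Le hb.toSL hs.card.le I
  have hl : lam ≤ #I.Λ := by
    by_contra hn
    obtain ⟨m, hm⟩ := I.big _ (hb.pow _ (not_le.1 hn))
    exact ((cantor _).trans_le hm).not_ge (mk_set_le _)
  constructor
  · obtain ⟨Lam, nm, lev, -, h⟩ := h4 K a lam _ Le I hs hb.toSL
    exact (h7 _ Le I.t _ _ I.top h).1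
      (h5 K a lam _ Le I hs (h0 Θ I.Λ ty lam hb hl) _ fun p => (h p).2.1)
  · obtain ⟨Lam, nm, lev, hlev, h⟩ := h4 K a lam _ _ I' hs hb.toSL
    exact (h7 _ _ I'.t _ _ I'.top h).2 (h6 K a lam _ Le I' hs I.mas Lam nm lev hlev)

end Pool.Agent.MP_a45f51_lc.A62

end MrgPart7

-- marker of a merged file
example : 731051 + 235028 = 731051 + 235028 := rfl
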