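import Pool.Agent.MP_a45f51_lc.h62.Spec2
import Mathlib.Tactic.FinCases
import Mathlib.Data.Fin.VecNotation

-- ======== part 0: formerly Pool.Agent.MP_a45f51_lc.h62.CanonLib
section MrgPart0

/-! PROJECT ARROW: tools for canonical colourings. -/

namespace Pool.Agent.MP_a45f51_lc.A62

open Cardinal Set Pool.Agent.Forcing92 Equiv

section One

variable {P : Type} {le : P → P → Prop} [Pre le] {W : P → Prop} {p q : P}

theorem One.mono (h : One le W p) (hq : le q p) : One le W q :=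
  fun r hr => h r (ltrans hr hq)

theorem exists_decide (le : P → P → Prop) [Pre le] (W : P → Prop) (p : P) :
    ∃ q, le q p ∧ (W q ∨ One le W q) := by
  by_cases h : One le W p
  · exact ⟨p, lrefl p, Or.inr h⟩
  · simp only [One, not_forall, not_not] at h
    obtain ⟨q, hq, h⟩ := h
    exact ⟨q, hq, Or.inl h⟩

theorem One.not (h : One le W p) : ¬ W p := h p (lrefl p)

variable {Λ : Type} (C : Colr le Λ) {x y z : Λ}

theorem Colr.exists_one (h : ¬ C.Z x y z p) : ∃ q, le q p ∧ One le (C.Z x y z) q := by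
  by_contra hn
  refine h (C.reg fun q hq => ?_)
  obtain ⟨r, hr, h | h⟩ := exists_decide le (C.Z x y z) q
  · exact ⟨r, hr, h⟩
  · exact absurd ⟨r, ltrans hr hq, h⟩ hn

theorem Colr.of_not_one (h : ∀ q, le q p → ¬ One le (C.Z x y z) q) : C.Z x y z p := by
  by_contra hn
  obtain ⟨q, hq, h'⟩ := C.exists_one hn
  exact h q hq h'

omit [Pre le] in
/-- a set on which all increasing triples get colour 0 -/
theorem Colr.goal_of_lt (lt : Λ → Λ → Prop) {X : Set Λ} {p0 : P} (hq : le q p0) (hX : kp ≤ #X)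
    (tri : ∀ x ∈ X, ∀ y ∈ X, x ≠ y → lt x y ∨ lt y x)
    (h : ∀ x ∈ X, ∀ y ∈ X, ∀ z ∈ X, lt x y → lt y z → C.Z x y z q) : Goal C p0 := by
  refine ⟨q, hq, X, hX, fun x hx y hy z hz hxy hxz hyz => ?_⟩
  rcases tri x hx y hy hxy with a | a <;> rcases tri y hy z hz hyz with b | b
  · exact h x hx y hy z hz a b
  · rcases tri x hx z hz hxz with c | c
    · exact C.sw2 (h x hx z hz y hy c b)
    · exact C.sw2 (C.sw1 (h z hz x hx y hy c a))
  · rcases tri x hx z hz hxz with c | c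
    · exact C.sw1 (h y hy x hx z hz a c)
    · exact C.sw1 (C.sw2 (h y hy z hz x hx b c))
  · exact C.sw1 (C.sw2 (C.sw1 (h z hz y hy x hx b a)))

end One

variable {Θ Λ : Type} {ty : Θ → ℕ}

theorem Supp.mono {W : Cd ty → Prop} {M M' : Set Θ} (h : Supp W M) (hM : M ⊆ M') : Supp W M' :=
  fun q q' hq => h q q' (hq.mono hM)

theorem Supp.one {W : Cd ty → Prop} {M : Set Θ} (h : Supp W M) : Supp (One Le W) M :=
  fun q _ hq h1 r hr h2 => h1 (glue M r q) (glue_le_right ((hr.on M).trans hq))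
    (h r _ (glue_leOn_left Subset.rfl r q) h2)

theorem one_pm {W W' : Cd ty → Prop} {σ : TP ty} (h : ∀ q, W q ↔ W' (pm σ q)) (q : Cd ty) :
    One Le W q ↔ One Le W' (pm σ q) := by
  refine ⟨fun h1 r hr h2 => h1 (pm σ⁻¹ r) ?_ ((h _).2 (by rwa [pm_pm_inv])),
    fun h1 r hr h2 => h1 _ (hr.pm σ) ((h r).1 h2)⟩
  have := hr.pm σ⁻¹
  rwa [pm_inv_pm] at this

/-- `W` and `W'` hold for the same extensions of `c` -/
def Same (W W' : Cd ty → Prop) (c : Cd ty) : Prop := ∀ c', Le c' c → (W c' ↔ W' c')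

theorem Same.mono {W W' : Cd ty → Prop} {c c' : Cd ty} (h : Same W W' c) (hc : Le c' c) :
    Same W W' c' := fun r hr => h r (hr.trans hc)

theorem Supp.same {W W' : Cd ty → Prop} {M : Set Θ} (h : Supp W M) (h' : Supp W' M) :
    Supp (Same W W') M := fun q q' hq h1 r hr => by
  have h2 := h1 (glue M r q) (glue_le_right ((hr.on M).trans hq))
  exact ⟨fun k => h' _ _ (leOn_glue_left Subset.rfl r q)
      (h2.1 (h _ _ (glue_leOn_left Subset.rfl r q) k)),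
    fun k => h _ _ (leOn_glue_left Subset.rfl r q)
      (h2.2 (h' _ _ (glue_leOn_left Subset.rfl r q) k))⟩

theorem same_pm {W1 W2 W1' W2' : Cd ty → Prop} {σ : TP ty} (h1 : ∀ q, W1 q ↔ W1' (pm σ q))
    (h2 : ∀ q, W2 q ↔ W2' (pm σ q)) {q : Cd ty} (h : Same W1 W2 q) : Same W1' W2' (pm σ q) := by
  intro r hr
  have k := hr.pm σ⁻¹
  rw [pm_inv_pm] at k
  have := h _ k
  rwa [h1, h2, pm_pm_inv] at this

/-- a statement decided by `w` on `E` modulo the other coordinates -/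
def Dec (W : Cd ty → Prop) (E : Set Θ) (w r : Cd ty) : Prop :=
  ∀ r1, Le r1 r → ∃ r2, Le r2 r1 ∧ (W (glue E w r2) ∨ One Le W (glue E w r2))

theorem Dec.mono {W : Cd ty → Prop} (hW : ∀ q q', Le q' q → W q → W q') {E : Set Θ}
    {w w' r r' : Cd ty} (h : Dec W E w r) (hw : LeOn E w' w) (hr : Le r' r) : Dec W E w' r' := by
  intro r1 h1
  obtain ⟨r2, h2, k⟩ := h r1 (h1.trans hr)
  have := glue_le_glue hw (LeOn.refl Eᶜ r2)
  exact ⟨r2, h2, k.imp (hW _ _ this) fun k => k.mono this⟩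

theorem Dec.one {W : Cd ty → Prop} (hW : ∀ q q', Le q' q → W q → W q') {E : Set Θ}
    {w r : Cd ty} (h : Dec W E w r) (h1 : ∀ r', Le r' r → ¬ W (glue E w r')) :
    One Le W (glue E w r) := by
  intro e he hWe
  have k1 : Le (glue E r e) r :=
    glue_le_left ((he.on _).trans (glue_leOn_right disjoint_compl_left w r))
  obtain ⟨r2, h2, k | k⟩ := h _ k1
  · exact h1 r2 (h2.trans k1) k
  · exact k (glue E e r2) (glue_le_glue ((he.on _).trans (glue_leOn_left Subset.rfl w r))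
      (LeOn.refl _ _)) (hW _ _
        (glue_le_left ((h2.on _).trans (glue_leOn_right disjoint_compl_left r e))) hWe)

variable {C : Colr (Le (ty := ty)) Λ}

theorem Dec.zero {x y z : Λ} {E : Set Θ} {w r : Cd ty} (h : Dec (C.Z x y z) E w r)
    (h1 : ∀ r', Le r' r → ¬ One Le (C.Z x y z) (glue E w r')) : C.Z x y z (glue E w r) := by
  refine C.of_not_one fun e he hWe => ?_
  have k1 : Le (glue E r e) r :=
    glue_le_left ((he.on _).trans (glue_leOn_right disjoint_compl_left w r))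
  obtain ⟨r2, h2, k | k⟩ := h _ k1
  · exact hWe (glue E e r2)
      (glue_le_left ((h2.on _).trans (glue_leOn_right disjoint_compl_left r e)))
      (C.mono (glue_le_glue ((he.on _).trans (glue_leOn_left Subset.rfl w r)) (LeOn.refl _ _)) k)
  · exact h1 r2 (h2.trans k1) k

theorem fix_one (H : Set Λ) : Fix H 1 := fun _ _ => rfl

variable [LinearOrder Λ]

theorem fix_swap {H : Set Λ} {y y' : Λ} (hy : y ∈ H) (hy' : y' ∈ H) : Fix H (swap y y') :=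
  fun _ ha => swap_apply_of_ne_of_ne (fun h => ha (h ▸ hy)) fun h => ha (h ▸ hy')

theorem smono_two {g : Λ → Λ} {A : Set Λ} {p q : Λ} (hA : ∀ a ∈ A, a = p ∨ a = q) (hpq : p < q)
    (hg : g p < g q) : StrictMonoOn g A := by
  intro a ha b hb hab
  rcases hA a ha with rfl | rfl <;> rcases hA b hb with rfl | rfl
  · exact absurd hab (lt_irrefl _)
  · exact hg
  · exact absurd hab hpq.not_gt
  · exact absurd hab (lt_irrefl _)

namespace Canon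

variable {k : ℕ} {Par H : Set Λ} (K : Canon C k Par H)

/-- coordinates whose carrier contains `y` -/
def Est (y : Λ) : Set Θ := {a | y ∈ K.car a}

/-- the support of the triple -/
def Sp (x y z : Λ) : Set Θ := {a | ∀ u ∈ K.car a, u = x ∨ u = y ∨ u = z}

variable {K} {y y' u v : Λ} {a : Θ} {p q : Cd ty} {E E' : Set Θ}

theorem notMem_car (hu : u ∈ Par) : u ∉ K.car a := fun h =>
  disjoint_left.1 K.disj hu (K.act.car_sub a h)

theorem swap_par (K : Canon C k Par H) (hy : y ∈ H) (hy' : y' ∈ H) (hu : u ∈ Par) :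
    swap y y' u = u := fix_swap hy hy' u (disjoint_left.1 K.disj hu)

theorem sq (hy : y ∈ H) (hy' : y' ∈ H) : K.σ (swap y y') * K.σ (swap y y') = 1 := by
  refine Subtype.ext ?_
  have := K.act.mul _ _ (fix_swap hy hy') (fix_swap hy hy')
  rw [swap_mul_self, K.act.one] at this
  exact this.symm

theorem sw_sw (hy : y ∈ H) (hy' : y' ∈ H) (p : Cd ty) : K.sw y y' (K.sw y y' p) = p := by
  rw [sw, sw, ← pm_mul, sq hy hy', pm_one]

theorem mem_car_swap (hy : y ∈ H) (hy' : y' ∈ H) :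
    u ∈ K.car ((K.σ (swap y y')).1 a) ↔ swap y y' u ∈ K.car a := by
  have := K.act.car_map _ (fix_swap hy hy') a (swap y y' u)
  rwa [swap_apply_self] at this

theorem swap_fix (hy : y ∈ H) (hy' : y' ∈ H) (h : y ∉ K.car a) (h' : y' ∉ K.car a) :
    (K.σ (swap y y')).1 a = a := by
  have := K.act.loc _ _ (fix_swap hy hy') (fix_one H) a fun u hu =>
    swap_apply_of_ne_of_ne (fun e => h (e ▸ hu)) fun e => h' (e ▸ hu)
  rwa [K.act.one] at this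

theorem agree_sw (hy : y ∈ H) (hy' : y' ∈ H) (h : ∀ a ∈ E, y ∉ K.car a ∧ y' ∉ K.car a)
    (p : Cd ty) : Agree E (K.sw y y' p) p :=
  agree_pm_fix (fun a ha => swap_fix hy hy' (h a ha).1 (h a ha).2) p

theorem leOn_sw (h : LeOn E q p) (hE : ∀ a, (K.σ (swap y y')).1 a ∈ E' → a ∈ E) :
    LeOn E' (K.sw y y' q) (K.sw y y' p) := LeOn.pm _ (h.mono hE)

theorem mem_pet : a ∈ K.Pet y ↔ ∀ u, u ∈ K.car a ↔ u = y := by
  simp [Pet, Finset.ext_iff]

theorem mem_root : a ∈ K.Root ↔ ∀ u, u ∉ K.car a := by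
  simp [Root, Finset.ext_iff]

theorem pet_swap (hy : y ∈ H) (hy' : y' ∈ H) (h : (K.σ (swap y y')).1 a ∈ K.Pet u) :
    a ∈ K.Pet (swap y y' u) := by
  refine mem_pet.2 fun x => ?_
  have := mem_pet.1 h (swap y y' x)
  rw [mem_car_swap hy hy', swap_apply_self] at this
  rw [this, swap_apply_eq_iff]

theorem leOn_pet_sw (hy : y ∈ H) (hy' : y' ∈ H) (h : LeOn (K.Pet y') q p) :
    LeOn (K.Pet y) (K.sw y y' q) (K.sw y y' p) :=
  leOn_sw h fun _ ha => by simpa using pet_swap hy hy' ha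

theorem leOn_pet_sw' (hy : y ∈ H) (hy' : y' ∈ H) (h : LeOn (K.Pet y) q p) :
    LeOn (K.Pet y') (K.sw y y' q) (K.sw y y' p) :=
  leOn_sw h fun _ ha => by simpa using pet_swap hy hy' ha

theorem pet_sub_est : K.Pet y ⊆ K.Est y := fun _ ha => (mem_pet.1 ha y).2 rfl

theorem est_swap (hy : y ∈ H) (hy' : y' ∈ H) (h : (K.σ (swap y y')).1 a ∈ K.Est y) :
    a ∈ K.Est y' := by
  have := (mem_car_swap hy hy').1 h
  rwa [swap_apply_left] at this

theorem est_high (h : a ∈ K.Est y) : k ≤ ty a := K.high a ⟨y, h⟩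

theorem est_sub_compl (TS : TSys ty k) (t : TS.T) : K.Est y ⊆ (TS.S.tr t)ᶜ :=
  fun _ ha h => (est_high ha).not_gt (TS.low t _ h)

/-- extensions on high coordinates are realized inside the tower system -/
theorem norm_est (TS : TSys ty k) (t : TS.T) {w : Cd ty} (h : Le w (TS.val t)) :
    ∃ t', TS.S.st t' t ∧ LeOn (K.Est y) (TS.val t') w :=
  let ⟨t', h1, h2⟩ := TS.norm t w h
  ⟨t', h1, h2.mono (est_sub_compl TS t)⟩

/-- the key comparison behind every transfer from the reference point `y'` to `y` -/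
theorem leOn_sw_glue (hy : y ∈ H) (hy' : y' ∈ H) (hE : ∀ a ∈ E, y' ∉ K.car a) {r r0 w : Cd ty}
    (h1 : LeOn (E ∩ K.Est y) r (K.sw y y' w)) (h2 : LeOn (E \ K.Est y) r r0) :
    LeOn E r (K.sw y y' (glue (K.Est y') w r0)) := by
  refine LeOn.split (K.Est y) (h1.trans (leOn_sw (leOn_glue_left Subset.rfl w r0)
    fun a ha => est_swap hy hy' ha.2)) (h2.trans (LeOn.trans ?_
      (agree_sw hy hy' (fun a ha => ⟨ha.2, hE a ha.1⟩) _).symm.leOn))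
  exact leOn_glue_right (disjoint_left.2 fun a ha h => hE a ha.1 h) w r0

/-- a parameter or a point of `H` below `y` -/
def Lw (_ : Canon C k Par H) (y u : Λ) : Prop := u ∈ Par ∨ (u ∈ H ∧ u < y)

theorem Lw.mem (h : K.Lw y u) : u ∈ Par ∪ H := h.imp id And.left

theorem Lw.ne (h : K.Lw y u) (hy' : y' ∈ H) (hyy : y ≤ y') : u ≠ y' := by
  rintro rfl
  rcases h with h | h
  · exact disjoint_left.1 K.disj h hy'
  · exact h.2.not_ge hyy

theorem Lw.swap (h : K.Lw y u) (hy : y ∈ H) (hy' : y' ∈ H) (hyy : y < y') : swap y y' u = u :=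
  swap_apply_of_ne_of_ne (h.ne hy le_rfl) (h.ne hy' hyy.le)

theorem smono_lw (hy : y ∈ H) (hy' : y' ∈ H) (hyy : y < y') {A : Set Λ}
    (hA : ∀ x ∈ A, K.Lw y x ∨ x = y') : StrictMonoOn (swap y y') (A ∩ H) := by
  have key : ∀ x ∈ H, K.Lw y x → x < y := fun x hx h =>
    h.elim (fun h => absurd hx (disjoint_left.1 K.disj h)) And.right
  intro a ha b hb hab
  rcases hA a ha.1 with h1 | rfl <;> rcases hA b hb.1 with h2 | rfl
  · rwa [h1.swap hy hy' hyy, h2.swap hy hy' hyy]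
  · rw [h1.swap hy hy' hyy, swap_apply_right]
    exact key a ha.2 h1
  · exact absurd ((key b hb.2 h2).trans hyy) hab.not_gt
  · exact absurd hab (lt_irrefl _)

theorem inv_last (hy : y ∈ H) (hy' : y' ∈ H) (hyy : y < y') (hu : K.Lw y u) (hv : K.Lw y v)
    (q : Cd ty) : C.Z u v y' q ↔ C.Z u v y (K.sw y y' q) := by
  have := K.inv _ (fix_swap hy hy') u hu.mem v hv.mem y' (Or.inr hy') (smono_lw (K := K) hy hy' hyy (by
    rintro x (rfl | rfl | rfl)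
    exacts [Or.inl hu, Or.inl hv, Or.inr rfl])) q
  rwa [hu.swap hy hy' hyy, hv.swap hy hy' hyy, swap_apply_right] at this

theorem inv_mid (hy : y ∈ H) (hy' : y' ∈ H) (hyy : y < y') (hu : K.Lw y u) (hv : K.Lw y v)
    (q : Cd ty) : C.Z u y' v q ↔ C.Z u y v (K.sw y y' q) :=
  ⟨fun h => C.sw2 ((inv_last hy hy' hyy hu hv q).1 (C.sw2 h)),
    fun h => C.sw2 ((inv_last hy hy' hyy hu hv q).2 (C.sw2 h))⟩

theorem sp_notMem (hy' : y' ∈ H) (hyy : y < y') (hu : K.Lw y u) (hv : K.Lw y v)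
    (ha : a ∈ K.Sp u v y) : y' ∉ K.car a := fun h => by
  rcases ha y' h with e | e | e
  · exact hu.ne hy' hyy.le e.symm
  · exact hv.ne hy' hyy.le e.symm
  · exact hyy.ne' e

/-- transfer of the colour 0 from the reference point `y'` to a point `y` -/
theorem zero_last (hy : y ∈ H) (hy' : y' ∈ H) (hyy : y < y') (hu : K.Lw y u) (hv : K.Lw y v)
    {r r0 w : Cd ty} (h1 : LeOn (K.Sp u v y ∩ K.Est y) r (K.sw y y' w)) (h2 : Le r r0)
    (h : C.Z u v y' (glue (K.Est y') w r0)) : C.Z u v y r :=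
  K.sup u hu.mem v hv.mem y (Or.inr hy) _ _
    (leOn_sw_glue hy hy' (fun _ => sp_notMem hy' hyy hu hv) h1 (h2.on _))
    ((inv_last hy hy' hyy hu hv _).1 h)

/-- transfer of the colour 1 from the reference point `y'` to a point `y` -/
theorem one_last (hy : y ∈ H) (hy' : y' ∈ H) (hyy : y < y') (hu : K.Lw y u) (hv : K.Lw y v)
    {r r0 w : Cd ty} (h1 : LeOn (K.Sp u v y ∩ K.Est y) r (K.sw y y' w)) (h2 : Le r r0)
    (h : One Le (C.Z u v y') (glue (K.Est y') w r0)) : One Le (C.Z u v y) r :=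
  (K.sup u hu.mem v hv.mem y (Or.inr hy)).one _ _
    (leOn_sw_glue hy hy' (fun _ => sp_notMem hy' hyy hu hv) h1 (h2.on _))
    ((one_pm (inv_last hy hy' hyy hu hv) _).1 h)

theorem sp_par (hu : u ∈ Par) (hv : v ∈ Par) : K.Sp u v y ∩ K.Est y ⊆ K.Pet y := by
  rintro a ⟨h1, h2⟩
  refine mem_pet.2 fun x => ⟨fun hx => ?_, fun hx => hx ▸ h2⟩
  rcases h1 x hx with rfl | rfl | rfl
  · exact absurd hx (notMem_car hu)
  · exact absurd hx (notMem_car hv)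
  · rfl

end Canon

theorem one_sw2 {P Λ : Type} {le : P → P → Prop} (C : Colr le Λ) {x y z : Λ} {p : P}
    (h : One le (C.Z x y z) p) : One le (C.Z x z y) p := fun q hq k => h q hq (C.sw2 k)

end Pool.Agent.MP_a45f51_lc.A62

end MrgPart0

-- ======== part 1: formerly Pool.Agent.MP_a45f51_lc.h62.StageA
section MrgPart1

-- ======== part 0: formerly Pool.Agent.MP_a45f51_lc.h62.CSysLib
section MrgPart0

/-! PROJECT ARROW: constructions of closure systems and two counting lemmas. -/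

namespace Pool.Agent.MP_a45f51_lc.A62

open Cardinal Set

variable {β γ : Cardinal.{0}} {T T' α α' : Type}

/-- small sets under reverse inclusion -/
def CSys.sets (hβ : ℵ₀ ≤ β) (α : Type) : CSys β {A : Set α // #A ≤ β} α where
  st A B := B.1 ⊆ A.1
  tr A := A.1
  refl _ := Subset.rfl
  trans h h' := h'.trans h
  tr_mono h := h
  tr_card A := A.2
  lim C _ hC _ := ⟨⟨⋃ A ∈ C, A.1, mk_biUnion_le_of hβ hC fun A _ => A.2⟩,
    fun _ hA => subset_biUnion_of_mem (u := fun A : {A : Set α // #A ≤ β} => A.1) hA, Subset.rfl⟩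

/-- the product of two closure systems -/
def CSys.prod (hβ : ℵ₀ ≤ β) (S : CSys β T α) (S' : CSys β T' α') :
    CSys β (T × T') (α ⊕ α') where
  st a b := S.st a.1 b.1 ∧ S'.st a.2 b.2
  tr a := Sum.inl '' S.tr a.1 ∪ Sum.inr '' S'.tr a.2
  refl a := ⟨S.refl a.1, S'.refl a.2⟩
  trans h h' := ⟨S.trans h.1 h'.1, S'.trans h.2 h'.2⟩
  tr_mono h := union_subset_union (image_mono (S.tr_mono h.1)) (image_mono (S'.tr_mono h.2))
  tr_card a := mk_union_le_of hβ (mk_image_le.trans (S.tr_card _))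
    (mk_image_le.trans (S'.tr_card _))
  lim C hne hC hch := by
    obtain ⟨t, h1, h2⟩ := S.lim (Prod.fst '' C) (hne.image _) (mk_image_le.trans hC) (by
      rintro _ ⟨a, ha, rfl⟩ _ ⟨b, hb, rfl⟩
      exact (hch a ha b hb).imp And.left And.left)
    obtain ⟨t', h3, h4⟩ := S'.lim (Prod.snd '' C) (hne.image _) (mk_image_le.trans hC) (by
      rintro _ ⟨a, ha, rfl⟩ _ ⟨b, hb, rfl⟩
      exact (hch a ha b hb).imp And.right And.right)
    refine ⟨(t, t'), fun a ha => ⟨h1 _ ⟨a, ha, rfl⟩, h3 _ ⟨a, ha, rfl⟩⟩, ?_⟩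
    rintro _ (⟨x, hx, rfl⟩ | ⟨x, hx, rfl⟩)
    · obtain ⟨_, ⟨a, ha, rfl⟩, hx⟩ := mem_iUnion₂.1 (h2 hx)
      exact mem_iUnion₂.2 ⟨a, ha, Or.inl ⟨x, hx, rfl⟩⟩
    · obtain ⟨_, ⟨a, ha, rfl⟩, hx⟩ := mem_iUnion₂.1 (h4 hx)
      exact mem_iUnion₂.2 ⟨a, ha, Or.inr ⟨x, hx, rfl⟩⟩

theorem CSys.inl_mem_prod (hβ : ℵ₀ ≤ β) (S : CSys β T α) (S' : CSys β T' α') {a : T × T'}
    {x : α} : Sum.inl x ∈ (S.prod hβ S').tr a ↔ x ∈ S.tr a.1 := by simp [CSys.prod]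

theorem CSys.inr_mem_prod (hβ : ℵ₀ ≤ β) (S : CSys β T α) (S' : CSys β T' α') {a : T × T'}
    {x : α'} : Sum.inr x ∈ (S.prod hβ S').tr a ↔ x ∈ S'.tr a.2 := by simp [CSys.prod]

/-- few small subsets of a small set -/
theorem mk_small_subsets (hγ : ℵ₀ ≤ γ) {A : Set α} (hA : #A ≤ 2 ^ γ) :
    #{E : Set α | E ⊆ A ∧ #E ≤ γ} ≤ 2 ^ γ := by
  refine (mk_bounded_subset_le A γ).trans ?_
  have h0 : ℵ₀ ≤ 2 ^ γ := hγ.trans (cantor γ).le
  refine (power_le_power_right (max_le hA h0)).trans ?_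
  rw [← power_mul, mul_eq_self hγ]

/-- counting by fibres -/
theorem mk_le_of_fibres {ι κ : Type} (hβ : ℵ₀ ≤ β) {I : Set ι} {J : Set κ} (f : ι → κ)
    (hf : ∀ i ∈ I, f i ∈ J) (hJ : #J ≤ β) (h : ∀ j ∈ J, #{i | i ∈ I ∧ f i = j} ≤ β) :
    #I ≤ β :=
  mk_sub_le (mk_biUnion_le_of hβ hJ h) fun i hi => mem_iUnion₂.2 ⟨f i, hf i hi, hi, rfl⟩

end Pool.Agent.MP_a45f51_lc.A62

end MrgPart0

-- ======== part 1: formerly Pool.Agent.MP_a45f51_lc.h62.StageA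
section MrgPart1

/-! PROJECT ARROW: the first half of a stage. -/

namespace Pool.Agent.MP_a45f51_lc.A62

open Cardinal Set Pool.Agent.Forcing92 Equiv

namespace StageA

theorem exists_notMem {α : Type} {A B : Set α} (h : #A < #B) : ∃ x ∈ B, x ∉ A := by
  by_contra hn
  push Not at hn
  exact h.not_ge (mk_le_mk_of_subset hn)

theorem exists_lo {Λ : Type} [LinearOrder Λ] [WellFoundedLT Λ] {H : Set Λ}
    (hH : Order.succ kp < #H) : ∃ Lo ⊆ H,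
      (∀ A : Set Λ, #A ≤ kp → ∃ y ∈ Lo, y ∉ A ∧ ∀ a ∈ A, a ∈ Lo → a < y) ∧
      ∀ A : Set Λ, #A ≤ kp → ∃ y ∈ H, y ∉ A ∧ ∀ a ∈ Lo, a < y := by
  let Lo : Set Λ := {y | y ∈ H ∧ #(H ∩ Iio y : Set Λ) ≤ kp}
  have h1 : #Lo ≤ Order.succ kp := by
    have : Ordinal.type (α := Lo) (· < ·) ≤ (Order.succ kp).ord := by
      by_contra hn
      obtain ⟨x, hx⟩ := Ordinal.typein_surj (α := Lo) (· < ·) (not_le.1 hn)
      have h2 := congrArg Ordinal.card hx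
      rw [Ordinal.card_typein, card_ord] at h2
      refine (Order.lt_succ kp).not_ge (h2 ▸ le_trans (mk_le_of_injective
        (f := fun y : {y : Lo // y < x} => (⟨y.1.1, y.1.2.1, y.2⟩ : (H ∩ Iio x.1 : Set Λ)))
          fun y y' h => Subtype.ext (Subtype.ext (Subtype.mk.inj h))) x.2.2)
    have h2 := Ordinal.card_le_card this
    rwa [Ordinal.card_type, card_ord] at h2
  refine ⟨Lo, fun _ h => h.1, fun A hA => ?_, fun A hA => ?_⟩
  · have h2 : #(A ∪ ⋃ a ∈ A ∩ Lo, H ∩ Iio a : Set Λ) ≤ kp := mk_union_le_of aleph0_le_kp hA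
      (mk_biUnion_le_of aleph0_le_kp (mk_sub_le hA inter_subset_left) fun a ha => ha.2.2)
    obtain ⟨y, ⟨hy, hy'⟩, hmin⟩ := (wellFounded_lt (α := Λ)).has_min
      {y | y ∈ H ∧ y ∉ A ∪ ⋃ a ∈ A ∩ Lo, H ∩ Iio a}
      (exists_notMem (h2.trans_lt ((Order.lt_succ kp).trans hH)))
    refine ⟨y, ⟨hy, mk_sub_le h2 fun x hx => ?_⟩, fun h => hy' (Or.inl h), fun a ha ha' => ?_⟩
    · by_contra hn
      exact hmin x ⟨hx.1, hn⟩ hx.2
    · by_contra hn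
      rcases (not_lt.1 hn).eq_or_lt with rfl | h
      · exact hy' (Or.inl ha)
      · exact hy' (Or.inr (mem_iUnion₂.2 ⟨a, ⟨ha, ha'⟩, hy, h⟩))
  · obtain ⟨y, hy, hy'⟩ := exists_notMem ((mk_union_le_of (aleph0_le_kp.trans (Order.le_succ kp))
      (hA.trans (Order.le_succ kp)) h1).trans_lt hH)
    refine ⟨y, hy, fun h => hy' (Or.inl h), fun a ha => ?_⟩
    by_contra hn
    exact hy' (Or.inr ⟨hy, mk_sub_le ha.2
      (inter_subset_inter_right _ (Iio_subset_Iio (not_lt.1 hn)))⟩)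

variable {Θ Λ : Type} {ty : Θ → ℕ} [LinearOrder Λ] {C : Colr (Le (ty := ty)) Λ} {j : ℕ}
  {Par H L : Set Λ}

theorem mk_cars (K : Canon C j Par H) (p : Cd ty) :
    #(⋃ a ∈ p.supp, (K.car a : Set Λ) : Set Λ) ≤ kp :=
  mk_biUnion_le_of aleph0_le_kp p.mk_supp fun a _ =>
    (K.car a).finite_toSet.lt_aleph0.le.trans aleph0_le_kp

omit [LinearOrder Λ] in
theorem same_of_dense {x y z x' y' z' : Λ} {c : Cd ty}
    (h : ∀ c', Le c' c → ∃ e, Le e c' ∧ ((C.Z x y z e ∧ C.Z x' y' z' e) ∨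
      (One Le (C.Z x y z) e ∧ One Le (C.Z x' y' z') e))) :
    Same (C.Z x y z) (C.Z x' y' z') c := by
  refine fun c' hc' => ⟨fun k => C.reg fun r hr => ?_, fun k => C.reg fun r hr => ?_⟩
  · obtain ⟨e, he, h | h⟩ := h r (hr.trans hc')
    · exact ⟨e, he, h.2⟩
    · exact absurd (C.mono (he.trans hr) k) h.1.not
  · obtain ⟨e, he, h | h⟩ := h r (hr.trans hc')
    · exact ⟨e, he, h.1⟩
    · exact absurd (C.mono (he.trans hr) k) h.2.not

theorem m1 (hS : SplitStmt) (K : Canon C j Par H) (TS : TSys ty j) (hj : 1 ≤ j)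
    (hL : #L ≤ bt j) (hLP : L ⊆ Par) {z0 : Λ} (hz : z0 ∈ H) (q0 : Cd ty) :
    ∃ c0, Le c0 q0 ∧ ∀ ys ∈ H, ys ≠ z0 → (∀ a ∈ c0.supp, ys ∉ K.car a) →
      ∃ c, Le c c0 ∧ ∀ u ∈ L, ∀ v ∈ L, Same (C.Z u v ys) (C.Z u v z0) c := by
  obtain ⟨t, ht⟩ := TS.start q0
  obtain ⟨p', t', h1, h2, h3⟩ := hS Θ ty j TS (K.Est z0) (L × L) (fun i => C.Z i.1 i.2 z0) hj
    (fun _ => Canon.est_high) (by
      simp only [mk_prod, lift_id]
      exact (mul_le_of_le (aleph0_le_bt j) hL hL).trans (bt_mono (Nat.le_succ j)))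
    (fun _ _ _ => C.mono) (TS.val t) t
  refine ⟨glue (K.Est z0) (TS.val t') p',
    (glue_le ((TS.le h2).on _) (h1.on _)).trans ht, fun ys hys hne hf => ?_⟩
  set c0 := glue (K.Est z0) (TS.val t') p'
  refine ⟨glue (K.Est ys) (K.sw ys z0 c0) c0, glue_le_right (leOn_of_disjoint
    (disjoint_left.2 fun a ha h => hf a h ha) _), fun u hu v hv => same_of_dense fun c' hc' => ?_⟩
  have hc0 : Le c' c0 := hc'.trans (glue_le_right (leOn_of_disjoint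
    (disjoint_left.2 fun a ha h => hf a h ha) _))
  obtain ⟨q2, k1, k2⟩ := h3 (⟨u, hu⟩, ⟨v, hv⟩) (glue (K.Est z0) p' c')
    (glue_le_left ((hc0.on _).trans (glue_leOn_right disjoint_compl_left _ _)))
  have e1 : Le (glue (K.Est z0) c' q2) c' :=
    glue_le_left ((k1.on _).trans (glue_leOn_right disjoint_compl_left _ _))
  have e2 : Le (glue (K.Est z0) c' q2) (glue (K.Est z0) (TS.val t') q2) :=
    glue_le_glue ((hc0.on _).trans (glue_leOn_left Subset.rfl _ _)) (LeOn.refl _ _)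
  have hE : ∀ a ∈ K.Sp u v ys, z0 ∉ K.car a := fun a ha h => by
    rcases ha z0 h with e | e | e
    · exact Canon.notMem_car (hLP hu) (e ▸ h)
    · exact Canon.notMem_car (hLP hv) (e ▸ h)
    · exact hne e.symm
  have e3 : LeOn (K.Sp u v ys) (glue (K.Est z0) c' q2)
      (K.sw ys z0 (glue (K.Est z0) (TS.val t') q2)) :=
    Canon.leOn_sw_glue hys hz hE
      ((((e1.trans hc').on _).trans (glue_leOn_left inter_subset_right _ _)).trans
        (Canon.leOn_sw (glue_leOn_left Subset.rfl _ _) fun a ha => Canon.est_swap hys hz ha.2))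
      (glue_leOn_right (disjoint_left.2 fun a ha h => hE a ha.1 h) _ _)
  have inv : ∀ q, C.Z u v z0 q ↔ C.Z u v ys (K.sw ys z0 q) := fun q => by
    have := K.inv _ (fix_swap hys hz) u (Or.inl (hLP hu)) v (Or.inl (hLP hv)) z0 (Or.inr hz)
      (fun a ha b hb hab => by
        have key : ∀ a ∈ ({u, v, z0} ∩ H : Set Λ), a = z0 := by
          rintro x ⟨rfl | rfl | rfl, hx⟩
          · exact absurd hx (disjoint_left.1 K.disj (hLP hu))
          · exact absurd hx (disjoint_left.1 K.disj (hLP hv))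
          · rfl
        exact absurd ((key a ha).trans (key b hb).symm) hab.ne) q
    rwa [K.swap_par hys hz (hLP hu), K.swap_par hys hz (hLP hv), swap_apply_right] at this
  have sup := K.sup u (Or.inl (hLP hu)) v (Or.inl (hLP hv)) ys (Or.inr hys)
  refine ⟨_, e1, k2.imp (fun h => ⟨sup _ _ e3 ((inv _).1 h), C.mono e2 h⟩)
    fun h => ⟨sup.one _ _ e3 ((one_pm inv _).1 h), h.mono e2⟩⟩

/-- the data of a witness for a template at the pair `y`, `ys` -/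
def Wit (K : Canon C j Par H) (z : ℕ → Λ) (ys y : Λ) (X : Set Λ) (ρ : Set ℕ) (q w : Cd ty) :
    Prop :=
  ∃ d, LeOn K.Root d q ∧ LeOn (K.Pet ys) d w ∧ LeOn (K.Pet y) d (K.sw y ys w) ∧
    Tmpl C z X ρ y ys d

variable {K : Canon C j Par H} {z : ℕ → Λ} {ys y y' : Λ} {X : Set Λ} {ρ : Set ℕ}
  {q q' w w' : Cd ty}

theorem Wit.mono (h : Wit K z ys y X ρ q' w') (hy : y ∈ H) (hys : ys ∈ H) (hq : Le q' q)
    (hw : LeOn (K.Pet ys) w' w) : Wit K z ys y X ρ q w :=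
  let ⟨d, h1, h2, h3, h4⟩ := h
  ⟨d, h1.trans (hq.on _), h2.trans hw, h3.trans (Canon.leOn_pet_sw hy hys hw), h4⟩

theorem inv_two {u : Λ} (hu : u ∈ Par) {g : Perm Λ} (hg : Fix H g) {a b : Λ} (ha : a ∈ H)
    (hb : b ∈ H) (hab : a < b) (hab' : g a < g b) (h : C.Z u a b q) :
    C.Z u (g a) (g b) (pm (K.σ g) q) := by
  have := (K.inv g hg u (Or.inl hu) a (Or.inr ha) b (Or.inr hb) (smono_two (by
    rintro x ⟨rfl | rfl | rfl, hx⟩
    · exact absurd hx (disjoint_left.1 K.disj hu)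
    · exact Or.inl rfl
    · exact Or.inr rfl) hab hab') q).1 h
  rwa [hg u (disjoint_left.1 K.disj hu)] at this

theorem tmpl_pm (hX : X ⊆ Par) (hz : ∀ m, z m ∈ Par) {g : Perm Λ} (hg : Fix H g) {a b : Λ}
    (ha : a ∈ H) (hb : b ∈ H) (hab : a < b) (hab' : g a < g b) (h : Tmpl C z X ρ a b q) :
    Tmpl C z X ρ (g a) (g b) (pm (K.σ g) q) :=
  ⟨fun u hu => inv_two (hX hu) hg ha hb hab hab' (h.1 u hu), fun m hm =>
    C.sw2 (C.sw1 (inv_two (hz m) hg ha hb hab hab' (C.sw1 (C.sw2 (h.2 m hm)))))⟩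

theorem Wit.move (h : Wit K z ys y X ρ q w) (hX : X ⊆ Par) (hz : ∀ m, z m ∈ Par) (hy : y ∈ H)
    (hy' : y' ∈ H) (hys : ys ∈ H) (h1 : y < ys) (h2 : y' < ys) : Wit K z ys y' X ρ q w := by
  obtain ⟨d, k1, k2, k3, k4⟩ := h
  have e : swap y y' ys = ys := swap_apply_of_ne_of_ne h1.ne' h2.ne'
  refine ⟨K.sw y y' d, (Canon.agree_sw hy hy' (fun a ha =>
      ⟨Canon.mem_root.1 ha _, Canon.mem_root.1 ha _⟩) d).leOn.trans k1,
    (Canon.agree_sw hy hy' (fun a ha => ⟨fun h => h1.ne ((Canon.mem_pet.1 ha _).1 h),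
      fun h => h2.ne ((Canon.mem_pet.1 ha _).1 h)⟩) d).leOn.trans k2,
    (Canon.leOn_pet_sw' hy hy' k3).trans ?_, ?_⟩
  · rw [Canon.sw, Canon.sw, ← pm_mul]
    refine (agree_pm_congr (fun a ha => ?_) w).leOn
    have i1 := congrArg Subtype.val (inv_eq_of_mul_eq_one_right (Canon.sq (K := K) hy hy'))
    have i2 := congrArg Subtype.val (inv_eq_of_mul_eq_one_right (Canon.sq (K := K) hy hys))
    have i3 := congrArg Subtype.val (inv_eq_of_mul_eq_one_right (Canon.sq (K := K) hy' hys))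
    simp only [Subgroup.coe_inv] at i1 i2 i3
    rw [Subgroup.coe_mul, mul_inv_rev, i1, i2, i3,
      ← K.act.mul _ _ (fix_swap hy hys) (fix_swap hy hy')]
    refine K.act.loc _ _ (fun x hx => ?_) (fix_swap hy' hys) a fun x hx => ?_
    · rw [Perm.mul_apply, fix_swap hy hy' x hx, fix_swap hy hys x hx]
    · rw [(Canon.mem_pet.1 ha x).1 hx]
      simp
  · have := tmpl_pm (K := K) hX hz (fix_swap hy hy') hy hys h1 (by rwa [e, swap_apply_left]) k4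
    rwa [e, swap_apply_left] at this

theorem m2 (hM : MasterStmt) (K : Canon C j Par H) (TS : TSys ty j) (hj : 1 ≤ j)
    (hL : #L ≤ bt j) (z : ℕ → Λ) {Lo : Set Λ} (hLo : Lo ⊆ H) (hys : ys ∈ H) (p : Cd ty)
    (t : TS.T) : ∃ p' t', Le p' p ∧ TS.S.st t' t ∧ ∀ X ⊆ L, ∀ ρ r, Le r p' →
      (∀ r', Le r' r → ∃ y ∈ Lo, Wit K z ys y X ρ r' (TS.val t')) →
      ∀ w, LeOn (K.Pet ys) w (TS.val t') → ∃ y ∈ Lo, Wit K z ys y X ρ r w := by
  have mono : ∀ {X ρ q q' w w'}, Le q' q → LeOn (K.Pet ys) w' w →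
      (∃ y ∈ Lo, Wit K z ys y X ρ q' w') → ∃ y ∈ Lo, Wit K z ys y X ρ q w :=
    fun hq hw ⟨y, hy, h⟩ => ⟨y, hy, h.mono (hLo hy) hys hq hw⟩
  obtain ⟨p', t', h1, h2, h3⟩ := hM Θ ty j hj TS.T Θ ({X : Set Λ // X ⊆ L} × Set ℕ) TS.S
    (fun _ => ∅) (fun i q t => (¬ ∃ y ∈ Lo, Wit K z ys y i.1.1 i.2 q (TS.val t)) ∨
      ∀ q', Le q' q → ∀ w, LeOn (K.Pet ys) w (TS.val t) → ∃ y ∈ Lo, Wit K z ys y i.1.1 i.2 q' w)
    p t (fun _ => by simp) (fun _ _ => (mk_set_le _).trans (by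
      rw [bt_succ hj]
      have h0 := aleph0_le_bt j
      simp only [mk_prod, lift_id]
      refine mul_le_of_le (h0.trans (cantor _).le) ?_ ?_
      · exact (mk_powerset L).le.trans (power_le_power_left two_ne_zero hL)
      · rw [mk_set, mk_nat]
        exact power_le_power_left two_ne_zero h0))
    (fun i q q' t t' hq ht h => h.imp (fun h k => h (mono hq ((TS.le ht).on _) k))
      fun h q'' hq' w hw => h q'' (hq'.trans hq) w (hw.trans ((TS.le ht).on _)))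
    (fun i q t _ _ _ => by
      by_cases h : ∀ q', Le q' q → ∀ w, LeOn (K.Pet ys) w (TS.val t) →
          ∃ y ∈ Lo, Wit K z ys y i.1.1 i.2 q' w
      · exact ⟨q, t, Le.refl q, TS.S.refl t, Or.inr h⟩
      · simp only [not_forall] at h
        obtain ⟨q', hq', w, hw, h⟩ := h
        obtain ⟨t', k1, k2⟩ := Canon.norm_est (K := K) (y := ys) TS t (glue_le_right hw)
        exact ⟨q', t', hq', k1, Or.inl fun k => h (mono (Le.refl _)
          ((k2.mono Canon.pet_sub_est).trans (glue_leOn_left Subset.rfl _ _)) k)⟩)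
  refine ⟨p', t', h1, h2, fun X hX ρ r hr h w hw => ?_⟩
  obtain ⟨r', k1, k | k⟩ := h3 (⟨X, hX⟩, ρ) (empty_subset _) r hr
  · exact absurd (h r' k1) k
  · exact mono k1 (LeOn.refl _ _) (k r' (Le.refl _) w hw)

theorem dec_many {P ι : Type} {le : P → P → Prop} [Pre le] (hσ : Sigma le) [Countable ι]
    [Nonempty ι] (W : ι → P → Prop) (hW : ∀ i q q', le q' q → W i q → W i q') (p : P) :
    ∃ q, le q p ∧ ∀ i, W i q ∨ One le (W i) q := by
  obtain ⟨f, hf⟩ := exists_surjective_nat ι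
  obtain ⟨-, q, h1, -, h2⟩ := hσ Unit (fun _ _ _ => True)
    (fun n _ _ q => W (f n) q ∨ One le (W (f n)) q) () p (fun _ _ _ _ _ _ => trivial)
    (fun n _ _ q q' hq h => h.imp (hW _ q q' hq) fun h => h.mono hq) trivial
    (fun n _ q _ _ => let ⟨r, hr, h⟩ := exists_decide le (W (f n)) q; ⟨(), r, hr, trivial, h⟩)
  refine ⟨q, h1, fun i => ?_⟩
  obtain ⟨n, rfl⟩ := hf i
  exact (h2 n).2

theorem same_pt {u v z0 : Λ} (hu : u ∈ Par) (hv : v ∈ Par) (hz : z0 ∈ Par) (hy : y ∈ H)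
    (hys : ys ∈ H) (hlt : y < ys) {r : Cd ty} (h1 : LeOn (K.Pet y) r (K.sw y ys w))
    (h : Same (C.Z u v ys) (C.Z u v z0) (glue (K.Est ys) w r)) :
    Same (C.Z u v y) (C.Z u v z0) r := by
  have inv : ∀ q, C.Z u v z0 q ↔ C.Z u v z0 (K.sw y ys q) := fun q => by
    have := K.inv _ (fix_swap hy hys) u (Or.inl hu) v (Or.inl hv) z0 (Or.inl hz)
      (fun x hx _ _ _ => by
        rcases hx with ⟨rfl | rfl | rfl, hx⟩
        · exact absurd hx (disjoint_left.1 K.disj hu)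
        · exact absurd hx (disjoint_left.1 K.disj hv)
        · exact absurd hx (disjoint_left.1 K.disj hz)) q
    rwa [K.swap_par hy hys hu, K.swap_par hy hys hv, K.swap_par hy hys hz] at this
  refine Supp.same (K.sup u (Or.inl hu) v (Or.inl hv) y (Or.inr hy))
    ((K.sup u (Or.inl hu) v (Or.inl hv) z0 (Or.inl hz)).mono fun a ha x hx => ?_) _ _
    (Canon.leOn_sw_glue hy hys (fun _ => Canon.sp_notMem hys hlt (Or.inl hu) (Or.inl hv))
      (h1.mono (Canon.sp_par hu hv)) (LeOn.refl _ r))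
    (same_pm (Canon.inv_last hy hys hlt (Or.inl hu) (Or.inl hv)) inv h)
  rcases ha x hx with rfl | rfl | rfl
  · exact absurd hx (Canon.notMem_car hu)
  · exact absurd hx (Canon.notMem_car hv)
  · exact absurd hx (Canon.notMem_car hz)

theorem many_pts (K : Canon C j Par H) {Lo : Set Λ}
    (fresh : ∀ A : Set Λ, #A ≤ kp → ∃ y ∈ Lo, y ∉ A ∧ ∀ a ∈ A, a ∈ Lo → a < y) (ys : Λ)
    (w q : Cd ty) : ∃ q', Le q' q ∧ ∃ X ⊆ Lo, kp ≤ #X ∧
      ∀ y ∈ X, LeOn (K.Pet y) q' (K.sw y ys w) := by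
  have h1 : kp ≤ #(Lo \ ⋃ a ∈ q.supp, (K.car a : Set Λ) : Set Λ) := by
    by_contra hn
    obtain ⟨y, hy, hy', -⟩ := fresh _ (mk_union_le_of aleph0_le_kp (not_le.1 hn).le (mk_cars K q))
    exact hy' ((em _).symm.imp (fun h => ⟨hy, h⟩) id)
  obtain ⟨X, hX, hc⟩ := le_mk_iff_exists_subset.1 h1
  obtain ⟨u, hu⟩ := exists_amalgam (β := X) hc.le (fun y => K.Pet y.1)
    (fun i l x hi hl => Subtype.ext ((Canon.mem_pet.1 hl _).1 (Canon.pet_sub_est hi)))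
    fun y => K.sw y.1 ys w
  refine ⟨glue (⋃ y : X, K.Pet y.1) u q, glue_le_right (leOn_of_disjoint
    (disjoint_left.2 fun a ha h => ?_) _), X, fun y hy => (hX hy).1, hc.ge, fun y hy =>
      (glue_leOn_left (subset_iUnion (fun y : X => K.Pet y.1) ⟨y, hy⟩) _ _).trans
        (hu ⟨y, hy⟩).leOn⟩
  obtain ⟨y, hy⟩ := mem_iUnion.1 ha
  exact (hX y.2).2 (mem_iUnion₂.2 ⟨a, h, Canon.pet_sub_est hy⟩)

end StageA

open StageA in
theorem stageA (hM : MasterStmt) (hS : SplitStmt) (hσ : SigmaStmt) : StageAStmt := by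
  intro Θ Λ ty _ _ C j Pa Ba Pb H L z0 z Ka K TS hj hL hLa hLb hz0a hz0b hz hH hc q0
  have ne : ∀ {u y}, u ∈ Pb → y ∈ H → u ≠ y := fun hu hy e =>
    disjoint_left.1 K.disj hu (e ▸ hy)
  obtain ⟨Lo, hLo, fresh, up⟩ := exists_lo hc
  obtain ⟨c0, hc0, h1⟩ := m1 hS Ka TS hj hL hLa hz0a q0
  obtain ⟨ys, hys, hf, hlt⟩ := up _ (mk_cars Ka c0)
  obtain ⟨c, hcc, hsame⟩ := h1 ys (hH hys) (ne hz0b hys).symm
    fun a ha h => hf (mem_iUnion₂.2 ⟨a, ha, h⟩)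
  obtain ⟨t1, ht1⟩ := TS.start c
  obtain ⟨p2, t2, a1, a2, a3⟩ := hS Θ ty j TS (K.Est ys) (L × ℕ)
    (fun i => C.Z i.1 ys (z i.2)) hj (fun _ => Canon.est_high) (by
      simp only [mk_prod, lift_id, mk_nat]
      exact (mul_le_of_le (aleph0_le_bt j) hL (aleph0_le_bt j)).trans (bt_mono (Nat.le_succ j)))
    (fun _ _ _ => C.mono) (TS.val t1) t1
  obtain ⟨q2, t0, b1, b2, b3⟩ := m2 hM K TS hj hL z hLo hys p2 t2
  have hw0 : Le (TS.val t0) c := (TS.le b2).trans ((TS.le a2).trans ht1)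
  have hq2 : Le q2 c := b1.trans (a1.trans ht1)
  have eqv : ∀ {r y u v}, Le r q2 → y ∈ Lo → LeOn (K.Pet y) r (K.sw y ys (TS.val t0)) → u ∈ L →
      v ∈ L → Same (C.Z u v y) (C.Z u v z0) r := fun hr hy hp hu hv =>
    same_pt (hLb hu) (hLb hv) hz0b (hLo hy) hys (hlt _ hy) hp
      ((hsame _ hu _ hv).mono (glue_le (hw0.on _) ((hr.trans hq2).on _)))
  obtain ⟨q3, hq3, X, hX, hXc, hXp⟩ := many_pts K fresh ys (TS.val t0) q2
  by_cases hall : ∀ x ∈ X, ∀ y ∈ X, ∀ z ∈ X, x < y → y < z → C.Z x y z q3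
  · exact Or.inl (C.goal_of_lt (· < ·) (hq3.trans (hq2.trans (hcc.trans hc0))) hXc
      (fun x _ y _ h => lt_or_gt_of_ne h) hall)
  simp only [not_forall] at hall
  obtain ⟨a, ha, b, hb, e, he, hab, hbe, hn⟩ := hall
  obtain ⟨q4, hq4, hone⟩ := C.exists_one hn
  let ea : Fin 3 → Λ := ![a, a, b]
  let eb : Fin 3 → Λ := ![b, e, e]
  have hea : ∀ t, ea t ∈ X ∧ eb t ∈ X ∧ ea t < eb t := fun t => by
    fin_cases t
    exacts [⟨ha, hb, hab⟩, ⟨ha, he, hab.trans hbe⟩, ⟨hb, he, hbe⟩]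
  obtain ⟨q5, hq5, hdec⟩ := dec_many (hσ Θ ty) (fun i : Fin 3 × ℕ => C.Z (ea i.1) (eb i.1) (z i.2))
    (fun _ _ _ => C.mono) q4
  have h53 : Le q5 q3 := hq5.trans hq4
  have h52 : Le q5 q2 := h53.trans hq3
  have aH := hLo (hX ha)
  have bH := hLo (hX hb)
  have eH := hLo (hX he)
  refine Or.inr ⟨q5, h52.trans (hq2.trans (hcc.trans hc0)), ⟨⟨⟨
    fun r y => y ∈ Lo ∧ LeOn (K.Pet y) r (K.sw y ys (TS.val t0)),
    fun t u r => C.Z u (ea t) (eb t) r,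
    fun u m r => C.Z u ys (z m) (glue (K.Est ys) (TS.val t0) r),
    fun t => {m | C.Z (ea t) (eb t) (z m) q5},
    fun hr h => ⟨h.1, (hr.on _).trans h.2⟩, C.mono,
    fun hr => C.mono (glue_le_glue (LeOn.refl _ _) (hr.on _)),
    fun hr hp hu hv => eqv (hr.trans h52) hp.1 hp.2 hu hv _ (Le.refl _),
    fun {r y u m} _ hp hu h => C.sw2 (Canon.zero_last (hLo hp.1) hys (hlt _ hp.1)
      (Or.inl (hLb hu)) (Or.inl (hz m)) (hp.2.mono (Canon.sp_par (hLb hu) (hz m))) (Le.refl r)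
      (C.sw2 h)),
    fun {r y u m} hr hp hu h => one_sw2 C (Canon.one_last (hLo hp.1) hys (hlt _ hp.1)
      (Or.inl (hLb hu)) (Or.inl (hz m)) (hp.2.mono (Canon.sp_par (hLb hu) (hz m))) (Le.refl r)
      (one_sw2 C (Dec.one (fun _ _ => C.mono) (Dec.mono (fun _ _ => C.mono) (a3 (⟨u, hu⟩, m))
        ((TS.le b2).on _) (hr.trans (h52.trans b1))) h))),
    fun {r u} hr hu h => C.k4 (ne (hLb hu) aH) (ne (hLb hu) bH) (ne (hLb hu) eH) hab.ne
      (hab.trans hbe).ne hbe.ne (h 0) (h 1) (h 2) (hone.mono (hr.trans hq5)),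
    fun {r u v t} hr hu hv huv k1 k2 => C.of_not_one fun r' hr' k => ?_, fun m => ?_⟩,
    Lo, ys, t0, hLo, hys, hlt, fresh, fun _ _ hy h => ⟨hy, h⟩,
    fun r hr Y hY t hN y hy w hw => ?_⟩⟩⟩
  · have key : ∀ y ∈ X, One Le (C.Z u v y) r' := fun y hy s hs hZ =>
      k s hs ((eqv ((hr'.trans hr).trans h52) (hX hy)
        ((((hr'.trans hr).trans h53).on _).trans (hXp y hy)) hu hv s hs).1 hZ)
    obtain ⟨e1, e2, e3⟩ := hea t
    exact C.k4 huv (ne (hLb hu) (hLo (hX e1))) (ne (hLb hu) (hLo (hX e2)))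
      (ne (hLb hv) (hLo (hX e1))) (ne (hLb hv) (hLo (hX e2))) e3.ne (key _ e1) (key _ e2)
      (k1.mono hr') (k2.mono hr')
  · by_contra hn
    push Not at hn
    exact C.k4 hab.ne (hab.trans hbe).ne (ne (hz m) aH).symm hbe.ne (ne (hz m) bH).symm
      (ne (hz m) eH).symm (hone.mono hq5) ((hdec (0, m)).resolve_left (hn 0))
      ((hdec (1, m)).resolve_left (hn 1)) ((hdec (2, m)).resolve_left (hn 2))
  · obtain ⟨e1, e2, e3⟩ := hea t
    have l1 := hlt _ (hX e1)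
    have l2 := hlt _ (hX e2)
    have m1 := hLo (hX e1)
    have m2 := hLo (hX e2)
    obtain ⟨y0, hy0, hW⟩ := b3 Y hY {m | C.Z (ea t) (eb t) (z m) q5} r (hr.trans h52)
      (fun r' hr' => by
        have k3 := (hr'.trans hr).trans h53
        have s1 : swap (eb t) ys (ea t) = ea t := swap_apply_of_ne_of_ne e3.ne l1.ne
        have ag : Agree (K.Root ∪ K.Pet (ea t)) (K.sw (eb t) ys r') r' :=
          Canon.agree_sw m2 hys (by
            rintro x (hx | hx)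
            · exact ⟨Canon.mem_root.1 hx _, Canon.mem_root.1 hx _⟩
            · exact ⟨fun h => e3.ne' ((Canon.mem_pet.1 hx _).1 h),
                fun h => l1.ne' ((Canon.mem_pet.1 hx _).1 h)⟩) r'
        refine ⟨ea t, hX e1, K.sw (eb t) ys r', (ag.mono subset_union_left).leOn, ?_,
          (ag.mono subset_union_right).leOn.trans ((k3.on _).trans (hXp _ e1)), ?_⟩
        · have := Canon.leOn_pet_sw' m2 hys ((k3.on _).trans (hXp _ e2))
          rwa [Canon.sw_sw m2 hys] at this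
        · have := tmpl_pm (K := K) (z := z) (X := Y) (ρ := {m | C.Z (ea t) (eb t) (z m) q5})
            (q := r') (hY.trans hLb) hz (fix_swap m2 hys) m1 m2 e3
            (by rwa [s1, swap_apply_left])
            ⟨fun u hu => C.mono hr' (hN u hu), fun m hm => C.mono (hr'.trans hr) hm⟩
          rwa [s1, swap_apply_left] at this) w hw
    exact hW.move (hY.trans hLb) hz (hLo hy0) (hLo hy) hys (hlt _ hy0) (hlt _ hy)

end Pool.Agent.MP_a45f51_lc.A62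

end MrgPart1

-- marker of a merged file
example : 731051 + 799791 = 731051 + 799791 := rfl

end MrgPart1

-- ======== part 2: formerly Pool.Agent.MP_a45f51_lc.h62.StageB
section MrgPart2

/-! PROJECT ARROW: the second half of a stage (pool of points, classes, chains). -/

namespace Pool.Agent.MP_a45f51_lc.A62

open Cardinal Set Pool.Agent.Forcing92 Equiv

namespace StageB

variable {Θ Λ : Type} {ty : Θ → ℕ} [LinearOrder Λ] {C : Colr (Le (ty := ty)) Λ} {j : ℕ}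
  {Par H L : Set Λ} {K : Canon C j Par H} {TS : TSys ty j} {z0 : Λ} {z : ℕ → Λ} {q : Cd ty}
  (A : Pre1 K TS L z0 z q)

/-- `r` copies the future condition `w` to the fresh point `y` -/
def Real (r : Cd ty) (w : TS.T) (y : Λ) : Prop :=
  y ∈ A.Lo ∧ (∀ a ∈ (TS.val w).supp, y ∉ K.car a) ∧
    LeOn (K.Est y \ K.Est A.ys) r (K.sw y A.ys (TS.val w))

/-- the future condition glued to the present one -/
noncomputable def G (w : TS.T) (r : Cd ty) : Cd ty := glue (K.Est A.ys) (TS.val w) r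

variable {A} {r r' r0 : Cd ty} {w w' : TS.T} {y y' u v : Λ}

theorem Real.mono (h : Real A r w y) (hr : Le r' r) : Real A r' w y :=
  ⟨h.1, h.2.1, (hr.on _).trans h.2.2⟩

theorem G_mono (hw : TS.S.st w' w) (hr : Le r' r) : Le (G A w' r') (G A w r) :=
  glue_le_glue ((TS.le hw).on _) (hr.on _)

theorem pet_sub (hy : y ∈ A.Lo) : K.Pet y ⊆ K.Est y \ K.Est A.ys := fun _ ha =>
  ⟨Canon.pet_sub_est ha, fun h => (A.Lo_lt y hy).ne' ((Canon.mem_pet.1 ha _).1 h)⟩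

theorem Real.pt (h : Real A r w y) (hw : TS.S.st w A.t0) : A.B.Pt r y :=
  A.pt r y h.1 ((h.2.2.mono (pet_sub h.1)).trans (((TS.le hw).pm _).on _))

theorem Real.sp (h : Real A r w' y) (hw : TS.S.st w' w) (hu : K.Lw y u) (hv : K.Lw y v) :
    LeOn (K.Sp u v y ∩ K.Est y) r (K.sw y A.ys (TS.val w)) :=
  (h.2.2.mono fun _ ha => ⟨ha.2, Canon.sp_notMem A.ys_mem (A.Lo_lt y h.1) hu hv ha.1⟩).trans
    (((TS.le hw).pm _).on _)

theorem Real.zero (h : Real A r w' y) (hw : TS.S.st w' w) (hu : K.Lw y u) (hv : K.Lw y v)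
    (hZ : C.Z u v A.ys (G A w r)) : C.Z u v y r :=
  Canon.zero_last (A.Lo_sub h.1) A.ys_mem (A.Lo_lt y h.1) hu hv (h.sp hw hu hv) (Le.refl r) hZ

theorem Real.one (h : Real A r w' y) (hw : TS.S.st w' w) (hu : K.Lw y u) (hv : K.Lw y v)
    (hZ : One Le (C.Z u v A.ys) (G A w r)) : One Le (C.Z u v y) r :=
  Canon.one_last (A.Lo_sub h.1) A.ys_mem (A.Lo_lt y h.1) hu hv (h.sp hw hu hv) (Le.refl r) hZ

omit [LinearOrder Λ] in
theorem tmpl_mono {X : Set Λ} {ρ : Set ℕ} {a b : Λ} (h : Tmpl C z X ρ a b r) (hr : Le r' r) :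
    Tmpl C z X ρ a b r' :=
  ⟨fun u hu => C.mono hr (h.1 u hu), fun m hm => C.mono hr (h.2 m hm)⟩

theorem new_point (r : Cd ty) (w : TS.T) {B : Set Λ} (hB : #B ≤ kp) :
    ∃ r' y, Le r' r ∧ Real A r' w y ∧ ∀ a ∈ B, a ∈ A.Lo → a < y := by
  obtain ⟨y, hy, h1, h2⟩ := A.fresh _ (mk_union_le_of aleph0_le_kp hB
    (mk_union_le_of aleph0_le_kp (StageA.mk_cars K r) (StageA.mk_cars K (TS.val w))))
  exact ⟨glue (K.Est y \ K.Est A.ys) (K.sw y A.ys (TS.val w)) r, y,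
    glue_le_right (leOn_of_disjoint (disjoint_left.2 fun a ha h =>
      h1 (Or.inr (Or.inl (mem_iUnion₂.2 ⟨a, h, ha.1⟩)))) _),
    ⟨hy, fun a ha h => h1 (Or.inr (Or.inr (mem_iUnion₂.2 ⟨a, ha, h⟩))),
      glue_leOn_left Subset.rfl _ _⟩, fun a ha => h2 a (Or.inl ha)⟩

theorem template (hS : SplitStmt) (hj : 1 ≤ j) (hL : L ⊆ Par) (hz : ∀ m, z m ∈ Par)
    (hr : Le r q) (h : Real A r w y) (hw : TS.S.st w A.t0) {X : Set Λ} (hX : X ⊆ L) {t : Fin 3}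
    (hN : ∀ u ∈ X, A.B.N t u r) {B : Set Λ} (hB : #B ≤ bt (j + 1)) :
    ∃ r' w', Le r' r ∧ TS.S.st w' w ∧ Tmpl C z X (A.B.ρ t) y A.ys (G A w' r') ∧
      ∀ a ∈ B, Dec (C.Z a y A.ys) (K.Est A.ys) (TS.val w') r' := by
  have hy := A.Lo_sub h.1
  have hys := A.ys_mem
  have hlt := A.Lo_lt y h.1
  have k1 : LeOn (K.Pet A.ys) (K.sw y A.ys r) (TS.val w) := by
    have := Canon.leOn_pet_sw' hy hys (h.2.2.mono (pet_sub h.1))
    rwa [Canon.sw_sw hy hys] at this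
  obtain ⟨d, d1, d2, d3, d4⟩ := A.rel r hr X hX t hN y h.1 (K.sw y A.ys r)
    (k1.trans ((TS.le hw).on _))
  rw [Canon.sw_sw hy hys] at d3
  let E : Set Θ := {a | A.ys ∈ K.car a ∧ ∀ x ∈ K.car a, x = y ∨ x = A.ys}
  have k2 : LeOn E d (TS.val w) := by
    refine LeOn.split (K.Est y) (leOn_of_disjoint
      (disjoint_left.2 fun a ha h' => h.2.1 a h' ha.2) _) ((d2.trans k1).mono fun a ha => ?_)
    exact Canon.mem_pet.2 fun x =>
      ⟨fun hx => (ha.1.2 x hx).resolve_left fun e => ha.2 (e ▸ hx), fun e => e ▸ ha.1.1⟩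
  obtain ⟨w1, k3, k4⟩ := Canon.norm_est (K := K) (y := A.ys) TS w (glue_le_right k2)
  have k5 : Le (glue (K.Root ∪ K.Pet y) d r) r := glue_le_right (d1.union d3)
  have k6 : LeOn {a | ∀ x ∈ K.car a, x = y ∨ x = A.ys}
      (G A w1 (glue (K.Root ∪ K.Pet y) d r)) d := by
    refine glue_leOn ((k4.mono inter_subset_right).trans
      (glue_leOn_left (E := E) (fun a ha => ⟨ha.2, ha.1⟩) _ _))
      (glue_leOn_left (fun a ha => ?_) _ _)
    by_cases hy' : y ∈ K.car a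
    · exact Or.inr (Canon.mem_pet.2 fun x =>
        ⟨fun hx => (ha.1 x hx).resolve_right fun e => ha.2 (e ▸ hx), fun e => e ▸ hy'⟩)
    · exact Or.inl (Canon.mem_root.2 fun x hx =>
        (ha.1 x hx).elim (fun e => hy' (e ▸ hx)) fun e => ha.2 (e ▸ hx))
  have k7 : ∀ u ∈ Par, C.Z u y A.ys d → C.Z u y A.ys (G A w1 (glue (K.Root ∪ K.Pet y) d r)) :=
    fun u hu => K.sup u (Or.inl hu) y (Or.inr hy) A.ys (Or.inr hys) _ _ (k6.mono fun a ha x hx =>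
      (ha x hx).resolve_left fun e => Canon.notMem_car hu (e ▸ hx))
  obtain ⟨r', w', k8, k9, k10⟩ := hS Θ ty j TS (K.Est A.ys) B (fun a => C.Z a.1 y A.ys) hj
    (fun _ => Canon.est_high) hB (fun _ _ _ => C.mono) (glue (K.Root ∪ K.Pet y) d r) w1
  exact ⟨r', w', k8.trans k5, TS.S.trans k9 k3, tmpl_mono
    ⟨fun u hu => k7 u (hL (hX hu)) (d4.1 u hu), fun m hm =>
      C.sw2 (C.sw1 (k7 _ (hz m) (C.sw1 (C.sw2 (d4.2 m hm)))))⟩ (G_mono k9 k8),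
    fun a ha => k10 ⟨a, ha⟩⟩

variable (A) in
/-- a small pool of future conditions and points that is closed under all tasks -/
structure Stock (q' : Cd ty) (W : Set TS.T) (Y : Set Λ) : Prop where
  le : Le q' q
  t0 : A.t0 ∈ W
  st : ∀ w ∈ W, TS.S.st w A.t0
  sub : Y ⊆ A.Lo
  lim : ∀ c ⊆ W, c.Nonempty → #c ≤ bt j → (∀ a ∈ c, ∀ b ∈ c, TS.S.st a b ∨ TS.S.st b a) →
    ∃ w ∈ W, ∀ a ∈ c, TS.S.st w a
  pnt : ∀ w ∈ W, ∀ B ⊆ Y, #B ≤ bt j → ∀ r, Le r q' →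
    ∃ r', Le r' r ∧ ∃ y ∈ Y, Real A r' w y ∧ ∀ a ∈ B, a < y
  tmp : ∀ w ∈ W, ∀ B ⊆ Y, #B ≤ bt j → ∀ y ∈ Y, ∀ X ⊆ L, ∀ t r, Le r q' → Real A r w y →
    (∀ u ∈ X, A.B.N t u r) → ∃ r', Le r' r ∧ ∃ w' ∈ W, TS.S.st w' w ∧
      Tmpl C z X (A.B.ρ t) y A.ys (G A w' r') ∧
      ∀ a ∈ B, Dec (C.Z a y A.ys) (K.Est A.ys) (TS.val w') r'

theorem exists_pool (hM : MasterStmt) (hS : SplitStmt) (hj : 1 ≤ j) (hLc : #L ≤ bt j)
    (hL : L ⊆ Par) (hz : ∀ m, z m ∈ Par) :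
    ∃ (q' : Cd ty) (W : Set TS.T) (Y : Set Λ), #Y ≤ bt (j + 1) ∧ Stock A q' W Y := by
  have h0 := aleph0_le_bt j
  have h1 := aleph0_le_bt (j + 1)
  have h2 : bt j ≤ bt (j + 1) := bt_mono (Nat.le_succ j)
  have ins : ∀ {α : Type} {c : Cardinal.{0}} {S : Set α} (x : α), ℵ₀ ≤ c → #S ≤ c →
      #(insert x S : Set α) ≤ c := fun x hc hS =>
    mk_insert_le.trans (add_le_of_le hc hS (one_le_aleph0.trans hc))
  obtain ⟨y0, hy0, -⟩ := A.fresh ∅ (by simp)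
  obtain ⟨q', S, k1, k2, k3⟩ := hM Θ ty j hj _ _
    ({c : Set TS.T // #c ≤ bt j} × TS.T × {B : Set Λ // #B ≤ bt j} × Λ ×
      {X : Set Λ // X ⊆ L} × Fin 3) (CSys.sets h1 (TS.T ⊕ Λ))
    (fun i => Sum.inl '' insert i.2.1 i.1.1 ∪ Sum.inr '' insert i.2.2.2.1 i.2.2.1.1)
    (fun i r S =>
      (i.1.1.Nonempty → (∀ a ∈ i.1.1, ∀ b ∈ i.1.1, TS.S.st a b ∨ TS.S.st b a) →
        ∃ w, Sum.inl w ∈ S.1 ∧ ∀ a ∈ i.1.1, TS.S.st w a) ∧
      (∃ y, Sum.inr y ∈ S.1 ∧ Real A r i.2.1 y ∧ ∀ a ∈ i.2.2.1.1, a ∈ A.Lo → a < y) ∧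
      (TS.S.st i.2.1 A.t0 → One Le (fun r => Real A r i.2.1 i.2.2.2.1 ∧
        ∀ u ∈ i.2.2.2.2.1.1, A.B.N i.2.2.2.2.2 u r) r ∨ ∃ w', Sum.inl w' ∈ S.1 ∧
          TS.S.st w' i.2.1 ∧
          Tmpl C z i.2.2.2.2.1.1 (A.B.ρ i.2.2.2.2.2) i.2.2.2.1 A.ys (G A w' r) ∧
          ∀ a ∈ i.2.2.1.1, Dec (C.Z a i.2.2.2.1 A.ys) (K.Est A.ys) (TS.val w') r))
    q ⟨{Sum.inl A.t0, Sum.inr y0}, ins _ h1 (by simpa using one_le_aleph0.trans h1)⟩
    (fun i => mk_union_le_of h0 (mk_image_le.trans (ins _ h0 i.1.2))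
      (mk_image_le.trans (ins _ h0 i.2.2.1.2)))
    (fun S hS => by
      have s1 : #(Sum.inl ⁻¹' S : Set TS.T) ≤ bt (j + 1) :=
        (mk_preimage_of_injective _ _ Sum.inl_injective).trans hS
      have s2 : #(Sum.inr ⁻¹' S : Set Λ) ≤ bt (j + 1) :=
        (mk_preimage_of_injective _ _ Sum.inr_injective).trans hS
      refine le_trans (mk_le_of_injective (f := fun i => ((⟨i.1.1.1, fun x hx =>
          i.2 (Or.inl ⟨x, Or.inr hx, rfl⟩), i.1.1.2⟩, ⟨i.1.2.1, i.2 (Or.inl ⟨_, Or.inl rfl, rfl⟩)⟩,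
        ⟨i.1.2.2.1.1, fun x hx => i.2 (Or.inr ⟨x, Or.inr hx, rfl⟩), i.1.2.2.1.2⟩,
        ⟨i.1.2.2.2.1, i.2 (Or.inr ⟨_, Or.inl rfl, rfl⟩)⟩, i.1.2.2.2.2) :
          {E : Set TS.T | E ⊆ Sum.inl ⁻¹' S ∧ #E ≤ bt j} × (Sum.inl ⁻¹' S : Set TS.T) ×
          {E : Set Λ | E ⊆ Sum.inr ⁻¹' S ∧ #E ≤ bt j} × (Sum.inr ⁻¹' S : Set Λ) ×
          {X : Set Λ // X ⊆ L} × Fin 3)) ?_) ?_
      · rintro ⟨⟨⟨c, _⟩, w, ⟨B, _⟩, y, x⟩, _⟩ ⟨⟨⟨c', _⟩, w', ⟨B', _⟩, y', x'⟩, _⟩ h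
        simp only [Prod.mk.injEq, Subtype.mk.injEq] at h ⊢
        exact h
      · rw [bt_succ hj] at s1 s2 h1 ⊢
        simp only [mk_prod, lift_id, mk_fintype]
        exact mul_le_of_le h1 (mk_small_subsets h0 s1) (mul_le_of_le h1 s1 (mul_le_of_le h1
          (mk_small_subsets h0 s2) (mul_le_of_le h1 s2 (mul_le_of_le h1
            ((mk_powerset L).le.trans (power_le_power_left two_ne_zero hLc))
            (natCast_le_aleph0.trans h1))))))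
    (fun i r r' S S' hr hS ⟨a1, ⟨y, a2, a3, a4⟩, a5⟩ =>
      ⟨fun b1 b2 => let ⟨w, c1, c2⟩ := a1 b1 b2; ⟨w, hS c1, c2⟩, ⟨y, hS a2, a3.mono hr, a4⟩,
        fun b => (a5 b).imp (fun h => h.mono hr) fun ⟨w', c1, c2, c3, c4⟩ =>
          ⟨w', hS c1, c2, tmpl_mono c3 (G_mono (TS.S.refl _) hr), fun a ha =>
            Dec.mono (fun _ _ => C.mono) (c4 a ha) (LeOn.refl _ _) hr⟩⟩)
    (by
      rintro ⟨c, w, B, y, X, t⟩ r S hr - -
      obtain ⟨w1, e1⟩ : ∃ w1, c.1.Nonempty →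
          (∀ a ∈ c.1, ∀ b ∈ c.1, TS.S.st a b ∨ TS.S.st b a) → ∀ a ∈ c.1, TS.S.st w1 a := by
        by_cases h : c.1.Nonempty ∧ ∀ a ∈ c.1, ∀ b ∈ c.1, TS.S.st a b ∨ TS.S.st b a
        · obtain ⟨w1, e1, -⟩ := TS.S.lim c.1 h.1 (c.2.trans h2) h.2
          exact ⟨w1, fun _ _ => e1⟩
        · exact ⟨w, fun b1 b2 => absurd ⟨b1, b2⟩ h⟩
      obtain ⟨r1, y1, e2, e3, e4⟩ := new_point (A := A) r w (B.2.trans (bt_le_kp j))
      obtain ⟨r2, w2, e5, e6⟩ : ∃ r2 w2, Le r2 r1 ∧ (TS.S.st w A.t0 →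
          One Le (fun r => Real A r w y ∧ ∀ u ∈ X.1, A.B.N t u r) r2 ∨ (TS.S.st w2 w ∧
            Tmpl C z X.1 (A.B.ρ t) y A.ys (G A w2 r2) ∧
            ∀ a ∈ B.1, Dec (C.Z a y A.ys) (K.Est A.ys) (TS.val w2) r2)) := by
        by_cases hw : TS.S.st w A.t0
        · obtain ⟨r2, f1, f2 | f2⟩ :=
            exists_decide Le (fun r => Real A r w y ∧ ∀ u ∈ X.1, A.B.N t u r) r1
          · obtain ⟨r3, w3, g1, g2⟩ := template hS hj hL hz (f1.trans (e2.trans hr)) f2.1 hw X.2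
              f2.2 (B.2.trans h2)
            exact ⟨r3, w3, g1.trans f1, fun _ => Or.inr g2⟩
          · exact ⟨r2, w, f1, fun _ => Or.inl f2⟩
        · exact ⟨r1, w, Le.refl _, fun h => absurd h hw⟩
      exact ⟨r2, ⟨insert (Sum.inl w1) (insert (Sum.inr y1) (insert (Sum.inl w2) S.1)),
          ins _ h1 (ins _ h1 (ins _ h1 S.2))⟩, e5.trans e2,
        fun x hx => Or.inr (Or.inr (Or.inr hx)),
        fun b1 b2 => ⟨w1, Or.inl rfl, e1 b1 b2⟩, ⟨y1, Or.inr (Or.inl rfl), e3.mono e5, e4⟩,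
        fun b => (e6 b).imp id fun h => ⟨w2, Or.inr (Or.inr (Or.inl rfl)), h⟩⟩)
  have m1 : Sum.inl A.t0 ∈ S.1 := k2 (Or.inl rfl)
  have m2 : Sum.inr y0 ∈ S.1 := k2 (Or.inr rfl)
  have sb : ∀ {c : Set TS.T} {w : TS.T} {B : Set Λ} {y : Λ}, (∀ x ∈ c, Sum.inl x ∈ S.1) →
      Sum.inl w ∈ S.1 → (∀ x ∈ B, Sum.inr x ∈ S.1) → Sum.inr y ∈ S.1 →
      Sum.inl '' insert w c ∪ Sum.inr '' insert y B ⊆ S.1 := by
    rintro c w B y a1 a2 a3 a4 _ (⟨x, rfl | hx, rfl⟩ | ⟨x, rfl | hx, rfl⟩)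
    exacts [a2, a1 x hx, a4, a3 x hx]
  refine ⟨q', {w | Sum.inl w ∈ S.1 ∧ TS.S.st w A.t0}, {y | Sum.inr y ∈ S.1 ∧ y ∈ A.Lo},
    mk_sub_le ((mk_preimage_of_injective _ _ Sum.inr_injective).trans S.2) fun _ h => h.1,
    k1, ⟨m1, TS.S.refl _⟩, fun _ h => h.2, fun _ h => h.2, fun c hc hne hcc hch => ?_,
    fun w hw B hB hBc r hr => ?_, fun w hw B hB hBc y hy X hX t r hr a1 a2 => ?_⟩
  · obtain ⟨-, -, e, -⟩ := k3 (⟨c, hcc⟩, A.t0, ⟨∅, by simp⟩, y0, ⟨∅, empty_subset _⟩, 0)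
      (sb (fun x hx => (hc hx).1) m1 (fun _ h => h.elim) m2) q' (Le.refl _)
    obtain ⟨w, e1, e2⟩ := e hne hch
    obtain ⟨a, ha⟩ := hne
    exact ⟨w, ⟨e1, TS.S.trans (e2 a ha) (hc ha).2⟩, e2⟩
  · obtain ⟨r', e0, -, ⟨y, e1, e2, e3⟩, -⟩ :=
      k3 (⟨∅, by simp⟩, w, ⟨B, hBc⟩, y0, ⟨∅, empty_subset _⟩, 0)
        (sb (fun _ h => h.elim) hw.1 (fun x hx => (hB hx).1) m2) r hr
    exact ⟨r', e0, y, ⟨e1, e2.1⟩, e2, fun a ha => e3 a ha (hB ha).2⟩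
  · obtain ⟨r', e0, -, -, e⟩ := k3 (⟨∅, by simp⟩, w, ⟨B, hBc⟩, y, ⟨X, hX⟩, t)
      (sb (fun _ h => h.elim) hw.1 (fun x hx => (hB hx).1) hy.1) r hr
    rcases e hw.2 with e | ⟨w', e1, e2, e3⟩
    · exact absurd ⟨a1.mono e0, fun u hu => A.B.N_mono e0 (a2 u hu)⟩ e.not
    · exact ⟨r', e0, w', ⟨e1, TS.S.trans e2 hw.2⟩, e2, e3⟩

variable {q' : Cd ty} {W : Set TS.T} {Y : Set Λ}

/-- positions: a future condition and a small set of earlier points -/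
def Pos (W : Set TS.T) (Y : Set Λ) : Type :=
  {x : TS.T × Set Λ // x.1 ∈ W ∧ x.2 ⊆ Y ∧ #x.2 ≤ bt j}

/-- the order of positions -/
def pst (s' s : Pos W Y) : Prop := TS.S.st s'.1.1 s.1.1 ∧ s.1.2 ⊆ s'.1.2

omit [LinearOrder Λ] in
theorem pst_refl (s : Pos W Y) : pst s s := ⟨TS.S.refl _, Subset.rfl⟩

omit [LinearOrder Λ] in
theorem pst.trans {a b c : Pos W Y} (h : pst a b) (h' : pst b c) : pst a c :=
  ⟨TS.S.trans h.1 h'.1, h'.2.trans h.2⟩

/-- the positions form a closure system -/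
def posSys (h : Stock A q' W Y) : CSys (bt j) (Pos W Y) Empty where
  st := pst
  tr _ := ∅
  refl := pst_refl
  trans := pst.trans
  tr_mono _ := Subset.rfl
  tr_card _ := by simp
  lim c hne hc hch := by
    obtain ⟨w, hw, h1⟩ := h.lim ((fun s : Pos W Y => s.1.1) '' c)
      (by rintro _ ⟨s, -, rfl⟩; exact s.2.1) (hne.image _) (mk_image_le.trans hc) (by
        rintro _ ⟨a, ha, rfl⟩ _ ⟨b, hb, rfl⟩
        exact (hch a ha b hb).imp And.left And.left)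
    exact ⟨⟨(w, ⋃ s ∈ c, s.1.2), hw, iUnion₂_subset fun s _ => s.2.2.1,
      mk_biUnion_le_of (aleph0_le_bt j) hc fun s _ => s.2.2.2⟩, fun s hs =>
        ⟨h1 _ ⟨s, hs, rfl⟩, subset_biUnion_of_mem (u := fun s : Pos W Y => s.1.2) hs⟩,
      empty_subset _⟩

variable (A) in
/-- `y` is a new point above the position `s` -/
def Pnt (r : Cd ty) (s : Pos W Y) (y : Λ) : Prop :=
  y ∈ Y ∧ Real A r s.1.1 y ∧ ∀ a ∈ s.1.2, a < y

theorem Pnt.mono {s : Pos W Y} (h : Pnt A r s y) (hr : Le r' r) : Pnt A r' s y :=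
  ⟨h.1, h.2.1.mono hr, h.2.2⟩

variable (A) in
/-- a good step from `s` to `s'` through the point `y` -/
def GS (Cl : Cd ty → Λ → Prop) (X : Set Λ) (t : Fin 3) (r : Cd ty) (s : Pos W Y) (y : Λ)
    (s' : Pos W Y) : Prop :=
  ∃ s1, pst s1 s ∧ Pnt A r s1 y ∧ Cl r y ∧ pst s' s1 ∧ y ∈ s'.1.2 ∧
    Tmpl C z X (A.B.ρ t) y A.ys (G A s'.1.1 r) ∧
    ∀ a ∈ s1.1.2, Dec (C.Z a y A.ys) (K.Est A.ys) (TS.val s'.1.1) r

variable {Cl : Cd ty → Λ → Prop} {X : Set Λ} {t : Fin 3} {s s0 s' s'' : Pos W Y}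

theorem GS.mono (hCl : ∀ r r' y, Le r' r → Cl r y → Cl r' y) (h : GS A Cl X t r s y s')
    (hr : Le r' r) (hs : pst s s0) (hs' : pst s'' s') : GS A Cl X t r' s0 y s'' :=
  let ⟨s1, a1, a2, a3, a4, a5, a6, a7⟩ := h
  ⟨s1, a1.trans hs, a2.mono hr, hCl _ _ _ hr a3, hs'.trans a4, hs'.2 a5,
    tmpl_mono a6 (G_mono hs'.1 hr), fun a ha =>
      Dec.mono (fun _ _ => C.mono) (a7 a ha) ((TS.le hs'.1).on _) hr⟩

theorem GS.pst (h : GS A Cl X t r s y s') : pst s' s :=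
  let ⟨_, a1, _, _, a4, _⟩ := h; a4.trans a1

theorem GS.lt (h : GS A Cl X t r s y s') {a : Λ} (ha : a ∈ s.1.2) : a < y :=
  let ⟨_, a1, a2, _⟩ := h; a2.2.2 a (a1.2 ha)

theorem GS.mem (h : GS A Cl X t r s y s') : y ∈ s'.1.2 :=
  let ⟨_, _, _, _, _, a5, _⟩ := h; a5

theorem GS.zero (h : GS A Cl X t r s y s') (hu : K.Lw y u) (hv : K.Lw y v)
    (hZ : C.Z u v A.ys (G A s.1.1 r)) : C.Z u v y r :=
  let ⟨_, a1, a2, _⟩ := h; a2.2.1.zero a1.1 hu hv hZ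

theorem GS.one (h : GS A Cl X t r s y s') (hu : K.Lw y u) (hv : K.Lw y v)
    (hZ : One Le (C.Z u v A.ys) (G A s.1.1 r)) : One Le (C.Z u v y) r :=
  let ⟨_, a1, a2, _⟩ := h; a2.2.1.one a1.1 hu hv hZ

theorem GS.lw (hP : Stock A q' W Y) (h : GS A Cl X t r s y s') {a : Λ} (ha : a ∈ s.1.2) :
    K.Lw y a := Or.inr ⟨A.Lo_sub (hP.sub (s.2.2.1 ha)), h.lt ha⟩

theorem gs_dense (hP : Stock A q' W Y) (hCl : ∀ r r' y, Le r' r → Cl r y → Cl r' y)
    (hX : X ⊆ L) (hr : Le r q') (hN : ∀ u ∈ X, A.B.N t u r)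
    (h : ∃ r' s' y, Le r' r ∧ pst s' s ∧ Pnt A r' s' y ∧ Cl r' y) :
    ∃ r' y s', Le r' r ∧ GS A Cl X t r' s y s' := by
  obtain ⟨r1, s1, y, a1, a2, a3, a4⟩ := h
  obtain ⟨r2, b1, w, b2, b3, b4, b5⟩ := hP.tmp _ s1.2.1 _ s1.2.2.1 s1.2.2.2 y a3.1 X hX t r1
    (a1.trans hr) a3.2.1 fun u hu => A.B.N_mono a1 (hN u hu)
  exact ⟨r2, y, ⟨(w, insert y s1.1.2), b2, insert_subset a3.1 s1.2.2.1, mk_insert_le.trans
    (add_le_of_le (aleph0_le_bt j) s1.2.2.2 (one_le_aleph0.trans (aleph0_le_bt j)))⟩,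
    b1.trans a1, s1, a2, a3.mono b1, hCl _ _ _ b1 a4, ⟨b3, subset_insert _ _⟩, mem_insert _ _,
    b4, b5⟩

theorem chain_of (hC : LemC (Le (ty := ty)) (bt j)) (hP : Stock A q' W Y) (hL : L ⊆ Par)
    (hz : ∀ m, z m ∈ Par) (hCl : ∀ r r' y, Le r' r → Cl r y → Cl r' y) (hX : X ⊆ L)
    (Ex : Cd ty → Λ → Pos W Y → Prop) (h1 : ∀ r r' y s, Le r' r → Ex r y s → Ex r' y s)
    (h2 : ∀ r s, Le r r0 → pst s s0 → ∃ r' y s', Le r' r ∧ GS A Cl X t r' s y s' ∧ Ex r' y s')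
    (h3 : ∀ r s y s' y' s'', pst s s0 → GS A Cl X t r s y s' → Ex r y s' →
      GS A Cl X t r s' y' s'' → Ex r y' s'' → C.Z y y' A.ys (G A s''.1.1 r)) :
    ∃ r2, Le r2 r0 ∧ ∃ V ⊆ Y, bt j ≤ #V ∧ (∀ y ∈ V, A.B.Pt r2 y ∧ Cl r2 y) ∧
      (∀ y ∈ V, ∀ y' ∈ V, y < y' →
        (∀ u ∈ X, C.Z u y y' r2) ∧ ∀ m ∈ A.B.ρ t, C.Z y y' (z m) r2) ∧
      ∀ y ∈ V, ∀ y' ∈ V, ∀ y'' ∈ V, y < y' → y' < y'' → C.Z y y' y'' r2 := by
  obtain ⟨r, hr, a, b, k1, k2⟩ := hC _ _ (posSys hP) (bt j).ord.ToType (by rw [mk_ord_toType])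
    (fun r s s' => ∃ y, GS A Cl X t r s y s' ∧ Ex r y s') r0 s0
    (fun r r' s s' hr ⟨y, e1, e2⟩ =>
      ⟨y, e1.mono hCl hr (pst_refl _) (pst_refl _), h1 _ _ _ _ hr e2⟩)
    fun r s hr hs => let ⟨r', y, s', e1, e2, e3⟩ := h2 r s hr hs; ⟨r', s', e1, e2.pst, y, e2, e3⟩
  choose k0 _ f g e using k1
  have g2 : ∀ o o', o < o' → GS A Cl X t r (b o) (f o') (b o') := fun o o' h =>
    (g o').mono hCl (Le.refl r) (k2 o o' h) (pst_refl _)
  have sm : StrictMono f := fun o o' h => (g2 o o' h).lt (g o).mem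
  refine ⟨r, hr, range f, ?_, (mk_range_eq f sm.injective).ge.trans' (mk_ord_toType _).ge, ?_, ?_, ?_⟩
  · rintro _ ⟨o, rfl⟩
    exact (b o).2.2.1 (g o).mem
  · rintro _ ⟨o, rfl⟩
    obtain ⟨s1, -, a2, a3, -⟩ := g o
    exact ⟨a2.2.1.pt (hP.st _ s1.2.1), a3⟩
  · rintro _ ⟨o, rfl⟩ _ ⟨o', rfl⟩ h
    have h' := g2 o o' (sm.lt_iff_lt.1 h)
    obtain ⟨-, -, -, -, -, -, a6, -⟩ := g o
    have lw := h'.lw hP (g o).mem
    exact ⟨fun u hu => h'.zero (Or.inl (hL (hX hu))) lw (a6.1 u hu),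
      fun m hm => C.sw2 (h'.zero lw (Or.inl (hz m)) (C.sw2 (a6.2 m hm)))⟩
  · rintro _ ⟨o, rfl⟩ _ ⟨o', rfl⟩ _ ⟨o'', rfl⟩ h h'
    have c1 := g2 o o' (sm.lt_iff_lt.1 h)
    have c2 := g2 o' o'' (sm.lt_iff_lt.1 h')
    exact c2.zero (c2.lw hP (c1.pst.2 (g o).mem)) (c2.lw hP (g o').mem)
      (h3 r _ _ _ _ _ (k0 o) (g o) (e o) c1 (e o'))

theorem block_of (hC : LemC (Le (ty := ty)) (bt j)) (hP : Stock A q' W Y) (hL : L ⊆ Par)
    (hz : ∀ m, z m ∈ Par) (hCl : ∀ r r' y, Le r' r → Cl r y → Cl r' y) (hX : X ⊆ L)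
    (h : ∀ r s, Le r r0 → pst s s0 → ∃ r' y s', Le r' r ∧ GS A Cl X t r' s y s') :
    ∃ r2, Le r2 r0 ∧ ∃ V ⊆ Y, bt j ≤ #V ∧ (∀ y ∈ V, A.B.Pt r2 y ∧ Cl r2 y) ∧
      (∀ y ∈ V, ∀ y' ∈ V, y < y' →
        (∀ u ∈ X, C.Z u y y' r2) ∧ ∀ m ∈ A.B.ρ t, C.Z y y' (z m) r2) ∧
      ∀ y ∈ V, ∀ y' ∈ V, ∀ y'' ∈ V, y < y' → y' < y'' → C.Z y y' y'' r2 := by
  by_cases hc : ∃ r1 s1, ∃ x ∈ s1.1.2, Le r1 r0 ∧ pst s1 s0 ∧ ∀ r s, Le r r1 → pst s s1 →
      ∃ r' y s', Le r' r ∧ GS A Cl X t r' s y s' ∧ One Le (C.Z x y A.ys) (G A s'.1.1 r')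
  · obtain ⟨r1, s1, x, hx, a1, -, a3⟩ := hc
    obtain ⟨r2, b1, b2⟩ := chain_of hC hP hL hz hCl hX
      (fun r y s' => One Le (C.Z x y A.ys) (G A s'.1.1 r))
      (fun r r' y s hr h => h.mono (G_mono (TS.S.refl _) hr)) a3
      fun r s y s' y' s'' c0 c1 c2 c3 c4 => C.of_not_one fun e he k => by
        have l1 := c1.lt (c0.2 hx)
        have l2 := c3.lt c1.mem
        have w1 := c3.lw hP (c1.pst.2 (c0.2 hx))
        have w2 := c3.lw hP c1.mem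
        have y1 := hP.sub (s''.2.2.1 c3.mem)
        have l3 := A.Lo_lt _ y1
        refine C.k4 l1.ne (l1.trans l2).ne (l1.trans (l2.trans l3)).ne l2.ne (l2.trans l3).ne l3.ne
          (One.mono ((K.sup x w1.mem y w2.mem y' (Or.inr (A.Lo_sub y1))).one _ _
            (glue_leOn_right (A := K.Sp x y y') (E := K.Est A.ys) (disjoint_left.2 fun a ha =>
              Canon.sp_notMem A.ys_mem l3 w1 w2 ha) _ _) (c3.one w1 w2 c2)) he)
          (c2.mono (he.trans (G_mono c3.pst.1 (Le.refl r)))) (c4.mono he) k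
    exact ⟨r2, b1.trans a1, b2⟩
  · push Not at hc
    refine chain_of (s0 := s0) hC hP hL hz hCl hX
      (fun r x s => ∀ r' y s', Le r' r → GS A Cl X t r' s y s' →
        ¬ One Le (C.Z x y A.ys) (G A s'.1.1 r'))
      (fun r r' y s hr h r'' y' s' hr' => h r'' y' s' (hr'.trans hr)) (fun r s hr hs => ?_)
      fun r s y s' y' s'' _ c1 c2 c3 _ => ?_
    · obtain ⟨r1, y, s1, a1, a2⟩ := h r s hr hs
      obtain ⟨r2, s2, b1, b2, b3⟩ := hc r1 s1 y a2.mem (a1.trans hr) (a2.pst.trans hs)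
      exact ⟨r2, y, s2, b1.trans a1, a2.mono hCl b1 (pst_refl _) b2, b3⟩
    · have c3' := c3
      obtain ⟨s1, a1, -, -, -, -, -, a7⟩ := c3'
      exact Dec.zero (a7 y (a1.2 c1.mem)) fun r' hr' =>
        c2 r' y' s'' hr' (c3.mono hCl hr' (pst_refl _) (pst_refl _))

theorem class_of {γ : Cardinal.{0}} (hM : Master (Le (ty := ty)) γ (bt j)) (hP : Stock A q' W Y)
    {I : Type} {Cl : I → Cd ty → Λ → Prop} (hI : #I ≤ bt j)
    (h1 : ∀ ν r r' y, Le r' r → Cl ν r y → Cl ν r' y)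
    (h2 : ∀ r, Le r q' → ∀ y ∈ Y, ∃ r' ν, Le r' r ∧ Cl ν r' y) (hr : Le r q') :
    ∃ r0 ν, ∃ s0 : Pos W Y, Le r0 r ∧ ∀ r1 s, Le r1 r0 → pst s s0 →
      ∃ r' s' y, Le r' r1 ∧ pst s' s ∧ Pnt A r' s' y ∧ Cl ν r' y := by
  by_contra hn
  push Not at hn
  obtain ⟨p, s, k1, -, k2⟩ := hM _ _ I (posSys hP) (fun _ => ∅)
    (fun ν r s => ∀ r' s' y, Le r' r → pst s' s → Pnt A r' s' y → ¬ Cl ν r' y) r
    ⟨(A.t0, ∅), hP.t0, empty_subset _, by simp⟩ (fun _ => by simp)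
    (fun _ _ => (mk_set_le _).trans hI)
    (fun ν r r' s s' hr hs h r'' s'' y a1 a2 => h r'' s'' y (a1.trans hr) (pst.trans a2 hs))
    fun ν r0 s0 hr0 _ _ => hn r0 ν s0 hr0
  obtain ⟨r1, a1, y, hy, a2, a3⟩ := hP.pnt _ s.2.1 _ s.2.2.1 s.2.2.2 p (k1.trans hr)
  obtain ⟨r2, ν, b1, b2⟩ := h2 r1 (a1.trans (k1.trans hr)) y hy
  obtain ⟨r3, c1, c2⟩ := k2 ν (empty_subset _) r2 (b1.trans a1)
  exact c2 r3 s y (Le.refl _) (pst_refl _) ⟨hy, a2.mono (c1.trans b1), a3⟩ (h1 ν _ _ y c1 b2)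

end StageB

open StageB in
theorem stageB (hM : MasterStmt) (hS : SplitStmt) (hC : LemCStmt) : StageBStmt := by
  intro Θ Λ ty _ C j Pb H L z0 z K TS q A hj hLc hL hz
  obtain ⟨q', W, Y, hY, hP⟩ := exists_pool (A := A) hM hS (by omega) hLc hL hz
  obtain ⟨i, rfl⟩ : ∃ i, j = i + 1 := ⟨j - 1, by omega⟩
  refine ⟨q', Y, hP.le, hP.sub.trans A.Lo_sub, hY, fun I Cl hI h1 h2 r hr => ?_⟩
  obtain ⟨r0, ν, s0, a1, a2⟩ := class_of (hM Θ ty i (by omega)) hP hI h1 h2 hr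
  exact ⟨r0, ν, a1, fun r1 b1 X hX t hN => block_of (s0 := s0) (hC Θ ty i (by omega)) hP hL hz
    (h1 ν) hX fun r' s c1 c2 => gs_dense hP (h1 ν) hX (c1.trans (b1.trans (a1.trans hr)))
      (fun u hu => A.B.N_mono c1 (hN u hu)) (a2 r' s (c1.trans b1) c2)⟩

end Pool.Agent.MP_a45f51_lc.A62

end MrgPart2

-- marker of a merged file
example : 731051 + 727656 = 731051 + 727656 := rfl
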