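import Mathlib.Order.Interval.Finset.Nat
import Pool.Agent.MP_a45f51_lc.h62.Spec2
import Pool.Agent.MP_a45f51_lc.h62.StageB

-- ======== part 0: formerly Pool.Agent.MP_a45f51_lc.h62.IfaceP
section MrgPart0

/-! PROJECT ARROW: the scale and the interface of the forcing `Cd ty`. -/

namespace Pool.Agent.MP_a45f51_lc.A62

open Cardinal Set Pool.Agent.Forcing92

theorem scale : ScaleStmt := by
  have hlt : ∀ n, (Order.succ (bt (n + 1))).ord <
      Ordinal.type (α := kp.ord.ToType) (· < ·) := fun n => by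
    rw [Ordinal.type_toType, ord_lt_ord]
    exact (Order.succ_le_of_lt (bt_lt (Nat.le_add_left 1 n))).trans_lt (bt_lt_kp _)
  let a : ℕ → kp.ord.ToType := fun n =>
    Ordinal.enum (α := kp.ord.ToType) (· < ·) ⟨_, hlt n⟩
  have ha : ∀ n, Ordinal.typein (α := kp.ord.ToType) (· < ·) (a n) =
      (Order.succ (bt (n + 1))).ord := fun n => Ordinal.typein_enum _ (hlt n)
  have hc : ∀ b : kp.ord.ToType,
      #(Iio b) = (Ordinal.typein (α := kp.ord.ToType) (· < ·) b).card := fun _ => rfl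
  refine ⟨kp.ord.ToType, inferInstance, inferInstance, a, mk_ord_toType _, fun n => ?_,
    fun n b hb => ?_, fun b => ?_⟩
  · rw [hc, ha, card_ord]
  · rw [hc, ← Order.lt_succ_iff, ← lt_ord, ← ha]
    exact (Ordinal.typein_lt_typein _).2 hb
  · obtain ⟨n, hn⟩ := lt_kp (mk_Iio_toType_ord_lt b)
    refine ⟨n, (Ordinal.typein_lt_typein (α := kp.ord.ToType) (· < ·)).1 ?_⟩
    rw [ha, lt_ord, ← hc, Order.lt_succ_iff]
    exact hn.le.trans (bt_mono (Nat.le_succ n))

namespace IfaceP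

/-- the tower of powers above `2 ^ κ` -/
noncomputable def ll : ℕ → Cardinal.{0}
  | 0 => 2 ^ kp
  | (n + 1) => 2 ^ ll n

noncomputable def lam : Cardinal.{0} := ⨆ n, ll n

theorem ll_lt (n : ℕ) : ll n < ll (n + 1) := cantor _

theorem ll_mono : Monotone ll := monotone_nat_of_le_succ fun n => (ll_lt n).le

theorem kp_lt_ll (n : ℕ) : kp < ll n := (cantor kp).trans_le (ll_mono (Nat.zero_le n))

theorem aleph0_le_ll (n : ℕ) : ℵ₀ ≤ ll n := aleph0_le_kp.trans (kp_lt_ll n).le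

theorem ll_lt_lam (n : ℕ) : ll n < lam := (ll_lt n).trans_le (le_ciSup bddAbove_of_small (n + 1))

theorem lt_lam {c : Cardinal.{0}} (h : c < lam) : ∃ n, c < ll n := exists_lt_of_lt_ciSup h

theorem sl_lam : SL lam where
  pow ν h := by
    obtain ⟨n, hn⟩ := lt_lam h
    exact (power_le_power_left two_ne_zero hn.le).trans_lt (ll_lt_lam (n + 1))
  kp_lt := (kp_lt_ll 0).trans (ll_lt_lam 0)

abbrev Lm : Type := Σ n : ℕ, (ll n).out

abbrev Gt : Type := (Order.succ kp).ord.ToType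

abbrev Th (K : Type) : Type := Lm × Gt × K

def tyT (K : Type) (θ : Th K) : ℕ := θ.1.1

theorem mk_Gt : #Gt = Order.succ kp := mk_ord_toType _

theorem low_le {K : Type} (hK : #K = kp) (k : ℕ) : #{θ : Th K | tyT K θ < k} ≤ ll k := by
  refine mk_sub_le (mk_biUnion_le_of (aleph0_le_ll k) (S := Iio k)
    (t := fun n => range fun u : (ll n).out × Gt × K => ((⟨n, u.1⟩, u.2) : Th K))
    ((finite_Iio k).lt_aleph0.le.trans (aleph0_le_ll k)) fun n hn => mk_range_le.trans ?_) ?_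
  · simp only [mk_prod, lift_id, mk_out, mk_Gt, hK]
    exact mul_le_of_le (aleph0_le_ll k) (ll_mono (le_of_lt hn)) (mul_le_of_le (aleph0_le_ll k)
      (Order.succ_le_of_lt (kp_lt_ll k)) (kp_lt_ll k).le)
  · rintro ⟨⟨n, u⟩, v⟩ h
    exact mem_iUnion₂.2 ⟨n, h, (u, v), rfl⟩

section General

variable {Θ : Type} {ty : Θ → ℕ}

theorem one_mono {W : Cd ty → Prop} {p q : Cd ty} (h : Le q p) (h' : One Le W p) : One Le W q :=
  fun r hr => h' r (hr.trans h)

open Classical in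
/-- giving values on few fresh coordinates is an extension -/
theorem setv (q : Cd ty) (n : ℕ) {O : Type} (hO : #O ≤ bt (n + 1)) (ι : O → Θ)
    (hι : Function.Injective ι) (hty : ∀ ξ, n ≤ ty (ι ξ)) (hv : ∀ ξ, q.v (ι ξ) = none)
    (c : O → Bool) : ∃ r, Le r q ∧ ∀ ξ, r.v (ι ξ) = some (c ξ) := by
  have hX : #(range ι) ≤ bt (n + 1) := mk_range_le.trans hO
  let r : Cd ty :=
    { v := Function.extend ι (fun ξ => some (c ξ)) q.v
      r := q.r
      refl := q.refl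
      symm := q.symm
      trans := q.trans
      nest := q.nest
      cls := q.cls
      typ := q.typ
      sml := by
        refine mk_sub_le (mk_union_le_of aleph0_le_kp q.mk_supp (hX.trans (bt_le_kp _))) ?_
        rintro x (hx | hx)
        · by_cases h : x ∈ range ι
          · exact Or.inr h
          · rw [Function.extend_apply' _ _ _ h] at hx
            exact Or.inl (Or.inl hx)
        · exact Or.inl (Or.inr hx) }
  have hoff : ∀ x, x ∉ range ι → r.v x = q.v x := fun x h =>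
    Function.extend_apply' (fun ξ => some (c ξ)) q.v x h
  refine ⟨r, ⟨fun x _ b hb => ?_, fun i => ?_, fun _ _ _ h => h,
    fun i => ⟨∅, fun _ _ => sm_empty, fun X _ h => Sm.mono (p := r) h sdiff_subset⟩⟩,
    fun ξ => hι.extend_apply (fun ξ => some (c ξ)) q.v ξ⟩
  · by_cases h : x ∈ range ι
    · obtain ⟨ξ, rfl⟩ := h
      rw [hv] at hb
      cases hb
    · exact (hoff x h).trans hb
  · have hs : Sm q i (range ι) := by
      rcases le_or_gt i n with h | h
      · exact sm_of_ty (by rintro _ ⟨ξ, rfl⟩; exact h.trans (hty ξ))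
      · exact sm_of_card (hX.trans (bt_mono h))
    exact hs.mono fun x hx => by
      by_contra h
      exact hx.2 (hoff x h)

/-- the frozen block -/
def frz (n : ℕ) (X : Set Θ) (hX : #X ≤ bt (n + 2)) (hty : ∀ x ∈ X, ty x ≤ n) : Cd ty where
  v _ := none
  r i x y := x = y ∨ (n + 1 ≤ i ∧ x ∈ X ∧ y ∈ X)
  refl _ _ := Or.inl rfl
  symm h := h.imp Eq.symm fun h => ⟨h.1, h.2.2, h.2.1⟩
  trans := by
    rintro i x y z (rfl | h) (rfl | h')
    · exact Or.inl rfl
    · exact Or.inr h'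
    · exact Or.inr h
    · exact Or.inr ⟨h.1, h.2.1, h'.2.2⟩
  nest h := h.imp id fun h => ⟨h.1.trans (Nat.le_succ _), h.2⟩
  cls i x := by
    by_cases h : n + 1 ≤ i
    · refine mk_sub_le (mk_union_le_of (aleph0_le_bt _)
        (mk_le_of_subsingleton (subsingleton_singleton (a := x)) _)
        (hX.trans (bt_mono (by omega)))) ?_
      rintro y (rfl | h')
      · exact Or.inl rfl
      · exact Or.inr h'.2.2
    · refine mk_le_of_subsingleton ?_ _
      rintro y (rfl | h') z (rfl | h'')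
      · rfl
      · exact absurd h''.1 h
      · exact absurd h'.1 h
      · exact absurd h'.1 h
  typ h := h.imp id fun h => by have := hty _ h.2.1; omega
  sml := by
    refine mk_sub_le (hX.trans (bt_le_kp _)) ?_
    rintro x (hx | ⟨i, y, hy, rfl | h⟩)
    · exact absurd rfl hx
    · exact absurd rfl hy
    · exact h.2.1

theorem up_of (h1 : TowerStmt) (h3 : SplitStmt) {lm : Cardinal.{0}} (hb : Big ty lm) (n : ℕ) :
    ∃ (V : Type) (mem : V → Cd ty → Prop), #V < lm ∧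
    (∀ w q q', Le q' q → mem w q → mem w q') ∧
    ∀ (B : Type) (U : B → Cd ty → Prop), #B ≤ bt (n + 2) →
      (∀ b q q', Le q' q → U b q → U b q') →
      ∀ q, ∃ r, Le r q ∧ ∃ f : B → V, ∀ b c, Le c r →
        (mem (f b) c → U b c) ∧ (U b c → ∃ c', Le c' c ∧ mem (f b) c') := by
  obtain ⟨TS⟩ := h1 Θ ty (n + 1)
  let E : Set Θ := {θ | n + 1 ≤ ty θ}
  refine ⟨Set {s : Cd ty | s.supp ⊆ Eᶜ}, fun w c => ∃ s ∈ w, Le c s.1, ?_,
    fun w q q' h ⟨s, hs, hq⟩ => ⟨s, hs, h.trans hq⟩, fun B U hB hU q => ?_⟩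
  · rw [mk_set]
    refine hb.pow _ ((mk_supp_sub (c := max ℵ₀ #(Eᶜ : Set Θ)) (le_max_left _ _)
      (le_max_right _ _)).trans_lt (hb.pow _ (max_lt (aleph0_le_kp.trans_lt hb.kp_lt) ?_)))
    have hsub : (Eᶜ : Set Θ) ⊆ {θ | ty θ < n + 1} := fun θ hθ =>
      not_le.1 (show ¬ n + 1 ≤ ty θ from hθ)
    exact (mk_le_mk_of_subset hsub).trans_lt (hb.low (n + 1))
  obtain ⟨t, ht⟩ := TS.start q
  obtain ⟨p', t', hp', ht', hd⟩ := h3 Θ ty (n + 1) TS E B U (by omega) (fun _ h => h) hB hU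
    (TS.val t) t
  refine ⟨glue E (TS.val t') p', glue_le (((TS.le ht').trans ht).on _) ((hp'.trans ht).on _),
    fun b => {s | U b (glue E (TS.val t') s.1)}, fun b c hc => ?_⟩
  have hcE : LeOn E c (TS.val t') := (hc.on E).trans (glue_leOn_left Subset.rfl _ _)
  have hcE' : LeOn Eᶜ c p' := (hc.on Eᶜ).trans (glue_leOn_right disjoint_compl_left _ _)
  refine ⟨fun ⟨s, hs, hcs⟩ => hU b _ _ (le_glue hcE (hcs.on _)) hs, fun hbc => ?_⟩
  obtain ⟨q2, hq2, hdec⟩ := hd b (glue E p' c) (glue_le_left hcE')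
  have h3c : Le (glue E c q2) c :=
    glue_le_left ((hq2.on _).trans (glue_leOn_right disjoint_compl_left _ _))
  have h3g : Le (glue E c q2) (glue E (TS.val t') q2) := glue_le_glue hcE (LeOn.refl _ _)
  have hU2 : U b (glue E (TS.val t') q2) :=
    hdec.resolve_right fun ho => ho _ h3g (hU b _ _ h3c hbc)
  have hs : (res Eᶜ q2).supp ⊆ Eᶜ := (supp_res _ _).trans inter_subset_left
  refine ⟨_, h3c, ⟨res Eᶜ q2, hs⟩,
    hU b _ _ (glue_le_glue (LeOn.refl _ _) (agree_res _ _).leOn) hU2, ?_⟩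
  exact le_of_split E (leOn_of_disjoint (disjoint_compl_right.mono_right hs) _)
    ((glue_leOn_right disjoint_compl_left _ _).trans (agree_res _ _).symm.leOn)

end General

section Blocks

variable {K : Type} [LinearOrder K] (a : ℕ → K)

def blk (x : Lm) (g : Gt) : Set (Th K) := {θ | θ.1 = x ∧ θ.2.1 = g ∧ θ.2.2 < a x.1}

/-- the block is frozen -/
def Fr (x : Lm) (g : Gt) (q : Cd (tyT K)) : Prop :=
  (∀ X ⊆ blk a x g, Sm q (x.1 + 1) X → #X ≤ bt (x.1 + 1)) ∧
    #{θ | θ ∈ blk a x g ∧ q.v θ ≠ none} ≤ bt (x.1 + 1)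

def Least (q : Cd (tyT K)) (x : Lm) (g : Gt) : Prop :=
  Fr a x g q ∧ ∀ g' < g, One Le (Fr a x g') q

def Bit (q : Cd (tyT K)) (x : Lm) (b : K) (c : Bool) : Prop :=
  (b < a x.1 ∧ ∃ g, Least a q x g ∧ q.v (x, g, b) = some c) ∨ (¬ b < a x.1 ∧ c = false)

variable {a} {q q' : Cd (tyT K)} {x : Lm} {g g' : Gt} {b : K} {c c' : Bool}

theorem Fr.mono (h : Le q' q) (hf : Fr a x g q) : Fr a x g q' := by
  refine ⟨fun X hX hs => hf.1 X hX (h.fin _ X (subset_univ _) hs), ?_⟩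
  refine mk_sub_le (mk_union_le_of (aleph0_le_bt _) hf.2
    (hf.1 {θ | θ ∈ blk a x g ∧ q'.v θ ≠ q.v θ} (fun _ h => h.1)
      ((h.new _).mono fun θ hθ => ⟨mem_univ _, hθ.2⟩))) fun θ hθ => ?_
  by_cases h1 : q.v θ = none
  · exact Or.inr ⟨hθ.1, h1 ▸ hθ.2⟩
  · exact Or.inl ⟨hθ.1, h1⟩

theorem Least.mono (h : Le q' q) (hl : Least a q x g) : Least a q' x g :=
  ⟨hl.1.mono h, fun g' hg => one_mono h (hl.2 g' hg)⟩

theorem Least.unique (h : Least a q x g) (h' : Least a q x g') : g = g' := by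
  rcases lt_trichotomy g g' with h1 | h1 | h1
  · exact absurd h.1 (h'.2 g h1 q (Le.refl q))
  · exact h1
  · exact absurd h'.1 (h.2 g' h1 q (Le.refl q))

theorem mk_blk (hs : Scale K a) (x : Lm) (g : Gt) : #(blk a x g) ≤ bt (x.1 + 2) := by
  refine mk_sub_le (T := (fun b => ((x, g, b) : Th K)) '' Iio (a x.1)) (mk_image_le.trans ?_) ?_
  · rw [hs.eq]
    exact Order.succ_le_of_lt (bt_lt (Nat.le_add_left 1 _))
  · rintro ⟨y, g', b⟩ ⟨rfl, rfl, h⟩
    exact ⟨b, h, rfl⟩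

theorem exists_fr (hs : Scale K a) (q : Cd (tyT K)) (x : Lm) : ∃ g r, Le r q ∧ Fr a x g r := by
  obtain ⟨g, hg⟩ : ∃ g : Gt, g ∉ (fun θ : Th K => θ.2.1) '' q.supp := by
    by_contra h
    have h1 : (fun θ : Th K => θ.2.1) '' q.supp = Set.univ :=
      eq_univ_of_forall fun g => by_contra fun hn => h ⟨g, hn⟩
    have h2 := (mk_image_le (f := fun θ : Th K => θ.2.1) (s := q.supp)).trans q.mk_supp
    rw [h1, mk_univ, mk_Gt] at h2
    exact (Order.lt_succ kp).not_ge h2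
  have hty : ∀ θ ∈ blk a x g, tyT K θ ≤ x.1 := fun θ h => (congrArg Sigma.fst h.1).le
  refine ⟨g, glue (blk a x g) (frz x.1 _ (mk_blk hs x g) hty) q, glue_le_right
    (leOn_of_disjoint (disjoint_left.2 fun θ h h' => hg ⟨θ, h', h.2.1⟩) _), fun X hX h => ?_, ?_⟩
  · rcases X.eq_empty_or_nonempty with rfl | ⟨θ, hθ⟩
    · simp
    · exact h.card_le (a := θ) fun η hη =>
        Or.inl ⟨hX hθ, hX hη, Or.inr ⟨le_rfl, hX hθ, hX hη⟩⟩
  · refine mk_sub_le (T := ∅) (by simp) fun θ h => h.2 ?_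
    rw [glue_v_of_mem h.1]
    rfl

theorem exists_least (hs : Scale K a) (q : Cd (tyT K)) (x : Lm) :
    ∃ g r, Le r q ∧ Least a r x g := by
  obtain ⟨g, ⟨r, hr, hf⟩, hmin⟩ := (wellFounded_lt (α := Gt)).has_min
    {g | ∃ r, Le r q ∧ Fr a x g r} (exists_fr hs q x)
  exact ⟨g, r, hr, hf, fun g' hg r' hr' hf' => hmin g' ⟨r', hr'.trans hr, hf'⟩ hg⟩

theorem Bit.mono (h : Le q' q) (hb : Bit a q x b c) : Bit a q' x b c :=
  hb.imp (fun ⟨h1, g, h2, h3⟩ => ⟨h1, g, h2.mono h, h.val _ (mem_univ _) _ h3⟩) id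

theorem Bit.unique (h : Bit a q x b c) (h' : Bit a q x b c') : c = c' := by
  rcases h with ⟨h1, g, h2, h3⟩ | ⟨h1, h2⟩ <;> rcases h' with ⟨h4, g', h5, h6⟩ | ⟨h4, h5⟩
  · obtain rfl := h2.unique h5
    exact Option.some_injective _ (h3.symm.trans h6)
  · exact absurd h1 h4
  · exact absurd h4 h1
  · exact h2.trans h5.symm

omit [LinearOrder K] in
theorem set_one (q : Cd (tyT K)) {θ : Th K} (h : q.v θ = none) (c : Bool) :
    ∃ r, Le r q ∧ r.v θ = some c := by
  obtain ⟨r, h1, h2⟩ := setv q 0 (O := Unit) (by simpa using one_le_aleph0.trans (aleph0_le_bt _))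
    (fun _ => θ) (fun _ _ _ => rfl) (fun _ => Nat.zero_le _) (fun _ => h) fun _ => c
  exact ⟨r, h1, h2 ()⟩

theorem bit_tot (hs : Scale K a) (q : Cd (tyT K)) (x : Lm) (b : K) :
    ∃ r c, Le r q ∧ Bit a r x b c := by
  by_cases hb : b < a x.1
  · obtain ⟨g, r, hr, hl⟩ := exists_least hs q x
    rcases hv : r.v (x, g, b) with _ | c
    · obtain ⟨r', h1, h2⟩ := set_one r hv false
      exact ⟨r', false, h1.trans hr, Or.inl ⟨hb, g, hl.mono h1, h2⟩⟩
    · exact ⟨r, c, hr, Or.inl ⟨hb, g, hl, hv⟩⟩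
  · exact ⟨q, false, Le.refl q, Or.inr ⟨hb, rfl⟩⟩

/-- some row of a frozen block is undecided -/
theorem exists_row (hs : Scale K a) (hf : Fr a x g q) {O : Type} (e : Iio (a x.1) × O → Iio (a x.1))
    (he : Function.Injective e) : ∃ b, ∀ ξ, q.v (x, g, (e (b, ξ)).1) = none := by
  by_contra h
  have h1 : Prod.fst '' {u : Iio (a x.1) × O | q.v (x, g, (e u).1) ≠ none} = Set.univ :=
    eq_univ_of_forall fun b => by_contra fun hn => h ⟨b, fun ξ => by_contra fun h' =>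
      hn ⟨(b, ξ), h', rfl⟩⟩
  have h2 : #{u : Iio (a x.1) × O | q.v (x, g, (e u).1) ≠ none} ≤ bt (x.1 + 1) := by
    refine le_trans (mk_le_of_injective
      (f := fun u => (⟨(x, g, (e u.1).1), ⟨rfl, rfl, (e u.1).2⟩, u.2⟩ :
        {θ | θ ∈ blk a x g ∧ q.v θ ≠ none})) fun u u' hu => ?_) hf.2
    have := congrArg (fun θ : {θ | θ ∈ blk a x g ∧ q.v θ ≠ none} => θ.1.2.2) hu
    exact Subtype.ext (he (Subtype.ext this))
  have h3 := mk_image_le.trans h2 (a := #(Prod.fst ''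
    {u : Iio (a x.1) × O | q.v (x, g, (e u).1) ≠ none}))
  rw [h1, mk_univ, hs.eq] at h3
  exact (Order.lt_succ _).not_ge h3

theorem bit_sep (hs : Scale K a) (q : Cd (tyT K)) (x y : Lm) (hxy : x ≠ y) :
    ∃ r b c, Le r q ∧ Bit a r x b c ∧ Bit a r y b (!c) := by
  obtain ⟨g, r1, hr1, hl1⟩ := exists_least hs q x
  obtain ⟨g', r, hr, hl'⟩ := exists_least hs r1 y
  have hl := hl1.mono hr
  obtain ⟨b, hb⟩ := exists_row hs hl.1 (O := Unit) Prod.fst fun u u' h => Prod.ext h rfl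
  have hv := hb ()
  by_cases hy : b.1 < a y.1
  · rcases hw : r.v (y, g', b.1) with _ | c
    · obtain ⟨r', h1, h2⟩ := setv r 0 (O := Bool) (by
          simpa using (natCast_le_aleph0 (n := 2)).trans (aleph0_le_bt _))
        (fun c => (cond c (x, g, b.1) (y, g', b.1) : Th K))
        (by
          rintro (_ | _) (_ | _) h
          · rfl
          · exact absurd (congrArg Prod.fst h).symm hxy
          · exact absurd (congrArg Prod.fst h) hxy
          · rfl)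
        (fun _ => Nat.zero_le _) (by rintro (_ | _); exacts [hw, hv]) id
      exact ⟨r', b.1, true, h1.trans (hr.trans hr1), Or.inl ⟨b.2, g, hl.mono h1, h2 true⟩,
        Or.inl ⟨hy, g', hl'.mono h1, h2 false⟩⟩
    · obtain ⟨r', h1, h2⟩ := set_one r hv (!c)
      exact ⟨r', b.1, !c, h1.trans (hr.trans hr1), Or.inl ⟨b.2, g, hl.mono h1, h2⟩,
        Or.inl ⟨hy, g', hl'.mono h1, by rw [Bool.not_not]; exact h1.val _ (mem_univ _) _ hw⟩⟩
  · obtain ⟨r', h1, h2⟩ := set_one r hv true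
    exact ⟨r', b.1, true, h1.trans (hr.trans hr1), Or.inl ⟨b.2, g, hl.mono h1, h2⟩,
      Or.inr ⟨hy, rfl⟩⟩

theorem col (hs : Scale K a) (n : ℕ) (W : Type) (hW : #W ≤ bt (n + 2)) :
    ∃ Pat : Cd (tyT K) → K → W → Prop,
    (∀ q q' b w, Le q' q → Pat q b w → Pat q' b w) ∧ (∀ q b w, Pat q b w → b < a n) ∧
    (∀ q b w w', Pat q b w → Pat q b w' → w = w') ∧ ∀ q w, ∃ r b, Le r q ∧ Pat r b w := by
  obtain ⟨u⟩ : Nonempty (ll n).out := mk_ne_zero_iff.1 (by
    rw [mk_out]; exact (aleph0_pos.trans_le (aleph0_le_ll n)).ne')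
  obtain ⟨e⟩ : Nonempty (Iio (a n) × (bt (n + 1)).out ↪ Iio (a n)) := by
    rw [← le_def, mk_prod, lift_id, lift_id, mk_out, hs.eq]
    exact mul_le_of_le ((aleph0_le_bt _).trans (Order.le_succ _)) le_rfl (Order.le_succ _)
  obtain ⟨code⟩ : Nonempty (W ↪ ((bt (n + 1)).out → Bool)) := by
    rw [← le_def, ← power_def, mk_out, mk_bool]
    exact hW
  refine ⟨fun q b w => ∃ h : b < a n, ∀ ξ, Bit a q ⟨n, u⟩ (e (⟨b, h⟩, ξ)).1 (code w ξ),
    fun q q' b w h ⟨h1, h2⟩ => ⟨h1, fun ξ => (h2 ξ).mono h⟩, fun q b w h => h.1,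
    fun q b w w' ⟨_, h⟩ ⟨_, h'⟩ => code.injective (funext fun ξ => (h ξ).unique (h' ξ)),
    fun q w => ?_⟩
  obtain ⟨g, r1, hr1, hl⟩ := exists_least hs q ⟨n, u⟩
  obtain ⟨b, hb⟩ := exists_row hs hl.1 e e.injective
  obtain ⟨r, h1, h2⟩ := setv r1 n (mk_out _).le
    (fun ξ => ((⟨n, u⟩, g, (e (b, ξ)).1) : Th K))
    (fun ξ ξ' h => (Prod.ext_iff.1 (e.injective
      (Subtype.ext (congrArg (fun θ : Th K => θ.2.2) h)))).2)
    (fun _ => le_rfl) hb (code w)
  exact ⟨r, b.1, h1.trans hr1, b.2, fun ξ => Or.inl ⟨(e (b, ξ)).2, g, hl.mono h1, h2 ξ⟩⟩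

end Blocks

end IfaceP

open IfaceP in
theorem ifaceP (h1 : TowerStmt) (h2 : MasterStmt) (h3 : SplitStmt) (h4 : CCStmt) :
    IfacePStmt := by
  intro K _ _ a hs
  have hb : Big (tyT K) lam :=
    { sl_lam with low := fun k => (low_le hs.card k).trans_lt (ll_lt_lam k) }
  exact ⟨lam, Th K, tyT K, hb, ⟨
    { t := top _
      top := le_top
      mas := fun n => h2 _ _ (n + 1) (by omega)
      chi := 2 ^ kp
      chi_lt := ll_lt_lam 0
      cc := h4 _ _
      col := col hs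
      Λ := Lm
      lev := Sigma.fst
      Bit := Bit a
      big := fun ν hν => by
        obtain ⟨m, hm⟩ := lt_lam hν
        refine ⟨m, hm.le.trans ((mk_out _).ge.trans (mk_le_of_injective
          (f := fun u : (ll m).out => (⟨⟨m, u⟩, rfl⟩ : {x : Lm | x.1 = m})) fun u u' h => ?_))⟩
        exact eq_of_heq (Sigma.mk.inj_iff.1 (congrArg Subtype.val h)).2
      bit_mono := Bit.mono
      bit_fun := Bit.unique
      bit_tot := bit_tot hs
      bit_lt := fun h => h.elim And.left fun h => absurd h.2 (by decide)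
      bit_sep := bit_sep hs
      up := up_of h1 h3 hb }⟩⟩

end Pool.Agent.MP_a45f51_lc.A62

end MrgPart0

-- ======== part 1: formerly Pool.Agent.MP_a45f51_lc.h62.Hyp
section MrgPart1

/-! PROJECT ARROW, module HYP: the cardinal arithmetic of the extension. -/

namespace Pool.Agent.MP_a45f51_lc.A62

open Cardinal Set Pool.Agent.Forcing92 Pool.Agent.Forcing92.Fml

namespace Hyp

section General

variable {P : Type} {le : P → P → Prop} [Pre le] {t : P}

/-- the graph of a relation given by names and conditions -/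
def graphC (t : P) (I : Type) (A B : I → Name P) (c : I → P) : Name P :=
  Name.mk I (fun i => pairName t (pairName t (A i) (A i)) (pairName t (A i) (B i))) c

theorem app_graphC (ht : ∀ p, le p t) {I : Type} (A B : I → Name P) (c : I → P) (i : I) {p : P}
    (hp : le p (c i)) : Forces le (app (graphC t I A B c) (A i) (B i)) p :=
  forces_exIn_of _ (fMem_mk i hp) (forces_ex_of _ (forces_ex_of _
    ⟨forces_pairName ht _ _ p, forces_pairName ht _ _ p, forces_pairName ht _ _ p⟩))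

theorem app_graphC_elim (ht : ∀ p, le p t) {I : Type} {A B : I → Name P} {c : I → P}
    {x y : Name P} {p : P} (h : Forces le (app (graphC t I A B c) x y) p) :
    ∃ r, le r p ∧ ∃ i, le r (c i) ∧ fEq le x (A i) r ∧ fEq le y (B i) r := by
  obtain ⟨q, hq, z, hz, h⟩ := forces_exIn.1 h p (lrefl p)
  obtain ⟨q1, hq1, a, h⟩ := forces_ex.1 h q (lrefl q)
  obtain ⟨q2, hq2, b, h1, h2, h3⟩ := forces_ex.1 h q1 (lrefl q1)
  obtain ⟨r, hr, i, hi, he⟩ := hz q2 (ltrans hq2 hq1)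
  exact ⟨r, ltrans hr (ltrans hq2 (ltrans hq1 hq)), i, hi,
    kur_inj (h1.mono hr) (h2.mono hr) (h3.mono hr) (forces_pairName ht _ _ r)
      (forces_pairName ht _ _ r) (forces_pairName ht _ _ r) (fEq_symm he)⟩

theorem leq_of_rel (ht : ∀ p, le p t) {I : Type} (A B : I → Name P) (c : I → P)
    (hc : ∀ i j q, le q (c i) → le q (c j) → (fEq le (A i) (A j) q ↔ fEq le (B i) (B j) q))
    {X : Name P} {φ : Name P → Fml (Name P)} {p : P}
    (hX : ∀ x q, le q p → fMem le x X q →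
      ∃ r, le r q ∧ ∃ i, le r (c i) ∧ fEq le (A i) x r ∧ Forces le (φ (B i)) r) :
    Forces le (leq X φ) p := by
  refine forces_ex_of (graphC t I A B c) ⟨forces_allIn.2 fun x q hq hx => ?_, ?_⟩
  · refine forces_ex.2 fun r hr => ?_
    obtain ⟨s, hs, i, hi, he, hφ⟩ := hX x r (ltrans hr hq) (fMem_mono hr hx)
    exact ⟨s, hs, B i, hφ, app_congr he (fEq_refl _ s) (app_graphC ht A B c i hi)⟩
  · intro x x' y y'
    refine forces_imp.2 fun q _ h1 => forces_imp.2 fun r hr h2 => forces_iff.2 fun s hs => ?_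
    have key : ∀ u, le u s → ∃ v, le v u ∧ ∃ i j, le v (c i) ∧ le v (c j) ∧ fEq le x (A i) v ∧
        fEq le y (B i) v ∧ fEq le x' (A j) v ∧ fEq le y' (B j) v := by
      intro u hu
      obtain ⟨v, hv, i, hi, e1, e2⟩ := app_graphC_elim ht (h1.mono (ltrans hu (ltrans hs hr)))
      obtain ⟨w, hw, j, hj, e3, e4⟩ := app_graphC_elim ht (h2.mono (ltrans hv (ltrans hu hs)))
      exact ⟨w, ltrans hw hv, i, j, ltrans hw hi, hj, fEq_mono hw e1, fEq_mono hw e2, e3, e4⟩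
    refine ⟨fun h => fEq_dense fun u hu => ?_, fun h => fEq_dense fun u hu => ?_⟩
    · obtain ⟨v, hv, i, j, hi, hj, e1, e2, e3, e4⟩ := key u hu
      have := (hc i j v hi hj).1
        (fEq_trans (fEq_symm e1) (fEq_trans (fEq_mono (ltrans hv hu) h) e3))
      exact ⟨v, hv, fEq_trans e2 (fEq_trans this (fEq_symm e4))⟩
    · obtain ⟨v, hv, i, j, hi, hj, e1, e2, e3, e4⟩ := key u hu
      have := (hc i j v hi hj).2
        (fEq_trans (fEq_symm e2) (fEq_trans (fEq_mono (ltrans hv hu) h) e4))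
      exact ⟨v, hv, fEq_trans e1 (fEq_trans this (fEq_symm e3))⟩

variable {K : Type} [LinearOrder K] [WellFoundedLT K]

theorem forces_lim (ht : ∀ p, le p t) {k : K} (hk : (Iio k).Infinite) (p : P) :
    Forces le (exIn (kap t K) lim) p := by
  obtain ⟨e, he, hmin⟩ := (wellFounded_lt (α := K)).has_min {x | (Iio x).Infinite} ⟨k, hk⟩
  refine forces_exIn_of (chk t e) (chk_mem_kap ht e p) ⟨?_, ?_⟩
  · obtain ⟨b, hb⟩ := he.nonempty
    exact forces_exIn_of (chk t b) (chk_mem_chk ht hb p) (fEq_refl _ p)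
  · refine forces_allIn.2 fun x q _ hx => forces_exIn.2 fun r hr => ?_
    obtain ⟨s, hs, b, hb, hbx⟩ := fMem_chk_elim (fMem_mono hr hx)
    have hfin : (Iio b).Finite := by
      by_contra hn
      exact hmin b hn hb
    obtain ⟨c, hc, hc'⟩ := he.exists_notMem_finite (hfin.insert b)
    have hbc : b < c := by
      simp only [mem_insert_iff, mem_Iio, not_or, not_lt] at hc'
      exact lt_of_le_of_ne hc'.2 (Ne.symm hc'.1)
    exact ⟨s, hs, chk t c, chk_mem_chk ht hc s, fMem_congr_left hbx (chk_mem_chk ht hbc s)⟩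

theorem infinite_of_lim (ht : ∀ p, le p t) {e : K} {p : P} (h : Forces le (lim (chk t e)) p) :
    (Iio e).Infinite := by
  intro hfin
  obtain ⟨r, hr, x, hx, -⟩ := forces_exIn.1 h.1 p (lrefl p)
  obtain ⟨-, -, b0, hb0, -⟩ := fMem_chk_elim hx
  obtain ⟨b, hb, hmax⟩ := hfin.exists_maximal ⟨b0, hb0⟩
  obtain ⟨s, -, y, hy, hby⟩ := forces_exIn.1 (forces_allIn.1 h.2 (chk t b) p (lrefl p)
    (chk_mem_chk ht hb p)) p (lrefl p)
  obtain ⟨u, hu, c, hc, hcy⟩ := fMem_chk_elim hy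
  have hbc : b < c := lt_of_chk_mem ht (fMem_congr_right (fEq_symm hcy) (fMem_mono hu hby))
  exact (hmax hc hbc.le).not_gt hbc

theorem sub_chk_of (ht : ∀ p, le p t) {x α : Name P} {y c : K} {p : P}
    (he : fEq le (chk t y) α p) (h : Forces le (sub x α) p) (hyc : y ≤ c) :
    Forces le (sub x (chk t c)) p := by
  refine forces_sub.2 fun z q hq hz => fMem_dense fun r hr => ?_
  obtain ⟨s, hs, b, hb, hbz⟩ := fMem_chk_elim (fMem_congr_right
    (fEq_symm (fEq_mono (ltrans hr hq) he)) (forces_sub.1 h z r (ltrans hr hq) (fMem_mono hr hz)))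
  exact ⟨s, hs, fMem_congr_left hbz (chk_mem_chk ht (hb.trans_le hyc) s)⟩

/-- the successor of `β` is not collapsed to `β` -/
theorem no_collapse (hcov : CovStmt) (ht : ∀ p, le p t) {γ β : Cardinal.{0}}
    (hm : Master le γ β) (hβ : ℵ₀ ≤ β) {x y : K} (hx : #(Iio x) ≤ β) (hy : β < #(Iio y))
    {α : Name P} {p : P} (he : fEq le (chk t x) α p) :
    Forces le (neg (leq (chk t y) fun z => mem z α)) p := by
  intro q hq h
  obtain ⟨r, hr, f, h1, h2⟩ := leq_elim h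
  obtain ⟨p', hp', S, hS, hc⟩ := hcov P (Iio x) K le γ β
    (fun b c w => Forces le (app f (chk t w) (chk t b.1)) c ∨
      ∀ c', le c' c → ∀ w' : K, ¬ Forces le (app f (chk t w') (chk t b.1)) c') r hm hβ hx
    (fun b c c' w hc h => h.imp (Forces.mono hc) fun h c'' hc' => h c'' (ltrans hc' hc))
    (fun b c _ => by
      by_cases h : ∃ c', le c' c ∧ ∃ w' : K, Forces le (app f (chk t w') (chk t b.1)) c'
      · obtain ⟨c', hc', w', h⟩ := h
        exact ⟨c', w', hc', Or.inl h⟩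
      · exact ⟨c, x, lrefl c, Or.inr fun c' hc' w' h' => h ⟨c', hc', w', h'⟩⟩)
  obtain ⟨η, hη, hηS⟩ : ∃ η, η < y ∧ η ∉ S := by
    by_contra hn
    push Not at hn
    exact hy.not_ge ((mk_le_mk_of_subset fun η hη => hn η hη).trans hS)
  obtain ⟨s, hs, z, hz, hf⟩ := h1 (chk t η) p' hp' (chk_mem_chk ht hη p')
  have hsp : le s p := ltrans hs (ltrans hp' (ltrans hr hq))
  obtain ⟨u, hu, ξ, hξ, hξz⟩ :=
    fMem_chk_elim (fMem_congr_right (fEq_symm (fEq_mono hsp he)) hz)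
  have hf' := app_congr (fEq_refl _ u) (fEq_symm hξz) (hf.mono hu)
  obtain ⟨v, hv, w, hw, hR | hR⟩ := hc ⟨ξ, hξ⟩ u (ltrans hu hs)
  · obtain rfl := chk_inj ht (h2 _ _ _ v (ltrans hv (ltrans hu (ltrans hs hp'))) hR (hf'.mono hv))
    exact hηS hw
  · exact hR v (lrefl v) η (hf'.mono hv)

/-- a generic surjection collapses `γ` to `α` -/
theorem collapse (ht : ∀ p, le p t) {α γ : K} (Pat : P → K → Iio γ → Prop)
    (h1 : ∀ q q' b w, le q' q → Pat q b w → Pat q' b w) (h2 : ∀ q b w, Pat q b w → b < α)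
    (h3 : ∀ q b w w', Pat q b w → Pat q b w' → w = w') (h4 : ∀ q w, ∃ r b, le r q ∧ Pat r b w)
    (p : P) : Forces le (leq (chk t γ) fun y => mem y (chk t α)) p := by
  refine leq_of_rel ht (I := {i : P × K × Iio γ // Pat i.1 i.2.1 i.2.2 ∧
      ∀ η < i.2.1, ∀ c, le c i.1 → ¬ Pat c η i.2.2})
    (fun i => chk t i.1.2.2.1) (fun i => chk t i.1.2.1) (fun i => i.1.1) ?_ fun x q _ hx => ?_
  · rintro ⟨⟨c, η, ξ⟩, a1, a2⟩ ⟨⟨c', η', ξ'⟩, b1, b2⟩ q hq hq'
    refine ⟨fun h => ?_, fun h => ?_⟩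
    · obtain rfl : ξ = ξ' := Subtype.ext (chk_inj ht h)
      obtain rfl : η = η' := by
        rcases lt_trichotomy η η' with h' | h' | h'
        · exact absurd (h1 _ _ _ _ hq a1) (b2 η h' q hq')
        · exact h'
        · exact absurd (h1 _ _ _ _ hq' b1) (a2 η' h' q hq)
      exact fEq_refl _ q
    · obtain rfl : η = η' := chk_inj ht h
      obtain rfl : ξ = ξ' := h3 q η ξ ξ' (h1 _ _ _ _ hq a1) (h1 _ _ _ _ hq' b1)
      exact fEq_refl _ q
  · obtain ⟨r, hr, ξ, hξ, he⟩ := fMem_chk_elim hx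
    obtain ⟨r0, b0, hr0, hb0⟩ := h4 r ⟨ξ, hξ⟩
    obtain ⟨η, ⟨s, hs, hη⟩, hmin⟩ := (wellFounded_lt (α := K)).has_min
      {η | ∃ s, le s r ∧ Pat s η ⟨ξ, hξ⟩} ⟨b0, r0, hr0, hb0⟩
    exact ⟨s, ltrans hs hr, ⟨(s, η, ⟨ξ, hξ⟩), hη,
      fun η' h' c hc hP => hmin η' ⟨c, ltrans hc hs, hP⟩ h'⟩, lrefl s, fEq_mono hs he,
      chk_mem_chk ht (h2 _ _ _ hη) s⟩

end General

section Nice

variable {K : Type} [LinearOrder K] [WellFoundedLT K] {a : ℕ → K} {lam : Cardinal.{0}}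
  {Q : Type} {le : Q → Q → Prop} [Pre le]

/-- the name coded by a family of open sets of conditions -/
noncomputable def nice (t : Q) {B : Type} (e : B → K) (W : B → Q → Prop) : Name Q :=
  Name.mk {i : B × Q // W i.1 i.2} (fun i => chk t (e i.1.1)) fun i => i.1.2

theorem fMem_nice_elim {t : Q} {B : Type} {e : B → K} {W : B → Q → Prop} {x : Name Q} {p : Q}
    (h : fMem le x (nice t e W) p) :
    ∃ r, le r p ∧ ∃ b c, W b c ∧ le r c ∧ fEq le (chk t (e b)) x r := by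
  obtain ⟨r, hr, i, h1, h2⟩ := h p (lrefl p)
  exact ⟨r, hr, i.1.1, i.1.2, i.2, h1, h2⟩

theorem chk_mem_nice {t : Q} {B : Type} {e : B → K} {W : B → Q → Prop} {b : B} {p : Q}
    (h : W b p) : fMem le (chk t (e b)) (nice t e W) p :=
  fMem_mk (I := {i : B × Q // W i.1 i.2}) (A := fun i => chk t (e i.1.1)) (c := fun i => i.1.2)
    ⟨(b, p), h⟩ (lrefl p)

theorem nice_sub {t : Q} (ht : ∀ p, le p t) {B : Type} {e : B → K} {W : B → Q → Prop} {k : K}
    (h : ∀ b c, W b c → e b < k) (p : Q) : Forces le (sub (nice t e W) (chk t k)) p := by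
  refine forces_sub.2 fun z q _ hz => fMem_dense fun r hr => ?_
  obtain ⟨s, hs, b, c, hc, -, he⟩ := fMem_nice_elim (fMem_mono hr hz)
  exact ⟨s, hs, fMem_congr_left he (chk_mem_chk ht (h b c hc) s)⟩

/-- the generic subsets of `κ` -/
noncomputable def gn (I : Iface K a lam Q le) (x : I.Λ) : Name Q :=
  nice I.t id fun b c => I.Bit c x b true

theorem gn_half (I : Iface K a lam Q le) {x y : I.Λ} {b : K} {r : Q}
    (he : fEq le (gn I x) (gn I y) r) (hx : I.Bit r x b true) (hy : I.Bit r y b false) :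
    False := by
  obtain ⟨s, hs, b', c, hc, hsc, h⟩ := fMem_nice_elim (fMem_congr_right he
    (chk_mem_nice (e := id) (W := fun b c => I.Bit c x b true) hx))
  obtain rfl : b' = b := chk_inj I.top h
  exact Bool.noConfusion (I.bit_fun (I.bit_mono hsc hc) (I.bit_mono hs hy))

theorem gn_inj (I : Iface K a lam Q le) {x y : I.Λ} {q : Q}
    (he : fEq le (gn I x) (gn I y) q) : x = y := by
  by_contra hxy
  obtain ⟨r, b, c, hr, hx, hy⟩ := I.bit_sep q x y hxy
  cases c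
  · exact gn_half I (fEq_symm (fEq_mono hr he)) hy hx
  · exact gn_half I (fEq_mono hr he) hx hy

theorem gn_mem (I : Iface K a lam Q le) {L : Name Q} {p : Q}
    (hL : Forces le (bdd (kap I.t K) L) p) (x : I.Λ) : fMem le (gn I x) L p :=
  (forces_iff.1 (hL (gn I x)) p (lrefl p)).2 (forces_exIn_of (chk I.t (a (I.lev x)))
    (chk_mem_kap I.top _ p) (nice_sub I.top (fun _ _ h => I.bit_lt h) p))

/-- the set of bounded subsets does not inject into a small family of names -/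
theorem no_inj_L (I : Iface K a lam Q le) (hl : SL lam) {L : Name Q} {p : Q}
    (hL : Forces le (bdd (kap I.t K) L) p) {J : Type} (hJ : #J < lam) (B : J → Name Q)
    {φ : Name Q → Fml (Name Q)}
    (hB : ∀ y q, le q p → Forces le (φ y) q → ∃ r, le r q ∧ ∃ j, fEq le y (B j) r) :
    Forces le (neg (leq L φ)) p := by
  intro q hq h
  obtain ⟨r, hr, f, h1, h2⟩ := leq_elim h
  have key : ∀ x : I.Λ, ∃ s, le s r ∧ ∃ j, Forces le (app f (gn I x) (B j)) s := by
    intro x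
    obtain ⟨s, hs, y, a1, a2⟩ := h1 (gn I x) r (lrefl r) (fMem_mono (ltrans hr hq) (gn_mem I hL x))
    obtain ⟨u, hu, j, he⟩ := hB y s (ltrans hs (ltrans hr hq)) a1
    exact ⟨u, ltrans hu hs, j, app_congr (fEq_refl _ u) he (a2.mono hu)⟩
  choose s hs j hj using key
  have hν : max (max #J I.chi) ℵ₀ < lam :=
    max_lt (max_lt hJ I.chi_lt) (aleph0_le_kp.trans_lt hl.kp_lt)
  obtain ⟨m, hm⟩ := I.big _ (hl.pow _ hν)
  obtain ⟨j0, hj0⟩ : ∃ j0, I.chi < #{x | x ∈ {x | I.lev x = m} ∧ j x = j0} := by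
    by_contra hn
    push Not at hn
    refine ((cantor _).trans_le hm).not_ge (mk_le_of_fibres (le_max_right _ _) (J := univ) j
      (fun _ _ => mem_univ _) ?_ fun j0 _ => (hn j0).trans ?_)
    · rw [mk_univ]
      exact (le_max_left _ _).trans (le_max_left _ _)
    · exact (le_max_right _ _).trans (le_max_left _ _)
  obtain ⟨x, y, hxy, u, hu1, hu2⟩ := I.cc _ (fun x => s x.1) hj0
  have e1 : j x.1 = j0 := x.2.2
  have e2 : j y.1 = j0 := y.2.2
  have a1 := (hj x.1).mono hu1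
  have a2 := (hj y.1).mono hu2
  rw [e1] at a1
  rw [e2] at a2
  exact hxy (Subtype.ext (gn_inj I (h2 _ _ (B j0) u (ltrans hu1 (hs x.1)) a1 a2)))

end Nice

end Hyp

open Hyp

theorem aleph (hcov : CovStmt) : AlephStmt := by
  intro K _ _ a lam Q le _ I hs p
  have ht := I.top
  refine ⟨forces_ordl ht p, ⟨Hyp.forces_lim ht (k := a 0) ?_ p, ?_⟩, ?_⟩
  · rw [← infinite_coe_iff, infinite_iff, hs.eq]
    exact (aleph0_le_bt _).trans (Order.le_succ _)
  · refine forces_allIn.2 fun α q _ hα => forces_exIn.2 fun r hr => ?_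
    obtain ⟨s, hsr, x, hx⟩ := fMem_kap_elim (fMem_mono hr hα)
    obtain ⟨n, hn⟩ := hs.cof x
    refine ⟨s, hsr, chk I.t (a (n + 1)), chk_mem_kap ht _ s,
      no_collapse hcov ht (I.mas n) (aleph0_le_bt _)
        ((hs.le n x hn).trans (bt_mono (Nat.le_succ _))) ?_ hx⟩
    rw [hs.eq]
    exact Order.lt_succ _
  · refine forces_allIn.2 fun β q _ hβ r hr h => ?_
    obtain ⟨s, hsr, b, hb⟩ := fMem_kap_elim (fMem_mono hr hβ)
    have h' : Forces le (limc (chk I.t b)) s :=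
      ((sim_limc (R := fun x y => fEq le x y s) (fun x => fEq_refl x s) hb).forces s
        (lrefl s)).2 (h.mono hsr)
    obtain ⟨α, hα, hle⟩ : ∃ α < b, ∀ γ < b, ∀ w,
        Forces le (leq (chk I.t γ) fun y => mem y (chk I.t α)) w := by
      have hex : ∃ n, b ≤ a n := (hs.cof b).imp fun _ h => h.le
      classical
      have h1 := Nat.find_spec hex
      rcases hn : Nat.find hex with _ | m
      · obtain ⟨u, hu, x, hx, hl⟩ := forces_exIn.1 h'.1 s (lrefl s)
        obtain ⟨v, hv, e, he, hex'⟩ := fMem_chk_elim hx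
        have hinf : (Iio e).Infinite := Hyp.infinite_of_lim ht
          (((sim_lim (R := fun x y => fEq le x y v) (fun x => fEq_refl x v) hex').forces v
            (lrefl v)).2 (hl.mono hv))
        refine ⟨e, he, fun γ hγ w => leq_chk ht ?_ w⟩
        rw [hn] at h1
        exact (hs.le 0 γ (hγ.trans_le h1)).trans (infinite_iff.1 hinf.to_subtype)
      · have h2 := Nat.find_min hex (m := m) (by omega)
        rw [hn] at h1
        refine ⟨a m, not_le.1 h2, fun γ hγ w => ?_⟩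
        obtain ⟨Pat, p1, p2, p3, p4⟩ := I.col m (Iio γ) (hs.le (m + 1) γ (hγ.trans_le h1))
        exact collapse ht Pat p1 p2 p3 p4 w
    obtain ⟨w, -, y, hy, hny⟩ := forces_exIn.1 (forces_allIn.1 h'.2 (chk I.t α) s (lrefl s)
      (chk_mem_chk ht hα s)) s (lrefl s)
    obtain ⟨w', hw', γ, hγ, hγy⟩ := fMem_chk_elim hy
    refine hny w' hw' ?_
    exact ((sim_leq (R := fun x y => fEq le x y w') (fun x => fEq_refl x w') hγy
      fun y => .mem (fEq_refl y w') (fEq_refl _ w')).forces w' (lrefl w')).1 (hle γ hγ w')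

theorem hypo (hal : AlephStmt) : HypStmt := by
  intro K _ _ a lam Q le _ I hs hl
  have ht := I.top
  choose V mm hV hmono hup using I.up
  have h0 : ℵ₀ ≤ lam := aleph0_le_kp.trans hl.kp_lt.le
  have hcard : ∀ n, #(Iio (a n) → V n) < lam := by
    intro n
    rw [← power_def]
    refine (power_le_power_right (cantor _).le).trans_lt ?_
    rw [← power_mul]
    exact hl.pow _ (mul_lt_of_lt h0 (hV n) (((mk_set_le _).trans hs.card.le).trans_lt hl.kp_lt))
  let nm : (Σ n, (Iio (a n) → V n)) → Name Q := fun j =>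
    nice I.t (fun b : Iio (a j.1) => b.1) fun b c => mm j.1 (j.2 b) c
  have hnice : ∀ (x : Name Q) (n : ℕ) (q : Q), Forces le (sub x (chk I.t (a n))) q →
      ∃ r, le r q ∧ ∃ f, fEq le (nm ⟨n, f⟩) x r := by
    intro x n q hq
    obtain ⟨r, hr, f, hf⟩ := hup n (Iio (a n)) (fun b c => fMem le (chk I.t b.1) x c)
      (by rw [hs.eq]; exact Order.succ_le_of_lt (bt_lt (by omega)))
      (fun b c c' hc h => fMem_mono hc h) q
    refine ⟨r, hr, f, fEq_of_ext fun z s hsr => ⟨fun hz => fMem_dense fun u hu => ?_,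
      fun hz => fMem_dense fun u hu => ?_⟩⟩
    · obtain ⟨v, hv, b, c, hc, hvc, he⟩ := fMem_nice_elim (fMem_mono hu hz)
      exact ⟨v, hv, fMem_congr_left he
        ((hf b v (ltrans hv (ltrans hu hsr))).1 (hmono n _ _ _ hvc hc))⟩
    · obtain ⟨v, hv, b, hb, he⟩ :=
        fMem_chk_elim (forces_sub.1 hq z u (ltrans hu (ltrans hsr hr)) (fMem_mono hu hz))
      obtain ⟨c, hc, hm⟩ := (hf ⟨b, hb⟩ v (ltrans hv (ltrans hu hsr))).2
        (fMem_congr_left (fEq_symm he) (fMem_mono (ltrans hv hu) hz))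
      exact ⟨c, ltrans hc hv, fMem_congr_left (fEq_mono hc he)
        (chk_mem_nice (e := fun b : Iio (a n) => b.1) (W := fun b c => mm n (f b) c) hm)⟩
  have hbdd : ∀ p, Forces le (bdd (kap I.t K) (Name.mk _ nm fun _ => I.t)) p := by
    intro p x
    refine forces_iff.2 fun q _ => ⟨fun h => forces_exIn.2 fun r hr => ?_,
      fun h => fMem_dense fun r hr => ?_⟩
    · obtain ⟨s, hsr, j, -, he⟩ := h r hr
      refine ⟨s, hsr, chk I.t (a j.1), chk_mem_kap ht _ s, forces_sub.2 fun z u hu hz => ?_⟩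
      exact forces_sub.1 (nice_sub ht (fun b _ _ => b.2) s) z u hu
        (fMem_congr_right (fEq_symm (fEq_mono hu he)) hz)
    · obtain ⟨s, hsr, α, hα, hx⟩ := forces_exIn.1 h r hr
      obtain ⟨u, hu, y, hy⟩ := fMem_kap_elim hα
      obtain ⟨n, hn⟩ := hs.cof y
      obtain ⟨v, hv, f, hf⟩ := hnice x n u (Hyp.sub_chk_of ht hy (hx.mono hu) hn.le)
      exact ⟨v, ltrans hv (ltrans hu hsr), fMem_congr_left hf (fMem_mk _ (ht v))⟩
  refine ⟨_, nm, fun j => j.1, fun n => ?_, fun p => ⟨hal K a lam Q le I hs p, hbdd p, ?_, ?_⟩⟩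
  · refine lt_of_le_of_lt ?_ (hcard n)
    refine mk_le_of_surjective (f := fun f => ⟨⟨n, f⟩, rfl⟩) ?_
    rintro ⟨⟨m, f⟩, rfl⟩
    exact ⟨f, rfl⟩
  · refine Hyp.no_inj_L I hl (hbdd p) (J := K) (hs.card.le.trans_lt hl.kp_lt) (chk I.t)
      fun y q _ hy => ?_
    obtain ⟨r, hr, b, hb⟩ := fMem_kap_elim hy
    exact ⟨r, hr, b, fEq_symm hb⟩
  · refine forces_allIn.2 fun α q _ hα => Forces.dense fun r hr => ?_
    obtain ⟨s, hsr, x, hx⟩ := fMem_kap_elim (fMem_mono hr hα)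
    obtain ⟨n, hn⟩ := hs.cof x
    refine ⟨s, hsr, Hyp.no_inj_L I hl (hbdd s) (hcard n) (fun f => nm ⟨n, f⟩)
      fun y u hu hy => ?_⟩
    obtain ⟨v, hv, f, hf⟩ := hnice y n u (Hyp.sub_chk_of ht (fEq_mono hu hx) hy hn.le)
    exact ⟨v, hv, f, fEq_symm hf⟩

end Pool.Agent.MP_a45f51_lc.A62

end MrgPart1

-- ======== part 2: formerly Pool.Agent.MP_a45f51_lc.h62.NegA
section MrgPart2

/-! PROJECT ARROW: covering by small ground sets and the lemma on first differences. -/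

namespace Pool.Agent.MP_a45f51_lc.A62.Ng

open Cardinal Set Pool.Agent.Forcing92

section Cover

variable {P : Type} (le : P → P → Prop) (β : Cardinal.{0})

/-- below `q` the family `A` stays inside a small ground set -/
def Cvd {Λ : Type} (q : P) (A : P → Λ → Prop) : Prop :=
  ∃ Y : Set Λ, #Y ≤ β ∧ ∀ r, le r q → ∀ j, A r j → j ∈ Y

/-- densely covered below `q` -/
def DC {Λ : Type} (q : P) (A : P → Λ → Prop) : Prop :=
  ∀ r, le r q → ∃ r', le r' r ∧ Cvd le β r' A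

/-- the family grows along the order -/
def Opn {Λ : Type} (A : P → Λ → Prop) : Prop := ∀ r r' j, le r' r → A r j → A r' j

/-- the union principle -/
def UP : Prop :=
  ∀ (B Λ : Type) (A : B → P → Λ → Prop) (q : P), #B ≤ β → (∀ b, Opn le (A b)) →
    (∀ b, DC le β q (A b)) → DC le β q fun r j => ∃ b, A b r j

variable {le β} [Pre le] {Λ : Type}

theorem up_of (hc : CovStmt) {γ : Cardinal.{0}} (hM : Master le γ β) (hβ : ℵ₀ ≤ β) :
    UP le β := by
  intro B Λ A q hB hA h r hr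
  obtain ⟨p', h1, S, hS, h2⟩ := hc P B {Y : Set Λ // #Y ≤ β} le γ β
    (fun b s Y => ∀ s', le s' s → ∀ j, A b s' j → j ∈ Y.1) r hM hβ hB
    (fun b s s' Y hs hY u hu => hY u (ltrans hu hs)) (fun b s hs => by
      obtain ⟨s', k1, Y, k2, k3⟩ := h b s (ltrans hs hr)
      exact ⟨s', ⟨Y, k2⟩, k1, k3⟩)
  refine ⟨p', h1, ⋃ Y ∈ S, Y.1, mk_biUnion_le_of hβ hS fun Y _ => Y.2, ?_⟩
  rintro s hs j ⟨b, hb⟩
  obtain ⟨s', k1, Y, hY, k2⟩ := h2 b s hs
  exact mem_iUnion₂.2 ⟨Y, hY, k2 s' (lrefl s') j (hA b s s' j k1 hb)⟩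

theorem DC.mono {q q' : P} {A : P → Λ → Prop} (h : DC le β q A) (hq : le q' q) :
    DC le β q' A := fun r hr => h r (ltrans hr hq)

theorem DC.sub {q : P} {A A' : P → Λ → Prop} (h : DC le β q A)
    (hA : ∀ r, le r q → ∀ j, A' r j → A r j) : DC le β q A' := fun r hr => by
  obtain ⟨r', k1, Y, k2, k3⟩ := h r hr
  exact ⟨r', k1, Y, k2, fun s hs j hj => k3 s hs j (hA s (ltrans hs (ltrans k1 hr)) j hj)⟩

/-- nowhere covered below `q` -/
def NC (le : P → P → Prop) (β : Cardinal.{0}) (q : P) (A : P → Λ → Prop) : Prop :=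
  ∀ r, le r q → ∀ Y : Set Λ, #Y ≤ β → ∃ s, le s r ∧ ∃ j, A s j ∧ j ∉ Y

omit [Pre le] in
theorem nc_of_not_dc {q : P} {A : P → Λ → Prop} (h : ¬ DC le β q A) :
    ∃ r, le r q ∧ NC le β r A := by
  unfold DC Cvd at h
  push Not at h
  exact h

theorem NC.not_dc {q : P} {A : P → Λ → Prop} (h : NC le β q A) : ¬ DC le β q A := by
  intro h'
  obtain ⟨r, k1, Y, k2, k3⟩ := h' q (lrefl q)
  obtain ⟨s, hs, j, hj, hj'⟩ := h r k1 Y k2
  exact hj' (k3 s hs j hj)

theorem NC.mono {q q' : P} {A : P → Λ → Prop} (h : NC le β q A) (hq : le q' q) :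
    NC le β q' A := fun r hr => h r (ltrans hr hq)

/-- an injection of a large ground set into the family -/
theorem nc_of_inj (hU : UP le β) (hβ : ℵ₀ ≤ β) {K : Type} (hK : β < #K) {q : P}
    {A : P → Λ → Prop} (F : Λ → P → K → Prop) (h1 : ∀ j, Opn le (F j))
    (h2 : ∀ j r b b', le r q → F j r b → F j r b' → b = b')
    (h3 : ∀ r, le r q → ∀ b, ∃ s, le s r ∧ ∃ j, A s j ∧ F j s b) : NC le β q A := by
  intro r hr Y hY
  obtain ⟨r', k1, S, k2, k3⟩ := hU Y K (fun j => F j.1) q hY (fun j => h1 j.1) (fun j s hs => by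
    by_cases hx : ∃ s', le s' s ∧ ∃ b, F j.1 s' b
    · obtain ⟨s', hs', b, hb⟩ := hx
      refine ⟨s', hs', {b}, by simpa using one_le_aleph0.trans hβ, fun u hu b' hb' => ?_⟩
      exact h2 j.1 u b' b (ltrans hu (ltrans hs' hs)) hb' (h1 _ _ _ _ hu hb)
    · exact ⟨s, lrefl s, ∅, by simp, fun u hu b hb => hx ⟨u, hu, b, hb⟩⟩) r hr
  obtain ⟨b, hb⟩ : ∃ b, b ∉ S := by
    by_contra hn
    push Not at hn
    rw [eq_univ_of_forall hn, mk_univ] at k2
    exact hK.not_ge k2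
  obtain ⟨s, hs, j, hj, hF⟩ := h3 r' (ltrans k1 hr) b
  exact ⟨s, ltrans hs k1, j, hj, fun hY' => hb (k3 s hs b ⟨⟨j, hY'⟩, hF⟩)⟩

/-- one level of a family that is nowhere covered is nowhere covered below some condition -/
theorem nc_level (hU : UP le β) (hβ : ℵ₀ ≤ β) {q : P} {A : P → Λ → Prop} (hA : Opn le A)
    (h : NC le β q A) (lev : Λ → ℕ) :
    ∃ l r, le r q ∧ NC le β r fun s j => A s j ∧ lev j = l := by
  by_contra hn
  refine h.not_dc ((hU ℕ Λ (fun l s j => A s j ∧ lev j = l) q (by simpa using hβ)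
    (fun l s s' j hs hj => ⟨hA _ _ _ hs hj.1, hj.2⟩) fun l => ?_).sub
    fun r _ j hj => ⟨lev j, hj, rfl⟩)
  by_contra hd
  obtain ⟨r, hr, h'⟩ := nc_of_not_dc hd
  exact hn ⟨l, r, hr, h'⟩

end Cover

section Bits

/-- generic binary sequences indexed by `Λ` -/
structure Bits {P : Type} (le : P → P → Prop) (Λ K : Type) (lev : Λ → ℕ) where
  Bt : P → Λ → K → Bool → Prop
  mono : ∀ {q q' x b c}, le q' q → Bt q x b c → Bt q' x b c
  fn : ∀ {q x b c c'}, Bt q x b c → Bt q x b c' → c = c'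
  tot : ∀ q x b, ∃ r c, le r q ∧ Bt r x b c
  sep : ∀ q x y, x ≠ y → lev x = lev y → ∃ r b c, le r q ∧ Bt r x b c ∧ Bt r y b (!c)

variable {P Λ K : Type} {le : P → P → Prop} {lev : Λ → ℕ} (G : Bits le Λ K lev)

/-- `q` forces that `x` and `y` agree at `b` -/
def Bits.Ag (q : P) (x y : Λ) (b : K) : Prop :=
  ∀ r, le r q → ∀ c c', G.Bt r x b c → G.Bt r y b c' → c = c'

/-- `q` forces that `ξ` is the first difference of `x` and `y` and that `x` has value `c` there -/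
def Bits.Dl [LinearOrder K] (q : P) (x y : Λ) (ξ : K) (c : Bool) : Prop :=
  (∀ b < ξ, G.Ag q x y b) ∧ G.Bt q x ξ c ∧ G.Bt q y ξ (!c)

variable {G} [Pre le]

theorem Bits.Ag.mono {q r : P} {x y : Λ} {b : K} (h : G.Ag q x y b) (hr : le r q) :
    G.Ag r x y b := fun s hs => h s (ltrans hs hr)

theorem Bits.Ag.eucl {q : P} {x y z : Λ} {b : K} (h : G.Ag q x y b) (h' : G.Ag q x z b) :
    G.Ag q y z b := by
  intro r hr c c' h1 h2
  obtain ⟨s, c0, hs, h0⟩ := G.tot r x b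
  exact (h s (ltrans hs hr) c0 c h0 (G.mono hs h1)).symm.trans
    (h' s (ltrans hs hr) c0 c' h0 (G.mono hs h2))

variable [LinearOrder K]

theorem Bits.Dl.mono {q r : P} {x y : Λ} {ξ : K} {c : Bool} (h : G.Dl q x y ξ c) (hr : le r q) :
    G.Dl r x y ξ c :=
  ⟨fun b hb => (h.1 b hb).mono hr, G.mono hr h.2.1, G.mono hr h.2.2⟩

theorem Bits.Dl.uniq {q : P} {x y : Λ} {ξ ξ' : K} {c c' : Bool} (h : G.Dl q x y ξ c)
    (h' : G.Dl q x y ξ' c') : ξ = ξ' ∧ c = c' := by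
  have : ξ = ξ' := by
    rcases lt_trichotomy ξ ξ' with hl | hl | hl
    · simpa using h'.1 ξ hl q (lrefl q) _ _ h.2.1 h.2.2
    · exact hl
    · simpa using h.1 ξ' hl q (lrefl q) _ _ h'.2.1 h'.2.2
  subst this
  exact ⟨rfl, G.fn h.2.1 h'.2.1⟩

variable [WellFoundedLT K]

theorem Bits.dl_dense (q : P) {x y : Λ} (h : x ≠ y) (hl : lev x = lev y) :
    ∃ r, le r q ∧ ∃ ξ c, G.Dl r x y ξ c := by
  obtain ⟨r0, b0, c0, h0⟩ := G.sep q x y h hl
  obtain ⟨ξ, ⟨r, c, hr, h1, h2⟩, hmin⟩ := (wellFounded_lt (α := K)).has_min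
    {b | ∃ r c, le r q ∧ G.Bt r x b c ∧ G.Bt r y b (!c)} ⟨b0, r0, c0, h0⟩
  refine ⟨r, hr, ξ, c, fun b hb s hs d d' k1 k2 => ?_, h1, h2⟩
  by_contra hn
  refine hmin b ⟨s, d, ltrans hs hr, k1, ?_⟩ hb
  have : d' = !d := by revert hn; cases d <;> cases d' <;> simp
  exact this ▸ k2

variable [LinearOrder Λ] [WellFoundedLT Λ] {β : Cardinal.{0}}

/-- The lemma on first differences. -/
theorem tree (hU : UP le β) (hβ : ℵ₀ ≤ β) {q : P} {T : P → Λ → Prop} (hT : Opn le T)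
    (hN : NC le β q T) {l : ℕ} (hl : ∀ r x, T r x → lev x = l) {S : Set K} (hS : #S ≤ β)
    (hTS : ∀ r, le r q → ∀ x y ξ c, T r x → T r y → x < y → G.Dl r x y ξ c → ξ ∈ S) :
    ∃ r, le r q ∧ ∃ x y z ξ c, T r x ∧ T r y ∧ T r z ∧ x < y ∧ y < z ∧ G.Dl r x y ξ c ∧
      G.Dl r y z ξ (!c) := by
  by_contra hn
  let U : Set Λ := {x | DC le β q fun r y => T r y ∧ y ≤ x}
  obtain ⟨q1, hq1, hN1⟩ : ∃ q1, le q1 q ∧ NC le β q1 fun r x => T r x ∧ x ∈ U := by
    refine nc_of_not_dc fun hd => ?_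
    have hall : ∀ x, x ∈ U := by
      intro x
      induction x using WellFoundedLT.induction with
      | ind x ih =>
        intro r hr
        obtain ⟨r', k1, Y, k2, k3⟩ := hd r hr
        refine ⟨r', k1, insert x Y, mk_insert_le.trans
          (add_le_of_le hβ k2 (one_le_aleph0.trans hβ)), fun s hs y hy => ?_⟩
        rcases hy.2.eq_or_lt with h | h
        · exact Or.inl h
        · exact Or.inr (k3 s hs y ⟨hy.1, ih y h⟩)
    exact hN.not_dc (hd.sub fun r _ x hx => ⟨hx, hall x⟩)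
  let Bad : K → P → Λ → Prop := fun ξ r x =>
    T r x ∧ ∃ y c, T r y ∧ y ∈ U ∧ x < y ∧ G.Dl r x y ξ c
  have hBo : ∀ ξ, Opn le (Bad ξ) := fun ξ r r' x hr ⟨h1, y, c, h2, h3, h4, h5⟩ =>
    ⟨hT _ _ _ hr h1, y, c, hT _ _ _ hr h2, h3, h4, h5.mono hr⟩
  have hlev : ∀ {r r' x y}, T r x → T r' y → lev x = lev y := fun h h' =>
    (hl _ _ h).trans (hl _ _ h').symm
  have hB : ∀ ξ, DC le β q (Bad ξ) := by
    intro ξ
    induction ξ using WellFoundedLT.induction with
    | ind ξ ih =>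
      intro r hr
      obtain ⟨r', k1, Y, k2, k3⟩ := hU {η // η ∈ S ∧ η < ξ} Λ (fun η => Bad η.1) q
        (mk_sub_le hS fun η hη => hη.1) (fun η => hBo η.1) (fun η => ih η.1 η.2.2) r hr
      by_cases hc : ∀ s, le s r' → ∀ x, Bad ξ s x → x ∈ Y
      · exact ⟨r', k1, Y, k2, hc⟩
      push Not at hc
      obtain ⟨r1, hr1, x1, ⟨hx1, y1, c, hy1, hy1U, hxy, hD⟩, hx1Y⟩ := hc
      have hr1q : le r1 q := ltrans hr1 (ltrans k1 hr)
      have claim : ∀ s, le s r1 → ∀ z, T s z → z ∈ U → y1 < z → ¬ G.Bt s z ξ c := by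
        intro s hs z hz hzU hyz hb
        obtain ⟨u, hu, η, c', hD'⟩ := G.dl_dense s (hxy.trans hyz).ne (hlev hx1 hz)
        have hur : le u r1 := ltrans hu hs
        have tx := hT _ _ _ hur hx1
        have tz := hT _ _ _ hu hz
        have hη : ξ ≤ η := by
          by_contra hlt
          exact hx1Y (k3 u (ltrans hur hr1) x1 ⟨⟨η, hTS u (ltrans hur hr1q) x1 z η c' tx tz
            (hxy.trans hyz) hD', not_le.1 hlt⟩, tx, z, c', tz, hzU, hxy.trans hyz, hD'⟩)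
        refine hn ⟨u, ltrans hur hr1q, x1, y1, z, ξ, c, tx, hT _ _ _ hur hy1, tz, hxy, hyz,
          hD.mono hur, fun b hb' => ((hD.1 b hb').mono hur).eucl (hD'.1 b (hb'.trans_le hη)),
          G.mono hur hD.2.2, ?_⟩
        simpa using G.mono hu hb
      obtain ⟨r2, m1, Y', m2, m3⟩ := hy1U r1 hr1q
      refine ⟨r2, ltrans m1 (ltrans hr1 k1), Y', m2, fun s hs x hx => m3 s hs x ⟨hx.1, ?_⟩⟩
      obtain ⟨tx, y, c', ty, hyU, hxy', hD'⟩ := hx
      by_contra hlt
      have hlt' : y1 < x := not_le.1 hlt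
      have hxU : x ∈ U := DC.sub hyU fun _ _ _ h => ⟨h.1, h.2.trans hxy'.le⟩
      by_cases hcc : c' = c
      · exact claim s (ltrans hs m1) x tx hxU hlt' (hcc ▸ hD'.2.1)
      · have : (!c') = c := by revert hcc; cases c <;> cases c' <;> simp
        exact claim s (ltrans hs m1) y ty hyU (hlt'.trans hxy') (this ▸ hD'.2.2)
  obtain ⟨r', k1, Y, k2, k3⟩ := hU S Λ (fun η => Bad η.1) q hS (fun η => hBo η.1)
    (fun η => hB η.1) q1 hq1
  obtain ⟨r, hr, x, ⟨tx, hxU⟩, hxY⟩ := hN1 r' k1 Y k2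
  have hrq1 : le r q1 := ltrans hr k1
  obtain ⟨r2, m1, Y', m2, m3⟩ := hxU r (ltrans hrq1 hq1)
  obtain ⟨r3, hr3, y, ⟨ty, hyU⟩, hyY⟩ := hN1 r2 (ltrans m1 hrq1) Y' m2
  have hxy : x < y := by
    by_contra hle
    exact hyY (m3 r3 hr3 y ⟨ty, not_lt.1 hle⟩)
  obtain ⟨u, hu, η, c, hD⟩ := G.dl_dense r3 hxy.ne (hlev tx ty)
  have hur : le u r := ltrans hu (ltrans hr3 m1)
  have tx' := hT _ _ _ hur tx
  have ty' := hT _ _ _ hu ty
  exact hxY (k3 u (ltrans hur hr) x ⟨⟨η, hTS u (ltrans hur (ltrans hrq1 hq1)) x y η c tx' ty' hxy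
    hD⟩, tx', y, c, ty', hyU, hxy, hD⟩)

end Bits

section Four

variable {Λ : Type} [LinearOrder Λ] (C : Λ → Λ → Λ → Prop)

/-- some triple inside `S` has the property `C` -/
def Tr (S : Set Λ) : Prop := ∃ x ∈ S, ∃ y ∈ S, ∃ z ∈ S, C x y z

variable {C}

omit [LinearOrder Λ] in
theorem Tr.mono {S S' : Set Λ} (h : Tr C S) (hS : S ⊆ S') : Tr C S' := by
  obtain ⟨x, hx, y, hy, z, hz, h⟩ := h
  exact ⟨x, hS hx, y, hS hy, z, hS hz, h⟩

theorem Tr.col (hC : ∀ x y z, C x y z → x < y ∧ y < z) {u v w : Λ} (h : Tr C {u, v, w})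
    (h1 : u < v) (h2 : v < w) : C u v w := by
  obtain ⟨x, hx, y, hy, z, hz, h⟩ := h
  obtain ⟨a1, a2⟩ := hC _ _ _ h
  simp only [mem_insert_iff, mem_singleton_iff] at hx hy hz
  rcases hx with rfl | rfl | rfl <;> rcases hy with rfl | rfl | rfl <;>
    rcases hz with rfl | rfl | rfl <;> first | exact h | order

theorem no_four (hC : ∀ x y z, C x y z → x < y ∧ y < z)
    (core : ∀ a b c d, C a b c → C a b d → C a c d → C b c d → False)
    {a b c d : Λ} (hab : a ≠ b) (hac : a ≠ c) (had : a ≠ d) (hbc : b ≠ c)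
    (hbd : b ≠ d) (hcd : c ≠ d) (h1 : Tr C {a, b, c}) (h2 : Tr C {a, b, d})
    (h3 : Tr C {a, c, d}) (h4 : Tr C {b, c, d}) : False := by
  classical
  let F : Finset Λ := {a, b, c, d}
  have hF : F.card = 4 := by
    simp only [F]
    rw [Finset.card_insert_of_notMem (by simp [hab, hac, had]),
      Finset.card_insert_of_notMem (by simp [hbc, hbd]), Finset.card_pair hcd]
  have key : ∀ e ∈ F, Tr C ((F : Set Λ) \ {e}) := by
    intro e he
    simp only [F, Finset.mem_insert, Finset.mem_singleton] at he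
    rcases he with rfl | rfl | rfl | rfl
    · refine h4.mono ?_
      rintro x (rfl | rfl | rfl) <;> simp [F, hab.symm, hac.symm, had.symm]
    · refine h3.mono ?_
      rintro x (rfl | rfl | rfl) <;> simp [F, hab, hbc.symm, hbd.symm]
    · refine h2.mono ?_
      rintro x (rfl | rfl | rfl) <;> simp [F, hac, hbc, hcd.symm]
    · refine h1.mono ?_
      rintro x (rfl | rfl | rfl) <;> simp [F, had, hbd, hcd]
  let e := F.orderEmbOfFin hF
  have hr : ∀ x ∈ F, ∃ i, e i = x := fun x hx => by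
    have : x ∈ range e := by rw [Finset.range_orderEmbOfFin]; exact hx
    exact this
  have hm : ∀ i, e i ∈ F := fun i => F.orderEmbOfFin_mem hF i
  have l01 : e 0 < e 1 := e.strictMono (by decide)
  have l12 : e 1 < e 2 := e.strictMono (by decide)
  have l23 : e 2 < e 3 := e.strictMono (by decide)
  have sub : ∀ i j k l : Fin 4, (∀ m : Fin 4, m = i ∨ m = j ∨ m = k ∨ m = l) →
      Tr C {e i, e j, e k} := by
    intro i j k l hall
    refine (key (e l) (hm l)).mono ?_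
    rintro x ⟨hx, hx'⟩
    obtain ⟨m, rfl⟩ := hr x hx
    rcases hall m with rfl | rfl | rfl | rfl
    · simp
    · simp
    · simp
    · exact absurd rfl hx'
  exact core _ _ _ _ ((sub 0 1 2 3 (by decide)).col hC l01 l12)
    ((sub 0 1 3 2 (by decide)).col hC l01 (l12.trans l23))
    ((sub 0 2 3 1 (by decide)).col hC (l01.trans l12) l23)
    ((sub 1 2 3 0 (by decide)).col hC l12 l23)

end Four

end Pool.Agent.MP_a45f51_lc.A62.Ng

end MrgPart2

-- ======== part 3: formerly Pool.Agent.MP_a45f51_lc.h62.Neg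
section MrgPart3

/-! PROJECT ARROW: the negative relation in the product with Cohen forcing. -/

namespace Pool.Agent.MP_a45f51_lc.A62

open Cardinal Set Pool.Agent.Forcing92 Pool.Agent.Forcing92.Fml

namespace Ng

section Colour

variable {Q Λ K : Type} {le : Q → Q → Prop} {lev : Λ → ℕ} [LinearOrder K] [LinearOrder Λ]
  (G : Bits (ple le K) Λ K lev)

/-- the condition `q` puts the triple `x < y < z` into colour 1 -/
def Col (q : Q × Cond K) (x y z : Λ) : Prop :=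
  x < y ∧ y < z ∧ lev x = lev y ∧ ∃ ξ c, G.Dl q x y ξ c ∧
    ((lev z = lev x ∧ G.Dl q y z ξ (!c)) ∨ (lev x < lev z ∧ q.2.1 (ξ, lev z) = some c))

variable {G} [Pre le]

theorem Col.mono {q r : Q × Cond K} {x y z : Λ} (h : Col G q x y z) (hr : ple le K r q) :
    Col G r x y z := by
  obtain ⟨h1, h2, h3, ξ, c, h4, h5⟩ := h
  exact ⟨h1, h2, h3, ξ, c, h4.mono hr,
    h5.imp (fun h => ⟨h.1, h.2.mono hr⟩) fun h => ⟨h.1, hr.2 _ _ h.2⟩⟩

theorem col_core {q : Q × Cond K} (a b c d : Λ) (h1 : Col G q a b c) (h2 : Col G q a b d)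
    (h3 : Col G q a c d) (h4 : Col G q b c d) : False := by
  obtain ⟨-, -, lab, ξ, e, d1, h1⟩ := h1
  obtain ⟨-, -, -, ξ2, e2, d2, h2⟩ := h2
  obtain ⟨-, -, lac, -⟩ := h3
  obtain ⟨-, -, lbc, ξ4, e4, d4, h4⟩ := h4
  have d5 : G.Dl q b c ξ (!e) := by
    rcases h1 with h | h
    · exact h.2
    · omega
  obtain ⟨rfl, rfl⟩ := d1.uniq d2
  obtain ⟨rfl, rfl⟩ := d5.uniq d4
  rcases h2 with h2 | h2 <;> rcases h4 with h4 | h4
  · simpa using G.fn h2.2.2.2 h4.2.2.2
  · omega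
  · omega
  · simpa using h2.2.symm.trans h4.2

variable [WellFoundedLT K] [WellFoundedLT Λ]

theorem main_comb (hcap : CaptureStmt) (hM : Master le (bt (0 + 1)) (bt (0 + 2)))
    (hU : ∀ n, UP (ple le K) (bt (n + 2))) (hmono : Monotone lev)
    (hsm : ∀ l, ∃ n, ∃ S : Set K, #S ≤ bt (n + 2) ∧
      ∀ r x y ξ c, lev x = l → lev y = l → G.Dl r x y ξ c → ξ ∈ S)
    {In : Q × Cond K → Λ → Prop} (hIn : Opn (ple le K) In) {q : Q × Cond K}
    (hN : ∀ n, NC (ple le K) (bt (n + 2)) q In) :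
    ∃ r, ple le K r q ∧ ∃ x y z, In r x ∧ In r y ∧ In r z ∧ Col G r x y z := by
  have kind1 : ∀ n l r, ple le K r q →
      NC (ple le K) (bt (n + 2)) r (fun s j => In s j ∧ lev j = l) → ∀ S : Set K,
      #S ≤ bt (n + 2) → (∀ s, ple le K s r → ∀ x y ξ c, In s x ∧ lev x = l →
        In s y ∧ lev y = l → x < y → G.Dl s x y ξ c → ξ ∈ S) →
      ∃ r, ple le K r q ∧ ∃ x y z, In r x ∧ In r y ∧ In r z ∧ Col G r x y z := by
    intro n l r hr h S hS hTS
    obtain ⟨s, hs, x, y, z, ξ, c, hx, hy, hz, hxy, hyz, d1, d2⟩ := tree (G := G) (hU n)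
      (aleph0_le_bt _) (fun s s' j hs hj => ⟨hIn _ _ _ hs hj.1, hj.2⟩) h (l := l)
      (fun _ _ h => h.2) hS hTS
    exact ⟨s, ltrans hs hr, x, y, z, hx.1, hy.1, hz.1, hxy, hyz, hx.2.trans hy.2.symm, ξ, c, d1,
      Or.inl ⟨hz.2.trans hx.2.symm, d2⟩⟩
  by_cases hA : ∃ q', ple le K q' q ∧ ∃ k, ∀ r, ple le K r q' → ∀ x, In r x → lev x < k
  · obtain ⟨q', hq', k, hk⟩ := hA
    choose n S hS hS' using hsm
    obtain ⟨M, hMb⟩ := ((finite_lt_nat k).image n).bddAbove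
    obtain ⟨l, r, hr, h⟩ := nc_level (hU M) (aleph0_le_bt _) hIn ((hN M).mono hq') lev
    have hl : l < k := by
      obtain ⟨s, hs, j, hj, -⟩ := h r (lrefl r) ∅ (by simp)
      exact hj.2 ▸ hk s (ltrans hs hr) j hj.1
    refine kind1 M l r (ltrans hr hq') h (S l) ((hS l).trans (bt_mono ?_))
      fun s _ x y ξ c hx hy _ hD => hS' l s x y ξ c hx.2 hy.2 hD
    have := hMb ⟨l, hl, rfl⟩
    omega
  · push Not at hA
    obtain ⟨p', hp', S, hS, hc⟩ := hcap Q K ℕ le 0 (fun m r => ∃ z, In r z ∧ lev z = m) hM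
      (by simpa using aleph0_le_bt _)
      (fun m r r' hr ⟨z, h1, h2⟩ => ⟨z, hIn _ _ _ hr h1, h2⟩) q.1
    have hq' : ple le K (p', q.2) q := ⟨hp', lrefl _⟩
    obtain ⟨l, r0, hr0, h⟩ := nc_level (hU 0) (aleph0_le_bt _) hIn ((hN 0).mono hq') lev
    by_cases hTS : ∀ s, ple le K s r0 → ∀ x y ξ c, In s x ∧ lev x = l →
        In s y ∧ lev y = l → x < y → G.Dl s x y ξ c → ξ ∈ S
    · exact kind1 0 l r0 (ltrans hr0 hq') h S hS hTS
    push Not at hTS
    obtain ⟨r, hr, x, y, ξ, c, hx, hy, hxy, hD, hξ⟩ := hTS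
    have hrq : ple le K r q := ltrans hr (ltrans hr0 hq')
    obtain ⟨k, hk⟩ := (r.2.2.image Prod.snd).bddAbove
    obtain ⟨r', hr', z0, hz0, hz0'⟩ := hA r hrq (max k l + 1)
    obtain ⟨p2, c', hp2, hsup, hcmp, z, hz, hz'⟩ := hc (lev z0) r'.1 r'.2
      (ltrans hr'.1 (ltrans hr.1 hr0.1)) ⟨z0, hz0, rfl⟩
    have hcm : Cmp r.2.1 c'.1 := cmp_of_le_left hr'.2 hcmp.symm
    have hnone : (cunion r.2 c').1 (ξ, lev z) = none := by
      have e1 : r.2.1 (ξ, lev z) = none := by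
        by_contra hne
        have := hk ⟨(ξ, lev z), hne, rfl⟩
        simp only at this
        omega
      have e2 : c'.1 (ξ, lev z) = none := by
        by_contra hne
        exact hξ (hsup _ hne)
      simp [cunion, e1, e2]
    obtain ⟨w, hw, hw'⟩ := exists_bit (cunion r.2 c') (ξ, lev z) hnone c
    have k1 : ple le K (p2, w) r := ⟨ltrans hp2 hr'.1, ltrans hw (cunion_le_left _ _)⟩
    have k2 : ple le K (p2, w) (p2, c') := ⟨lrefl _, ltrans hw (cunion_le_right hcm)⟩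
    have hlz : lev y < lev z := by omega
    have hyz : y < z := by
      by_contra hle
      exact (hmono (not_lt.1 hle)).not_gt hlz
    exact ⟨(p2, w), ltrans k1 hrq, x, y, z, hIn _ _ _ k1 hx.1, hIn _ _ _ k1 hy.1,
      hIn _ _ _ k2 hz, hxy, hyz, hx.2.trans hy.2.symm, ξ, c, hD.mono k1,
      Or.inr ⟨by omega, hw'⟩⟩

end Colour

section Names

variable {P : Type} {le : P → P → Prop} [Pre le]

theorem or3_elim {u x y z : Name P} {q : P}
    (h : Forces le (or (eq u x) (or (eq u y) (eq u z))) q) :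
    ∃ r, le r q ∧ (fEq le u x r ∨ fEq le u y r ∨ fEq le u z r) := by
  obtain ⟨r, hr, h | h⟩ := forces_or.1 h q (lrefl q)
  · exact ⟨r, hr, Or.inl h⟩
  · obtain ⟨s, hs, h⟩ := forces_or.1 h r (lrefl r)
    exact ⟨s, ltrans hs hr, Or.inr h⟩

theorem or3_intro {u x y z : Name P} {q : P}
    (h : fEq le u x q ∨ fEq le u y q ∨ fEq le u z q) :
    Forces le (or (eq u x) (or (eq u y) (eq u z))) q := by
  refine forces_or.2 fun r hr => ⟨r, lrefl r, ?_⟩
  rcases h with h | h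
  · exact Or.inl (fEq_mono hr h)
  · exact Or.inr (forces_or.2 fun s hs => ⟨s, lrefl s,
      h.imp (fEq_mono (ltrans hs hr)) (fEq_mono (ltrans hs hr))⟩)

def triple (t : P) (x y z : Name P) : Name P := Name.mk (Fin 3) ![x, y, z] fun _ => t

theorem mem_triple {t : P} (ht : ∀ p, le p t) {u x y z : Name P} {q : P} :
    fMem le u (triple t x y z) q ↔ Forces le (or (eq u x) (or (eq u y) (eq u z))) q := by
  constructor
  · intro h
    refine Forces.dense fun r hr => ?_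
    obtain ⟨s, hs, j, -, he⟩ := h r hr
    refine ⟨s, hs, or3_intro ?_⟩
    fin_cases j
    · exact Or.inl (fEq_symm he)
    · exact Or.inr (Or.inl (fEq_symm he))
    · exact Or.inr (Or.inr (fEq_symm he))
  · intro h r hr
    obtain ⟨s, hs, h | h | h⟩ := or3_elim (h.mono hr)
    · exact ⟨s, hs, 0, ht s, fEq_symm h⟩
    · exact ⟨s, hs, 1, ht s, fEq_symm h⟩
    · exact ⟨s, hs, 2, ht s, fEq_symm h⟩

theorem tri_congr {c x y z x' y' z' : Name P} {q : P} (hx : fEq le x x' q)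
    (hy : fEq le y y' q) (hz : fEq le z z' q) (h : Forces le (tri c x' y' z') q) :
    Forces le (tri c x y z) q :=
  ((sim_tri (R := fun x y => fEq le x y q) (fun x => fEq_refl x q) hx hy hz).forces q
    (lrefl q)).2 h

variable {Λ : Type} [LinearOrder Λ]

/-- `q` forces that `j` is the least code of the set it names -/
def Idx (le : P → P → Prop) (nm : Λ → Name P) (q : P) (j : Λ) : Prop :=
  ∀ j' < j, ∀ r, le r q → ¬ fEq le (nm j') (nm j) r

variable {nm : Λ → Name P}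

theorem Idx.mono {q r : P} {j : Λ} (h : Idx le nm q j) (hr : le r q) : Idx le nm r j :=
  fun j' hj s hs => h j' hj s (ltrans hs hr)

theorem idx_uniq {q : P} {j j' : Λ} (h : Idx le nm q j) (h' : Idx le nm q j')
    (he : fEq le (nm j) (nm j') q) : j = j' := by
  rcases lt_trichotomy j j' with hl | hl | hl
  · exact absurd he (h' j hl q (lrefl q))
  · exact hl
  · exact absurd (fEq_symm he) (h j' hl q (lrefl q))

theorem idx_dense [WellFoundedLT Λ] {t : P} {x : Name P} {q : P}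
    (h : fMem le x (Name.mk Λ nm fun _ => t) q) :
    ∃ r, le r q ∧ ∃ j : Λ, Idx le nm r j ∧ fEq le (nm j) x r := by
  obtain ⟨r0, hr0, j0, -, h0⟩ := h q (lrefl q)
  obtain ⟨j, ⟨r, hr, hj⟩, hmin⟩ := (wellFounded_lt (α := Λ)).has_min
    {j | ∃ r, le r q ∧ fEq le (nm j) x r} ⟨j0, r0, hr0, h0⟩
  exact ⟨r, hr, j, fun j' hj' s hs he =>
    hmin j' ⟨s, ltrans hs hr, fEq_trans he (fEq_mono hs hj)⟩ hj', hj⟩

/-- the name of the set of triples of colour 1 -/
def cname (le : P → P → Prop) (nm : Λ → Name P) (t : P) (C : P → Λ → Λ → Λ → Prop) : Name P :=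
  Name.mk {i : P × Λ × Λ × Λ // Idx le nm i.1 i.2.1 ∧ Idx le nm i.1 i.2.2.1 ∧
      Idx le nm i.1 i.2.2.2 ∧ C i.1 i.2.1 i.2.2.1 i.2.2.2}
    (fun i => triple t (nm i.1.2.1) (nm i.1.2.2.1) (nm i.1.2.2.2)) fun i => i.1.1

variable {t : P} {C : P → Λ → Λ → Λ → Prop}

theorem tri_intro (ht : ∀ p, le p t) {q : P} {x y z : Λ} (hx : Idx le nm q x)
    (hy : Idx le nm q y) (hz : Idx le nm q z) (h : C q x y z) :
    Forces le (tri (cname le nm t C) (nm x) (nm y) (nm z)) q := by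
  refine forces_exIn_of (triple t (nm x) (nm y) (nm z)) ?_
    fun u => forces_iff.2 fun r _ => mem_triple ht
  exact fun r hr => ⟨r, lrefl r, ⟨(q, x, y, z), hx, hy, hz, h⟩, hr, fEq_refl _ r⟩

theorem tri_elim (ht : ∀ p, le p t) (hC : ∀ q r x y z, le r q → C q x y z → C r x y z)
    {q : P} {x y z : Λ} (hx : Idx le nm q x) (hy : Idx le nm q y) (hz : Idx le nm q z)
    (h : Forces le (tri (cname le nm t C) (nm x) (nm y) (nm z)) q) :
    ∃ r, le r q ∧ ∀ s, le s r → Tr (C s) {x, y, z} := by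
  obtain ⟨r1, hr1, u, hu0, hu⟩ := forces_exIn.1 h q (lrefl q)
  obtain ⟨r2, hr2, ⟨⟨s, x', y', z'⟩, hx', hy', hz', hc⟩, hs, he⟩ := hu0 r1 (lrefl r1)
  have key : ∀ w : Λ, Idx le nm s w → fMem le (nm w) (triple t (nm x') (nm y') (nm z')) r2 →
      w ∈ ({x, y, z} : Set Λ) := by
    intro w hw hm
    obtain ⟨r3, hr3, h3⟩ := or3_elim ((forces_iff.1 (hu (nm w)) r2 hr2).1 (fMem_congr_right he hm))
    have hw' := hw.mono (ltrans hr3 hs)
    have hq := ltrans hr3 (ltrans hr2 hr1)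
    rcases h3 with h3 | h3 | h3
    · exact Or.inl (idx_uniq hw' (hx.mono hq) h3)
    · exact Or.inr (Or.inl (idx_uniq hw' (hy.mono hq) h3))
    · exact Or.inr (Or.inr (idx_uniq hw' (hz.mono hq) h3))
  exact ⟨r2, ltrans hr2 hr1, fun v hv =>
    ⟨x', key x' hx' ((mem_triple ht).2 (or3_intro (Or.inl (fEq_refl _ _)))),
    y', key y' hy' ((mem_triple ht).2 (or3_intro (Or.inr (Or.inl (fEq_refl _ _))))),
    z', key z' hz' ((mem_triple ht).2 (or3_intro (Or.inr (Or.inr (fEq_refl _ _))))),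
    hC _ _ _ _ _ (ltrans hv hs) hc⟩⟩

variable [WellFoundedLT Λ] {K : Type} [LinearOrder K] [WellFoundedLT K]

theorem forces_noArrow (ht : ∀ p, le p t) (hC : ∀ q r x y z, le r q → C q x y z → C r x y z)
    (hlt : ∀ q x y z, C q x y z → x < y ∧ y < z)
    (core : ∀ q a b c d, C q a b c → C q a b d → C q a c d → C q b c d → False)
    (hmain : ∀ (In : P → Λ → Prop) (F : Λ → P → K → Prop) (q : P), Opn le In →
      (∀ j, Opn le (F j)) → (∀ j r b b', le r q → F j r b → F j r b' → b = b') →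
      (∀ r, le r q → ∀ b, ∃ s, le s r ∧ ∃ j, In s j ∧ F j s b) →
      ∃ r, le r q ∧ ∃ x y z, In r x ∧ In r y ∧ In r z ∧ C r x y z) (p : P) :
    Forces le (noArrow (Name.mk Λ nm fun _ => t) (kap t K)) p := by
  refine forces_ex_of (cname le nm t C) ⟨fun X => forces_imp.2 fun q _ hX =>
    forces_imp.2 fun r hr hleq => Forces.dense fun s hs => ?_, ?_⟩
  · obtain ⟨s', hs', f, h1, h2⟩ := leq_elim (hleq.mono hs)
    have hs'q := ltrans hs' (ltrans hs hr)
    obtain ⟨w, hw, x, y, z, hx, hy, hz, hc⟩ := hmain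
      (fun w j => Idx le nm w j ∧ fMem le (nm j) X w)
      (fun j w b => Forces le (app f (chk t b) (nm j)) w) s'
      (fun r s x hs h => ⟨h.1.mono hs, fMem_mono hs h.2⟩) (fun j r s b hs h => h.mono hs)
      (fun j v b b' hv k1 k2 => chk_inj ht (h2 _ _ (nm j) v hv k1 k2)) (by
        intro q' hq' b
        obtain ⟨u, hu, y, hy, hf⟩ := h1 (chk t b) q' hq' (chk_mem_kap ht b q')
        obtain ⟨v, hv, j, hj, he⟩ :=
          idx_dense (forces_sub.1 hX y u (ltrans hu (ltrans hq' hs'q)) hy)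
        exact ⟨v, ltrans hv hu, j, ⟨hj, fMem_congr_left (fEq_symm he) (fMem_mono hv hy)⟩,
          app_congr (fEq_refl _ v) (fEq_symm he) (hf.mono hv)⟩)
    obtain ⟨l1, l2⟩ := hlt _ _ _ _ hc
    exact ⟨w, ltrans hw hs', forces_exIn_of (nm x) hx.2 (forces_exIn_of (nm y) hy.2
      (forces_exIn_of (nm z) hz.2 ⟨⟨fun v hv => hy.1 x l1 v hv,
        fun v hv => hz.1 x (l1.trans l2) v hv, fun v hv => hz.1 y l2 v hv⟩,
        tri_intro ht hx.1 hy.1 hz.1 hc⟩))⟩
  · intro q _ h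
    obtain ⟨q1, -, x, hx, h⟩ := forces_exIn.1 h q (lrefl q)
    obtain ⟨q2, l2, y, hy, h⟩ := forces_exIn.1 h q1 (lrefl q1)
    obtain ⟨q3, l3, z, hz, h⟩ := forces_exIn.1 h q2 (lrefl q2)
    obtain ⟨q4, l4, w, hw, h⟩ := forces_exIn.1 h q3 (lrefl q3)
    obtain ⟨r1, m1, j1, i1, e1⟩ := idx_dense (fMem_mono (ltrans l4 (ltrans l3 l2)) hx)
    obtain ⟨r2, m2, j2, i2, e2⟩ := idx_dense (fMem_mono (ltrans m1 (ltrans l4 l3)) hy)
    obtain ⟨r3, m3, j3, i3, e3⟩ := idx_dense (fMem_mono (ltrans m2 (ltrans m1 l4)) hz)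
    obtain ⟨r, m4, j4, i4, e4⟩ := idx_dense (fMem_mono (ltrans m3 (ltrans m2 m1)) hw)
    replace i1 := i1.mono (ltrans m4 (ltrans m3 m2))
    replace e1 := fEq_mono (ltrans m4 (ltrans m3 m2)) e1
    replace i2 := i2.mono (ltrans m4 m3)
    replace e2 := fEq_mono (ltrans m4 m3) e2
    replace i3 := i3.mono m4
    replace e3 := fEq_mono m4 e3
    obtain ⟨⟨⟨n12, n13, n23⟩, ⟨-, n14, n24⟩, n34⟩, t1, t2, t3, t4⟩ :=
      Forces.mono (ltrans m4 (ltrans m3 (ltrans m2 m1))) h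
    have ne : ∀ {j j' : Λ} {u u' : Name P}, fEq le (nm j) u r →
        fEq le (nm j') u' r → Forces le (neg (eq u u')) r → j ≠ j' := by
      rintro j j' u u' h1 h2 h3 rfl
      exact h3 r (lrefl r) (fEq_trans (fEq_symm h1) h2)
    obtain ⟨s1, k1, c1⟩ := tri_elim ht hC i1 i2 i3 (tri_congr e1 e2 e3 t1)
    obtain ⟨s2, k2, c2⟩ := tri_elim ht hC (i1.mono k1) (i2.mono k1) (i4.mono k1)
      ((tri_congr e1 e2 e4 t2).mono k1)
    have k2' := ltrans k2 k1
    obtain ⟨s3, k3, c3⟩ := tri_elim ht hC (i1.mono k2') (i3.mono k2') (i4.mono k2')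
      ((tri_congr e1 e3 e4 t3).mono k2')
    have k3' := ltrans k3 k2'
    obtain ⟨s4, k4, c4⟩ := tri_elim ht hC (i2.mono k3') (i3.mono k3') (i4.mono k3')
      ((tri_congr e2 e3 e4 t4).mono k3')
    exact no_four (hlt s4) (core s4) (ne e1 e2 n12) (ne e1 e3 n13) (ne e1 e4 n14)
      (ne e2 e3 n23) (ne e2 e4 n24) (ne e3 e4 n34)
      (c1 s4 (ltrans k4 (ltrans k3 k2))) (c2 s4 (ltrans k4 k3)) (c3 s4 k4) (c4 s4 (lrefl s4))

end Names

end Ng

open Ng in
theorem nega (hcov : CovStmt) (hcap : CaptureStmt) : NegStmt := by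
  intro K _ _ a lam Q le _ I hs hM Lam nm lev hlev p
  obtain ⟨i1, i2, hmono⟩ := exists_lex Lam lev
  have key : ∀ n, ∃ (m : ℕ) (e : {j | lev j = n} → I.Λ), Function.Injective e ∧
      ∀ j, I.lev (e j) = m := by
    intro n
    obtain ⟨m, ⟨e⟩⟩ := I.big _ (hlev n)
    exact ⟨m, fun j => (e j).1, fun j j' h => e.injective (Subtype.ext h), fun j => (e j).2⟩
  choose m e he hm using key
  let x : Lam → I.Λ := fun j => e (lev j) ⟨j, rfl⟩
  have hx : ∀ n j (h : lev j = n), x j = e n ⟨j, h⟩ := by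
    rintro n j rfl
    rfl
  let G : Bits (ple le K) Lam K lev :=
    { Bt := fun q j b c => I.Bit q (x j) b c
      mono := I.bit_mono
      fn := I.bit_fun
      tot := fun q j b => I.bit_tot q (x j) b
      sep := fun q j j' h hl => I.bit_sep q _ _ fun h' => h (by
        rw [hx _ j hl, hx _ j' rfl] at h'
        exact congrArg Subtype.val (he _ h')) }
  have hU : ∀ n, UP (ple le K) (bt (n + 2)) := fun n => up_of hcov (I.mas n) (aleph0_le_bt _)
  refine Ng.forces_noArrow (C := Ng.Col G) I.top (fun q r x y z hr h => h.mono hr)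
    (fun q x y z h => ⟨h.1, h.2.1⟩) (fun q => Ng.col_core) (fun In F q h1 h2 h3 h4 => ?_) p
  refine Ng.main_comb hcap (hM 0) hU hmono (fun l => ⟨m l, Iio (a (m l)), ?_, ?_⟩) h1 fun n =>
    nc_of_inj (hU n) (aleph0_le_bt _) (hs.card ▸ bt_lt_kp _) F h2 h3 h4
  · rw [hs.eq]
    exact Order.succ_le_of_lt (bt_lt (by omega))
  · intro r j j' ξ c hj hj' hD
    cases c
    · have := I.bit_lt (q := r) (x := x j') (b := ξ) hD.2.2
      rwa [hx _ j' hj', hm] at this
    · have := I.bit_lt (q := r) (x := x j) (b := ξ) hD.2.1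
      rwa [hx _ j hj, hm] at this

end Pool.Agent.MP_a45f51_lc.A62

end MrgPart3

-- marker of a merged file
example : 731051 + 677584 = 731051 + 677584 := rfl
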