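import Mathlib.Order.Lattice.Nat
import Mathlib.Data.Fintype.Lattice
import Mathlib.CategoryTheory.Countable
import Mathlib.Order.Filter.Ultrafilter.Basic
import Pool.Agent.MP_a45f51_lc.h62.Spec2
import Pool.Agent.MP_a45f51_lc.h62.StageB
import Pool.Agent.MP_a45f51_lc.h62.PhaseTwo
import Pool.Agent.MP_a45f51_lc.h62.Neg

-- ======== part 0: formerly Pool.Agent.MP_a45f51_lc.h62.Rec
section MrgPart0

/-! PROJECT ARROW: recursion in closure systems and the covering lemma. -/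

namespace Pool.Agent.MP_a45f51_lc.A62

open Cardinal Set Pool.Agent.Forcing92

theorem chain : ChainStmt := by
  intro β T α S O _ _ hβ hO t0 Φ h
  classical
  have : Nonempty T := ⟨t0⟩
  choose! step h1 h2 using h
  choose! lm l1 l2 using S.lim
  let G : ∀ o : O, (∀ o', o' < o → T) → T := fun o ih =>
    step o (lm (insert t0 {t | ∃ o', ∃ h : o' < o, ih o' h = t}))
  let b : O → T := (wellFounded_lt (α := O)).fix G
  let C : Set O → Set T := fun A => insert t0 (b '' A)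
  have hb : ∀ o, b o = step o (lm (C (Iio o))) := by
    intro o
    have : b o = G o fun o' _ => b o' := WellFounded.fix_eq _ _ _
    rw [this]
    simp only [G, C]
    congr 3
    ext t
    simp
  have hC : ∀ A : Set O, (∀ o ∈ A, S.st (b o) t0) →
      (∀ o ∈ A, ∀ o' ∈ A, o < o' → S.st (b o') (b o)) →
      (∀ t ∈ C A, S.st (lm (C A)) t) ∧ S.tr (lm (C A)) ⊆ ⋃ t ∈ C A, S.tr t := by
    intro A a1 a2
    have c1 : (C A).Nonempty := insert_nonempty _ _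
    have c2 : #(C A) ≤ β := mk_insert_le.trans
      (add_le_of_le hβ (mk_image_le.trans ((mk_set_le A).trans hO)) (one_le_aleph0.trans hβ))
    have c3 : ∀ x ∈ C A, ∀ y ∈ C A, S.st x y ∨ S.st y x := by
      rintro x (rfl | ⟨o, ho, rfl⟩) y (rfl | ⟨o', ho', rfl⟩)
      · exact Or.inl (S.refl _)
      · exact Or.inr (a1 o' ho')
      · exact Or.inl (a1 o ho)
      · rcases lt_trichotomy o o' with h | rfl | h
        · exact Or.inr (a2 o ho o' ho' h)
        · exact Or.inl (S.refl _)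
        · exact Or.inl (a2 o' ho' o ho h)
    exact ⟨l1 _ c1 c2 c3, l2 _ c1 c2 c3⟩
  have key : ∀ o, ∀ t ∈ C (Iio o), S.st (lm (C (Iio o))) t := by
    intro o
    induction o using WellFoundedLT.induction with
    | ind o ih =>
      have k1 : ∀ o' < o, S.st (b o') (lm (C (Iio o'))) := fun o' ho' =>
        hb o' ▸ h1 o' _ (ih o' ho' t0 (mem_insert _ _))
      exact (hC (Iio o) (fun o' ho' => S.trans (k1 o' ho') (ih o' ho' t0 (mem_insert _ _)))
        fun o1 _ o2 h2 h => S.trans (k1 o2 h2) (ih o2 h2 _ (Or.inr ⟨o1, h, rfl⟩))).1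
  have k0 : ∀ o, S.st (lm (C (Iio o))) t0 := fun o => key o t0 (mem_insert _ _)
  have k1 : ∀ o, S.st (b o) (lm (C (Iio o))) := fun o => hb o ▸ h1 o _ (k0 o)
  have k2 : ∀ o o', o < o' → S.st (lm (C (Iio o'))) (b o) := fun o o' h =>
    key o' _ (Or.inr ⟨o, h, rfl⟩)
  obtain ⟨m1, m2⟩ := hC univ (fun o _ => S.trans (k1 o) (k0 o))
    fun o _ o' _ h => S.trans (k1 o') (k2 o o' h)
  refine ⟨fun o => lm (C (Iio o)), b, lm (C univ), m1 _ (mem_insert _ _), fun o =>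
    ⟨k0 o, k1 o, hb o ▸ h2 o _ (k0 o), m1 _ (Or.inr ⟨o, mem_univ _, rfl⟩)⟩, k2, fun x hx => ?_⟩
  obtain ⟨t, rfl | ⟨o, -, rfl⟩, hx'⟩ := mem_iUnion₂.1 (m2 hx)
  · exact Or.inl hx'
  · exact Or.inr (mem_iUnion.2 ⟨o, hx'⟩)

/-- a small set of points of a well order of successor type is bounded -/
theorem exists_bound {γ : Cardinal.{0}} (hγ : ℵ₀ ≤ γ) (A : Set (Order.succ γ).ord.ToType)
    (hA : #A ≤ γ) : ∃ o, ∀ x ∈ A, x < o := by
  by_contra hn
  push Not at hn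
  have : (univ : Set (Order.succ γ).ord.ToType) ⊆ ⋃ x ∈ A, insert x (Iio x) := fun o _ => by
    obtain ⟨x, hx, ho⟩ := hn o
    exact mem_iUnion₂.2 ⟨x, hx, ho.eq_or_lt⟩
  have h := mk_sub_le (mk_biUnion_le_of hγ hA fun x _ => mk_insert_le.trans (add_le_of_le hγ
    (Order.lt_succ_iff.1 (mk_Iio_toType_ord_lt x)) (one_le_aleph0.trans hγ))) this
  rw [mk_univ, mk_ord_toType] at h
  exact (Order.lt_succ γ).not_ge h

theorem rec : RecStmt := by
  intro γ β hγ hγβ T α ι S sup Ψ t0 h1 h2 h3 h4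
  have hβ : ℵ₀ ≤ β := hγ.trans hγβ.le
  have round : ∀ t, S.st t t0 → ∃ t', S.st t' t ∧ ∀ i, sup i ⊆ S.tr t → Ψ i t' := by
    intro t ht
    obtain ⟨_, _⟩ := exists_wellFoundedLT {i | sup i ⊆ S.tr t}
    obtain ⟨a, b, t', k1, k2, -⟩ := chain β T α S {i | sup i ⊆ S.tr t} hβ (h2 _ (S.tr_card t)) t
      (fun i _ u => Ψ i.1 u) fun i u hu =>
        h4 i.1 u (S.trans hu ht) (i.2.trans (S.tr_mono hu))
    exact ⟨t', k1, fun i hi => h3 i _ _ (k2 ⟨i, hi⟩).2.2.2 (k2 ⟨i, hi⟩).2.2.1⟩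
  obtain ⟨a, b, t, k1, k2, k3, k4⟩ := chain β T α S (Order.succ γ).ord.ToType hβ
    (by rw [mk_ord_toType]; exact Order.succ_le_of_lt hγβ) t0
    (fun _ u u' => ∀ i, sup i ⊆ S.tr u → Ψ i u') fun _ u hu => round u hu
  refine ⟨t, k1, fun i hi => ?_⟩
  have : ∀ x : sup i, ∃ o, ∀ o', o < o' → x.1 ∈ S.tr (a o') := by
    intro x
    rcases k4 (hi x.2) with h | h
    · obtain ⟨o, -⟩ := exists_bound hγ ∅ (by simp)
      exact ⟨o, fun o' _ => S.tr_mono (k2 o').1 h⟩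
    · obtain ⟨o, ho⟩ := mem_iUnion.1 h
      exact ⟨o, fun o' h' => S.tr_mono (k3 o o' h') ho⟩
  choose f hf using this
  obtain ⟨o, ho⟩ := exists_bound hγ (range f) (mk_range_le.trans (h1 i))
  exact h3 i _ _ (k2 o).2.2.2 ((k2 o).2.2.1 i fun x hx => hf ⟨x, hx⟩ o (ho _ ⟨_, rfl⟩))

theorem cov : CovStmt := by
  intro Q B W le _ γ β R p hM hβ hB h1 h2
  obtain ⟨p', t, k1, -, k2⟩ := hM _ _ B (CSys.sets hβ W) (fun _ => ∅)
    (fun b q S => ∃ w ∈ S.1, R b q w) p ⟨∅, by simp⟩ (fun _ => by simp)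
    (fun _ _ => (mk_set_le _).trans hB)
    (fun b q q' t t' hq ht ⟨w, hw, h⟩ => ⟨w, ht hw, h1 b q q' w hq h⟩) (fun b q t hq _ _ => by
      obtain ⟨r, w, hr, h⟩ := h2 b q hq
      exact ⟨r, ⟨insert w t.1, mk_insert_le.trans (add_le_of_le hβ t.2 (one_le_aleph0.trans hβ))⟩,
        hr, subset_insert _ _, w, mem_insert _ _, h⟩)
  exact ⟨p', k1, t.1, t.2, fun b q hq => k2 b (empty_subset _) q hq⟩

end Pool.Agent.MP_a45f51_lc.A62

end MrgPart0

-- ======== part 1: formerly Pool.Agent.MP_a45f51_lc.h62.TowerA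
section MrgPart1

/-! PROJECT ARROW: towers, their order, merging. -/

namespace Pool.Agent.MP_a45f51_lc.A62.Tower

open Cardinal Set

variable {Θ : Type} {ty : Θ → ℕ} {j : ℕ}

/-- a condition with one distinguished class on each level from `j` on -/
structure Tw (ty : Θ → ℕ) (j : ℕ) where
  p : Cd ty
  Z : ℕ → Set Θ
  t0 : ∀ {k a}, a ∈ Z k → j ≤ k
  t1 : Monotone Z
  t2 : ∀ {k a}, a ∈ Z k → ∀ b, p.r k a b ↔ b ∈ Z k
  t3 : ∀ {k a}, a ∈ Z k → ty a < k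
  t4 : ∀ {i a b}, p.r i a b → a = b ∨ ∃ k, a ∈ Z k

theorem Tw.card (t : Tw ty j) (k : ℕ) : #(t.Z k) ≤ bt (k + 1) := by
  rcases eq_empty_or_nonempty (t.Z k) with h | ⟨a, ha⟩
  · rw [h]; simp
  · exact mk_sub_le (t.p.cls k a) fun b hb => (t.t2 ha b).2 hb

theorem Tw.closed (t : Tw ty j) {i k : ℕ} {a b : Θ} (hik : i ≤ k) (ha : a ∈ t.Z k)
    (h : t.p.r i a b) : b ∈ t.Z k := (t.t2 ha b).1 (t.p.nest_le hik h)

theorem Tw.card_of_sm (t : Tw ty j) {i k : ℕ} {X : Set Θ} (hk : k ≤ i) (hX : X ⊆ t.Z k)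
    (h : Sm t.p i X) : #X ≤ bt i := by
  rcases eq_empty_or_nonempty X with he | ⟨a, ha⟩
  · rw [he]; simp
  · exact h.card_le (a := a) fun b hb => (t.t2 (t.t1 hk (hX ha)) b).2 (t.t1 hk (hX hb))

theorem Tw.sm_of_levels (t : Tw ty j) {i : ℕ} {X : Set Θ}
    (h : ∀ k, Sm t.p i (X ∩ t.Z k)) : Sm t.p i X := by
  refine sm_of_mem fun a _ => ?_
  by_cases ha : ∃ k, a ∈ t.Z k
  · obtain ⟨k, hk⟩ := ha
    exact mk_sub_le (h (max k i) a) fun b hb =>
      ⟨⟨hb.1, t.closed (le_max_right _ _) (t.t1 (le_max_left _ _) hk) hb.2⟩, hb.2⟩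
  · refine mk_le_of_subsingleton (fun b hb c hc => ?_) i
    exact ((t.t4 hb.2).resolve_right ha).symm.trans ((t.t4 hc.2).resolve_right ha)

/-- the points at which `q` changes `p` below level `i` -/
def Ch (i : ℕ) (q p : Cd ty) : Set Θ :=
  {a | q.v a ≠ p.v a ∨ ∃ i' < i, ∃ b, q.r i' a b ∧ ¬ p.r i' a b}

theorem ch_sub (i : ℕ) (s q p : Cd ty) : Ch i s p ⊆ Ch i s q ∪ Ch i q p := by
  rintro a (h | ⟨i', hi, b, h1, h2⟩)
  · by_cases h' : q.v a = p.v a
    · exact Or.inl (Or.inl (h' ▸ h))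
    · exact Or.inr (Or.inl h')
  · by_cases h' : q.r i' a b
    · exact Or.inr (Or.inr ⟨i', hi, b, h', h2⟩)
    · exact Or.inl (Or.inr ⟨i', hi, b, h1, h'⟩)

/-- the strong order on towers -/
structure St (t' t : Tw ty j) : Prop where
  s0 : ∀ k, t.Z k ⊆ t'.Z k
  s1 : ∀ a b, t.p.v a = some b → t'.p.v a = some b
  s2 : ∀ i, Sm t.p i (Ch i t'.p t.p)
  s3 : ∀ i X, Sm t'.p i X → Sm t.p i X
  s5 : ∀ k a, a ∈ t.Z k → (∀ i < k, a ∉ t'.Z i) →
    (∀ i < k, ∀ b, t'.p.r i a b ↔ t.p.r i a b) ∧ ((ty a + 1 < k ∨ k = j) → t'.p.v a = t.p.v a)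

theorem St.refl (t : Tw ty j) : St t t where
  s0 _ := Subset.rfl
  s1 _ _ h := h
  s2 _ := sm_empty.mono (by
    rintro a (h | ⟨_, _, _, h1, h2⟩)
    · exact h rfl
    · exact h2 h1)
  s3 _ _ h := h
  s5 _ _ _ _ := ⟨fun _ _ _ => Iff.rfl, fun _ => rfl⟩

theorem St.trans {a b c : Tw ty j} (h : St a b) (h' : St b c) : St a c where
  s0 k := (h'.s0 k).trans (h.s0 k)
  s1 x y hx := h.s1 x y (h'.s1 x y hx)
  s2 i := ((h'.s3 i _ (h.s2 i)).union (h'.s2 i)).mono (ch_sub i _ _ _)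
  s3 i X hX := h'.s3 i X (h.s3 i X hX)
  s5 k x hx hm := by
    obtain ⟨h1, h2⟩ := h.s5 k x (h'.s0 k hx) hm
    obtain ⟨h3, h4⟩ := h'.s5 k x hx fun i hi hb => hm i hi (h.s0 i hb)
    exact ⟨fun i hi y => (h1 i hi y).trans (h3 i hi y), fun hh => (h2 hh).trans (h4 hh)⟩

theorem St.le {t' t : Tw ty j} (h : St t' t) : Le t'.p t.p where
  val a _ b hb := h.s1 a b hb
  new i := (h.s2 i).mono fun _ ha => Or.inl ha.2
  fin i X _ hX := h.s3 i X hX
  off i := by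
    refine ⟨{a | ∃ b, t'.p.r i a b ∧ ¬ t.p.r i a b}, fun k hk => (h.s2 k).mono ?_,
      fun X _ hX => (hX.mono sdiff_subset).of_rel fun a ha b _ hr => ?_⟩
    · rintro a ⟨b, hb⟩
      exact Or.inr ⟨i, hk, b, hb⟩
    · by_contra hn
      exact ha.2 ⟨b, hr, hn⟩

theorem St.pure {t' t : Tw ty j} (h : St t' t) : LeOn (t.Z j) t.p t'.p := by
  have key : ∀ a ∈ t.Z j, _ := fun a ha =>
    h.s5 j a ha fun i hi hb => absurd (t'.t0 hb) (not_le.2 hi)
  refine leOn_of_iff (fun a ha => ((key a ha).2 (Or.inr rfl)).symm) fun i X hX =>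
    ⟨fun hs => ?_, h.s3 i X⟩
  rcases lt_or_ge i j with hi | hi
  · exact hs.of_rel fun a ha b _ hr => ((key a (hX ha)).1 i hi b).1 hr
  · exact sm_of_card (t.card_of_sm hi hX hs)

theorem red (t : Tw ty j) {q : Cd ty} (hq : Le q t.p) :
    ∃ E ⊆ t.Z j, #E ≤ bt j ∧ LeOn (t.Z j \ E) t.p q := by
  choose F hF1 hF2 using hq.off
  refine ⟨t.Z j ∩ ({a | a ∈ Set.univ ∧ q.v a ≠ t.p.v a} ∪ ⋃ i : Fin j, F i), inter_subset_left,
    t.card_of_sm le_rfl inter_subset_left (((hq.new j).union (Sm.iUnion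
      (mk_le_aleph0.trans (aleph0_le_bt j)) fun i : Fin j => hF1 i j i.2)).mono inter_subset_right), ?_⟩
  refine leOn_of_iff (fun a ha => ?_) fun i X hX => ⟨fun hs => ?_, hq.fin i X (subset_univ _)⟩
  · by_contra hn
    exact ha.2 ⟨ha.1, Or.inl ⟨mem_univ _, fun h => hn h.symm⟩⟩
  · rcases lt_or_ge i j with hi | hi
    · refine (hF2 i X (subset_univ _) hs).mono fun a ha => ⟨ha, fun hF => (hX ha).2 ?_⟩
      exact ⟨(hX ha).1, Or.inr (mem_iUnion.2 ⟨⟨i, hi⟩, hF⟩)⟩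
    · exact sm_of_card (t.card_of_sm hi (hX.trans sdiff_subset) hs)

/-- the point moved by the lower tower takes its class along -/
theorem St.move {t' t : Tw ty j} (h : St t' t) {i m : ℕ} {a b : Θ} (him : i ≤ m)
    (ha : a ∈ t.Z (m + 1)) (ha' : a ∈ t'.Z m) (hr : t.p.r i a b) : b ∈ t'.Z m := by
  by_contra hb
  have h1 := (h.s5 (m + 1) b (t.closed (by omega) ha hr)
    fun i' hi' hb' => hb (t'.t1 (Nat.lt_succ_iff.1 hi') hb')).1 i (by omega) a
  exact hb (t'.closed him ha' (t'.p.symm (h1.2 (t.p.symm hr))))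

/-- merge the classes that meet `W k` -/
theorem merge (c : Cd ty) (W : ℕ → Set Θ) (h0 : ∀ k, ∀ a ∈ W k, j ≤ k) (h1 : Monotone W)
    (h2 : ∀ k, #(W k) ≤ bt (k + 1)) (h3 : ∀ k, ∀ a ∈ W k, ty a < k)
    (h4 : ∀ a ∈ c.supp, ∃ k, a ∈ W k) :
    ∃ t : Tw ty j, (∀ k, W k ⊆ t.Z k) ∧ t.p.v = c.v ∧ (∀ i a b, c.r i a b → t.p.r i a b) ∧
      (∀ i a b, a ∉ t.Z i → t.p.r i a b → c.r i a b) ∧ Le t.p c := by
  let Z : ℕ → Set Θ := fun k => {b | ∃ a ∈ W k, c.r k a b}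
  have hW : ∀ k, W k ⊆ Z k := fun k a ha => ⟨a, ha, c.refl k a⟩
  have hcl : ∀ {k a b}, a ∈ Z k → c.r k a b → b ∈ Z k :=
    fun ⟨x, hx, hr⟩ h => ⟨x, hx, c.trans hr h⟩
  have hm : Monotone Z := fun k k' hk b ⟨a, ha, hr⟩ => ⟨a, h1 hk ha, c.nest_le hk hr⟩
  have hc : ∀ k, #(Z k) ≤ bt (k + 1) := fun k =>
    mk_sub_le (mk_biUnion_le_of (aleph0_le_bt _) (h2 k) fun a _ => c.cls k a)
      fun b ⟨a, ha, hr⟩ => mem_iUnion₂.2 ⟨a, ha, hr⟩
  have hty : ∀ {k a}, a ∈ Z k → ty a < k := by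
    rintro k b ⟨a, ha, hr⟩
    rcases c.typ (c.symm hr) with h | h
    · exact h ▸ h3 k a ha
    · exact h
  let c' : Cd ty :=
    { v := c.v
      r := fun i a b => c.r i a b ∨ (a ∈ Z i ∧ b ∈ Z i)
      refl := fun i a => Or.inl (c.refl i a)
      symm := fun h => h.imp c.symm And.symm
      trans := by
        rintro i a b d (h | h) (h' | h')
        · exact Or.inl (c.trans h h')
        · exact Or.inr ⟨hcl h'.1 (c.symm h), h'.2⟩
        · exact Or.inr ⟨h.1, hcl h.2 h'⟩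
        · exact Or.inr ⟨h.1, h'.2⟩
      nest := fun h => h.imp c.nest fun h => ⟨hm (Nat.le_succ _) h.1, hm (Nat.le_succ _) h.2⟩
      cls := fun i a => mk_sub_le (mk_union_le_of (aleph0_le_bt _) (c.cls i a) (hc i))
        fun _ hb => hb.imp id And.right
      typ := fun h => h.elim c.typ fun h => Or.inr (hty h.1)
      sml := by
        refine mk_sub_le (mk_union_le_of aleph0_le_kp c.mk_supp (mk_iUnion_le_of aleph0_le_kp
          (mk_le_aleph0.trans aleph0_le_kp) fun k => (hc k).trans (bt_le_kp _))) ?_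
        rintro a (h | ⟨i, b, hb, h | h⟩)
        · exact Or.inl (Or.inl h)
        · exact Or.inl (Or.inr ⟨i, b, hb, h⟩)
        · exact Or.inr (mem_iUnion.2 ⟨i, h.1⟩) }
  refine ⟨⟨c', Z, fun ⟨a, ha, _⟩ => h0 _ a ha, hm, fun ha b =>
    ⟨fun h => h.elim (hcl ha) And.right, fun h => Or.inr ⟨ha, h⟩⟩, hty, ?_⟩, hW, rfl,
    fun i a b h => Or.inl h, fun i a b ha h => h.resolve_right fun h => ha h.1, ?_⟩
  · rintro i a b (h | h)
    · by_cases hab : b = a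
      · exact Or.inl hab.symm
      · obtain ⟨k, hk⟩ := h4 a (Or.inr ⟨i, b, hab, h⟩)
        exact Or.inr ⟨k, hW k hk⟩
    · exact Or.inr ⟨i, h.1⟩
  · exact ⟨fun _ _ _ h => h, fun _ => sm_empty.mono fun _ ha => ha.2 rfl,
      fun i X _ hX => hX.of_rel fun _ _ _ _ h => Or.inl h,
      fun i => ⟨Z i, fun k hk => sm_of_card ((hc i).trans (bt_mono hk)), fun X _ hX =>
        (hX.mono sdiff_subset).of_rel fun a ha _ _ h => h.resolve_right fun h => ha.2 h.1⟩⟩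

/-- a set of size at most `κ` is an increasing union of small sets -/
theorem cover (ty : Θ → ℕ) (j : ℕ) {N : Set Θ} (hN : #N ≤ kp) :
    ∃ W : ℕ → Set Θ, (∀ k, ∀ a ∈ W k, j ≤ k) ∧ Monotone W ∧ (∀ k, #(W k) ≤ bt (k + 1)) ∧
      (∀ k, ∀ a ∈ W k, ty a < k) ∧ ∀ a ∈ N, ∃ k, a ∈ W k := by
  have h : #N ≤ #(Σ n : ℕ, (bt n).out) := by
    rw [mk_sigma]
    simp only [mk_out]
    exact hN.trans (iSup_le_sum bt)
  obtain ⟨f⟩ := h
  refine ⟨fun k => {a | (∃ ha : a ∈ N, (f ⟨a, ha⟩).1 ≤ k) ∧ ty a < k ∧ j ≤ k},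
    fun k a ha => ha.2.2, fun k k' hk a ⟨⟨ha, h1⟩, h2, h3⟩ =>
      ⟨⟨ha, h1.trans hk⟩, h2.trans_le hk, h3.trans hk⟩, fun k => ?_, fun k a ha => ha.2.1,
    fun a ha => ⟨max (max (f ⟨a, ha⟩).1 (ty a + 1)) j, ⟨ha, by omega⟩, by omega, by omega⟩⟩
  have h1 : ∀ n : Fin (k + 1),
      #(Subtype.val '' (f ⁻¹' range (Sigma.mk n.1)) : Set Θ) ≤ bt (k + 1) := fun n =>
    mk_image_le.trans ((mk_preimage_of_injective _ _ f.injective).trans
      (mk_range_le.trans ((mk_out _).le.trans (bt_mono n.2.le))))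
  refine mk_sub_le (mk_iUnion_le_of (aleph0_le_bt _) (mk_le_aleph0.trans (aleph0_le_bt _)) h1) ?_
  rintro a ⟨⟨ha, h2⟩, -⟩
  exact mem_iUnion.2 ⟨⟨_, Nat.lt_succ_of_le h2⟩, ⟨a, ha⟩, ⟨(f ⟨a, ha⟩).2, rfl⟩, rfl⟩

theorem start (j : ℕ) (q : Cd ty) : ∃ t : Tw ty j, Le t.p q := by
  obtain ⟨W, h0, h1, h2, h3, h4⟩ := cover ty j q.mk_supp
  obtain ⟨t, -, -, -, -, h⟩ := merge q W h0 h1 h2 h3 h4
  exact ⟨t, h⟩

end Pool.Agent.MP_a45f51_lc.A62.Tower

end MrgPart1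

-- ======== part 2: formerly Pool.Agent.MP_a45f51_lc.h62.TowerB
section MrgPart2

/-! PROJECT ARROW: normalisation of an extension of a tower. -/

namespace Pool.Agent.MP_a45f51_lc.A62.Tower

open Cardinal Set

variable {Θ : Type} {ty : Θ → ℕ} {j : ℕ}

/-- cut the classes: `p` on `U`, `q` on `A i`, both on `B i` -/
def cut (p q : Cd ty) (U : Set Θ) (A B : ℕ → Set Θ) (hc : ∀ i a, a ∈ U ∨ a ∈ A i ∨ a ∈ B i)
    (hUA : ∀ i a, a ∈ U → a ∉ A i) (hUB : ∀ i a, a ∈ U → a ∉ B i)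
    (hAB : ∀ i a, a ∈ A i → a ∉ B i) (hA : ∀ i, A i ⊆ A (i + 1))
    (hB : ∀ i a b, a ∈ B i → b ∈ B i → p.r i a b →
      (a ∈ A (i + 1) ∧ b ∈ A (i + 1)) ∨ (a ∈ B (i + 1) ∧ b ∈ B (i + 1))) : Cd ty where
  v := q.v
  r i a b := (a ∈ U ∧ b ∈ U ∧ p.r i a b) ∨ (a ∈ A i ∧ b ∈ A i ∧ q.r i a b) ∨
    (a ∈ B i ∧ b ∈ B i ∧ p.r i a b ∧ q.r i a b)
  refl i a := by
    rcases hc i a with h | h | h
    · exact Or.inl ⟨h, h, p.refl i a⟩
    · exact Or.inr (Or.inl ⟨h, h, q.refl i a⟩)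
    · exact Or.inr (Or.inr ⟨h, h, p.refl i a, q.refl i a⟩)
  symm := by
    rintro i a b (h | h | h)
    · exact Or.inl ⟨h.2.1, h.1, p.symm h.2.2⟩
    · exact Or.inr (Or.inl ⟨h.2.1, h.1, q.symm h.2.2⟩)
    · exact Or.inr (Or.inr ⟨h.2.1, h.1, p.symm h.2.2.1, q.symm h.2.2.2⟩)
  trans := by
    rintro i a b c (h | h | h) (h' | h' | h')
    · exact Or.inl ⟨h.1, h'.2.1, p.trans h.2.2 h'.2.2⟩
    · exact absurd h'.1 (hUA i b h.2.1)
    · exact absurd h'.1 (hUB i b h.2.1)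
    · exact absurd h.2.1 (hUA i b h'.1)
    · exact Or.inr (Or.inl ⟨h.1, h'.2.1, q.trans h.2.2 h'.2.2⟩)
    · exact absurd h'.1 (hAB i b h.2.1)
    · exact absurd h.2.1 (hUB i b h'.1)
    · exact absurd h.2.1 (hAB i b h'.1)
    · exact Or.inr (Or.inr ⟨h.1, h'.2.1, p.trans h.2.2.1 h'.2.2.1, q.trans h.2.2.2 h'.2.2.2⟩)
  nest := by
    rintro i a b (h | h | h)
    · exact Or.inl ⟨h.1, h.2.1, p.nest h.2.2⟩
    · exact Or.inr (Or.inl ⟨hA i h.1, hA i h.2.1, q.nest h.2.2⟩)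
    · rcases hB i a b h.1 h.2.1 h.2.2.1 with h' | h'
      · exact Or.inr (Or.inl ⟨h'.1, h'.2, q.nest h.2.2.2⟩)
      · exact Or.inr (Or.inr ⟨h'.1, h'.2, p.nest h.2.2.1, q.nest h.2.2.2⟩)
  cls i a := by
    refine mk_sub_le (mk_union_le_of (aleph0_le_bt _) (p.cls i a) (q.cls i a)) ?_
    rintro b (h | h | h)
    · exact Or.inl h.2.2
    · exact Or.inr h.2.2
    · exact Or.inl h.2.2.1
  typ := by
    rintro i a b (h | h | h)
    · exact p.typ h.2.2
    · exact q.typ h.2.2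
    · exact p.typ h.2.2.1
  sml := by
    refine mk_sub_le (mk_union_le_of aleph0_le_kp p.mk_supp q.mk_supp) ?_
    rintro a (h | ⟨i, b, hb, h | h | h⟩)
    · exact Or.inr (Or.inl h)
    · exact Or.inl (Or.inr ⟨i, b, hb, h.2.2⟩)
    · exact Or.inr (Or.inr ⟨i, b, hb, h.2.2⟩)
    · exact Or.inl (Or.inr ⟨i, b, hb, h.2.2.1⟩)

/-- the exceptional sets, closed under the classes of the tower -/
theorem exists_G (t : Tw ty j) {q : Cd ty} (hq : Le q t.p) (hag : Agree (t.Z j) q t.p) :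
    ∃ F G : ℕ → Set Θ, (∀ i, ∀ a ∈ F i, a ∉ t.Z j) ∧ (∀ i X, Sm t.p i X → Sm q i (X \ F i)) ∧
      (∀ i, F i ⊆ G i) ∧ (∀ i a, q.v a ≠ t.p.v a → a ∈ G i) ∧ Monotone G ∧
      (∀ i a b, a ∈ G i → t.p.r i a b → b ∈ G i) ∧ ∀ i k, i < k → Sm t.p k (G i) := by
  choose F hF1 hF2 using hq.off
  let D : ℕ → Set Θ := fun i =>
    {a | a ∈ Set.univ ∧ q.v a ≠ t.p.v a} ∪ ⋃ i' : Fin (i + 1), F i'
  have hD : ∀ i k, i < k → Sm t.p k (D i) := fun i k hk =>
    (hq.new k).union (Sm.iUnion (mk_le_aleph0.trans (aleph0_le_bt k))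
      fun i' : Fin (i + 1) => hF1 i' k (by omega))
  refine ⟨fun i => F i \ t.Z j, fun i => {b | ∃ a ∈ D i, t.p.r i a b}, fun i a ha => ha.2,
    fun i X hX => ?_, fun i a ha => ⟨a, Or.inr (mem_iUnion.2 ⟨Fin.last i, ha.1⟩), t.p.refl i a⟩,
    fun i a ha => ⟨a, Or.inl ⟨mem_univ _, ha⟩, t.p.refl i a⟩, ?_,
    fun i a b ⟨c, hc, hr⟩ h => ⟨c, hc, t.p.trans hr h⟩, fun i k hk a => ?_⟩
  · have h1 : Sm q i (X ∩ t.Z j) :=
      hag.symm.leOn.fin i _ inter_subset_right (hX.mono inter_subset_left)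
    refine ((hF2 i X (subset_univ _) hX).union h1).mono fun a ha => ?_
    by_cases h : a ∈ t.Z j
    · exact Or.inr ⟨ha.1, h⟩
    · exact Or.inl ⟨ha.1, fun hF => ha.2 ⟨hF, h⟩⟩
  · rintro i i' hi b ⟨a, ha, hr⟩
    refine ⟨a, ha.imp id fun ha => ?_, t.p.nest_le hi hr⟩
    obtain ⟨n, hn⟩ := mem_iUnion.1 ha
    exact mem_iUnion.2 ⟨⟨n, by omega⟩, hn⟩
  · refine mk_sub_le (mk_biUnion_le_of (aleph0_le_bt k) (hD i k hk a)
      fun c _ => (t.p.cls i c).trans (bt_mono hk)) ?_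
    rintro b ⟨⟨c, hc, hr⟩, hb⟩
    exact mem_iUnion₂.2 ⟨c, ⟨hc, t.p.trans hb (t.p.symm (t.p.nest_le hk.le hr))⟩, hr⟩

theorem norm_aux (t : Tw ty j) {q : Cd ty} (hq : Le q t.p) (hag : Agree (t.Z j) q t.p) :
    ∃ t', St t' t ∧ Le t'.p q := by
  classical
  obtain ⟨F, G, hFj, hF, hFG, hDG, hGm, hGc, hGs⟩ := exists_G t hq hag
  let Mv : Set Θ := {a | ∃ k, j ≤ k ∧ a ∈ t.Z (k + 1) ∧ a ∉ t.Z k ∧ a ∈ G k ∧ ty a < k}
  let O : Set Θ := {a | ∀ k, a ∉ t.Z k}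
  let U : Set Θ := {a | a ∉ Mv ∧ a ∉ O}
  let A : ℕ → Set Θ := fun i => G i ∩ Mv ∪ O
  let B : ℕ → Set Θ := fun i => Mv \ G i
  have hMO : ∀ a ∈ Mv, a ∉ O := fun a ⟨k, _, h, _⟩ ha => ha _ h
  have hc : ∀ i a, a ∈ U ∨ a ∈ A i ∨ a ∈ B i := fun i a => by
    by_cases h1 : a ∈ O
    · exact Or.inr (Or.inl (Or.inr h1))
    by_cases h2 : a ∈ Mv
    · by_cases h3 : a ∈ G i
      · exact Or.inr (Or.inl (Or.inl ⟨h3, h2⟩))
      · exact Or.inr (Or.inr ⟨h2, h3⟩)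
    · exact Or.inl ⟨h2, h1⟩
  have hUA : ∀ i a, a ∈ U → a ∉ A i := fun i a ha h => h.elim (fun h => ha.1 h.2) ha.2
  have hUB : ∀ i a, a ∈ U → a ∉ B i := fun i a ha h => ha.1 h.1
  have hAB : ∀ i a, a ∈ A i → a ∉ B i := fun i a ha h =>
    ha.elim (fun ha => h.2 ha.1) (hMO a h.1)
  have hA : ∀ i, A i ⊆ A (i + 1) := fun i a ha =>
    ha.imp (fun h => ⟨hGm (Nat.le_succ i) h.1, h.2⟩) id
  have hB : ∀ i a b, a ∈ B i → b ∈ B i → t.p.r i a b →
      (a ∈ A (i + 1) ∧ b ∈ A (i + 1)) ∨ (a ∈ B (i + 1) ∧ b ∈ B (i + 1)) := by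
    intro i a b ha hb hr
    by_cases h : a ∈ G (i + 1)
    · exact Or.inl ⟨Or.inl ⟨h, ha.1⟩, Or.inl ⟨hGc _ a b h (t.p.nest hr), hb.1⟩⟩
    · exact Or.inr ⟨⟨ha.1, h⟩, hb.1, fun h' => h (hGc _ b a h' (t.p.symm (t.p.nest hr)))⟩
  obtain ⟨q1, hv1, hr1⟩ : ∃ q1 : Cd ty, q1.v = q.v ∧ ∀ i a b, q1.r i a b ↔
      (a ∈ U ∧ b ∈ U ∧ t.p.r i a b) ∨ (a ∈ A i ∧ b ∈ A i ∧ q.r i a b) ∨
        (a ∈ B i ∧ b ∈ B i ∧ t.p.r i a b ∧ q.r i a b) :=
    ⟨cut t.p q U A B hc hUA hUB hAB hA hB, rfl, fun _ _ _ => Iff.rfl⟩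
  have hq1 : Le q1 q := by
    refine leOn_of_iff (fun a _ => congrFun hv1 a) fun i X _ => ⟨fun hX => ?_, fun hX a => ?_⟩
    · have h1 : Sm q i (X ∩ A i) := (hX.mono inter_subset_left).of_rel fun a ha b hb h =>
        (hr1 i a b).2 (Or.inr (Or.inl ⟨ha.2, hb.2, h⟩))
      have h2 : Sm q i (X ∩ B i) := by
        refine sm_of_mem fun a _ => ?_
        have h3 : Sm t.p i {b | b ∈ X ∩ B i ∧ q.r i a b} :=
          (hX.mono fun b hb => hb.1.1).of_rel fun b hb c hc h =>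
            (hr1 i b c).2 (Or.inr (Or.inr ⟨hb.1.2, hc.1.2, h, q.trans (q.symm hb.2) hc.2⟩))
        exact ((hF i _ h3).mono fun b hb => ⟨hb, fun h => hb.1.2.2 (hFG i h)⟩).card_le
          fun b hb => hb.2
      have h3 : Sm t.p i (X ∩ U) := (hX.mono inter_subset_left).of_rel fun a ha b hb h =>
        (hr1 i a b).2 (Or.inl ⟨ha.2, hb.2, h⟩)
      have h4 : Sm q i (X ∩ U ∩ t.Z i) :=
        sm_of_card (t.card_of_sm le_rfl inter_subset_right (h3.mono inter_subset_left))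
      have h5 : Sm q i {a | i ≤ ty a} := sm_of_ty fun _ h => h
      refine (((h1.union h2).union (hF i _ h3)).union (h4.union h5)).mono fun a ha => ?_
      rcases hc i a with h | h | h
      · by_cases haF : a ∈ F i
        · refine Or.inr ?_
          have hex : ∃ k, a ∈ t.Z k := by
            by_contra hn
            exact h.2 (not_exists.1 hn)
          have hk := Nat.find_spec hex
          have hjk : j < Nat.find hex := lt_of_not_ge fun hle => hFj i a haF (t.t1 hle hk)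
          obtain ⟨m, hm⟩ : ∃ m, Nat.find hex = m + 1 := ⟨Nat.find hex - 1, by omega⟩
          rcases le_or_gt i m with him | him
          · refine Or.inr (le_of_not_gt fun hty => h.1 ⟨m, by omega, hm ▸ hk,
              Nat.find_min hex (by omega), hGm him (hFG i haF), lt_of_lt_of_le hty him⟩)
          · exact Or.inl ⟨⟨ha, h⟩, t.t1 (by omega) hk⟩
        · exact Or.inl (Or.inr ⟨⟨ha, h⟩, haF⟩)
      · exact Or.inl (Or.inl (Or.inl ⟨ha, h⟩))
      · exact Or.inl (Or.inl (Or.inr ⟨ha, h⟩))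
    · refine mk_sub_le (mk_union_le_of (aleph0_le_bt i) (hq.fin i X (subset_univ _) hX a)
        (hX a)) fun b hb => ?_
      rcases (hr1 i a b).1 hb.2 with h | h | h
      · exact Or.inl ⟨hb.1, h.2.2⟩
      · exact Or.inr ⟨hb.1, h.2.2⟩
      · exact Or.inl ⟨hb.1, h.2.2.1⟩
  obtain ⟨N, hN0, hN1, hN2, hN3, hN4⟩ := cover ty j q1.mk_supp
  obtain ⟨t', hW, hv, hr, hr', hle⟩ := merge (j := j) q1
    (fun k => t.Z k ∪ {a | j ≤ k ∧ a ∈ t.Z (k + 1) ∧ a ∈ G k ∧ ty a < k} ∪ N k)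
    (by
      rintro k a ((h | h) | h)
      · exact t.t0 h
      · exact h.1
      · exact hN0 k a h)
    (monotone_nat_of_le_succ (by
      rintro k a ((h | h) | h)
      · exact Or.inl (Or.inl (t.t1 (Nat.le_succ k) h))
      · exact Or.inl (Or.inl h.2.1)
      · exact Or.inr (hN1 (Nat.le_succ k) h)))
    (fun k => mk_union_le_of (aleph0_le_bt _) (mk_union_le_of (aleph0_le_bt _) (t.card k)
      (t.card_of_sm le_rfl (fun _ h => h.2.1)
        ((hGs k (k + 1) (Nat.lt_succ_self k)).mono fun _ h => h.2.2.1))) (hN2 k))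
    (by
      rintro k a ((h | h) | h)
      · exact t.t3 h
      · exact h.2.2.2
      · exact hN3 k a h)
    (fun a ha => let ⟨k, hk⟩ := hN4 a ha; ⟨k, Or.inr hk⟩)
  have hZ : ∀ k, t.Z k ⊆ t'.Z k := fun k a ha => hW k (Or.inl (Or.inl ha))
  have hM : ∀ k a, j ≤ k → a ∈ t.Z (k + 1) → a ∈ G k → ty a < k → a ∈ t'.Z k :=
    fun k a h1 h2 h3 h4 => hW k (Or.inl (Or.inr ⟨h1, h2, h3, h4⟩))
  have hvq : t'.p.v = q.v := hv.trans hv1
  refine ⟨t', ⟨hZ, fun a b h => ?_, fun i => ?_, fun i X hX => ?_, fun k a ha hm => ?_⟩,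
    hle.trans hq1⟩
  · rw [hvq]
    exact hq.val a (mem_univ _) b h
  · have hO : Sm t.p i O := sm_of_trivial fun a ha b h =>
      ((t.t4 h).resolve_right fun ⟨k, hk⟩ => ha k hk).symm
    refine ((hq.new i).union (hO.union (Sm.iUnion (mk_le_aleph0.trans (aleph0_le_bt i))
      fun n : Fin i => (sm_of_card ((t'.card n).trans (bt_mono n.2))).union
        (hGs n i n.2)))).mono ?_
    rintro a (h | ⟨n, hn, b, h1, h2⟩)
    · exact Or.inl ⟨mem_univ _, hvq ▸ h⟩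
    · by_cases h : a ∈ t'.Z n
      · exact Or.inr (Or.inr (mem_iUnion.2 ⟨⟨n, hn⟩, Or.inl h⟩))
      · rcases (hr1 n a b).1 (hr' n a b h h1) with h' | h' | h'
        · exact absurd h'.2.2 h2
        · exact Or.inr (h'.1.symm.imp id fun h' => mem_iUnion.2 ⟨⟨n, hn⟩, Or.inr h'.1⟩)
        · exact absurd h'.2.2.1 h2
  · exact ((hle.trans hq1).trans hq).fin i X (subset_univ _) hX
  · have hlt : ∀ {b m}, b ∈ t.Z k → b ∉ t.Z m → m < k := fun hb hb' =>
      lt_of_not_ge fun h => hb' (t.t1 h hb)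
    have haU : a ∈ U := ⟨fun ⟨m, h1, h2, h3, h4, h5⟩ => hm m (hlt ha h3) (hM m a h1 h2 h4 h5),
      fun h => h k ha⟩
    refine ⟨fun i hi b => ⟨fun h => ?_, fun h => hr i a b ((hr1 i a b).2 (Or.inl ⟨haU, ?_, h⟩))⟩,
      fun hk => ?_⟩
    · rcases (hr1 i a b).1 (hr' i a b (hm i hi) h) with h' | h' | h'
      · exact h'.2.2
      · exact absurd h'.1 (hUA i a haU)
      · exact h'.2.2.1
    · rcases t.p.typ h with rfl | hty
      · exact haU
      have hb : b ∈ t.Z k := t.closed hi.le ha h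
      refine ⟨fun ⟨m, h1, h2, h3, h4, _⟩ => ?_, fun h => h k hb⟩
      rcases le_or_gt i m with him | him
      · exact hm m (hlt hb h3) (hM m a h1 (t.closed (by omega) h2 (t.p.symm h))
          (hGc m b a h4 (t.p.nest_le him (t.p.symm h))) (by omega))
      · exact hm i hi (hZ i (t.closed le_rfl (t.t1 him h2) (t.p.symm h)))
    · rw [hvq]
      by_contra hn
      have hj : j < k := lt_of_not_ge fun h => hn (hag.1 a (t.t1 h ha))
      obtain ⟨m, rfl⟩ : ∃ m, k = m + 1 := ⟨k - 1, by omega⟩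
      exact hm m (Nat.lt_succ_self m) (hM m a (by omega) ha (hDG m a hn) (by omega))

theorem norm (t : Tw ty j) {q : Cd ty} (hq : Le q t.p) :
    ∃ t', St t' t ∧ LeOn (t.Z j)ᶜ t'.p q := by
  obtain ⟨t', h1, h2⟩ := norm_aux t (glue_le_left (E := t.Z j) (hq.on _))
    (agree_glue_left _ _ _)
  exact ⟨t', h1, (h2.on _).trans (glue_leOn_right disjoint_compl_left _ _)⟩

end Pool.Agent.MP_a45f51_lc.A62.Tower

end MrgPart2

-- ======== part 3: formerly Pool.Agent.MP_a45f51_lc.h62.Tower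
section MrgPart3

/-! PROJECT ARROW: limits of chains of towers, and the tower system. -/

namespace Pool.Agent.MP_a45f51_lc.A62

open Cardinal Set

namespace Tower

variable {Θ : Type} {ty : Θ → ℕ} {j : ℕ}

/-- the description of the limit of a chain -/
structure IsLim (C : Set (Tw ty j)) (l : Tw ty j) : Prop where
  z : ∀ k a, a ∈ l.Z k ↔ ∃ t ∈ C, a ∈ t.Z k
  v1 : ∀ t ∈ C, ∀ a b, t.p.v a = some b → l.p.v a = some b
  v2 : ∀ a b, l.p.v a = some b → ∃ t ∈ C, t.p.v a = some b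
  r1 : ∀ t ∈ C, ∀ i a b, l.p.r i a b → ∃ t' ∈ C, St t' t ∧ t'.p.r i a b
  r2 : ∀ t ∈ C, ∀ i a b, (∀ t' ∈ C, St t' t → t'.p.r i a b) → l.p.r i a b

theorem dir {C : Set (Tw ty j)} (hch : ∀ a ∈ C, ∀ b ∈ C, St a b ∨ St b a) {a b : Tw ty j}
    (ha : a ∈ C) (hb : b ∈ C) : ∃ c ∈ C, St c a ∧ St c b := by
  rcases hch a ha b hb with h | h
  · exact ⟨a, ha, St.refl a, h⟩
  · exact ⟨b, hb, h, St.refl b⟩

theorem exists_isLim {C : Set (Tw ty j)} (hne : C.Nonempty) (hC : #C ≤ bt (j + 1))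
    (hch : ∀ a ∈ C, ∀ b ∈ C, St a b ∨ St b a) : ∃ l, IsLim C l := by
  classical
  obtain ⟨t0, ht0⟩ := hne
  let Z : ℕ → Set Θ := fun k => {a | ∃ t ∈ C, a ∈ t.Z k}
  let r : ℕ → Θ → Θ → Prop := fun i a b => ∃ t ∈ C, ∀ t' ∈ C, St t' t → t'.p.r i a b
  let v : Θ → Option Bool := fun a =>
    if h : ∃ b, ∃ t ∈ C, t.p.v a = some b then some h.choose else none
  have v2 : ∀ a b, v a = some b → ∃ t ∈ C, t.p.v a = some b := fun a b hb => by
    by_cases h : ∃ b, ∃ t ∈ C, t.p.v a = some b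
    · have h1 : v a = some h.choose := dif_pos h
      exact Option.some.inj (h1.symm.trans hb) ▸ h.choose_spec
    · have h1 : v a = none := dif_neg h
      rw [h1] at hb
      cases hb
  have v1 : ∀ t ∈ C, ∀ a b, t.p.v a = some b → v a = some b := fun t ht a b hb => by
    have h : ∃ b, ∃ t ∈ C, t.p.v a = some b := ⟨b, t, ht, hb⟩
    have h1 : v a = some h.choose := dif_pos h
    obtain ⟨t1, ht1, h2⟩ := h.choose_spec
    obtain ⟨t2, -, h3, h4⟩ := dir hch ht ht1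
    exact h1.trans ((h4.s1 a _ h2).symm.trans (h3.s1 a b hb))
  have r1 : ∀ t ∈ C, ∀ i a b, r i a b → ∃ t' ∈ C, St t' t ∧ t'.p.r i a b := by
    rintro t ht i a b ⟨t1, ht1, h⟩
    obtain ⟨t2, ht2, h3, h4⟩ := dir hch ht ht1
    exact ⟨t2, ht2, h3, h t2 ht2 h4⟩
  have r3 : ∀ {k a}, a ∈ Z k → ∀ b, r k a b ↔ b ∈ Z k := by
    rintro k a ⟨t, ht, ha⟩ b
    refine ⟨fun h => ?_, fun ⟨t1, ht1, hb⟩ => ?_⟩
    · obtain ⟨t', ht', h1, h2⟩ := r1 t ht k a b h
      exact ⟨t', ht', (t'.t2 (h1.s0 k ha) b).1 h2⟩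
    · obtain ⟨t2, ht2, h3, h4⟩ := dir hch ht ht1
      exact ⟨t2, ht2, fun t' _ h => (t'.t2 ((h.trans h3).s0 k ha) b).2 ((h.trans h4).s0 k hb)⟩
  have r4 : ∀ {i a b}, r i a b → a = b ∨ ∃ k, a ∈ Z k := fun h => by
    obtain ⟨t', ht', -, h2⟩ := r1 t0 ht0 _ _ _ h
    exact (t'.t4 h2).imp id fun ⟨k, hk⟩ => ⟨k, t', ht', hk⟩
  have hm : Monotone Z := fun k k' hk a ⟨t, ht, ha⟩ => ⟨t, ht, t.t1 hk ha⟩
  let p : Cd ty :=
    { v := v
      r := r
      refl := fun i a => ⟨t0, ht0, fun t' _ _ => t'.p.refl i a⟩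
      symm := fun ⟨t, ht, h⟩ => ⟨t, ht, fun t' ht' h' => t'.p.symm (h t' ht' h')⟩
      trans := by
        rintro i a b c ⟨t, ht, h⟩ ⟨t1, ht1, h1⟩
        obtain ⟨t2, ht2, h3, h4⟩ := dir hch ht ht1
        exact ⟨t2, ht2, fun t' ht' h' =>
          t'.p.trans (h t' ht' (h'.trans h3)) (h1 t' ht' (h'.trans h4))⟩
      nest := fun ⟨t, ht, h⟩ => ⟨t, ht, fun t' ht' h' => t'.p.nest (h t' ht' h')⟩
      cls := fun i a => by
        by_cases hi : a ∈ Z i
        · obtain ⟨t, -, ha⟩ := id hi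
          refine mk_sub_le (mk_biUnion_le_of (aleph0_le_bt _)
            (hC.trans (bt_mono (Nat.succ_le_succ (t.t0 ha)))) fun t _ => t.card i) fun b hb => ?_
          obtain ⟨t1, ht1, h⟩ := (r3 hi b).1 hb
          exact mem_iUnion₂.2 ⟨t1, ht1, h⟩
        by_cases hex : ∃ k, a ∈ Z k
        · obtain ⟨t, ht, ha⟩ := Nat.find_spec hex
          have hik : i < Nat.find hex := lt_of_not_ge fun h => hi (hm h (Nat.find_spec hex))
          refine mk_sub_le (t.p.cls i a) fun b hb => ?_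
          obtain ⟨t', ht', h1, h2⟩ := r1 t ht i a b hb
          exact ((h1.s5 _ a ha fun i' hi' h => Nat.find_min hex hi' ⟨t', ht', h⟩).1 i hik b).1 h2
        · exact mk_le_of_subsingleton (fun b hb c hc =>
            ((r4 hb).resolve_right hex).symm.trans ((r4 hc).resolve_right hex)) _
      typ := fun h => by
        obtain ⟨t', -, -, h2⟩ := r1 t0 ht0 _ _ _ h
        exact t'.p.typ h2
      sml := by
        refine mk_sub_le (mk_biUnion_le_of aleph0_le_kp (hC.trans (bt_le_kp _))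
          fun t _ => t.p.mk_supp) ?_
        rintro a (h | ⟨i, b, hb, h⟩)
        · obtain ⟨b, hb⟩ := Option.ne_none_iff_exists'.1 h
          obtain ⟨t, ht, h1⟩ := v2 a b hb
          exact mem_iUnion₂.2 ⟨t, ht, Or.inl (Option.ne_none_iff_exists'.2 ⟨b, h1⟩)⟩
        · obtain ⟨t', ht', -, h2⟩ := r1 t0 ht0 _ _ _ h
          exact mem_iUnion₂.2 ⟨t', ht', Or.inr ⟨i, b, hb, h2⟩⟩ }
  exact ⟨⟨p, Z, fun ⟨t, _, ha⟩ => t.t0 ha, hm, r3, fun ⟨t, _, ha⟩ => t.t3 ha, r4⟩,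
    fun _ _ => Iff.rfl, v1, v2, r1, fun t ht i a b h => ⟨t, ht, h⟩⟩

variable {C : Set (Tw ty j)} {l : Tw ty j}

theorem IsLim.v3 (h : IsLim C l) (hch : ∀ a ∈ C, ∀ b ∈ C, St a b ∨ St b a) {t : Tw ty j}
    (ht : t ∈ C) {a : Θ} (ha : l.p.v a ≠ t.p.v a) :
    ∃ t' ∈ C, St t' t ∧ t'.p.v a ≠ t.p.v a := by
  rcases h1 : t.p.v a with _ | b
  · obtain ⟨b, hb⟩ := Option.ne_none_iff_exists'.1 (h1 ▸ ha)
    obtain ⟨t1, ht1, h2⟩ := h.v2 a b hb
    obtain ⟨t2, ht2, h3, h4⟩ := dir hch ht ht1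
    exact ⟨t2, ht2, h3, Option.ne_none_iff_exists'.2 ⟨b, h4.s1 a b h2⟩⟩
  · exact absurd ((h.v1 t ht a b h1).trans h1.symm) ha

theorem IsLim.s5 (h : IsLim C l) (hch : ∀ a ∈ C, ∀ b ∈ C, St a b ∨ St b a) {t : Tw ty j}
    (ht : t ∈ C) (k : ℕ) (a : Θ) (ha : a ∈ t.Z k) (hm : ∀ i < k, a ∉ l.Z i) :
    (∀ i < k, ∀ b, l.p.r i a b ↔ t.p.r i a b) ∧
      ((ty a + 1 < k ∨ k = j) → l.p.v a = t.p.v a) := by
  have key : ∀ t' ∈ C, St t' t → _ := fun t' ht' hs =>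
    hs.s5 k a ha fun i hi hb => hm i hi ((h.z i a).2 ⟨t', ht', hb⟩)
  refine ⟨fun i hi b => ⟨fun hr => ?_, fun hr => h.r2 t ht i a b fun t' ht' hs =>
    ((key t' ht' hs).1 i hi b).2 hr⟩, fun hk => ?_⟩
  · obtain ⟨t', ht', h1, h2⟩ := h.r1 t ht i a b hr
    exact ((key t' ht' h1).1 i hi b).1 h2
  · by_contra hn
    obtain ⟨t', ht', h1, h2⟩ := h.v3 hch ht hn
    exact h2 ((key t' ht' h1).2 hk)

theorem IsLim.moved (h : IsLim C l) (hch : ∀ a ∈ C, ∀ b ∈ C, St a b ∨ St b a) {t : Tw ty j}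
    (ht : t ∈ C) {m : ℕ} {a : Θ} (ha : a ∈ l.Z m) : ∃ t' ∈ C, St t' t ∧ a ∈ t'.Z m := by
  obtain ⟨t1, ht1, h1⟩ := (h.z m a).1 ha
  obtain ⟨t2, ht2, h3, h4⟩ := dir hch ht ht1
  exact ⟨t2, ht2, h3, h4.s0 m h1⟩

theorem IsLim.s3 (h : IsLim C l) (hch : ∀ a ∈ C, ∀ b ∈ C, St a b ∨ St b a) (i k : ℕ) :
    ∀ t ∈ C, ∀ X, X ⊆ t.Z k → Sm l.p i X → Sm t.p i X := by
  induction k with
  | zero => exact fun t _ X hX _ => sm_empty.mono fun a ha => absurd (t.t3 (hX ha)) (by omega)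
  | succ m ih =>
    intro t ht X hX hs
    rcases le_or_gt (m + 1) i with hi | hi
    · exact sm_of_card (l.card_of_sm hi (fun a ha => (h.z _ a).2 ⟨t, ht, hX ha⟩) hs)
    refine sm_of_mem fun a ha => ?_
    by_cases hm : a ∈ l.Z m
    · obtain ⟨t', ht', h1, h2⟩ := h.moved hch ht hm
      exact (h1.s3 i _ (ih t' ht' {b | b ∈ X ∧ t.p.r i a b}
        (fun b hb => h1.move (by omega) (hX ha) h2 hb.2) (hs.mono fun b hb => hb.1))).card_le
          fun b hb => hb.2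
    · refine mk_sub_le (hs a) fun b hb => ⟨hb.1, ((h.s5 hch ht (m + 1) a (hX ha)
        fun i' hi' hb' => hm (l.t1 (Nat.lt_succ_iff.1 hi') hb')).1 i hi b).2 hb.2⟩

theorem IsLim.s2 (h : IsLim C l) (hch : ∀ a ∈ C, ∀ b ∈ C, St a b ∨ St b a) {i : ℕ}
    (hi : i ≤ j) (k : ℕ) : ∀ t ∈ C, Sm t.p i (Ch i l.p t.p ∩ t.Z k) := by
  induction k with
  | zero => exact fun t _ => sm_empty.mono fun a ha => absurd (t.t3 ha.2) (by omega)
  | succ m ih =>
    intro t ht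
    refine sm_of_mem fun a ha => ?_
    by_cases hm : a ∈ l.Z m
    · obtain ⟨t', ht', h1, h2⟩ := h.moved hch ht hm
      refine mk_sub_le (((h1.s3 i _ (ih t' ht')).union (h1.s2 i)) a) fun b hb => ⟨?_, hb.2⟩
      exact (ch_sub i l.p t'.p t.p hb.1.1).imp
        (fun h' => ⟨h', h1.move (hi.trans (l.t0 hm)) ha.2 h2 hb.2⟩) id
    · obtain ⟨h1, h2⟩ := h.s5 hch ht (m + 1) a ha.2
        fun i' hi' hb' => hm (l.t1 (Nat.lt_succ_iff.1 hi') hb')
      have hj := t.t0 ha.2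
      have key : ∀ b, t.p.r i a b → a = b := fun b hb => by
        refine (t.p.typ hb).resolve_right fun hty => ?_
        rcases ha.1 with h3 | ⟨n, hn, c, h3, h4⟩
        · exact h3 (h2 (by omega))
        · exact h4 ((h1 n (by omega) c).1 h3)
      exact mk_le_of_subsingleton (fun b hb c hc => (key b hb.2).symm.trans (key c hc.2)) i

theorem IsLim.st (h : IsLim C l) (hC : #C ≤ bt (j + 1))
    (hch : ∀ a ∈ C, ∀ b ∈ C, St a b ∨ St b a) {t : Tw ty j} (ht : t ∈ C) : St l t where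
  s0 k a ha := (h.z k a).2 ⟨t, ht, ha⟩
  s1 := h.v1 t ht
  s2 i := by
    rcases le_or_gt i j with hi | hi
    · exact t.sm_of_levels fun k => h.s2 hch hi k t ht
    · refine (Sm.iUnion (β := {t' | t' ∈ C ∧ St t' t})
        ((mk_sub_le hC fun _ h => h.1).trans (bt_mono hi)) fun t' => t'.2.2.s2 i).mono ?_
      rintro a (h1 | ⟨n, hn, b, h1, h2⟩)
      · obtain ⟨t', ht', h3, h4⟩ := h.v3 hch ht h1
        exact mem_iUnion.2 ⟨⟨t', ht', h3⟩, Or.inl h4⟩
      · obtain ⟨t', ht', h3, h4⟩ := h.r1 t ht n a b h1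
        exact mem_iUnion.2 ⟨⟨t', ht', h3⟩, Or.inr ⟨n, hn, b, h4, h2⟩⟩
  s3 i X hX := t.sm_of_levels fun k =>
    h.s3 hch i k t ht _ inter_subset_right (hX.mono inter_subset_left)
  s5 := h.s5 hch ht

/-- the closure system of towers -/
def sys (ty : Θ → ℕ) (j : ℕ) : CSys (bt (j + 1)) (Tw ty j) Θ where
  st := St
  tr t := t.Z j
  refl := St.refl
  trans := St.trans
  tr_mono h := h.s0 j
  tr_card t := t.card j
  lim C hne hC hch := by
    obtain ⟨l, hl⟩ := exists_isLim hne hC hch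
    refine ⟨l, fun t ht => hl.st hC hch ht, fun a ha => ?_⟩
    obtain ⟨t, ht, h⟩ := (hl.z j a).1 ha
    exact mem_iUnion₂.2 ⟨t, ht, h⟩

end Tower

theorem tower : TowerStmt := fun _ ty j =>
  ⟨{ T := Tower.Tw ty j
     S := Tower.sys ty j
     val := Tower.Tw.p
     start := Tower.start j
     le := Tower.St.le
     pure := Tower.St.pure
     low := fun t _ ha => t.t3 ha
     norm := fun t _ hq => Tower.norm t hq
     red := fun t _ hq => Tower.red t hq }⟩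

end Pool.Agent.MP_a45f51_lc.A62

end MrgPart3

-- ======== part 4: formerly Pool.Agent.MP_a45f51_lc.h62.Master
section MrgPart4

/-! PROJECT ARROW, module MASTER: distributivity, chains, countable recursion and splitting. -/

namespace Pool.Agent.MP_a45f51_lc.A62

open Cardinal Set Pool.Agent.Forcing92

namespace Master

variable {Θ : Type}

/-- lower parts: a small set and a condition supported in it -/
def LP (ty : Θ → ℕ) (j : ℕ) : Type := {x : Set Θ × Cd ty // #x.1 ≤ bt j ∧ x.2.supp ⊆ x.1}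

theorem mk_LP (ty : Θ → ℕ) {j : ℕ} (hj : 1 ≤ j) {A : Set Θ} (hA : #A ≤ bt (j + 1)) :
    #{l : LP ty j | l.1.1 ⊆ A} ≤ bt (j + 1) := by
  have h0 := aleph0_le_bt j
  refine mk_le_of_fibres (aleph0_le_bt _) (J := {E : Set Θ | E ⊆ A ∧ #E ≤ bt j})
    (fun l : LP ty j => l.1.1) (fun l hl => ⟨hl, l.2.1⟩) ?_ fun E hE => ?_
  · rw [bt_succ hj] at hA ⊢
    exact mk_small_subsets h0 hA
  · rw [bt_succ hj]
    refine le_trans (mk_le_of_injective
      (f := fun l : {l : LP ty j | l ∈ {l : LP ty j | l.1.1 ⊆ A} ∧ l.1.1 = E} =>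
        (⟨l.1.1.2, l.1.2.2.trans l.2.2.subset⟩ : {s : Cd ty | s.supp ⊆ E})) ?_) (mk_supp_sub h0 hE.2)
    intro l l' h
    exact Subtype.ext (Subtype.ext (Prod.ext (l.2.2.trans l'.2.2.symm) (congrArg Subtype.val h)))

/-- the lower part cut out of `q` by `E` -/
noncomputable def cut {ty : Θ → ℕ} {j : ℕ} (E : Set Θ) (hE : #E ≤ bt j) (q : Cd ty) : LP ty j :=
  ⟨(E, res E q), hE, (supp_res E q).trans inter_subset_left⟩

end Master

open Master

theorem master (_ : ChainStmt) (hR : RecStmt) (hT : TowerStmt) : MasterStmt := by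
  intro Θ ty j hj T α ι S sup D p0 t0 hsup hcard hmono hdense
  obtain ⟨TS⟩ := hT Θ ty j
  obtain ⟨t1, ht1⟩ := TS.start p0
  have hβ := aleph0_le_bt (j + 1)
  obtain ⟨⟨t, π⟩, ⟨h1, h2⟩, h3⟩ := hR (bt j) (bt (j + 1)) (aleph0_le_bt j) (bt_lt hj) _ _
    (ι × LP ty j) (TS.S.prod hβ S) (fun x => Sum.inl '' x.2.1.1 ∪ Sum.inr '' sup x.1)
    (fun x y => LeOn x.2.1.1 x.2.1.2 (TS.val y.1) → ∃ Z ⊆ TS.S.tr y.1, ∃ c,
      LeOn Z c (glue x.2.1.1 x.2.1.2 (TS.val y.1)) ∧ D x.1 (glue Z c (TS.val y.1)) y.2)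
    (t1, t0)
    (fun x => mk_union_le_of (aleph0_le_bt j) (mk_image_le.trans x.2.2.1)
      (mk_image_le.trans (hsup x.1)))
    (fun A hA => by
      refine mk_sub_le (T := {i | sup i ⊆ Sum.inr ⁻¹' A} ×ˢ {l : LP ty j | l.1.1 ⊆ Sum.inl ⁻¹' A})
        ?_ fun x hx => ⟨fun a ha => hx (Or.inr ⟨a, ha, rfl⟩), fun a ha => hx (Or.inl ⟨a, ha, rfl⟩)⟩
      rw [mk_setProd]
      exact mul_le_of_le hβ
        (hcard _ ((mk_preimage_of_injective _ _ Sum.inr_injective).trans hA))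
        (mk_LP ty hj ((mk_preimage_of_injective _ _ Sum.inl_injective).trans hA)))
    (by
      rintro ⟨i, ⟨E, s⟩, hl⟩ ⟨t, π⟩ ⟨t', π'⟩ ⟨h1, h2⟩ h hs
      obtain ⟨Z, hZ, c, hc, hD⟩ := h (hs.trans ((TS.le h1).on _))
      refine ⟨Z, hZ.trans (TS.S.tr_mono h1), c, hc.trans ?_,
        hmono _ _ _ _ _ (glue_le_glue (LeOn.refl _ _) ((TS.le h1).on _)) h2 hD⟩
      exact leOn_glue (glue_leOn_left inter_subset_right _ _)
        ((glue_leOn_right disjoint_sdiff_left _ _).trans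
          ((TS.pure h1).mono (sdiff_subset.trans hZ))))
    (by
      rintro ⟨i, ⟨E, s⟩, hl⟩ ⟨t, π⟩ ⟨h1, h2⟩ hsub
      by_cases hs : LeOn E s (TS.val t)
      · have hg : Le (glue E s (TS.val t)) (TS.val t) := glue_le_right hs
        obtain ⟨q, π', hq, hπ, hD⟩ := hdense i _ π ((hg.trans (TS.le h1)).trans ht1) h2
          fun a ha => (CSys.inr_mem_prod hβ TS.S S).1 (hsub (Or.inr ⟨a, ha, rfl⟩))
        obtain ⟨t', ht', hn⟩ := TS.norm t q (hq.trans hg)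
        refine ⟨(t', π'), ⟨ht', hπ⟩, fun _ => ⟨TS.S.tr t, TS.S.tr_mono ht', q, ?_,
          hmono _ _ _ _ _ (glue_le (LeOn.refl _ _) hn) (S.refl _) hD⟩⟩
        exact leOn_glue ((hq.on _).trans (glue_leOn_left inter_subset_right _ _))
          (((hq.trans hg).on _).trans ((TS.pure ht').mono sdiff_subset))
      · exact ⟨(t, π), ⟨TS.S.refl _, S.refl _⟩, fun h => absurd h hs⟩)
  refine ⟨TS.val t, π, (TS.le h1).trans ht1, h2, fun i hi q hq => ?_⟩
  obtain ⟨E, hE, hEc, hr⟩ := TS.red t q hq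
  obtain ⟨Z, hZ, c, hc, hD⟩ := h3 (i, cut E hEc q) (by
    rintro _ (⟨a, ha, rfl⟩ | ⟨a, ha, rfl⟩)
    · exact (CSys.inl_mem_prod hβ TS.S S).2 (hE ha)
    · exact (CSys.inr_mem_prod hβ TS.S S).2 (hi ha)) ((agree_res E q).leOn.trans (hq.on _))
  refine ⟨glue Z c q, glue_le_right (hc.trans ?_),
    hmono _ _ _ _ _ (glue_le_glue (LeOn.refl _ _) (hq.on _)) (S.refl _) hD⟩
  exact glue_leOn ((agree_res E q).leOn.mono inter_subset_right)
    (hr.mono (sdiff_subset_sdiff_left hZ))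

theorem lemC (hC : ChainStmt) (hR : RecStmt) (hT : TowerStmt) : LemCStmt := by
  intro Θ ty j hj T α S O _ _ hO Step p0 t0 hmono hdense
  obtain ⟨TS⟩ := hT Θ ty j
  obtain ⟨t1, ht1⟩ := TS.start p0
  have hβ := aleph0_le_bt (j + 1)
  have key : ∃ (l : LP ty j) (y : TS.T × T), (TS.S.prod hβ S).st y (t1, t0) ∧
      ∀ y', (TS.S.prod hβ S).st y' y → ∃ y'', (TS.S.prod hβ S).st y'' y' ∧
        LeOn l.1.1 l.1.2 (TS.val y''.1) ∧
          ∃ x, S.st x y''.2 ∧ Step (glue l.1.1 l.1.2 (TS.val y''.1)) y''.2 x := by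
    by_contra hcon
    obtain ⟨⟨t, x⟩, ⟨h1, h2⟩, h3⟩ := hR (bt j) (bt (j + 1)) (aleph0_le_bt j) (bt_lt hj) _ _
      (LP ty j) (TS.S.prod hβ S) (fun l => Sum.inl '' l.1.1)
      (fun l y => ∀ y'', (TS.S.prod hβ S).st y'' y → ¬ (LeOn l.1.1 l.1.2 (TS.val y''.1) ∧
          ∃ x, S.st x y''.2 ∧ Step (glue l.1.1 l.1.2 (TS.val y''.1)) y''.2 x)) (t1, t0)
      (fun l => mk_image_le.trans l.2.1)
      (fun A hA => mk_sub_le
        (mk_LP ty hj ((mk_preimage_of_injective _ _ Sum.inl_injective).trans hA))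
        fun l hl a ha => hl ⟨a, ha, rfl⟩)
      (fun l y y' h hΨ y'' h' => hΨ y'' ((TS.S.prod hβ S).trans h' h))
      (fun l y hy _ => by
        by_contra h
        refine hcon ⟨l, y, hy, fun y' hy' => ?_⟩
        by_contra h'
        exact h ⟨y', hy', fun y'' h1 h2 => h' ⟨y'', h1, h2⟩⟩)
    obtain ⟨q, x', hq, hx', hS⟩ := hdense (TS.val t) x ((TS.le h1).trans ht1) h2
    obtain ⟨E, hE, hEc, hr⟩ := TS.red t q hq
    obtain ⟨t', ht', hn⟩ := TS.norm t q hq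
    refine h3 (cut E hEc q) (by
      rintro _ ⟨a, ha, rfl⟩
      exact (CSys.inl_mem_prod hβ TS.S S).2 (hE ha)) (t', x) ⟨ht', S.refl _⟩
      ⟨((agree_res E q).leOn.trans (hq.on _)).trans ((TS.pure ht').mono hE), x', hx',
        hmono _ _ _ _ (glue_le (agree_res E q).leOn ?_) hS⟩
    exact LeOn.split (TS.S.tr t) (((TS.le ht').on _).trans (hr.mono fun a ha => ⟨ha.2, ha.1⟩))
      (hn.mono fun a ha => ha.2)
  obtain ⟨⟨⟨E, s⟩, hl⟩, y2, hy2, hkey⟩ := key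
  obtain ⟨a, b, te, hte, hab, hlt, -⟩ := hC _ _ _ (TS.S.prod hβ S) O hβ hO y2
    (fun _ y y' => ∃ x', S.st x' y.2 ∧ S.st y'.2 x' ∧ Step (glue E s (TS.val y'.1)) x' y'.2)
    (fun _ y hy => by
      obtain ⟨y'', h1, -, x, h2, h3⟩ := hkey y hy
      exact ⟨(y''.1, x), ⟨h1.1, S.trans h2 h1.2⟩, y''.2, h1.2, h2, h3⟩)
  have hx := fun o => (hab o).2.2.1
  choose x hx1 hx2 hx3 using hx
  obtain ⟨y3, hy3, hs, -⟩ := hkey y2 ((TS.S.prod hβ S).refl _)
  refine ⟨glue E s (TS.val te.1), glue_le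
    (hs.trans ((((TS.le hy3.1).trans (TS.le hy2.1)).trans ht1).on _))
    ((((TS.le hte.1).trans (TS.le hy2.1)).trans ht1).on _), x, fun o => (b o).2,
    fun o => ⟨S.trans (S.trans (hx1 o) (hab o).1.2) hy2.2, hx2 o, hmono _ _ _ _
      (glue_le_glue (LeOn.refl _ _) ((TS.le (hab o).2.2.2.1).on _)) (hx3 o)⟩,
    fun o o' h => S.trans (hx1 o') (hlt o o' h).2⟩

theorem sigma (hT : TowerStmt) : SigmaStmt := by
  intro Θ ty D I R d0 p0 hI hR h0 hstep
  obtain ⟨TS⟩ := hT Θ ty 0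
  obtain ⟨t0, ht0⟩ := TS.start p0
  have hn : ∀ t q, Le q (TS.val t) → ∃ t', TS.S.st t' t ∧ Le (TS.val t') q := by
    intro t q hq
    obtain ⟨t', h1, h2⟩ := TS.norm t q hq
    exact ⟨t', h1, h2.mono fun a _ ha => absurd (TS.low t a ha) (Nat.not_lt_zero _)⟩
  have h : ∀ (n : ℕ) (x : {x : D × TS.T // Le (TS.val x.2) p0 ∧ I n x.1 (TS.val x.2)}),
      ∃ y : {x : D × TS.T // Le (TS.val x.2) p0 ∧ I (n + 1) x.1 (TS.val x.2)},
        TS.S.st y.1.2 x.1.2 ∧ R n x.1.1 y.1.1 (TS.val y.1.2) := by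
    rintro n ⟨⟨d, t⟩, h1, h2⟩
    obtain ⟨d', q', h3, h4, h5⟩ := hstep n d _ h1 h2
    obtain ⟨t', h6, h7⟩ := hn t q' h3
    exact ⟨⟨(d', t'), (TS.le h6).trans h1, hI _ _ _ _ h7 h4⟩, h6, hR _ _ _ _ _ h7 h5⟩
  choose f hf1 hf2 using h
  let x : ∀ n : ℕ, {x : D × TS.T // Le (TS.val x.2) p0 ∧ I n x.1 (TS.val x.2)} :=
    fun n => Nat.rec ⟨(d0, t0), ht0, hI _ _ _ _ ht0 h0⟩ f n
  have hst : ∀ n m, n ≤ m → TS.S.st (x m).1.2 (x n).1.2 := by
    intro n m hnm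
    induction hnm with
    | refl => exact TS.S.refl _
    | step _ ih => exact TS.S.trans (hf1 _ _) ih
  obtain ⟨t, ht, -⟩ := TS.S.lim (range fun n => (x n).1.2) (range_nonempty _)
    (mk_range_le.trans (mk_nat.le.trans (aleph0_le_bt _))) (by
      rintro _ ⟨n, rfl⟩ _ ⟨m, rfl⟩
      exact (le_total m n).imp (hst m n) (hst n m))
  have hle : ∀ n, Le (TS.val t) (TS.val (x n).1.2) := fun n => TS.le (ht _ ⟨n, rfl⟩)
  exact ⟨fun n => (x n).1.1, TS.val t, (hle 0).trans (x 0).2.1, rfl, fun n =>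
    ⟨hI _ _ _ _ (hle n) (x n).2.2, hR _ _ _ _ _ (hle (n + 1)) (hf2 n (x n))⟩⟩

theorem split (hM : MasterStmt) : SplitStmt := by
  intro Θ ty j TS E ι U hj hE hι hU p t
  obtain ⟨p', t', h1, h2, h3⟩ := hM Θ ty j hj TS.T Θ ι TS.S (fun _ => ∅)
    (fun i q t => U i (glue E (TS.val t) q) ∨ One Le (U i) (glue E (TS.val t) q)) p t
    (fun _ => by simp) (fun A _ => (mk_set_le _).trans hι)
    (fun i q q' t t' hq ht h => by
      have hg : Le (glue E (TS.val t') q') (glue E (TS.val t) q) :=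
        glue_le_glue ((TS.le ht).on _) (hq.on _)
      exact h.imp (hU _ _ _ hg) fun h r hr => h r (hr.trans hg))
    (fun i q t2 _ _ _ => by
      by_cases h : One Le (U i) (glue E (TS.val t2) q)
      · exact ⟨q, t2, Le.refl q, TS.S.refl _, Or.inr h⟩
      · obtain ⟨c, hc, hUc⟩ : ∃ c, Le c (glue E (TS.val t2) q) ∧ U i c := by
          by_contra h'
          exact h fun c hc hUc => h' ⟨c, hc, hUc⟩
        obtain ⟨t', ht', hn⟩ := TS.norm t2 (glue E c (TS.val t2))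
          (glue_le_right ((hc.on _).trans (glue_leOn_left Subset.rfl _ _)))
        refine ⟨glue E q c, t',
          glue_le_left ((hc.on _).trans (glue_leOn_right disjoint_compl_left _ _)), ht',
          Or.inl (hU _ _ _ (glue_le ?_ (glue_leOn_right disjoint_compl_left _ _)) hUc)⟩
        exact (hn.mono fun a ha hb => absurd (TS.low t2 a hb) (not_lt.2 (hE a ha))).trans
          (glue_leOn_left Subset.rfl _ _))
  exact ⟨p', t', h1, h2, fun i q hq => h3 i (empty_subset _) q hq⟩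

end Pool.Agent.MP_a45f51_lc.A62

end MrgPart4

-- ======== part 5: formerly Pool.Agent.MP_a45f51_lc.h62.ER
section MrgPart5

/-! PROJECT ARROW: the theorems of Erdős and Rado and of Ramsey. -/

namespace Pool.Agent.MP_a45f51_lc.A62

open Cardinal Set Filter

namespace ER

variable {Λ Kc : Type} [LinearOrder Λ]

/-- the least points of `B` above `S` of a given type over `S` -/
def Rl (c : Finset Λ → Kc) (B S : Set Λ) : Set Λ :=
  {y | ∀ y' ∈ B, (∀ x ∈ S, x < y') → (∀ a : Finset Λ, ↑a ⊆ S → c (insert y' a) = c (insert y a)) →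
    y ≤ y'} ∩ {y | y ∈ B ∧ ∀ x ∈ S, x < y}

theorem mk_Rl {γ : Cardinal.{0}} (hγ : ℵ₀ ≤ γ) (hK : #Kc ≤ 2 ^ γ) (c : Finset Λ → Kc)
    (B : Set Λ) {S : Set Λ} (hS : #S ≤ γ) : #(Rl c B S) ≤ 2 ^ γ := by
  let f : Rl c B S → Finset S → Kc := fun y a => c (insert y.1 (a.image Subtype.val))
  have h1 : ∀ y y', f y = f y' → y.1 ≤ y'.1 := fun y y' h =>
    y.2.1 y' y'.2.2.1 y'.2.2.2 fun a ha => by
      lift a to Finset S using ha
      exact (congrFun h a).symm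
  have h2 : #(Finset S) ≤ γ := by
    classical
    exact (mk_le_of_surjective List.toFinset_surjective).trans
      ((mk_list_le_max _).trans (max_le hγ hS))
  refine (mk_le_of_injective (f := f) fun y y' h =>
    Subtype.ext ((h1 _ _ h).antisymm (h1 _ _ h.symm))).trans ?_
  rw [← power_def]
  refine (power_le_power_right hK).trans ((power_le_power_left (cantor γ).ne_bot h2).trans ?_)
  rw [← power_mul, mul_eq_self hγ]

/-- an end-homogeneous set -/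
theorem endhom (hr : RecStmt) [WellFoundedLT Λ] {γ : Cardinal.{0}} (hγ : ℵ₀ ≤ γ)
    (hK : #Kc ≤ 2 ^ γ) (c : Finset Λ → Kc) {B : Set Λ} (hB : 2 ^ γ < #B) :
    ∃ H ⊆ B, γ < #H ∧ ∃ y, ∀ h ∈ H, ∀ a : Finset Λ, ↑a ⊆ H → (∀ x ∈ a, x < h) →
      c (insert h a) = c (insert y a) := by
  have h0 : ℵ₀ ≤ 2 ^ γ := hγ.trans (cantor γ).le
  obtain ⟨M, -, hM⟩ := hr γ (2 ^ γ) hγ (cantor γ) _ Λ {S : Set Λ // #S ≤ γ} (CSys.sets h0 Λ)
    (fun S => S.1) (fun S M => Rl c B S.1 ⊆ M.1) ⟨∅, by simp⟩ (fun S => S.2)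
    (fun A hA => le_trans (mk_le_of_injective
      (f := fun i : {i : {S : Set Λ // #S ≤ γ} | i.1 ⊆ A} =>
        (⟨i.1.1, i.2, i.1.2⟩ : {E : Set Λ | E ⊆ A ∧ #E ≤ γ}))
      fun _ _ h => Subtype.ext (Subtype.ext (Subtype.mk.inj h))) (mk_small_subsets hγ hA))
    (fun _ _ _ h h' => h'.trans h) fun S M _ _ =>
      ⟨⟨M.1 ∪ Rl c B S.1, mk_union_le_of h0 M.2 (mk_Rl hγ hK c B S.2)⟩, subset_union_left,
        subset_union_right⟩
  obtain ⟨y, hyB, hyM⟩ : ∃ y ∈ B, y ∉ M.1 :=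
    not_subset.1 fun h => (hB.trans_le ((mk_le_mk_of_subset h).trans M.2)).false
  let P : Λ → Prop := (wellFounded_lt (α := Λ)).fix fun h ih => h ∈ M.1 ∧ h ∈ B ∧ h < y ∧
    ∀ a : Finset Λ, (∀ x ∈ a, ∃ hx : x < h, ih x hx) → c (insert h a) = c (insert y a)
  have hP : ∀ h, P h ↔ h ∈ M.1 ∧ h ∈ B ∧ h < y ∧
      ∀ a : Finset Λ, (∀ x ∈ a, ∃ _ : x < h, P x) → c (insert h a) = c (insert y a) :=
    fun h => iff_of_eq (WellFounded.fix_eq _ _ h)
  refine ⟨{h | P h}, fun h hh => ((hP h).1 hh).2.1, lt_of_not_ge fun hH => ?_, y,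
    fun h hh a ha hl => ((hP h).1 hh).2.2.2 a fun x hx => ⟨hl x hx, ha hx⟩⟩
  obtain ⟨z, ⟨z1, z2, z3⟩, z4⟩ := (wellFounded_lt (α := Λ)).has_min
    {z | z ∈ B ∧ (∀ x, P x → x < z) ∧
      ∀ a : Finset Λ, ↑a ⊆ {h | P h} → c (insert z a) = c (insert y a)}
    ⟨y, hyB, fun x hx => ((hP x).1 hx).2.2.1, fun _ _ => rfl⟩
  have z5 : z ∈ M.1 := hM ⟨_, hH⟩ (fun h hh => ((hP h).1 hh).1)
    ⟨fun y' h1 h2 h3 => not_lt.1 (z4 y' ⟨h1, h2, fun a ha => (h3 a ha).trans (z3 a ha)⟩), z1, z2⟩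
  have z6 : z < y := lt_of_le_of_ne
    (not_lt.1 (z4 y ⟨hyB, fun x hx => ((hP x).1 hx).2.2.1, fun _ _ => rfl⟩))
    fun h => hyM (h ▸ z5)
  exact (z2 z ((hP z).2 ⟨z5, z1, z6, fun a ha => z3 a fun x hx => (ha x hx).2⟩)).false

theorem lim {Kc : Type} [Finite Kc] (f : ℕ → Kc) : ∃ k, ∀ᶠ x in hyperfilter ℕ, f x = k :=
  Ultrafilter.eventually_exists_iff.1 (Eventually.of_forall fun x => ⟨f x, rfl⟩)

end ER

theorem er (hr : RecStmt) : ERStmt := by
  intro Λ Kc _ _ n ν B c hν hK hB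
  induction n generalizing B c with
  | zero =>
    refine ⟨B, Subset.rfl, hB, fun A A' _ _ h h' => ?_⟩
    rw [Finset.card_eq_zero.1 (Nat.le_zero.1 h'), Finset.card_eq_zero.1 (by omega : A'.card = 0)]
  | succ n ih =>
    rw [Function.iterate_succ_apply'] at hB
    have h1 : ν ≤ (fun x : Cardinal.{0} => 2 ^ x)^[n] ν :=
      Function.id_le_iterate_of_id_le (fun x => (cantor x).le) n ν
    obtain ⟨H, h2, h3, y, h4⟩ :=
      ER.endhom hr (hν.trans h1) (hK.trans (h1.trans (cantor _).le)) c hB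
    obtain ⟨H', h5, h6, h7⟩ := ih H (fun a => c (insert y a)) h3
    have h8 : ∀ (A : Finset Λ) (hA : A.Nonempty), ↑A ⊆ H' →
        c A = c (insert y (A.erase (A.max' hA))) := fun A hA h => by
      rw [← h4 _ (h5 (h (A.max'_mem hA))) _ (fun x hx => h5 (h (Finset.mem_of_mem_erase hx)))
        fun x hx => A.lt_max'_of_mem_erase_max' hA hx, Finset.insert_erase (A.max'_mem hA)]
    refine ⟨H', h5.trans h2, h6, fun A A' a1 a2 a3 a4 => ?_⟩
    rcases A.eq_empty_or_nonempty with rfl | hA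
    · rw [Finset.card_eq_zero.1 a3.symm]
    · have hA' : A'.Nonempty := Finset.card_pos.1 (a3 ▸ hA.card_pos)
      rw [h8 A hA a1, h8 A' hA' a2]
      refine h7 _ _ (fun x hx => a1 (Finset.mem_of_mem_erase hx))
        (fun x hx => a2 (Finset.mem_of_mem_erase hx)) ?_ ?_
      · rw [Finset.card_erase_of_mem (A.max'_mem hA), Finset.card_erase_of_mem (A'.max'_mem hA'),
          a3]
      · rw [Finset.card_erase_of_mem (A.max'_mem hA)]; omega

theorem ramsey : RamseyStmt := by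
  intro Kc _ c
  choose c2 h2 using fun i j => ER.lim (c i j)
  choose c1 h1 using fun i => ER.lim (c2 i)
  obtain ⟨k, h0⟩ := ER.lim c1
  have h : ∀ m, ∃ x, m < x ∧ c1 x = k ∧ (∀ i ∈ Iic m, c2 i x = c1 i) ∧
      ∀ i ∈ Iic m, ∀ j ∈ Iic m, c i j x = c2 i j := fun m =>
    (((eventually_gt_atTop m).filter_mono Nat.hyperfilter_le_atTop).and (h0.and
      (((eventually_all_finite (finite_Iic m)).2 fun i _ => h1 i).and
        ((eventually_all_finite (finite_Iic m)).2 fun i _ =>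
          (eventually_all_finite (finite_Iic m)).2 fun j _ => h2 i j)))).exists
  choose f f1 f2 f3 f4 using h
  have e : ∀ n, f^[n + 1] 0 = f (f^[n] 0) := fun n => Function.iterate_succ_apply' f n 0
  have hm : StrictMono fun n => f^[n] 0 := strictMono_nat_of_lt_succ fun n => e n ▸ f1 _
  refine ⟨fun n => f^[n + 1] 0, k, fun i j h => hm (Nat.succ_lt_succ h), fun i j l hij hjl => ?_⟩
  simp only
  rw [e l, f4 _ _ (hm.monotone (hij.trans hjl)) _ (hm.monotone hjl), e j,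
    f3 _ _ (hm.monotone hij), e i, f2]

end Pool.Agent.MP_a45f51_lc.A62

end MrgPart5

-- ======== part 6: formerly Pool.Agent.MP_a45f51_lc.h62.Idx
section MrgPart6

/-! PROJECT ARROW: canonization of systems indexed by triples. -/

namespace Pool.Agent.MP_a45f51_lc.A62

open Cardinal Set

namespace Idx

variable {Λ : Type} [LinearOrder Λ]

/-- increasing enumeration of a finite set -/
noncomputable def nth (d : Λ) (A : Finset Λ) (k : ℕ) : Λ :=
  if h : k < A.card then A.orderEmbOfFin rfl ⟨k, h⟩ else d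

theorem nth_eq (d : Λ) {A : Finset Λ} {m : ℕ} (h : A.card = m) (k : Fin m) :
    nth d A k = A.orderEmbOfFin h k := by
  subst h
  exact dif_pos k.2

theorem hom {ι : Type} [Fintype ι] (d : Λ) (u u' : ι → Λ)
    (h : ∀ p p', u p < u p' ↔ u' p < u' p') :
    ∃ (A A' : Finset Λ) (pa : ι → ℕ), ↑A ⊆ range u ∧ ↑A' ⊆ range u' ∧ A.card = A'.card ∧
      A.card ≤ Fintype.card ι ∧ u = nth d A ∘ pa ∧ u' = nth d A' ∘ pa := by
  set A := Finset.univ.image u with hA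
  have h1 : ∀ k : Fin A.card, ∃ p, u p = A.orderEmbOfFin rfl k := fun k =>
    (Finset.mem_image.1 (A.orderEmbOfFin_mem rfl k)).imp fun _ h => h.2
  have h2 : ∀ p, ∃ k : Fin A.card, A.orderEmbOfFin rfl k = u p := fun p => by
    have : u p ∈ range (A.orderEmbOfFin rfl) := by
      rw [Finset.range_orderEmbOfFin]
      simp [hA]
    exact this
  choose a ha using h1
  choose b hb using h2
  have h3 : StrictMono fun k => u' (a k) := fun k l hkl => (h _ _).1 (by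
    rw [ha, ha]
    exact (A.orderEmbOfFin rfl).strictMono hkl)
  have h4 : (Finset.univ.image fun k => u' (a k)).card = A.card := by
    rw [Finset.card_image_of_injective _ h3.injective, Finset.card_fin]
  refine ⟨A, _, fun p => b p, by simp [hA], ?_, h4.symm, Finset.card_image_le, funext fun p => ?_,
    funext fun p => ?_⟩
  · rintro x hx
    obtain ⟨k, -, rfl⟩ := Finset.mem_image.1 hx
    exact ⟨_, rfl⟩
  · exact ((nth_eq d rfl _).trans (hb p)).symm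
  · refine Eq.trans ?_ ((nth_eq d h4 _).trans (congrFun (Finset.orderEmbOfFin_unique h4
      (fun k => Finset.mem_image_of_mem _ (Finset.mem_univ k)) h3) (b p)).symm).symm
    have e : u (a (b p)) = u p := (ha _).trans (hb p)
    exact le_antisymm (not_lt.1 fun h' => ((h _ _).2 h').ne e)
      (not_lt.1 fun h' => ((h _ _).2 h').ne' e)

theorem mk_fun_le {I X : Type} {ν : Cardinal.{0}} (hν : ℵ₀ ≤ ν) (hI : #I ≤ ν) (hX : #X ≤ ν) :
    #(I → X) ≤ 2 ^ ν := by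
  rw [← power_def]
  refine (power_le_power_right (hX.trans (cantor ν).le)).trans
    ((power_le_power_left (power_ne_zero _ two_ne_zero) hI).trans (le_of_eq ?_))
  rw [← power_mul, mul_eq_self hν]

theorem mk_fin_fun_le {X : Type} {ν : Cardinal.{0}} (hν : ℵ₀ ≤ ν) (hX : #X ≤ ν) :
    #(Fin 3 → X) ≤ ν := by
  rw [← power_def]
  refine (power_le_power_right hX).trans ?_
  rw [mk_fin]
  exact power_nat_le hν

theorem cols [WellFoundedLT Λ] {G : Set Λ} {μ : Cardinal.{0}} (h0 : ℵ₀ ≤ μ) (h : μ < #G) :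
    ∃ (H : Set Λ) (f : Λ → ℕ → Λ), #H = μ ∧ Cols H f ∧ ∀ a c, f a c ∈ G := by
  obtain ⟨i1, i2⟩ := exists_wellFoundedLT (α := μ.out)
  have hne : Nonempty μ.out := by
    rw [← mk_ne_zero_iff, mk_out]
    exact (aleph0_pos.trans_le h0).ne'
  rcases InitialSeg.total ((· < ·) : μ.out ×ₗ ℕ → μ.out ×ₗ ℕ → Prop) ((· < ·) : G → G → Prop)
    with e | e
  · have h1 : ∀ a b, ((e a : G) : Λ) < e b ↔ a < b := fun a b => e.map_rel_iff
    let j : μ.out → Λ := fun o => e (toLex (o, 4))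
    have h2 : ∀ o o', j o < j o' ↔ o < o' := fun o o' => by
      simp [j, h1, Prod.Lex.toLex_lt_toLex]
    have h3 : Function.Injective j := (show StrictMono j from fun o o' => (h2 o o').2).injective
    have h4 := Function.leftInverse_invFun h3
    refine ⟨range j, fun a c => e (toLex (Function.invFun j a, c)),
      (mk_range_eq j h3).trans (mk_out μ), ⟨?_, ?_⟩, fun a c => Subtype.property _⟩
    · rintro _ ⟨o, rfl⟩
      simp only [h4 o, j]
    · rintro _ ⟨o, rfl⟩ _ ⟨o', rfl⟩ c c'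
      simp only [h4 o, h4 o', h1, h2, h3.eq_iff, Prod.Lex.toLex_lt_toLex]
  · refine absurd ((mk_le_of_injective e.injective).trans (le_of_eq ?_)) h.not_ge
    change #(μ.out × ℕ) = μ
    simp [mul_aleph0_eq h0]

variable {H : Set Λ} {f : Λ → ℕ → Λ}

theorem ext (hne : H.Nonempty) (hf : Cols H f) {m : ℕ} (w : Fin m → Λ) (hw : StrictMono w)
    (hH : ∀ k, w k ∈ H) : ∃ t, Inc H f t ∧ ∀ (p : Fin 3) (k : Fin m), (p : ℕ) = k → t p = w k := by
  obtain ⟨a, ha, h1⟩ : ∃ a ∈ H, ∀ k, w k ≤ a := by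
    rcases isEmpty_or_nonempty (Fin m) with h | h
    · exact hne.imp fun a ha => ⟨ha, fun k => h.elim k⟩
    · obtain ⟨k, hk⟩ := Finite.exists_max w
      exact ⟨w k, hH k, hk⟩
  refine ⟨fun p => if h : (p : ℕ) < m then w ⟨p, h⟩ else f a (5 + p), ⟨fun p p' hp => ?_,
    fun p => ?_⟩, fun p k e => ?_⟩
  · have hp' : (p : ℕ) < p' := hp
    dsimp only
    split_ifs with h2 h3 h3
    · exact hw hp'
    · rw [← hf.1 _ (hH ⟨p, h2⟩), hf.2 _ (hH _) _ ha]
      exact (h1 _).lt_or_eq.imp id fun e => ⟨e, by omega⟩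
    · omega
    · exact (hf.2 _ ha _ ha _ _).2 (Or.inr ⟨rfl, by omega⟩)
  · dsimp only
    split_ifs with h2
    · exact ⟨_, hH _, 4, (hf.1 _ (hH _)).symm⟩
    · exact ⟨a, ha, _, rfl⟩
  · have h2 : (p : ℕ) < m := e ▸ k.2
    exact (dif_pos h2).trans (congrArg w (Fin.ext e))

omit [LinearOrder Λ] in
theorem fix_mem {g : Equiv.Perm Λ} (hg : Fix H g) {a : Λ} (ha : a ∈ H) : g a ∈ H := by
  by_contra h
  exact h ((g.injective (hg _ h)).symm ▸ ha)

theorem shape (hne : H.Nonempty) (hf : Cols H f) {Par : Set Λ} (hd : Disjoint Par H)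
    (v : Fin 3 → Λ) (hv : ∀ k, v k ∈ Par ∪ H) :
    ∃ (a : Fin 3 → Par ⊕ Fin 3) (t : Fin 3 → Λ), Inc H f t ∧
      (∀ k, Sum.elim (↑) t (a k) = v k) ∧ (∀ k p, a k = Sum.inr p → t p ∈ H) ∧
      ∀ g, Fix H g → StrictMonoOn g (range v ∩ H) → ∃ t', Inc H f t' ∧
        (∀ k p, a k = Sum.inr p → t' p = g (t p)) ∧ ∀ k, Sum.elim (↑) t' (a k) = g (v k) := by
  classical
  set A := (Finset.univ.image v).filter (· ∈ H) with hA
  have h1 : A.card ≤ 3 := (Finset.card_filter_le _ _).trans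
    (Finset.card_image_le.trans (Finset.card_fin 3).le)
  have h2 : ∀ k, A.orderEmbOfFin rfl k ∈ range v ∩ H := fun k =>
    (Finset.mem_filter.1 (A.orderEmbOfFin_mem rfl k)).imp_left fun h =>
      (Finset.mem_image.1 h).imp fun _ h => h.2
  obtain ⟨t, ht, h3⟩ := ext hne hf _ (A.orderEmbOfFin rfl).strictMono fun k => (h2 k).2
  have h4 : ∀ k, ∃ a : Par ⊕ Fin 3, Sum.elim (↑) t a = v k ∧
      ∀ p, a = Sum.inr p → (p : ℕ) < A.card := fun k => by
    by_cases h : v k ∈ H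
    · have : v k ∈ range (A.orderEmbOfFin rfl) := by
        rw [Finset.range_orderEmbOfFin]
        simp [hA, h]
      obtain ⟨l, hl⟩ := this
      exact ⟨Sum.inr (l.castLE h1), (h3 _ l rfl).trans hl, fun p e => Sum.inr.inj e ▸ l.2⟩
    · exact ⟨Sum.inl ⟨v k, (hv k).resolve_right h⟩, rfl, fun p e => by cases e⟩
  choose a h5 h6 using h4
  refine ⟨a, t, ht, h5, fun k p e => h3 p ⟨p, h6 k p e⟩ rfl ▸ (h2 _).2, fun g hg hm => ?_⟩
  obtain ⟨t', ht', h7⟩ := ext hne hf (fun k => g (A.orderEmbOfFin rfl k))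
    (fun k l hkl => hm (h2 k) (h2 l) ((A.orderEmbOfFin rfl).strictMono hkl))
    fun k => fix_mem hg (h2 k).2
  have h8 : ∀ k p, a k = Sum.inr p → t' p = g (t p) := fun k p e => by
    rw [h7 p ⟨p, h6 k p e⟩ rfl, h3 p ⟨p, h6 k p e⟩ rfl]
  refine ⟨t', ht', h8, fun k => ?_⟩
  rw [← h5 k]
  rcases e : a k with x | p
  · exact (hg _ (disjoint_left.1 hd x.2)).symm
  · exact h8 k p e

end Idx

open Idx in
theorem idx (h1 : ERStmt) (h2 : CoreStmt) : IdxStmt := by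
  intro Θ Λ J Kc _ _ ty S col Low ν μ Par B hμ hμν hJ hK hL hP hd hB
  classical
  have hν := hμ.trans hμν
  have hν2 := (cantor ν).le
  obtain ⟨d, -⟩ : B.Nonempty := by
    rw [← nonempty_coe_sort, ← mk_ne_zero_iff]
    exact (zero_le.trans_lt hB).ne'
  let Sh := Fin 3 → Par ⊕ Fin 3
  let ev : (Fin 3 → Λ) → Par ⊕ Fin 3 → Λ := fun y => Sum.elim (↑) y
  let s : (Fin 3 → Λ) → Sh × J → Θ := fun y i =>
    S (ev y (i.1 0)) (ev y (i.1 1)) (ev y (i.1 2)) i.2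
  let cl : (Fin 3 → Λ) → Sh → Kc := fun y a => col (ev y (a 0)) (ev y (a 1)) (ev y (a 2))
  let I := (Fin 3 → ℕ) × Sh × J
  let Φ : (ℕ → Λ) → (I × I → Prop × ℕ × Option Low) × ((Fin 3 → ℕ) × Sh → Kc) := fun w =>
    (fun x => (s (w ∘ x.1.1) x.1.2 = s (w ∘ x.2.1) x.2.2, ty (s (w ∘ x.1.1) x.1.2),
      if h : s (w ∘ x.1.1) x.1.2 ∈ Low then some ⟨_, h⟩ else none), fun x => cl (w ∘ x.1) x.2)
  have c0 : ∀ {X Y : Type} {c : Cardinal.{0}}, ℵ₀ ≤ c → #X ≤ c → #Y ≤ c → #(X × Y) ≤ c :=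
    fun hc hX hY => by simpa using mul_le_of_le hc hX hY
  have c1 : #Sh ≤ ν := mk_fin_fun_le hν (by
    simpa using add_le_of_le hν hP ((natCast_le_aleph0 (n := 3)).trans hν))
  have c2 : #(Fin 3 → ℕ) ≤ ν := mk_fin_fun_le hν (mk_nat.trans_le hν)
  have c3 : #I ≤ ν := c0 hν c2 (c0 hν c1 hJ)
  obtain ⟨G, hG, g1, g2⟩ := h1 Λ _ 6 (2 ^ ν) B (fun A => Φ (nth d A)) (hν.trans hν2)
    (c0 (hν.trans hν2) (mk_fun_le hν (c0 hν c3 c3) (c0 hν (mk_le_aleph0.trans hν)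
      (c0 hν (mk_nat.trans_le hν) (by simpa using add_le_of_le hν hL (one_le_aleph0.trans hν)))))
      (mk_fun_le hν (c0 hν c2 c1) hK)) hB
  obtain ⟨H, f, hH, hf, hfG⟩ := cols hμ ((hμν.trans hν2).trans_lt g1)
  have hHG : H ⊆ G := fun a ha => hf.1 a ha ▸ hfG a 4
  have hne : H.Nonempty := by
    rw [← nonempty_coe_sort, ← mk_ne_zero_iff, hH]
    exact (aleph0_pos.trans_le hμ).ne'
  have key : ∀ y y' x x', Inc H f y → Inc H f y' → Inc H f x → Inc H f x' →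
      (∀ p p', y p < y' p' ↔ x p < x' p') → (∀ p p', y' p' < y p ↔ x' p' < x p) →
      (∀ i i', s y i = s y' i' → s x i = s x' i') ∧ (∀ i, ty (s y i) = ty (s x i)) ∧
      (∀ i, s y i ∈ Low → s y i = s x i) ∧ ∀ a, cl y a = cl x a := by
    intro y y' x x' a1 a2 a3 a4 a5 a6
    obtain ⟨A, A', pa, b1, b2, b3, b4, b5, b6⟩ := hom d (Sum.elim y y') (Sum.elim x x') (by
      rintro (p | p) (p' | p')
      · exact a1.1.lt_iff_lt.trans a3.1.lt_iff_lt.symm
      · exact a5 p p'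
      · exact a6 p' p
      · exact a2.1.lt_iff_lt.trans a4.1.lt_iff_lt.symm)
    have hr : ∀ {y y'}, Inc H f y → Inc H f y' → range (Sum.elim y y') ⊆ G := by
      rintro y y' h h' _ ⟨p | p, rfl⟩
      · obtain ⟨a, -, c, e⟩ := h.2 p
        exact (show y p ∈ G from e ▸ hfG a c)
      · obtain ⟨a, -, c, e⟩ := h'.2 p
        exact (show y' p ∈ G from e ▸ hfG a c)
    have e := g2 A A' (b1.trans (hr a1 a2)) (b2.trans (hr a3 a4)) b3 (by simpa using b4)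
    obtain rfl : y = nth d A ∘ (pa ∘ Sum.inl) := congrArg (· ∘ Sum.inl) b5
    obtain rfl : y' = nth d A ∘ (pa ∘ Sum.inr) := congrArg (· ∘ Sum.inr) b5
    obtain rfl : x = nth d A' ∘ (pa ∘ Sum.inl) := congrArg (· ∘ Sum.inl) b6
    obtain rfl : x' = nth d A' ∘ (pa ∘ Sum.inr) := congrArg (· ∘ Sum.inr) b6
    have e1 := fun i i' => Prod.ext_iff.1
      (congrFun (congrArg Prod.fst e) ((pa ∘ Sum.inl, i), (pa ∘ Sum.inr, i')))
    refine ⟨fun i i' => (e1 i i').1.mp, fun i => congrArg Prod.fst (e1 i i).2, fun i hi => ?_,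
      fun a => congrFun (congrArg Prod.snd e) (pa ∘ Sum.inl, a)⟩
    have e2 := congrArg (fun z => z.2.map Subtype.val) (e1 i i).2
    simp only [Φ, dif_pos hi] at e2
    split_ifs at e2
    · simpa using e2
    · simp at e2
  have key1 := fun y x (hy : Inc H f y) (hx : Inc H f x) => (key y y x x hy hy hx hx
    (fun _ _ => hy.1.lt_iff_lt.trans hx.1.lt_iff_lt.symm)
    fun _ _ => hy.1.lt_iff_lt.trans hx.1.lt_iff_lt.symm).2
  obtain ⟨car, σ, k1, k2, k3, k4⟩ := h2 Θ Λ _ H f s hne hf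
    fun y y' x x' a1 a2 a3 a4 a5 a6 => (key y y' x x' a1 a2 a3 a4 a5 a6).1
  refine ⟨H, hHG.trans hG, hH, car, σ, k1, fun g a hg => ?_, fun a ha => ?_,
    fun x hx y hy z hz => ?_⟩
  · rcases k2 g a hg with e | ⟨i, y, y', a1, a2, rfl, e⟩
    · rw [e]
    · rw [e]
      exact (key1 _ _ a2 a1).1 i
  · by_contra hc
    obtain ⟨i, y, y', a1, a2, rfl, e⟩ := k3 a (Finset.nonempty_iff_ne_empty.2 hc)
    exact e ((key1 _ _ a1 a2).2.1 i ha)
  obtain ⟨a, t, a1, a2, a3, a4⟩ := shape hne hf (hd.mono_right (hHG.trans hG)) ![x, y, z]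
    fun k => by fin_cases k <;> assumption
  have b1 : ∀ i, s t (a, i) = S x y z i := fun i => by
    simp only [s, ev, a2]
    rfl
  have b2 := fun i => k4 (a, i) {p | ∃ k, a k = Sum.inr p} t a1 (fun p ⟨k, e⟩ => a3 k p e)
    fun w w' _ _ h => by
      have : ∀ k, ev w (a k) = ev w' (a k) := fun k => by
        rcases e : a k with u | p
        · rfl
        · exact h p ⟨k, e⟩
      simp only [s, this]
  refine ⟨fun i u hu => ?_, fun g hg hm => ?_⟩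
  · obtain ⟨p, ⟨k, e⟩, rfl⟩ := (b2 i).1 u (by rwa [b1])
    have := a2 k
    rw [e] at this
    fin_cases k
    exacts [Or.inl this, Or.inr (Or.inl this), Or.inr (Or.inr this)]
  · obtain ⟨t', c1, c2, c3⟩ := a4 g hg (hm.mono (inter_subset_inter_left _ (by
      rintro _ ⟨k, rfl⟩
      fin_cases k <;> simp)))
    refine ⟨?_, fun i => ?_⟩
    · have := (key1 _ _ a1 c1).2.2 a
      simp only [cl, ev, a2, c3] at this
      exact this
    · rw [← b1, (b2 i).2 g t' hg c1 fun p ⟨k, e⟩ => c2 k p e]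
      simp only [s, ev, c3]
      rfl

end Pool.Agent.MP_a45f51_lc.A62

end MrgPart6

-- ======== part 7: formerly Pool.Agent.MP_a45f51_lc.h62.Canon
section MrgPart7

/-! PROJECT ARROW, module CANON: supports, the chain condition, canonization and phases. -/

namespace Pool.Agent.MP_a45f51_lc.A62

open Cardinal Set Pool.Agent.Forcing92

namespace CanonM

variable {Θ : Type} {ty : Θ → ℕ}

theorem aleph0_le_two_pow_kp : ℵ₀ ≤ (2 : Cardinal.{0}) ^ kp := aleph0_le_kp.trans (cantor _).le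

/-- reflection of a family of conditions into small sets -/
theorem refl_lemma (hrec : RecStmt) {A : Type} (D : Cd ty → A → Prop) :
    ∃ (M : Set Θ) (N : Set A), #M ≤ 2 ^ kp ∧ #N ≤ 2 ^ kp ∧ ∀ c x, D c x →
      ∃ c' x', D c' x' ∧ x' ∈ N ∧ c'.supp ⊆ M ∧ Agree (c.supp ∩ M) c' c := by
  have h0 := aleph0_le_two_pow_kp
  obtain ⟨t, -, ht⟩ := hrec kp (2 ^ kp) aleph0_le_kp (cantor _) _ (Θ ⊕ A)
    {x : Set Θ × Cd ty // #x.1 ≤ kp ∧ x.2.supp ⊆ x.1} (CSys.sets h0 (Θ ⊕ A))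
    (fun i => Sum.inl '' i.1.1)
    (fun i t => (∃ c x, D c x ∧ Agree i.1.1 c i.1.2) →
      ∃ c x, D c x ∧ Agree i.1.1 c i.1.2 ∧ Sum.inl '' c.supp ⊆ t.1 ∧ Sum.inr x ∈ t.1)
    ⟨∅, by simp⟩ (fun i => mk_image_le.trans i.2.1)
    (fun B hB => by
      refine mk_le_of_fibres h0 (J := {E : Set Θ | E ⊆ Sum.inl ⁻¹' B ∧ #E ≤ kp})
        (fun i => i.1.1) (fun i hi => ⟨image_subset_iff.1 hi, i.2.1⟩)
        (mk_small_subsets aleph0_le_kp
          ((mk_preimage_of_injective _ _ Sum.inl_injective).trans hB)) fun E hE => ?_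
      refine le_trans (mk_le_of_injective
        (f := fun i : {i : {x : Set Θ × Cd ty // #x.1 ≤ kp ∧ x.2.supp ⊆ x.1} |
            i ∈ {i : {x : Set Θ × Cd ty // #x.1 ≤ kp ∧ x.2.supp ⊆ x.1} |
              Sum.inl '' i.1.1 ⊆ B} ∧ i.1.1 = E} =>
          (⟨i.1.1.2, i.1.2.2.trans i.2.2.subset⟩ : {s : Cd ty | s.supp ⊆ E})) ?_)
        (mk_supp_sub aleph0_le_kp hE.2)
      rintro ⟨⟨⟨R, s⟩, h1⟩, h2, h3⟩ ⟨⟨⟨R', s'⟩, h4⟩, h5, h6⟩ he
      have e1 : R = R' := h3.trans h6.symm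
      have e2 : s = s' := congrArg Subtype.val he
      subst e1 e2
      rfl)
    (fun i t t' htt h hex => by
      obtain ⟨c, x, h1, h2, h3, h4⟩ := h hex
      exact ⟨c, x, h1, h2, h3.trans htt, htt h4⟩)
    (fun i t _ _ => by
      by_cases hex : ∃ c x, D c x ∧ Agree i.1.1 c i.1.2
      · obtain ⟨c, x, h1, h2⟩ := hex
        refine ⟨⟨t.1 ∪ (Sum.inl '' c.supp ∪ {Sum.inr x}), mk_union_le_of h0 t.2
          (mk_union_le_of h0 (mk_image_le.trans (c.mk_supp.trans (cantor _).le))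
            (by rw [mk_singleton]; exact one_le_aleph0.trans h0))⟩, subset_union_left,
          fun _ => ⟨c, x, h1, h2, fun y hy => Or.inr (Or.inl hy), Or.inr (Or.inr rfl)⟩⟩
      · exact ⟨t, Subset.rfl, fun h => absurd h hex⟩)
  refine ⟨Sum.inl ⁻¹' t.1, Sum.inr ⁻¹' t.1,
    (mk_preimage_of_injective _ _ Sum.inl_injective).trans t.2,
    (mk_preimage_of_injective _ _ Sum.inr_injective).trans t.2, fun c x hD => ?_⟩
  obtain ⟨c', x', h1, h2, h3, h4⟩ := ht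
    ⟨(c.supp ∩ Sum.inl ⁻¹' t.1, res (c.supp ∩ Sum.inl ⁻¹' t.1) c),
      mk_sub_le c.mk_supp inter_subset_left, (supp_res _ _).trans inter_subset_left⟩
    (image_subset_iff.2 inter_subset_right) ⟨c, x, hD, (agree_res _ _).symm⟩
  exact ⟨c', x', h1, h4, image_subset_iff.1 h3, h2.trans (agree_res _ _)⟩

theorem leOn_of_agree {M : Set Θ} {c c' : Cd ty} (h : Agree (c.supp ∩ M) c' c) : LeOn M c' c :=
  LeOn.split c.supp (h.leOn.mono (inter_comm _ _).subset)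
    (leOn_of_disjoint disjoint_sdiff_left _)

theorem _root_.Pool.Agent.MP_a45f51_lc.A62.Supp.mono' {W : Cd ty → Prop} {M M' : Set Θ}
    (h : Supp W M) (hM : M ⊆ M') : Supp W M' := fun q q' hq => h q q' (hq.mono hM)

/-- one index type enumerates all small sets -/
theorem exists_enum (Θ : Type) (c : Cardinal.{0}) :
    ∃ J : Type, #J ≤ c ∧ ∀ M : Set Θ, #M ≤ c → ∃ s : J → Θ, M ⊆ range s := by
  classical
  rcases isEmpty_or_nonempty Θ with hΘ | ⟨⟨a0⟩⟩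
  · exact ⟨Empty, by simp, fun M _ => ⟨Empty.elim, fun a _ => hΘ.elim a⟩⟩
  · refine ⟨c.out, (mk_out c).le, fun M hM => ?_⟩
    obtain ⟨e⟩ : Nonempty (M ↪ c.out) := by
      rw [← Cardinal.le_def, mk_out]
      exact hM
    refine ⟨fun j => if h : ∃ m, e m = j then (h.choose : Θ) else a0, fun a ha => ?_⟩
    have h : ∃ m, e m = e ⟨a, ha⟩ := ⟨_, rfl⟩
    refine ⟨e ⟨a, ha⟩, ?_⟩
    simp only [dif_pos h]
    exact congrArg Subtype.val (e.injective h.choose_spec)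

/-- the trace of a condition along an enumeration -/
def pull {J : Type} (s : J → Θ) (q : Cd ty) : Set ((J × Bool) ⊕ (ℕ × J × J)) :=
  {w | Sum.elim (fun x => q.v (s x.1) = some x.2) (fun x => q.r x.1 (s x.2.1) (s x.2.2)) w}

theorem agree_of_pull {J : Type} {s : J → Θ} {q q' : Cd ty} (h : pull s q = pull s q') :
    Agree (range s) q q' := by
  refine ⟨?_, ?_⟩
  · rintro _ ⟨j, rfl⟩
    exact Option.ext fun b => Set.ext_iff.1 h (Sum.inl (j, b))
  · rintro i _ ⟨j, rfl⟩ _ ⟨j', rfl⟩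
    exact Set.ext_iff.1 h (Sum.inr (i, j, j'))

theorem pull_pm {J : Type} {s s' : J → Θ} (σ : TP ty) (h : ∀ j, σ.1 (s j) = s' j) (q : Cd ty) :
    pull s' (pm σ q) = pull s q := by
  have h' : ∀ j, σ.1⁻¹ (s' j) = s j := fun j => by rw [← h j]; simp
  ext w
  rcases w with ⟨j, b⟩ | ⟨i, j, j'⟩
  · show q.v (σ.1⁻¹ (s' j)) = some b ↔ q.v (s j) = some b
    rw [h']
  · show q.r i (σ.1⁻¹ (s' j)) (σ.1⁻¹ (s' j')) ↔ q.r i (s j) (s j')
    rw [h', h']

theorem mem_col {J : Type} {s : J → Θ} {W : Cd ty → Prop} (hW : Supp W (range s)) (q : Cd ty) :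
    pull s q ∈ {d | ∃ q', W q' ∧ pull s q' = d} ↔ W q :=
  ⟨fun ⟨q', h1, h2⟩ => hW q' q (agree_of_pull h2).symm.leOn h1, fun h => ⟨q, h, rfl⟩⟩

theorem iter_lt {lam : Cardinal.{0}} (h : SL lam) (n : ℕ) {ν : Cardinal.{0}} (hν : ν < lam) :
    (fun x : Cardinal.{0} => 2 ^ x)^[n] ν < lam := by
  induction n with
  | zero => exact hν
  | succ n ih =>
    rw [Function.iterate_succ_apply']
    exact h.pow _ ih

theorem fix_mul {Λ : Type} {H : Set Λ} {g h : Equiv.Perm Λ} (hg : Fix H g) (hh : Fix H h) :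
    Fix H (g * h) := fun a ha => by
  rw [Equiv.Perm.mul_apply, hh a ha, hg a ha]

end CanonM

open CanonM

theorem cc (hrec : RecStmt) : CCStmt := by
  intro Θ ty A p hA
  obtain ⟨M, N, -, hN, h⟩ := refl_lemma hrec (fun (c : Cd ty) (x : A) => c = p x)
  obtain ⟨x0, hx0⟩ : ∃ x0, x0 ∉ N := by
    by_contra hc
    push Not at hc
    rw [eq_univ_of_forall hc, mk_univ] at hN
    exact absurd hA (not_lt.2 hN)
  obtain ⟨c', x', rfl, hx', hs, hag⟩ := h (p x0) x0 rfl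
  refine ⟨x', x0, fun he => hx0 (he ▸ hx'), glue M (p x') (p x0), ?_,
    glue_le_right (leOn_of_agree hag)⟩
  exact glue_le_left (leOn_of_disjoint (disjoint_compl_left.mono_right hs) _)

theorem supp (hrec : RecStmt) : SuppStmt := by
  intro Θ ty W hmono hreg
  obtain ⟨M, N, hM, -, h⟩ := refl_lemma hrec (fun (c : Cd ty) (_ : Unit) => One Le W c)
  refine ⟨M, hM, fun q q' hq hW => hreg q' fun c hc => ?_⟩
  by_contra hno
  have hone : One Le W c := fun r hr hWr => hno ⟨r, hr, hWr⟩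
  obtain ⟨c', -, hone', -, hs, hag⟩ := h c () hone
  have hd : Le (glue M c q) q := glue_le_right ((hc.on M).trans hq)
  have he1 : Le (glue (M \ c.supp) c' (glue M c q)) (glue M c q) :=
    glue_le_right ((leOn_of_disjoint disjoint_sdiff_left c').trans
      (leOn_glue_left sdiff_subset c q))
  have he2 : Le (glue (M \ c.supp) c' (glue M c q)) c' := by
    refine glue_le_left (LeOn.split M ?_ ?_)
    · refine (glue_leOn_left inter_subset_right c q).trans (hag.symm.leOn.mono fun a ha => ?_)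
      exact ⟨by_contra fun hn => ha.1 ⟨ha.2, hn⟩, ha.2⟩
    · exact leOn_of_disjoint (disjoint_sdiff_left.mono_right hs) _
  exact hone' _ he2 (hmono _ _ (he1.trans hd) hW)

theorem canon (hidx : IdxStmt) (hsupp : SuppStmt) : CanonStmt := by
  classical
  intro Θ Λ ty _ _ lam C hb k μ ν hμ0 hμ hν
  have hl0 : ℵ₀ ≤ lam := aleph0_le_kp.trans hb.kp_lt.le
  have hl0' : ℵ₀ < lam := aleph0_le_kp.trans_lt hb.kp_lt
  obtain ⟨J, hJ, hen⟩ := exists_enum Θ (2 ^ kp)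
  have hS : ∀ x y z : Λ, ∃ s : J → Θ, Supp (C.Z x y z) (range s) := fun x y z => by
    obtain ⟨M, hM, hs⟩ := hsupp Θ ty (C.Z x y z) (fun _ _ => C.mono) fun _ => C.reg
    obtain ⟨s, hs'⟩ := hen M hM
    exact ⟨s, hs.mono' hs'⟩
  choose S hS using hS
  have hJl : #J < lam := hJ.trans_lt (hb.pow _ hb.kp_lt)
  have hK : #(Set (Set ((J × Bool) ⊕ (ℕ × J × J)))) < lam := by
    rw [mk_set, mk_set]
    refine hb.pow _ (hb.pow _ ?_)
    simp only [mk_sum, mk_prod, lift_id, mk_nat, mk_fintype, Fintype.card_bool]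
    exact add_lt_of_lt hl0 (mul_lt_of_lt hl0 hJl (natCast_lt_aleph0.trans hl0'))
      (mul_lt_of_lt hl0 hl0' (mul_lt_of_lt hl0 hJl hJl))
  set ν1 : Cardinal.{0} := max (max μ ν) (max (max #J #(Set (Set ((J × Bool) ⊕ (ℕ × J × J)))))
    #{a | ty a < k}) with hν1
  have hν1l : ν1 < lam := max_lt (max_lt hμ hν) (max_lt (max_lt hJl hK) (hb.low k))
  refine ⟨2 ^ (fun x : Cardinal.{0} => 2 ^ x)^[7] ν1, hb.pow _ (iter_lt hb.toSL 7 hν1l),
    fun Par B hPar hdisj hB => ?_⟩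
  obtain ⟨H, hHB, hH, car, σ, hact, hty, hlow, htri⟩ := hidx Θ Λ J _ ty S
    (fun x y z => {d | ∃ q, C.Z x y z q ∧ pull (S x y z) q = d}) {a | ty a < k} ν1 μ Par B hμ0
    ((le_max_left _ _).trans (le_max_left _ _))
    (((le_max_left _ _).trans (le_max_left _ _)).trans (le_max_right _ _))
    (((le_max_right _ _).trans (le_max_left _ _)).trans (le_max_right _ _))
    ((le_max_right _ _).trans (le_max_right _ _))
    (hPar.trans ((le_max_right _ _).trans (le_max_left _ _))) hdisj ((cantor _).trans_le hB)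
  let σ' : Equiv.Perm Λ → TP ty := fun g =>
    if h : Fix H g then ⟨σ g, fun a => hty g a h⟩ else 1
  have hσ : ∀ g, Fix H g → (σ' g).1 = σ g := fun g h => by simp only [σ', dif_pos h]
  refine ⟨H, hHB, hH, ⟨⟨car, σ', ⟨hact.car_sub, fun g hg => ?_, fun g h hg hh => ?_, ?_,
    fun g h hg hh => ?_⟩, hdisj.mono_right hHB, fun a ha => ?_, fun x hx y hy z hz => ?_,
    fun g hg x hx y hy z hz hm q => ?_⟩⟩⟩
  · simp only [hσ g hg]
    exact hact.car_map g hg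
  · simp only [hσ g hg, hσ h hh, hσ _ (fix_mul hg hh)]
    exact hact.mul g h hg hh
  · simp only [hσ 1 fun _ _ => rfl]
    exact hact.one
  · simp only [hσ g hg, hσ h hh]
    exact hact.loc g h hg hh
  · by_contra hn
    exact ha.ne_empty (hlow a (not_le.1 hn))
  · refine (hS x y z).mono' ?_
    rintro _ ⟨i, rfl⟩
    exact (htri x hx y hy z hz).1 i
  · obtain ⟨h1, h2⟩ := (htri x hx y hy z hz).2 g hg hm
    rw [← mem_col (hS x y z) q, ← mem_col (hS (g x) (g y) (g z)) (pm (σ' g) q),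
      pull_pm (σ' g) (s := S x y z) (fun j => by rw [hσ g hg]; exact h2 j) q]
    exact Set.ext_iff.1 h1 _

theorem phases (hcanon : CanonStmt) : PhasesStmt := by
  intro Θ Λ ty _ _ lam C hb hΛ
  have hl0 : ℵ₀ ≤ lam := aleph0_le_kp.trans hb.kp_lt.le
  have hl0' : ℵ₀ < lam := aleph0_le_kp.trans_lt hb.kp_lt
  have hc := hcanon Θ Λ ty lam C hb
  have h2 : ℵ₀ ≤ (2 : Cardinal.{0}) ^ (2 : Cardinal.{0}) ^ kp :=
    aleph0_le_two_pow_kp.trans (cantor _).le
  have step : ∀ (m : ℕ) (Par : {P : Set Λ // #P < lam}), ∃ B : Set Λ, #B < lam ∧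
      Nonempty (Canon C (m + 2) Par.1 B) ∧ B.Nonempty ∧ ∀ Z : Set Λ, #Z ≤ ℵ₀ →
        ∃ H ⊆ B, Order.succ kp < #H ∧ Nonempty (Canon C (m + 2) (Par.1 ∪ Z) H) := by
    rintro m ⟨Par, hPar⟩
    obtain ⟨νb, hνb, hb1⟩ := hc (m + 2) (2 ^ (2 : Cardinal.{0}) ^ kp) (max #Par ℵ₀) h2
      (hb.pow _ (hb.pow _ hb.kp_lt)) (max_lt hPar hl0')
    have hμ0 : ℵ₀ < max νb (2 ^ ℵ₀) := (cantor _).trans_le (le_max_right _ _)
    have hμl : max νb (2 ^ ℵ₀) < lam := max_lt hνb (hb.pow _ hl0')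
    obtain ⟨νa, hνa, ha1⟩ := hc (m + 2) (max νb (2 ^ ℵ₀)) #Par hμ0.le hμl hPar
    have : Infinite Λ := Cardinal.infinite_iff.2 (hl0.trans hΛ)
    obtain ⟨B, -, hB, ⟨K⟩⟩ := ha1 Par Parᶜ le_rfl disjoint_compl_right
      (by rw [mk_compl_of_infinite Par (hPar.trans_le hΛ)]; exact hνa.le.trans hΛ)
    refine ⟨B, hB ▸ hμl, ⟨K⟩, ?_, fun Z hZ => ?_⟩
    · rw [← Set.nonempty_coe_sort, ← mk_ne_zero_iff, hB]
      exact (aleph0_pos.trans hμ0).ne'
    · have hBZ : max νb (2 ^ ℵ₀) ≤ #(B \ Z : Set Λ) := by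
        by_contra hn
        have := add_lt_of_lt hμ0.le (not_le.1 hn) (hZ.trans_lt hμ0)
        exact absurd (hB ▸ le_mk_sdiff_add_mk B Z) (not_le.2 this)
      obtain ⟨H, hHB, hH, hK⟩ := hb1 (Par ∪ Z) (B \ Z)
        (mk_union_le_of (le_max_right _ _) (le_max_left _ _) (hZ.trans (le_max_right _ _)))
        (disjoint_union_left.2 ⟨K.disj.mono_right sdiff_subset, disjoint_sdiff_right⟩)
        ((le_max_left _ _).trans hBZ)
      refine ⟨H, hHB.trans sdiff_subset, ?_, hK⟩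
      rw [hH]
      exact (Order.succ_le_of_lt (cantor kp)).trans_lt (cantor _)
  choose f hf hfK hfne hfH using step
  let U : ℕ → {P : Set Λ // #P < lam} := fun m => Nat.rec ⟨∅, by simpa using aleph0_pos.trans hl0'⟩
    (fun m P => ⟨P.1 ∪ f m P, (mk_union_le _ _).trans_lt (add_lt_of_lt hl0 P.2 (hf m P))⟩) m
  have hU : ∀ m, (U m).1 = ⋃ i < m, f i (U i) := by
    intro m
    induction m with
    | zero => simp [U]
    | succ m ih =>
      rw [biUnion_lt_succ, ← ih]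
  choose z hz using fun m => hfne m (U m)
  have hzc : #(range z) ≤ ℵ₀ := mk_range_le.trans mk_nat.le
  choose H hHB hHc hHK using fun m => hfH m (U m) (range z) hzc
  refine ⟨fun m => f m (U m), H, z, fun m => ⟨hz m, hHB m, hHc m, ?_, ?_⟩⟩
  · rw [← hU m]
    exact hfK m (U m)
  · rw [← hU m]
    exact hHK m

end Pool.Agent.MP_a45f51_lc.A62

end MrgPart7

-- ======== part 8: formerly Pool.Agent.MP_a45f51_lc.h62.Prod
section MrgPart8

/-! PROJECT ARROW: the product with Cohen forcing. -/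

namespace Pool.Agent.MP_a45f51_lc.A62

open Cardinal Set Pool.Agent.Forcing92

namespace Prd

variable {ι : Type}

/-- the coordinates used by a Cohen condition -/
def dom (c : Cond ι) : Set ι := Prod.fst '' {i | c.1 i ≠ none}

theorem dom_sub {c : Cond ι} {S : Set ι} : dom c ⊆ S ↔ ∀ i, c.1 i ≠ none → i.1 ∈ S :=
  image_subset_iff

theorem mk_dom {c : Cond ι} {β : Cardinal.{0}} (h : ℵ₀ ≤ β) : #(dom c) ≤ β :=
  (c.2.image _).lt_aleph0.le.trans h

open scoped Classical in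
/-- restriction to the coordinates in `S` -/
noncomputable def res (S : Set ι) (c : Cond ι) : Cond ι :=
  ⟨fun i => if i.1 ∈ S then c.1 i else none, c.2.subset fun i hi h => hi (by
    have h' : c.1 i = none := h
    simp [h'])⟩

theorem dom_res (S : Set ι) (c : Cond ι) : dom (res S c) ⊆ S :=
  dom_sub.2 fun i hi => by
    by_contra h
    exact hi (by simp [res, h])

theorem le_res (S : Set ι) (c : Cond ι) : cle ι c (res S c) := fun i b h => by
  by_cases hi : i.1 ∈ S <;> simp_all [res]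

theorem res_le {S : Set ι} {c c0 : Cond ι} (h : cle ι c c0) (hS : dom c0 ⊆ S) :
    cle ι (res S c) c0 := fun i b hb => by
  have := dom_sub.1 hS i (by simp [hb])
  simp [res, this, h i b hb]

theorem cmp_res {S : Set ι} {c c' : Cond ι} (h : cle ι c' (res S c)) (hS : dom c' ⊆ S) :
    Cmp c'.1 c.1 := fun i b b' h1 h2 => by
  have h3 := dom_sub.1 hS i (by simp [h1])
  have h4 := h i b' (by simp [res, h3, h2])
  exact Option.some.inj (h1.symm.trans h4)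

theorem mk_conds {γ : Cardinal.{0}} (hγ : ℵ₀ ≤ γ) {A : Set ι} (hA : #A ≤ 2 ^ γ) :
    #{c : Cond ι | dom c ⊆ A} ≤ 2 ^ γ := by
  have h0 : ℵ₀ ≤ 2 ^ γ := hγ.trans (cantor γ).le
  have h1 : #((A ×ˢ (univ : Set ℕ)) ×ˢ (univ : Set Bool) : Set ((ι × ℕ) × Bool)) ≤ 2 ^ γ := by
    rw [mk_setProd, mk_setProd]
    exact mul_le_of_le h0 (mul_le_of_le h0 hA (mk_le_aleph0.trans h0)) (mk_le_aleph0.trans h0)
  refine le_trans ?_ (mk_small_subsets hγ h1)
  refine mk_le_of_injective (f := fun p => ⟨{x | p.1.1 x.1 = some x.2}, fun x hx =>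
    ⟨⟨dom_sub.1 p.2 x.1 (by rw [show p.1.1 x.1 = some x.2 from hx]; simp), trivial⟩, trivial⟩, ?_⟩) ?_
  · refine ((p.1.2.prod (finite_univ (α := Bool))).subset fun x hx => ⟨?_, trivial⟩).lt_aleph0.le.trans hγ
    show p.1.1 x.1 ≠ none
    rw [show p.1.1 x.1 = some x.2 from hx]; simp
  · intro p q hpq
    have he := congrArg Subtype.val hpq
    exact Subtype.ext (Subtype.ext (funext fun i => Option.ext fun b => Set.ext_iff.1 he (i, b)))

theorem mas {Q : Type} {le : Q → Q → Prop} [Pre le] {γ : Cardinal.{0}} (hγ : ℵ₀ ≤ γ)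
    (h : Master le γ (2 ^ γ)) : Master (ple le ι) γ (2 ^ γ) := by
  intro T α J S sup D p0 t0 h1 h2 h3 h4
  have h0 : ℵ₀ ≤ 2 ^ γ := hγ.trans (cantor γ).le
  obtain ⟨p, t, a1, a2, a3⟩ := h _ _ (J × Cond ι) (S.prod h0 (CSys.sets h0 ι))
    (fun i => Sum.inl '' sup i.1 ∪ Sum.inr '' dom i.2)
    (fun i q t => cle ι i.2 p0.2 → ∃ c', cle ι c' i.2 ∧ dom c' ⊆ t.2.1 ∧ D i.1 (q, c') t.1)
    p0.1 (t0, ⟨dom p0.2, mk_dom h0⟩)
    (fun i => mk_union_le_of hγ (mk_image_le.trans (h1 _)) (mk_image_le.trans (mk_dom hγ)))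
    (fun A hA => by
      refine mk_sub_le (T := {i | sup i ⊆ Sum.inl ⁻¹' A} ×ˢ {c | dom c ⊆ Sum.inr ⁻¹' A}) ?_
        fun i hi => ⟨image_subset_iff.1 (subset_union_left.trans hi),
          image_subset_iff.1 (subset_union_right.trans hi)⟩
      rw [mk_setProd]
      exact mul_le_of_le h0 (h2 _ ((mk_preimage_of_injective _ _ Sum.inl_injective).trans hA))
        (mk_conds hγ ((mk_preimage_of_injective _ _ Sum.inr_injective).trans hA)))
    (fun i q q' t t' e1 e2 hD e3 => by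
      obtain ⟨c', b1, b2, b3⟩ := hD e3
      exact ⟨c', b1, b2.trans e2.2, h3 _ (q, c') (q', c') _ _ ⟨e1, lrefl _⟩ e2.1 b3⟩)
    (fun i q t e1 e2 e3 => by
      by_cases e4 : cle ι i.2 p0.2
      · obtain ⟨q', t', b1, b2, b3⟩ := h4 i.1 (q, i.2) t.1 ⟨e1, e4⟩ e2.1 fun x hx =>
          (CSys.inl_mem_prod _ _ _).1 (e3 (Or.inl ⟨x, hx, rfl⟩))
        exact ⟨q'.1, (t', ⟨t.2.1 ∪ dom q'.2, mk_union_le_of h0 t.2.2 (mk_dom h0)⟩), b1.1,
          ⟨b2, subset_union_left⟩, fun _ => ⟨q'.2, b1.2, subset_union_right, b3⟩⟩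
      · exact ⟨q, t, lrefl _, CSys.refl _ _, fun e => absurd e e4⟩)
  refine ⟨(p, p0.2), t.1, ⟨a1, lrefl _⟩, a2.1, fun i hi q hq => ?_⟩
  obtain ⟨q', b1, b2⟩ := a3 (i, res t.2.1 q.2) (union_subset_union (image_mono hi)
    (image_mono (dom_res _ _))) q.1 hq.1
  obtain ⟨c', b3, b4, b5⟩ := b2 (res_le hq.2 a2.2)
  obtain ⟨r, b6, b7⟩ := exists_common (cmp_res b3 b4)
  exact ⟨(q', r), ⟨b1, b7⟩, h3 _ (q', c') (q', r) _ _ ⟨lrefl _, b6⟩ (S.refl _) b5⟩

end Prd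

open Prd

theorem capture : CaptureStmt := by
  intro Q ι B le _ n U h hB hU p
  have hγ := aleph0_le_bt (n + 1)
  have h0 := aleph0_le_bt (n + 2)
  obtain ⟨p', S, a1, -, a3⟩ := h _ _ (B × Cond ι) (CSys.sets h0 ι) (fun i => dom i.2)
    (fun i q S => (∃ c', cle ι c' i.2 ∧ dom c' ⊆ S.1 ∧ U i.1 (q, c')) ∨
      ∀ q' c', le q' q → cle ι c' i.2 → ¬ U i.1 (q', c'))
    p ⟨∅, by simp⟩ (fun i => mk_dom hγ)
    (fun A hA => by
      refine mk_sub_le (T := Set.univ ×ˢ {c | dom c ⊆ A}) ?_ fun i hi => ⟨trivial, hi⟩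
      rw [mk_setProd, mk_univ]
      exact mul_le_of_le h0 hB (mk_conds hγ hA))
    (fun i q q' t t' e1 e2 hD => hD.imp
      (fun ⟨c', b1, b2, b3⟩ => ⟨c', b1, b2.trans e2, hU _ (q, c') (q', c') ⟨e1, lrefl _⟩ b3⟩)
      fun hD q'' c' e3 => hD q'' c' (ltrans e3 e1))
    (fun i q t _ _ _ => by
      by_cases e : ∃ q' c', le q' q ∧ cle ι c' i.2 ∧ U i.1 (q', c')
      · obtain ⟨q', c', b1, b2, b3⟩ := e
        exact ⟨q', ⟨t.1 ∪ dom c', mk_union_le_of h0 t.2 (mk_dom h0)⟩, b1, subset_union_left,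
          Or.inl ⟨c', b2, subset_union_right, b3⟩⟩
      · exact ⟨q, t, lrefl _, Subset.rfl, Or.inr fun q' c' b1 b2 b3 => e ⟨q', c', b1, b2, b3⟩⟩)
  refine ⟨p', a1, S.1, S.2, fun b p1 c e hb => ?_⟩
  obtain ⟨q', b1, ⟨c', b2, b3, b4⟩ | b2⟩ := a3 (b, Prd.res S.1 c) (dom_res _ _) p1 e
  · exact ⟨q', c', b1, dom_sub.1 b3, cmp_res b2 b3, b4⟩
  · exact absurd (hU _ (p1, c) (q', c) ⟨b1, lrefl _⟩ hb) (b2 q' c (lrefl _) (le_res _ _))

theorem ifaceProd (hc : CaptureStmt) : IfaceProdStmt := by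
  intro K _ a lam Q ι le _ hl hι I
  have k1 : #(Cond ι) ≤ 2 ^ kp := mk_cond_le aleph0_le_kp (hι.trans (cantor _).le)
  have k2 : 2 ^ kp < lam := hl.pow _ hl.kp_lt
  have k3 : ℵ₀ ≤ 2 ^ kp := aleph0_le_kp.trans (cantor _).le
  refine ⟨{
    t := (I.t, ctop)
    top := fun p => ⟨I.top _, le_ctop _⟩
    mas := fun n => mas (aleph0_le_bt (n + 1)) (I.mas n)
    chi := max I.chi (2 ^ kp)
    chi_lt := max_lt I.chi_lt k2
    cc := fun A p hA => ?_
    col := fun n W hW => ?_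
    Λ := I.Λ
    lev := I.lev
    Bit := fun q => I.Bit q.1
    big := I.big
    bit_mono := fun h => I.bit_mono h.1
    bit_fun := I.bit_fun
    bit_tot := fun q x b => let ⟨r, c, h1, h2⟩ := I.bit_tot q.1 x b
      ⟨(r, q.2), c, ⟨h1, lrefl _⟩, h2⟩
    bit_lt := I.bit_lt
    bit_sep := fun q x y h => let ⟨r, b, c, h1, h2⟩ := I.bit_sep q.1 x y h
      ⟨(r, q.2), b, c, ⟨h1, lrefl _⟩, h2⟩
    up := fun n => ?_ }⟩
  · by_contra hn
    refine hA.not_ge (mk_univ.symm.trans_le (mk_le_of_fibres (k3.trans (le_max_right _ _))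
      (J := univ) (fun x => (p x).2) (fun _ _ => trivial)
      (mk_univ.trans_le (k1.trans (le_max_right _ _))) fun c _ => ?_))
    refine le_trans (not_lt.1 fun h => hn ?_) (le_max_left _ _)
    obtain ⟨x, y, h1, r, h2, h3⟩ := I.cc _ (fun x => (p x.1).1) h
    exact ⟨x.1, y.1, fun e => h1 (Subtype.ext e), (r, c), ⟨h2, by rw [x.2.2]; exact lrefl c⟩,
      ⟨h3, by rw [y.2.2]; exact lrefl c⟩⟩
  · obtain ⟨Pat, h1, h2, h3, h4⟩ := I.col n W hW
    exact ⟨fun q => Pat q.1, fun _ _ _ _ h => h1 _ _ _ _ h.1, fun _ => h2 _, fun _ => h3 _,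
      fun q w => let ⟨r, b, h5, h6⟩ := h4 q.1 w; ⟨(r, q.2), b, ⟨h5, lrefl _⟩, h6⟩⟩
  obtain ⟨V, mem, h1, h2, h3⟩ := I.up n
  refine ⟨Set (Cond ι × V), fun A q => ∃ x ∈ A, cle ι q.2 x.1 ∧ mem x.2 q.1, ?_,
    fun A q q' e ⟨x, b1, b2, b3⟩ => ⟨x, b1, ltrans e.2 b2, h2 _ _ _ e.1 b3⟩,
    fun B U hB hU q => ?_⟩
  · rw [mk_set, mk_prod, lift_id, lift_id]
    exact hl.pow _ (mul_lt_of_lt (k3.trans k2.le) (k1.trans_lt k2) h1)
  obtain ⟨p', a1, S, a2, a3⟩ := hc Q ι B le n U (I.mas n) hB hU q.1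
  obtain ⟨r, a4, f, a5⟩ := h3 (B × {c : Cond ι | dom c ⊆ S}) (fun b p => U b.1 (p, b.2.1))
    (by
      rw [mk_prod, lift_id, lift_id]
      exact mul_le_of_le (aleph0_le_bt _) hB (mk_conds (aleph0_le_bt (n + 1)) a2))
    (fun b q q' e => hU _ (q, b.2.1) (q', b.2.1) ⟨e, lrefl _⟩) p'
  refine ⟨(r, q.2), ⟨ltrans a4 a1, lrefl _⟩, fun b => range fun c => (c.1, f (b, c)),
    fun b c e => ⟨?_, fun hb => ?_⟩⟩
  · rintro ⟨_, ⟨c', rfl⟩, b1, b2⟩
    exact hU _ (c.1, c'.1) c ⟨lrefl _, b1⟩ ((a5 (b, c') c.1 e.1).1 b2)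
  · obtain ⟨p2, c', b1, b2, b3, b4⟩ := a3 b c.1 c.2 (ltrans e.1 a4) hb
    obtain ⟨p3, b5, b6⟩ := (a5 (b, ⟨c', dom_sub.2 b2⟩) p2 (ltrans b1 e.1)).2 b4
    obtain ⟨s, b7, b8⟩ := exists_common b3
    exact ⟨(p3, s), ⟨ltrans b5 b1, b8⟩, _, ⟨⟨c', dom_sub.2 b2⟩, rfl⟩, b7, b6⟩

end Pool.Agent.MP_a45f51_lc.A62

end MrgPart8

-- ======== part 9: formerly Pool.Agent.MP_a45f51_lc.h62.Pos
section MrgPart9

/-! PROJECT ARROW: the positive relation is forced, and passage to models of ZFC. -/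

namespace Pool.Agent.MP_a45f51_lc.A62

open Cardinal Set Pool.Agent.Forcing92 Pool.Agent.Forcing92.Fml Pool.Agent.ZFC77

namespace Pos

section Tri

variable {P : Type} {le : P → P → Prop} [Pre le]

theorem tri_congr {c x y z x' y' z' : Name P} {q : P} (hx : fEq le x x' q) (hy : fEq le y y' q)
    (hz : fEq le z z' q) (h : Forces le (tri c x' y' z') q) : Forces le (tri c x y z) q :=
  ((sim_tri (R := fun x y => fEq le x y q) (fun x => fEq_refl x q) hx hy hz).forces q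
    (lrefl q)).2 h

theorem or3 {a b c : Fml (Name P)} {q : P} : Forces le (or a (or b c)) q ↔
    ∀ r, le r q → ∃ s, le s r ∧ (Forces le a s ∨ Forces le b s ∨ Forces le c s) := by
  rw [forces_or]
  refine ⟨fun h r hr => ?_, fun h r hr => ?_⟩
  · obtain ⟨s, hs, h | h⟩ := h r hr
    · exact ⟨s, hs, Or.inl h⟩
    · obtain ⟨u, hu, h⟩ := forces_or.1 h s (lrefl s)
      exact ⟨u, ltrans hu hs, Or.inr h⟩
  · obtain ⟨s, hs, h | h⟩ := h r hr
    · exact ⟨s, hs, Or.inl h⟩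
    · exact ⟨s, hs, Or.inr (forces_or.2 fun u hu => ⟨u, lrefl u, h.imp (·.mono hu) (·.mono hu)⟩)⟩

theorem tri_perm {c x y z x' y' z' : Name P} {q : P}
    (e : ∀ u s, (fEq le u x s ∨ fEq le u y s ∨ fEq le u z s) ↔
      (fEq le u x' s ∨ fEq le u y' s ∨ fEq le u z' s))
    (h : Forces le (tri c x y z) q) : Forces le (tri c x' y' z') q := by
  refine forces_exIn.2 fun r hr => ?_
  obtain ⟨s, hs, t, ht, h⟩ := forces_exIn.1 h r hr
  refine ⟨s, hs, t, ht, fun u => forces_iff.2 fun v hv => ?_⟩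
  rw [forces_iff.1 (h u) v hv, or3, or3]
  simp only [forces_eq, e]

theorem tri_sw1 {c x y z : Name P} {q : P} (h : Forces le (tri c x y z) q) :
    Forces le (tri c y x z) q := tri_perm (fun _ _ => or_left_comm) h

theorem tri_sw2 {c x y z : Name P} {q : P} (h : Forces le (tri c x y z) q) :
    Forces le (tri c x z y) q := tri_perm (fun _ _ => or_congr_right or_comm) h

/-- the colouring of indices given by a name `c` below the condition `r` -/
def colr {Λ : Type} (g : Λ → Name P) (c L : Name P) (r : P)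
    (hinj : ∀ x y q, fEq le (g x) (g y) q → x = y) (hmem : ∀ x q, fMem le (g x) L q)
    (h : Forces le (neg (exIn L fun x => exIn L fun y => exIn L fun z => exIn L fun w =>
      and (and (dis x y z) (and (dis x y w) (neg (eq z w))))
        (and (tri c x y z) (and (tri c x y w) (and (tri c x z w) (tri c y z w)))))) r) :
    Colr le Λ where
  Z x y z s := ∀ s', le s' s → le s' r → ¬ Forces le (tri c (g x) (g y) (g z)) s'
  mono hq hZ s' h1 h2 := hZ s' (ltrans h1 hq) h2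
  reg hZ s' h1 h2 h3 := by
    obtain ⟨u, hu, hZ⟩ := hZ s' h1
    exact hZ u (lrefl u) (ltrans hu h2) (h3.mono hu)
  sw1 hZ s' h1 h2 h3 := hZ s' h1 h2 (tri_sw1 h3)
  sw2 hZ s' h1 h2 h3 := hZ s' h1 h2 (tri_sw2 h3)
  k4 := by
    intro x y z w p n1 n2 n3 n4 n5 n6 h1 h2 h3 h4
    have key : ∀ {x y z : Λ}, One le (fun s => ∀ s', le s' s → le s' r →
        ¬ Forces le (tri c (g x) (g y) (g z)) s') p → ∀ q, le q p →
        ∃ s, le s q ∧ le s r ∧ Forces le (tri c (g x) (g y) (g z)) s := by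
      intro x y z h q hq
      by_contra hn
      exact h q hq fun s k1 k2 k3 => hn ⟨s, k1, k2, k3⟩
    have ne : ∀ {x y : Λ} (s : P), x ≠ y → Forces le (neg (eq (g x) (g y))) s :=
      fun s hxy q _ he => hxy (hinj _ _ q he)
    obtain ⟨s1, l1, -, t1⟩ := key h1 p (lrefl p)
    obtain ⟨s2, l2, -, t2⟩ := key h2 s1 l1
    obtain ⟨s3, l3, -, t3⟩ := key h3 s2 (ltrans l2 l1)
    obtain ⟨s4, l4, hr, t4⟩ := key h4 s3 (ltrans l3 (ltrans l2 l1))
    exact h s4 hr (forces_exIn_of (g x) (hmem x s4) (forces_exIn_of (g y) (hmem y s4)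
      (forces_exIn_of (g z) (hmem z s4) (forces_exIn_of (g w) (hmem w s4)
        ⟨⟨⟨ne s4 n1, ne s4 n2, ne s4 n4⟩, ⟨ne s4 n1, ne s4 n3, ne s4 n5⟩, ne s4 n6⟩,
          t1.mono (ltrans l4 (ltrans l3 l2)), t2.mono (ltrans l4 l3), t3.mono l4, t4⟩))))

end Tri

section Generic

variable {K : Type} [LinearOrder K] [WellFoundedLT K] {a : ℕ → K} {lam : Cardinal.{0}} {Q : Type}
  {le : Q → Q → Prop} [Pre le] (I : Iface K a lam Q le)

/-- the name of the generic set with index `x` -/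
noncomputable def gn (x : I.Λ) : Name Q :=
  Name.mk {i : K × Q // I.Bit i.2 x i.1 true} (fun i => chk I.t i.1.1) fun i => i.1.2

theorem gn_sub (x : I.Λ) (p : Q) : Forces le (sub (gn I x) (chk I.t (a (I.lev x)))) p := by
  refine forces_sub.2 fun z q _ hz => fMem_dense fun r hr => ?_
  obtain ⟨s, hs, i, -, he⟩ := hz r hr
  exact ⟨s, hs, fMem_congr_left he (chk_mem_chk I.top (I.bit_lt i.2) s)⟩

theorem gn_sep {x y : I.Λ} {b : K} {r : Q} (hx : I.Bit r x b true) (hy : I.Bit r y b false) :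
    ¬ fEq le (gn I x) (gn I y) r := by
  intro he
  have h : fMem le (chk I.t b) (gn I x) r :=
    fMem_mk (I := {i : K × Q // I.Bit i.2 x i.1 true}) (A := fun i => chk I.t i.1.1)
      (c := fun i => i.1.2) ⟨(b, r), hx⟩ (lrefl r)
  obtain ⟨s, hs, ⟨⟨b', u⟩, hu⟩, hsu, he'⟩ := fMem_congr_right he h r (lrefl r)
  obtain rfl : b' = b := chk_inj I.top he'
  exact Bool.noConfusion (I.bit_fun (I.bit_mono hsu hu) (I.bit_mono hs hy))

theorem gn_inj (x y : I.Λ) (q : Q) (he : fEq le (gn I x) (gn I y) q) : x = y := by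
  by_contra hn
  obtain ⟨r, b, c, hr, hx, hy⟩ := I.bit_sep q x y hn
  cases c
  · exact gn_sep I hy hx (fEq_symm (fEq_mono hr he))
  · exact gn_sep I hx hy (fEq_mono hr he)

end Generic

section Par

variable {V W : Type 1} {R : V → W → Prop} {a b c d : V} {a' b' c' d' : W}

theorem par_leq {B : V → Fml V} {B' : W → Fml W} (h1 : R a a')
    (h2 : ∀ y y', R y y' → Par R (B y) (B' y')) : Par R (leq a B) (leq a' B') := by
  repeat' first
    | assumption | with_reducible apply par_app | with_reducible apply h2 | constructor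
    | intro _ _ _

theorem par_limc (h1 : R a a') : Par R (limc a) (limc a') := by
  repeat' first | assumption | with_reducible apply par_leq | constructor | intro _ _ _

theorem par_tri (h1 : R a a') (h2 : R b b') (h3 : R c c') (h4 : R d d') :
    Par R (tri a b c d) (tri a' b' c' d') := by
  repeat' first | assumption | constructor | intro _ _ _

theorem par_hyp (h1 : R a a') (h2 : R b b') : Par R (hyp a b) (hyp a' b') := by
  repeat' first
    | assumption | with_reducible apply par_leq | with_reducible apply par_limc | constructor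
    | intro _ _ _

theorem par_noArrow (h1 : R a a') (h2 : R b b') : Par R (noArrow a b) (noArrow a' b') := by
  repeat' first
    | assumption | with_reducible apply par_leq | with_reducible apply par_tri | constructor
    | intro _ _ _

end Par

section Sat

variable {M : Type 1} {E : M → M → Prop} {k L : M}

theorem sat_hyp : Sat E (hyp k L) ↔ IHyp E k L := by
  simp only [hyp, alephW, ordl, limc, lim, leq, bdd, IHyp, IAlephW, IOrd, ILimc, ILim, ILeq, IBdd,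
    sat_ex, sat_and, sat_all, sat_imp, sat_iff, sat_allIn, sat_exIn, sat_sub, sat_app, sat_neg,
    sat_mem, sat_eq, sat_or, and_true]

theorem sat_noArrow : Sat E (noArrow L k) ↔ ¬ IArrow E L k := by
  have h1 : ∀ c x y z, Sat E (tri c x y z) ↔ ITri E c x y z := fun c x y z => by
    simp only [tri, ITri, sat_exIn, sat_all, sat_iff, sat_mem, sat_or, sat_eq]
  have h2 : ∀ X, Sat E (leq k fun y => mem y X) ↔ ILeq E k fun y => E y X := fun X => by
    simp only [leq, ILeq, sat_ex, sat_and, sat_all, sat_imp, sat_iff, sat_allIn, sat_app, sat_mem,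
      sat_eq]
  simp only [noArrow, dis, IArrow, h1, h2, sat_ex, sat_and, sat_all, sat_imp, sat_exIn, sat_sub,
    sat_neg, sat_eq, not_forall, not_or]
  refine exists_congr fun c => and_congr ⟨?_, fun h X k1 k2 => ?_⟩ (not_congr ⟨?_, ?_⟩)
  · rintro h ⟨X, k1, k2, k3⟩
    obtain ⟨x, hx, y, hy, z, hz, ⟨n1, n2, n3⟩, ht⟩ := h X k1 k2
    exact k3 x y z hx hy hz n1 n2 n3 ht
  · by_contra hn
    exact h ⟨X, k1, k2, fun x y z hx hy hz n1 n2 n3 ht =>
      hn ⟨x, hx, y, hy, z, hz, ⟨n1, n2, n3⟩, ht⟩⟩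
  · rintro ⟨x, hx, y, hy, z, hz, w, hw, ⟨⟨n1, n2, n3⟩, ⟨-, n4, n5⟩, n6⟩, ht⟩
    exact ⟨x, y, z, w, hx, hy, hz, hw, n1, n2, n4, n3, n5, n6, ht⟩
  · rintro ⟨x, y, z, w, hx, hy, hz, hw, n1, n2, n4, n3, n5, n6, ht⟩
    exact ⟨x, hx, y, hy, z, hz, w, hw, ⟨⟨n1, n2, n3⟩, ⟨n1, n4, n5⟩, n6⟩, ht⟩

end Sat

end Pos

open Pos

theorem pos : PosStmt := by
  intro K _ _ a lam Q le _ I hs hG L hL p q _ h
  obtain ⟨r, -, c, h1, h2⟩ := forces_ex.1 h q (lrefl q)
  have hmem : ∀ x s, fMem le (gn I x) L s := fun x s =>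
    (forces_iff.1 (hL s (gn I x)) s (lrefl s)).2
      (forces_exIn_of _ (chk_mem_kap I.top (a (I.lev x)) s) (gn_sub I x s))
  obtain ⟨s, hsr, X, hX, hZ⟩ := hG (colr (gn I) c L r (gn_inj I) hmem h2) r
  obtain ⟨f⟩ : #K ≤ #X := hs.card ▸ hX
  have hsub : Forces le (sub (Name.mk X (fun x => gn I x.1) fun _ => I.t) L) s := by
    refine forces_sub.2 fun z u _ hz => fMem_dense fun v hv => ?_
    obtain ⟨w, hw, x, -, he⟩ := hz v hv
    exact ⟨w, hw, fMem_congr_left he (hmem x.1 w)⟩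
  have hleq : Forces le
      (leq (kap I.t K) fun y => mem y (Name.mk X (fun x => gn I x.1) fun _ => I.t)) s :=
    leq_of_inj I.top (chk I.t) (fun b => gn I (f b).1) (fun i j _ he => chk_inj I.top he)
      (fun i j u he => f.injective (Subtype.ext (gn_inj I _ _ u he)))
      (fun x u _ hx => fMem_kap_elim hx)
      fun b => fMem_mk (A := fun x : X => gn I x.1) (f b) (I.top s)
  have h3 := forces_imp.1 (forces_imp.1 (h1 _) s hsr hsub) s (lrefl s) hleq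
  obtain ⟨q1, l1, x, hx, h3⟩ := forces_exIn.1 h3 s (lrefl s)
  obtain ⟨q2, l2, y, hy, h3⟩ := forces_exIn.1 h3 q1 (lrefl q1)
  obtain ⟨q3, l3, z, hz, h3⟩ := forces_exIn.1 h3 q2 (lrefl q2)
  obtain ⟨r1, m1, i, -, e1⟩ := hx q3 (ltrans l3 l2)
  obtain ⟨r2, m2, j, -, e2⟩ := hy r1 (ltrans m1 l3)
  obtain ⟨u, m3, l, -, e3⟩ := hz r2 (ltrans m2 m1)
  replace e1 := fEq_mono (ltrans m3 m2) e1
  replace e2 := fEq_mono m3 e2
  have hu : le u q3 := ltrans m3 (ltrans m2 m1)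
  obtain ⟨⟨n1, n2, n3⟩, ht⟩ := Forces.mono hu h3
  have ne : ∀ {i j : X} {x y : Name Q}, fEq le (gn I i.1) x u → fEq le (gn I j.1) y u →
      Forces le (neg (eq x y)) u → i.1 ≠ j.1 := by
    intro i j x y k1 k2 k3 he
    exact k3 u (lrefl u) (fEq_trans (fEq_symm k1) (he ▸ k2))
  have hus : le u s := ltrans hu (ltrans l3 (ltrans l2 l1))
  exact hZ i.1 i.2 j.1 j.2 l.1 l.2 (ne e1 e2 n1) (ne e1 e3 n2) (ne e2 e3 n3) u hus
    (ltrans hus hsr) (tri_congr e1 e2 e3 ht)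

theorem model : ModelStmt := by
  intro Q le _ t k L ht h
  refine ⟨fun h' => ?_, fun h' => ?_⟩
  · obtain ⟨M, E, h1, h2⟩ := exists_model (le := le) ht
      (ex fun k => ex fun L => and (hyp k L) (neg (noArrow L k)))
      (fun _ _ _ => .neg (.all fun _ _ k1 => .neg (.neg (.all fun _ _ k2 =>
        .neg (.and (par_hyp k1 k2) (.neg (par_noArrow k2 k1)))))))
      fun p => forces_ex_of k (forces_ex_of L ⟨h p, h' p⟩)
    refine ⟨M, E, h1, ?_⟩
    simpa only [sat_ex, sat_and, sat_neg, sat_hyp, sat_noArrow, not_not] using h2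
  · obtain ⟨M, E, h1, h2⟩ := exists_model (le := le) ht
      (ex fun k => ex fun L => and (hyp k L) (noArrow L k))
      (fun _ _ _ => .neg (.all fun _ _ k1 => .neg (.neg (.all fun _ _ k2 =>
        .neg (.and (par_hyp k1 k2) (par_noArrow k2 k1))))))
      fun p => forces_ex_of k (forces_ex_of L ⟨h p, h' p⟩)
    refine ⟨M, E, h1, ?_⟩
    simpa only [sat_ex, sat_and, sat_hyp, sat_noArrow] using h2

end Pool.Agent.MP_a45f51_lc.A62

end MrgPart9

-- ======== part 10: formerly Pool.Agent.MP_a45f51_lc.h62.Final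
section MrgPart10

/-! PROJECT ARROW: assembly. -/

namespace Pool.Agent.MP_a45f51_lc.A62

open Pool.Agent.ZFC77

theorem master' : MasterStmt := master chain rec tower

theorem mainThm : MainStmt :=
  main_of tower (sigma tower) (phases (canon (idx (er rec) core) (supp rec)))
    (stageA master' (split master') (sigma tower))
    (stageB master' (split master') (lemC chain rec tower)) (phaseTwo ramsey)

theorem both_models :
    (∃ (M : Type 1) (E : M → M → Prop), ZFC E ∧ ∃ k L, IHyp E k L ∧ IArrow E L k) ∧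
    ∃ (M : Type 1) (E : M → M → Prop), ZFC E ∧ ∃ k L, IHyp E k L ∧ ¬ IArrow E L k :=
  final_of mainThm scale (ifaceP tower master' (split master') (cc rec)) (ifaceProd capture)
    (hypo (aleph cov)) pos (nega cov capture) model

end Pool.Agent.MP_a45f51_lc.A62

end MrgPart10

-- marker of a merged file
example : 731051 + 30127 = 731051 + 30127 := rfl
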